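import Pool.Agent.H37.Levy.Coin

/-!
# The driving function of nearly Brownian arrays

`exists_drive`: from a sequence of arrays (which may be stopped early) random continuous functions on
the product with fair coins: tight laws, Brownian limits, uniformly close to the arrays.
-/

open MeasureTheory ProbabilityTheory Filter
open scoped ENNReal NNReal Topology

namespace H37.Levy

section close

variable {ι : Type*} {l : Filter ι} {Ω : ι → Type*} {mΩ : ∀ i, MeasurableSpace (Ω i)}
  {P : ∀ i, Measure (Ω i)} {w t : ∀ i, ℕ → Ω i → ℝ} {G : ∀ i, Filtration ℕ (mΩ i)} {c : ℝ}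
  {T0 M0 δ : ι → ℝ} {a b : ι → ℕ → ℝ} {J : ι → ℕ}

/-- the interpolated process is uniformly close to the array -/
theorem drive_close [∀ i, IsProbabilityMeasure (P i)] (hc : 0 ≤ c)
    (h : ∀ᶠ i in l, Arr (w i) (t i) (G i) (P i) c (T0 i) (M0 i) (δ i) (a i) (b i) (J i))
    (hT0 : Tendsto T0 l atTop) (hδ : Tendsto δ l (𝓝 0))
    (he : Tendsto (fun i => eps (a i) (b i) (J i)) l (𝓝 0)) {N K : ι → ℕ}
    (hN : Tendsto (fun i => (N i : ℝ)) l atTop)
    (hK : Tendsto (fun i => (K i : ℝ) / N i) l atTop) (T : ℝ) {r : ℝ} (hr : 0 < r) {θ : ι → ℝ}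
    (hθ : Tendsto θ l (𝓝 0)) :
    Tendsto (fun i => (P i).real {ω | ∃ j ≤ J i, t i j ω ≤ T ∧ ∃ s : ℝ≥0, |s - t i j ω| ≤ θ i ∧
      r ≤ |lin (N i) (K i) (fun k => XX (w i) (t i) (J i) (k / N i) ω) s - w i j ω|}) l
      (𝓝 0) := by
  have hAC := AC_XX hc h hT0 hδ he
  rw [Metric.tendsto_nhds]
  intro κ hκ
  set T' : ℝ := max T 0 + 2 with hT'
  have hT'0 : 0 ≤ T' := by positivity
  have hTT' : T + 1 < T' := by
    have := le_max_left T 0
    linarith
  obtain ⟨η1, hη1, d, hd, hsmall⟩ := modulus_small (c := c) (T0 := T') (r := r / 6) (κ := κ / 4) hc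
    hT'0 (by linarith) (by linarith)
  obtain ⟨η2, hη2, hosc⟩ := hAC (T + 1) (r / 3) (κ / 4) (by linarith) (by linarith)
  have hcl := hAC.tendsto_close hN hK (T + 1) (show 0 < r / 3 by linarith)
  filter_upwards [h, hT0.eventually_ge_atTop T', hδ.eventually_le_const hd,
    he.eventually_le_const hd, hosc, hcl.eventually_lt_const (show (0 : ℝ) < κ / 4 by linarith),
    hθ.eventually_le_const (show (0 : ℝ) < min η2 1 by positivity)]
    with i hi hTi hδi hei hosci hcli hθi
  rw [dist_zero_right, Real.norm_of_nonneg measureReal_nonneg]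
  have hr' := hi.restrict hT'0 hTi
  have hOSC := hsmall hr' hδi hei
  set E1 : Set (Ω i) := {ω | ∃ s : ℝ≥0, (s : ℝ) ≤ T + 1 ∧
      r / 3 ≤ ‖lin (N i) (K i) (fun k => XX (w i) (t i) (J i) (k / N i) ω) s
        - XX (w i) (t i) (J i) s ω‖} with hE1
  set E2 : Set (Ω i) := {ω | Osc (T + 1) η2 (r / 3) (fun s => XX (w i) (t i) (J i) s ω)} with hE2
  set E3 : Set (Ω i) := OSC (stp (t i) (J i) T' (w i)) (stp (t i) (J i) T' (t i)) (J i) η1 (r / 6)
    with hE3
  have hsub : {ω | ∃ j ≤ J i, t i j ω ≤ T ∧ ∃ s : ℝ≥0, |s - t i j ω| ≤ θ i ∧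
      r ≤ |lin (N i) (K i) (fun k => XX (w i) (t i) (J i) (k / N i) ω) s - w i j ω|}
      ⊆ E1 ∪ (E2 ∪ E3) := by
    rintro ω ⟨j, hj, htj, s, hs, hdiff⟩
    by_contra hno
    rw [Set.mem_union, Set.mem_union, not_or, not_or] at hno
    obtain ⟨n1, n2, n3⟩ := hno
    have hθ1 : θ i ≤ 1 := hθi.trans (min_le_right _ _)
    have hθη : θ i ≤ η2 := hθi.trans (min_le_left _ _)
    have ht0 := hi.t_nonneg hj ω
    have hs' := abs_le.1 hs
    have hsT : (s : ℝ) ≤ T + 1 := by linarith [hs'.2]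
    -- first difference
    have d1 : |lin (N i) (K i) (fun k => XX (w i) (t i) (J i) (k / N i) ω) s
        - XX (w i) (t i) (J i) s ω| < r / 3 := by
      by_contra h'
      exact n1 ⟨s, hsT, not_lt.1 h'⟩
    -- second difference
    have d2 : |XX (w i) (t i) (J i) s ω - XX (w i) (t i) (J i) (t i j ω) ω| < r / 3 := by
      rcases le_total (t i j ω) (s : ℝ) with h1 | h1
      · by_contra h'
        refine n2 ⟨t i j ω, s, ht0, h1, hsT, ?_, not_lt.1 h'⟩
        linarith [hs'.2]
      · rw [abs_sub_comm]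
        by_contra h'
        refine n2 ⟨s, t i j ω, s.2, h1, by linarith, ?_, not_lt.1 h'⟩
        linarith [hs'.1]
    -- third difference
    have d3 : |XX (w i) (t i) (J i) (t i j ω) ω - w i j ω| < r / 3 := by
      unfold XX
      set j' := jj (t i) (J i) (t i j ω) ω with hj'
      have hj'j : j' ≤ j := by
        by_contra h'
        have := (hi.lt_jj.1 (not_le.1 h')).2
        linarith
      rcases lt_or_eq_of_le hj'j with h1 | h1
      swap
      · rw [h1, sub_self, abs_zero]; linarith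
      have hj'J : j' < J i := h1.trans_le hj
      have htj' : t i j ω ≤ t i j' ω := hi.le_TT_of_lt hj'J
      have hjT' : ∀ n ≤ J i, t i n ω ≤ T → n ≤ jj (t i) (J i) T' ω := by
        intro n hn htn
        rcases lt_or_eq_of_le hn with h2 | h2
        · exact (hi.lt_jj.2 ⟨h2, by linarith⟩).le
        · rcases Nat.eq_zero_or_pos (J i) with h3 | h3
          · omega
          · have h4 : J i - 1 < jj (t i) (J i) T' ω := by
              refine hi.lt_jj.2 ⟨by omega, ?_⟩
              have := hi.t_mono (show J i - 1 ≤ n by omega) (by omega) ω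
              linarith
            omega
      by_contra h'
      refine n3 ⟨j', j, hj'j, hj, ?_, ?_⟩
      · rw [stp_of_le (hjT' j hj htj), stp_of_le (hjT' j' hj'J.le
          ((hi.t_mono hj'j hj ω).trans htj))]
        linarith
      · rw [stp_of_le (hjT' j hj htj), stp_of_le (hjT' j' hj'J.le
          ((hi.t_mono hj'j hj ω).trans htj)), abs_sub_comm]
        have := not_lt.1 h'
        linarith
    have e1 : lin (N i) (K i) (fun k => XX (w i) (t i) (J i) (k / N i) ω) s - w i j ω
        = (lin (N i) (K i) (fun k => XX (w i) (t i) (J i) (k / N i) ω) s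
            - XX (w i) (t i) (J i) s ω)
          + (XX (w i) (t i) (J i) s ω - XX (w i) (t i) (J i) (t i j ω) ω)
          + (XX (w i) (t i) (J i) (t i j ω) ω - w i j ω) := by ring
    rw [e1] at hdiff
    have c1 := abs_add_le ((lin (N i) (K i) (fun k => XX (w i) (t i) (J i) (k / N i) ω) s
            - XX (w i) (t i) (J i) s ω)
          + (XX (w i) (t i) (J i) s ω - XX (w i) (t i) (J i) (t i j ω) ω))
          (XX (w i) (t i) (J i) (t i j ω) ω - w i j ω)
    have c2 := abs_add_le (lin (N i) (K i) (fun k => XX (w i) (t i) (J i) (k / N i) ω) s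
            - XX (w i) (t i) (J i) s ω)
          (XX (w i) (t i) (J i) s ω - XX (w i) (t i) (J i) (t i j ω) ω)
    linarith
  have m1 := measureReal_mono hsub (measure_ne_top (P i) _)
  have m2 := measureReal_union_le (μ := P i) E1 (E2 ∪ E3)
  have m3 := measureReal_union_le (μ := P i) E2 E3
  linarith

end close

/-- **the driving functions**: from arrays (possibly stopped early) random continuous functions on the
product with fair coins whose laws are tight, whose limits are `√c` times Brownian motion, and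
which are uniformly close to the arrays -/
theorem exists_drive [MeasurableSpace C(ℝ≥0, ℝ)] [BorelSpace C(ℝ≥0, ℝ)] {Ω : ℕ → Type*}
    {mΩ : ∀ i, MeasurableSpace (Ω i)} {P : ∀ i, Measure (Ω i)} [∀ i, IsProbabilityMeasure (P i)]
    {w t : ∀ i, ℕ → Ω i → ℝ} {G : ∀ i, Filtration ℕ (mΩ i)} {c : ℝ} {T0 M0 δ : ℕ → ℝ}
    {a b : ℕ → ℕ → ℝ} {J : ℕ → ℕ} (hc : 0 < c)
    (h : ∀ i, Arr (w i) (t i) (G i) (P i) c (T0 i) (M0 i) (δ i) (a i) (b i) (J i))
    (hδ0 : ∀ i, 0 < δ i)
    (hT0 : Tendsto T0 atTop atTop) (hM0 : Tendsto M0 atTop atTop) (hδ : Tendsto δ atTop (𝓝 0))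
    (he : Tendsto (fun i => eps (a i) (b i) (J i)) atTop (𝓝 0)) :
    ∃ f : ∀ m, Ω m × (ℕ → Bool) → C(ℝ≥0, ℝ),
      (∀ m, Measurable (f m)) ∧ (∀ m p, f m p 0 = 0) ∧
      IsTightMeasureSet {x : Measure C(ℝ≥0, ℝ) | ∃ m, ((P m).prod coins).map (f m) = x} ∧
      (∀ k : ℕ → ℕ, StrictMono k → ∀ (S : Type) [TopologicalSpace S] [MeasurableSpace S]
        [OpensMeasurableSpace S] (g : S → C(ℝ≥0, ℝ)) (_ : Continuous g)
        (x : ∀ m, Ω m × (ℕ → Bool) → S) (_ : ∀ m, AEMeasurable (x m) ((P m).prod coins))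
        (_ : ∀ m p, g (x m p) = f m p) (μs : ℕ → ProbabilityMeasure S) (ν : ProbabilityMeasure S)
        (_ : ∀ m, (μs m : Measure S) = ((P m).prod coins).map (x m))
        (_ : Tendsto (fun m => μs (k m)) atTop (𝓝 ν)),
        IsPreBrownianReal (fun (s : ℝ≥0) (z : S) => (Real.sqrt c)⁻¹ * g z s) (ν : Measure S)) ∧
      (∀ (T r : ℝ), 0 < r → ∀ θ : ℕ → ℝ, Tendsto θ atTop (𝓝 0) →
        Tendsto (fun m => ((P m).prod coins).real {p | ∃ j ≤ J m, t m j p.1 ≤ T ∧
          ∃ s : ℝ≥0, |s - t m j p.1| ≤ θ m ∧ r ≤ |f m p s - w m j p.1|}) atTop (𝓝 0)) := by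
  -- parameters of the walk
  set d : ℕ → ℝ := fun m => δ m ^ 2 / (c + 1) with hd
  set q : ℕ → ℝ := fun m => Real.sqrt (c * d m) with hq
  have hc1 : 0 < c + 1 := by linarith
  have hd0 : ∀ m, 0 < d m := fun m => div_pos (pow_pos (hδ0 m) 2) hc1
  have hδ1 : ∀ m, δ m ≤ 1 := fun m => (h m).δ1
  have hdδ2 : ∀ m, d m ≤ δ m ^ 2 := fun m =>
    div_le_self (sq_nonneg _) (by linarith)
  have hdδ : ∀ m, d m ≤ δ m := fun m => (hdδ2 m).trans (by
    have := hδ0 m; have := hδ1 m; nlinarith)
  have hcd : ∀ m, c * d m ≤ δ m ^ 2 := fun m => by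
    show c * (δ m ^ 2 / (c + 1)) ≤ δ m ^ 2
    rw [mul_div_assoc', div_le_iff₀ hc1]
    have := sq_nonneg (δ m)
    nlinarith
  have hq2 : ∀ m, q m ^ 2 = c * d m := fun m => Real.sq_sqrt (mul_nonneg hc.le (hd0 m).le)
  have hqδ : ∀ m, |q m| ≤ δ m := fun m => by
    rw [abs_of_nonneg (Real.sqrt_nonneg _)]
    exact Real.sqrt_le_iff.2 ⟨(hδ0 m).le, hcd m⟩
  choose L hL using fun m => exists_nat_ge (T0 m / d m)
  have hL' : ∀ m, T0 m ≤ L m * d m := fun m => by
    have := hL m
    rwa [div_le_iff₀ (hd0 m)] at this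
  -- the extended arrays
  have hx : ∀ m, Arr (ew (w m) (t m) (T0 m) (M0 m) (q m) (d m) (J m))
      (et (w m) (t m) (T0 m) (M0 m) (q m) (d m) (J m)) (eG (G m) (J m)) ((P m).prod coins) c
      (T0 m) (M0 m) (δ m) (fun j => if j < J m then a m j else 0)
      (fun j => if j < J m then b m j else 0) (J m + L m) := fun m =>
    (h m).coin (hd0 m).le (hdδ m) (hqδ m) (hq2 m) (L m)
  have hbad : Tendsto (fun m => ((P m).prod coins).real
      (BAD (ew (w m) (t m) (T0 m) (M0 m) (q m) (d m) (J m))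
        (et (w m) (t m) (T0 m) (M0 m) (q m) (d m) (J m)) (T0 m) (M0 m) (J m + L m)))
      atTop (𝓝 0) := by
    have : ∀ m, ((P m).prod coins).real
      (BAD (ew (w m) (t m) (T0 m) (M0 m) (q m) (d m) (J m))
        (et (w m) (t m) (T0 m) (M0 m) (q m) (d m) (J m)) (T0 m) (M0 m) (J m + L m)) = 0 := by
      intro m
      rw [(h m).coin_BAD (hL' m)]
      simp
    simp only [this]
    exact tendsto_const_nhds
  have he' : Tendsto (fun m => eps (fun j => if j < J m then a m j else 0)
      (fun j => if j < J m then b m j else 0) (J m + L m)) atTop (𝓝 0) := by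
    simp only [eps_coin]
    exact he
  -- the grid
  set N : ℕ → ℕ := fun m => m + 1 with hNdef
  set K : ℕ → ℕ := fun m => (m + 1) * (m + 1) with hKdef
  have hN : Tendsto (fun m => (N m : ℝ)) atTop atTop := by
    have : Tendsto (fun m : ℕ => ((m : ℝ) + 1)) atTop atTop :=
      tendsto_atTop_add_const_right _ _ tendsto_natCast_atTop_atTop
    refine this.congr fun m => ?_
    simp [hNdef]
  have hK : Tendsto (fun m => (K m : ℝ) / N m) atTop atTop := by
    refine hN.congr fun m => ?_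
    have : (0 : ℝ) < (m : ℝ) + 1 := by positivity
    simp only [hNdef, hKdef]
    push_cast
    field_simp
  set f : ∀ m, Ω m × (ℕ → Bool) → C(ℝ≥0, ℝ) := fun m p => lin (N m) (K m)
    (fun k => XX (ew (w m) (t m) (T0 m) (M0 m) (q m) (d m) (J m))
      (et (w m) (t m) (T0 m) (M0 m) (q m) (d m) (J m)) (J m + L m) (k / N m) p) with hf
  have hXm : ∀ m s, Measurable (fun p => XX (ew (w m) (t m) (T0 m) (M0 m) (q m) (d m) (J m))
      (et (w m) (t m) (T0 m) (M0 m) (q m) (d m) (J m)) (J m + L m) s p) := fun m s =>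
    ((hx m).sm_XX s).measurable
  have hfm : ∀ m, Measurable (f m) := fun m => measurable_lin (hXm m) _ _
  have hX0 : ∀ m p, XX (ew (w m) (t m) (T0 m) (M0 m) (q m) (d m) (J m))
      (et (w m) (t m) (T0 m) (M0 m) (q m) (d m) (J m)) (J m + L m) 0 p = 0 := by
    intro m p
    have : jj (et (w m) (t m) (T0 m) (M0 m) (q m) (d m) (J m)) (J m + L m) 0 p = 0 := by
      by_contra h'
      have h4 := ((hx m).lt_jj.1 (Nat.pos_of_ne_zero h'))
      have h5 := (hx m).t0 p
      linarith [h4.2]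
    unfold XX
    rw [this]
    exact (hx m).w0 p
  have hXc := AC_XX (P := fun m => (P m).prod coins) hc.le (Eventually.of_forall hx) hT0 hδ he'
  refine ⟨f, hfm, ?_, ?_, ?_, ?_⟩
  · intro m p
    rw [hf]
    dsimp only
    rw [lin_apply]
    have h2 : ∀ k : ℕ, clamp ((N m : ℝ) * ((0 : ℝ≥0) : ℝ) - k) = 0 := by
      intro k
      apply clamp_zero
      simp
    simp only [h2, zero_smul, Finset.sum_const_zero, add_zero, Nat.cast_zero, zero_div]
    exact hX0 m p
  · exact hXc.tight hXm (R := 0) (fun i ω => by rw [hX0]; simp) hN hK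
  · intro k hk S _ _ _ g hg x hxm hgx μs ν hμs hν
    have hkt := hk.tendsto_atTop
    refine brownian_of_arrays (l := atTop) (P := fun m => (P (k m)).prod coins)
      (w := fun m => ew (w (k m)) (t (k m)) (T0 (k m)) (M0 (k m)) (q (k m)) (d (k m)) (J (k m)))
      (t := fun m => et (w (k m)) (t (k m)) (T0 (k m)) (M0 (k m)) (q (k m)) (d (k m)) (J (k m)))
      (G := fun m => eG (G (k m)) (J (k m))) (T0 := fun m => T0 (k m))
      (M0 := fun m => M0 (k m)) (δ := fun m => δ (k m))
      (a := fun m j => if j < J (k m) then a (k m) j else 0)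
      (b := fun m j => if j < J (k m) then b (k m) j else 0) (J := fun m => J (k m) + L (k m))
      (f := fun s z => g z s) (x := fun m => x (k m)) hc
      (Eventually.of_forall fun m => hx (k m)) (hbad.comp hkt) (hT0.comp hkt) (hM0.comp hkt)
      (hδ.comp hkt) (he'.comp hkt) (fun s => (continuous_eval_const s).comp hg) hν
      (fun m => hxm (k m)) (fun m => (hμs (k m)).symm) ?_
    intro s r hr
    have h1 := (hXc.tendsto_close hN hK (s : ℝ) hr).comp hkt
    refine squeeze_zero (fun m => measureReal_nonneg) (fun m => ?_) h1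
    refine measureReal_mono ?_ (measure_ne_top _ _)
    intro ω hω
    refine ⟨s, le_rfl, ?_⟩
    have h2 : r ≤ |g (x (k m) ω) s - XX (ew (w (k m)) (t (k m)) (T0 (k m)) (M0 (k m)) (q (k m))
      (d (k m)) (J (k m))) (et (w (k m)) (t (k m)) (T0 (k m)) (M0 (k m)) (q (k m)) (d (k m))
      (J (k m))) (J (k m) + L (k m)) s ω| := hω
    rw [hgx] at h2
    exact h2
  · intro T r hr θ hθ
    have h1 := drive_close (P := fun m => (P m).prod coins) hc.le (Eventually.of_forall hx) hT0 hδ
      he' hN hK T hr hθ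
    refine squeeze_zero (fun m => measureReal_nonneg) (fun m => ?_) h1
    refine measureReal_mono ?_ (measure_ne_top _ _)
    rintro p ⟨j, hj, htj, s, hs, hdiff⟩
    refine ⟨j, by omega, ?_, s, ?_, ?_⟩
    · rw [et_le hj]; exact htj
    · rw [et_le hj]; exact hs
    · rw [ew_le hj]; exact hdiff

end H37.Levy
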