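import Pool.Agent.H37.Levy.Array12

/-!
# Extension of an array by a fair walk

On the product with fair coins an array which is stopped early is continued by a walk with steps
`± √(c d)` in time steps `d` until the time `T0` or the level `M0` is reached.
-/

open MeasureTheory ProbabilityTheory Filter
open scoped ENNReal NNReal Topology

namespace H37.Levy

/-- fair coin -/
noncomputable def coin : Measure Bool := (PMF.uniformOfFintype Bool).toMeasure

instance : IsProbabilityMeasure coin := by unfold coin; infer_instance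

lemma coin_not (A : Set Bool) : coin ((fun b => !b) ⁻¹' A) = coin A := by
  have h : ∀ B : Set Bool, coin B = ∑ b : Bool, B.indicator (fun _ => (2 : ℝ≥0∞)⁻¹) b := by
    intro B
    unfold coin
    rw [PMF.toMeasure_apply_fintype]
    refine Finset.sum_congr rfl fun b _ => ?_
    by_cases hb : b ∈ B
    · rw [Set.indicator_of_mem hb, Set.indicator_of_mem hb, PMF.uniformOfFintype_apply]
      simp
    · rw [Set.indicator_of_notMem hb, Set.indicator_of_notMem hb]
  rw [h, h, Fintype.sum_bool, Fintype.sum_bool, add_comm]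
  rfl

/-- sequence of fair coins -/
noncomputable def coins : Measure (ℕ → Bool) := Measure.infinitePi (fun _ => coin)

instance : IsProbabilityMeasure coins := by unfold coins; infer_instance

/-- flip one coin -/
def flip1 (i : ℕ) (ξ : ℕ → Bool) : ℕ → Bool := fun k => if k = i then !ξ k else ξ k

lemma measurable_flip1 (i : ℕ) : Measurable (flip1 i) := by
  refine measurable_pi_lambda _ fun k => ?_
  unfold flip1
  by_cases h : k = i
  · simp only [h, if_true]
    exact (measurable_of_finite (fun b : Bool => !b)).comp (measurable_pi_apply i)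
  · simp only [h, if_false]
    exact measurable_pi_apply k

lemma flip1_preserves (i : ℕ) : MeasurePreserving (flip1 i) coins coins := by
  refine ⟨measurable_flip1 i, ?_⟩
  unfold coins
  refine Measure.eq_infinitePi _ fun s t ht => ?_
  rw [Measure.map_apply (measurable_flip1 i) (MeasurableSet.pi s.countable_toSet fun k _ => ht k)]
  have h1 : flip1 i ⁻¹' (Set.pi (s : Set ℕ) t)
      = Set.pi (s : Set ℕ) (fun k => if k = i then (fun b => !b) ⁻¹' t k else t k) := by
    ext ξ
    simp only [Set.mem_preimage, Set.mem_pi, flip1]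
    refine forall_congr' fun k => forall_congr' fun _ => ?_
    by_cases h : k = i
    · simp [h]
    · simp [h]
  rw [h1, Measure.infinitePi_pi]
  · refine Finset.prod_congr rfl fun k _ => ?_
    by_cases h : k = i
    · simp only [h, if_true]; exact coin_not _
    · simp only [h, if_false]
  · intro k _
    by_cases h : k = i
    · simp only [h, if_true]
      exact measurable_of_finite (fun b : Bool => !b) (ht i)
    · simp only [h, if_false]; exact ht k

/-- only the first `i` coins -/
def res {Ω : Type*} (i : ℕ) (p : Ω × (ℕ → Bool)) : Ω × (ℕ → Bool) :=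
  (p.1, fun k => if k < i then p.2 k else false)

lemma measurable_res {Ω : Type*} {m0 : MeasurableSpace Ω} (i : ℕ) :
    Measurable (res i : Ω × (ℕ → Bool) → Ω × (ℕ → Bool)) := by
  unfold res
  refine measurable_fst.prodMk (measurable_pi_lambda _ fun k => ?_)
  by_cases h : k < i
  · simp only [h, if_true]
    exact (measurable_pi_apply k).comp measurable_snd
  · simp only [h, if_false]
    exact measurable_const

lemma res_res {Ω : Type*} {i k : ℕ} (h : i ≤ k) (p : Ω × (ℕ → Bool)) :
    res i (res k p) = res i p := by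
  unfold res
  ext1
  · rfl
  · funext n
    dsimp only
    by_cases h1 : n < i
    · have : n < k := h1.trans_le h
      simp [h1, this]
    · simp [h1]

lemma res_flip {Ω : Type*} (i : ℕ) (ω : Ω) (ξ : ℕ → Bool) :
    res i (ω, flip1 i ξ) = res i (ω, ξ) := by
  unfold res flip1
  ext1
  · rfl
  · funext n
    dsimp only
    by_cases h1 : n < i
    · have : n ≠ i := h1.ne
      simp [h1, this]
    · simp [h1]

section walk

variable {Ω : Type*}

/-- sign of a coin -/
def sgb (b : Bool) : ℝ := if b then 1 else -1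

lemma sgb_not (b : Bool) : sgb (!b) = -sgb b := by cases b <;> simp [sgb]
lemma sgb_sq (b : Bool) : sgb b ^ 2 = 1 := by cases b <;> simp [sgb]
lemma abs_sgb (b : Bool) : |sgb b| = 1 := by cases b <;> simp [sgb]

open Classical in
/-- the walk which continues from `(x0, s0)`: position and time after `k` steps -/
noncomputable def wk (T0 M0 q d : ℝ) (x0 s0 : Ω → ℝ) : ℕ → Ω × (ℕ → Bool) → ℝ × ℝ
  | 0, p => (x0 p.1, s0 p.1)
  | k + 1, p =>
    if (wk T0 M0 q d x0 s0 k p).2 < T0 ∧ |(wk T0 M0 q d x0 s0 k p).1| < M0 then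
      ((wk T0 M0 q d x0 s0 k p).1 + sgb (p.2 k) * q, (wk T0 M0 q d x0 s0 k p).2 + d)
    else wk T0 M0 q d x0 s0 k p

/-- the walk is alive after `k` steps -/
def Al (T0 M0 q d : ℝ) (x0 s0 : Ω → ℝ) (k : ℕ) : Set (Ω × (ℕ → Bool)) :=
  {p | (wk T0 M0 q d x0 s0 k p).2 < T0 ∧ |(wk T0 M0 q d x0 s0 k p).1| < M0}

variable {T0 M0 q d : ℝ} {x0 s0 : Ω → ℝ}

lemma wk_res {k i : ℕ} (h : k ≤ i) (p : Ω × (ℕ → Bool)) :
    wk T0 M0 q d x0 s0 k (res i p) = wk T0 M0 q d x0 s0 k p := by
  induction k with
  | zero => rfl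
  | succ k ih =>
    have hk : k < i := h
    have h1 : (res i p).2 k = p.2 k := by
      unfold res; simp [hk]
    rw [wk, wk, ih hk.le, h1]

lemma wk_pos {k : ℕ} {p : Ω × (ℕ → Bool)} (h : p ∈ Al T0 M0 q d x0 s0 k) :
    wk T0 M0 q d x0 s0 (k + 1) p = ((wk T0 M0 q d x0 s0 k p).1 + sgb (p.2 k) * q,
      (wk T0 M0 q d x0 s0 k p).2 + d) := by
  obtain ⟨h1, h2⟩ := h
  rw [wk, if_pos ⟨h1, h2⟩]

lemma wk_neg {k : ℕ} {p : Ω × (ℕ → Bool)} (h : p ∉ Al T0 M0 q d x0 s0 k) :
    wk T0 M0 q d x0 s0 (k + 1) p = wk T0 M0 q d x0 s0 k p := by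
  have h1 : ¬ ((wk T0 M0 q d x0 s0 k p).2 < T0 ∧ |(wk T0 M0 q d x0 s0 k p).1| < M0) := h
  rw [wk, if_neg h1]

lemma wk_step_fst (k : ℕ) (p : Ω × (ℕ → Bool)) :
    (wk T0 M0 q d x0 s0 (k + 1) p).1 - (wk T0 M0 q d x0 s0 k p).1
      = (Al T0 M0 q d x0 s0 k).indicator (fun p => sgb (p.2 k) * q) p := by
  by_cases h : p ∈ Al T0 M0 q d x0 s0 k
  · rw [Set.indicator_of_mem h, wk_pos h]; ring
  · rw [Set.indicator_of_notMem h, wk_neg h]; ring

lemma wk_step_snd (k : ℕ) (p : Ω × (ℕ → Bool)) :
    (wk T0 M0 q d x0 s0 (k + 1) p).2 - (wk T0 M0 q d x0 s0 k p).2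
      = (Al T0 M0 q d x0 s0 k).indicator (fun _ => d) p := by
  by_cases h : p ∈ Al T0 M0 q d x0 s0 k
  · rw [Set.indicator_of_mem h, wk_pos h]; ring
  · rw [Set.indicator_of_notMem h, wk_neg h]; ring

lemma wk_alive {k : ℕ} {p : Ω × (ℕ → Bool)} (h : p ∈ Al T0 M0 q d x0 s0 k) :
    (wk T0 M0 q d x0 s0 k p).2 = s0 p.1 + k * d := by
  induction k with
  | zero => simp [wk]
  | succ k ih =>
    by_cases h1 : p ∈ Al T0 M0 q d x0 s0 k
    · rw [wk_pos h1]
      show (wk T0 M0 q d x0 s0 k p).2 + d = _
      rw [ih h1]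
      push_cast
      ring
    · exfalso
      have h2 : wk T0 M0 q d x0 s0 (k + 1) p = wk T0 M0 q d x0 s0 k p := wk_neg h1
      have h3 : (wk T0 M0 q d x0 s0 (k + 1) p).2 < T0 ∧
        |(wk T0 M0 q d x0 s0 (k + 1) p).1| < M0 := h
      rw [h2] at h3
      exact h1 h3

variable {m0 : MeasurableSpace Ω}

lemma sm_wk (hx : StronglyMeasurable x0) (hs : StronglyMeasurable s0) (k : ℕ) :
    StronglyMeasurable (fun p => (wk T0 M0 q d x0 s0 k p).1) ∧
    StronglyMeasurable (fun p => (wk T0 M0 q d x0 s0 k p).2) := by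
  induction k with
  | zero => exact ⟨hx.comp_measurable measurable_fst, hs.comp_measurable measurable_fst⟩
  | succ k ih =>
    have hA : MeasurableSet (Al T0 M0 q d x0 s0 k) :=
      (StronglyMeasurable.measurableSet_lt ih.2 stronglyMeasurable_const).inter
        (StronglyMeasurable.measurableSet_lt ih.1.norm stronglyMeasurable_const)
    have hsg : StronglyMeasurable fun p : Ω × (ℕ → Bool) => sgb (p.2 k) * q :=
      ((measurable_of_finite sgb).comp
        ((measurable_pi_apply k).comp measurable_snd)).stronglyMeasurable.mul_const q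
    constructor
    · have : (fun p => (wk T0 M0 q d x0 s0 (k + 1) p).1) = fun p =>
          (wk T0 M0 q d x0 s0 k p).1
            + (Al T0 M0 q d x0 s0 k).indicator (fun p => sgb (p.2 k) * q) p := by
        funext p; rw [← wk_step_fst]; ring
      rw [this]
      exact ih.1.add (hsg.indicator hA)
    · have : (fun p => (wk T0 M0 q d x0 s0 (k + 1) p).2) = fun p =>
          (wk T0 M0 q d x0 s0 k p).2 + (Al T0 M0 q d x0 s0 k).indicator (fun _ => d) p := by
        funext p; rw [← wk_step_snd]; ring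
      rw [this]
      exact ih.2.add (stronglyMeasurable_const.indicator hA)

lemma meas_Al (hx : StronglyMeasurable x0) (hs : StronglyMeasurable s0) (k : ℕ) :
    MeasurableSet (Al T0 M0 q d x0 s0 k) :=
  (StronglyMeasurable.measurableSet_lt (sm_wk hx hs k).2 stronglyMeasurable_const).inter
    (StronglyMeasurable.measurableSet_lt (sm_wk hx hs k).1.norm stronglyMeasurable_const)

lemma wk_bd (hq : |q| ≤ 1) (hd1 : d ≤ 1) (hx : ∀ ω, |x0 ω| ≤ M0 + 1)
    (hs : ∀ ω, s0 ω ≤ T0 + 1) (k : ℕ) (p : Ω × (ℕ → Bool)) :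
    |(wk T0 M0 q d x0 s0 k p).1| ≤ M0 + 1 ∧ (wk T0 M0 q d x0 s0 k p).2 ≤ T0 + 1 := by
  induction k with
  | zero => exact ⟨hx _, hs _⟩
  | succ k ih =>
    by_cases h1 : p ∈ Al T0 M0 q d x0 s0 k
    · rw [wk_pos h1]
      obtain ⟨h2, h3⟩ := h1
      constructor
      · refine (abs_add_le _ _).trans ?_
        rw [abs_mul, abs_sgb, one_mul]
        linarith
      · show (wk T0 M0 q d x0 s0 k p).2 + d ≤ T0 + 1
        linarith
    · rw [wk_neg h1]; exact ih

end walk

/-! ### the extended array -/

section ext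

variable {Ω : Type*} {m0 : MeasurableSpace Ω}

/-- the extended positions -/
noncomputable def ew (w t : ℕ → Ω → ℝ) (T0 M0 q d : ℝ) (J : ℕ) (j : ℕ) (p : Ω × (ℕ → Bool)) : ℝ :=
  if j < J then w j p.1 else (wk T0 M0 q d (w J) (t J) (j - J) p).1

/-- the extended times -/
noncomputable def et (w t : ℕ → Ω → ℝ) (T0 M0 q d : ℝ) (J : ℕ) (j : ℕ) (p : Ω × (ℕ → Bool)) : ℝ :=
  if j < J then t j p.1 else (wk T0 M0 q d (w J) (t J) (j - J) p).2

/-- the extended filtration -/
def eG (G : Filtration ℕ m0) (J : ℕ) :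
    Filtration ℕ (Prod.instMeasurableSpace : MeasurableSpace (Ω × (ℕ → Bool))) where
  seq j := if j < J then (G j).comap Prod.fst
    else (Prod.instMeasurableSpace : MeasurableSpace (Ω × (ℕ → Bool))).comap (res (j - J))
  mono' := by
    intro i j hij
    dsimp only
    by_cases hj : j < J
    · have hi : i < J := hij.trans_lt hj
      rw [if_pos hi, if_pos hj]
      exact MeasurableSpace.comap_mono (G.mono hij)
    · by_cases hi : i < J
      · rw [if_pos hi, if_neg hj]
        have h1 : (Prod.fst : Ω × (ℕ → Bool) → Ω) = Prod.fst ∘ res (j - J) := rfl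
        have h2 : (G i).comap (Prod.fst : Ω × (ℕ → Bool) → Ω)
            = ((G i).comap (Prod.fst : Ω × (ℕ → Bool) → Ω)).comap (res (j - J)) := by
          rw [MeasurableSpace.comap_comp, ← h1]
        rw [h2]
        refine MeasurableSpace.comap_mono ?_
        exact (MeasurableSpace.comap_mono (G.le i)).trans measurable_fst.comap_le
      · rw [if_neg hi, if_neg hj]
        have hik : i - J ≤ j - J := by omega
        have h1 : (res (i - J) : Ω × (ℕ → Bool) → Ω × (ℕ → Bool))
            = res (i - J) ∘ res (j - J) := by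
          funext p; exact (res_res hik p).symm
        have h2 : (Prod.instMeasurableSpace : MeasurableSpace (Ω × (ℕ → Bool))).comap
            (res (i - J) : Ω × (ℕ → Bool) → Ω × (ℕ → Bool))
            = ((Prod.instMeasurableSpace : MeasurableSpace (Ω × (ℕ → Bool))).comap
              (res (i - J))).comap (res (j - J)) := by
          rw [MeasurableSpace.comap_comp, ← h1]
        rw [h2]
        exact MeasurableSpace.comap_mono (measurable_res _).comap_le
  le' := by
    intro j
    by_cases hj : j < J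
    · rw [if_pos hj]
      exact (MeasurableSpace.comap_mono (G.le j)).trans measurable_fst.comap_le
    · rw [if_neg hj]
      exact (measurable_res _).comap_le

lemma eG_lt (G : Filtration ℕ m0) {J j : ℕ} (h : j < J) :
    (eG G J j : MeasurableSpace (Ω × (ℕ → Bool))) = (G j).comap Prod.fst := by
  show (if j < J then (G j).comap Prod.fst
    else (Prod.instMeasurableSpace : MeasurableSpace (Ω × (ℕ → Bool))).comap (res (j - J))) = _
  rw [if_pos h]

lemma eG_ge (G : Filtration ℕ m0) {J j : ℕ} (h : ¬ j < J) :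
    (eG G J j : MeasurableSpace (Ω × (ℕ → Bool)))
      = (Prod.instMeasurableSpace : MeasurableSpace (Ω × (ℕ → Bool))).comap (res (j - J)) := by
  show (if j < J then (G j).comap Prod.fst
    else (Prod.instMeasurableSpace : MeasurableSpace (Ω × (ℕ → Bool))).comap (res (j - J))) = _
  rw [if_neg h]

variable {P : Measure Ω} {w t : ℕ → Ω → ℝ} {G : Filtration ℕ m0} {c T0 M0 δ q d : ℝ}
  {a b : ℕ → ℝ} {J : ℕ}

lemma ew_le {j : ℕ} (hj : j ≤ J) (p : Ω × (ℕ → Bool)) : ew w t T0 M0 q d J j p = w j p.1 := by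
  unfold ew
  rcases lt_or_eq_of_le hj with h | h
  · rw [if_pos h]
  · rw [h, if_neg (lt_irrefl J), Nat.sub_self]
    rfl

lemma et_le {j : ℕ} (hj : j ≤ J) (p : Ω × (ℕ → Bool)) : et w t T0 M0 q d J j p = t j p.1 := by
  unfold et
  rcases lt_or_eq_of_le hj with h | h
  · rw [if_pos h]
  · rw [h, if_neg (lt_irrefl J), Nat.sub_self]
    rfl

lemma ew_ge {j : ℕ} (hj : ¬ j < J) (p : Ω × (ℕ → Bool)) :
    ew w t T0 M0 q d J j p = (wk T0 M0 q d (w J) (t J) (j - J) p).1 := by
  unfold ew; rw [if_neg hj]

lemma et_ge {j : ℕ} (hj : ¬ j < J) (p : Ω × (ℕ → Bool)) :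
    et w t T0 M0 q d J j p = (wk T0 M0 q d (w J) (t J) (j - J) p).2 := by
  unfold et; rw [if_neg hj]

lemma ew_step_ge {j : ℕ} (hj : ¬ j < J) (p : Ω × (ℕ → Bool)) :
    ew w t T0 M0 q d J (j + 1) p - ew w t T0 M0 q d J j p
      = (Al T0 M0 q d (w J) (t J) (j - J)).indicator (fun p => sgb (p.2 (j - J)) * q) p := by
  rw [ew_ge hj, ew_ge (by omega : ¬ j + 1 < J), show j + 1 - J = (j - J) + 1 by omega,
    wk_step_fst]

lemma et_step_ge {j : ℕ} (hj : ¬ j < J) (p : Ω × (ℕ → Bool)) :
    et w t T0 M0 q d J (j + 1) p - et w t T0 M0 q d J j p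
      = (Al T0 M0 q d (w J) (t J) (j - J)).indicator (fun _ => d) p := by
  rw [et_ge hj, et_ge (by omega : ¬ j + 1 < J), show j + 1 - J = (j - J) + 1 by omega,
    wk_step_snd]

lemma integral_fst [IsProbabilityMeasure P] {f : Ω → ℝ} (hf : AEStronglyMeasurable f P) :
    ∫ p, f p.1 ∂(P.prod coins) = ∫ ω, f ω ∂P := by
  have h1 : (P.prod coins).map Prod.fst = P := by
    rw [Measure.map_fst_prod]; simp
  have h2 := integral_map (μ := P.prod coins) (φ := Prod.fst) measurable_fst.aemeasurable
    (f := f) (by rw [h1]; exact hf)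
  rw [h1] at h2
  exact h2.symm

/-- integrals odd under the flip of one coin vanish -/
lemma integral_odd [IsProbabilityMeasure P] (i : ℕ) {F : Ω × (ℕ → Bool) → ℝ}
    (hF : StronglyMeasurable F) (hodd : ∀ ω ξ, F (ω, flip1 i ξ) = -F (ω, ξ)) :
    ∫ p, F p ∂(P.prod coins) = 0 := by
  have hmp : MeasurePreserving (Prod.map id (flip1 i)) (P.prod coins) (P.prod coins) :=
    (MeasurePreserving.id P).prod (flip1_preserves i)
  have h1 : ∫ p, F p ∂(P.prod coins) = ∫ p, F (Prod.map id (flip1 i) p) ∂(P.prod coins) := by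
    have h2 := integral_map (μ := P.prod coins) hmp.measurable.aemeasurable
      (f := F) hF.aestronglyMeasurable
    rw [hmp.map_eq] at h2
    exact h2
  have h3 : ∫ p, F (Prod.map id (flip1 i) p) ∂(P.prod coins) = -∫ p, F p ∂(P.prod coins) := by
    rw [← integral_neg]
    congr 1
    funext p
    exact hodd p.1 p.2
  linarith

/-- **the extension by coins** -/
theorem Arr.coin [IsProbabilityMeasure P] (h : Arr w t G P c T0 M0 δ a b J) (hd0 : 0 ≤ d)
    (hd : d ≤ δ) (hq : |q| ≤ δ) (hqd : q ^ 2 = c * d) (L : ℕ) :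
    Arr (ew w t T0 M0 q d J) (et w t T0 M0 q d J) (eG G J) (P.prod coins) c T0 M0 δ
      (fun j => if j < J then a j else 0) (fun j => if j < J then b j else 0) (J + L) where
  c0 := h.c0
  T00 := h.T00
  M00 := h.M00
  δ0 := h.δ0
  δ1 := h.δ1
  mw j := by
    by_cases hj : j < J
    · rw [eG_lt G hj]
      have : ew w t T0 M0 q d J j = (w j) ∘ Prod.fst := by
        funext p; exact ew_le hj.le p
      rw [this]
      exact (h.mw j).comp_measurable (comap_measurable Prod.fst)
    · rw [eG_ge G hj]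
      have : ew w t T0 M0 q d J j
          = (fun p => (wk T0 M0 q d (w J) (t J) (j - J) p).1) ∘ res (j - J) := by
        funext p
        rw [ew_ge hj, Function.comp, wk_res le_rfl]
      rw [this]
      exact (sm_wk (h.mw0 J) (h.mt0 J) (j - J)).1.comp_measurable
        (comap_measurable (res (j - J)))
  mt j := by
    by_cases hj : j < J
    · rw [eG_lt G hj]
      have : et w t T0 M0 q d J j = (t j) ∘ Prod.fst := by
        funext p; exact et_le hj.le p
      rw [this]
      exact (h.mt j).comp_measurable (comap_measurable Prod.fst)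
    · rw [eG_ge G hj]
      have : et w t T0 M0 q d J j
          = (fun p => (wk T0 M0 q d (w J) (t J) (j - J) p).2) ∘ res (j - J) := by
        funext p
        rw [et_ge hj, Function.comp, wk_res le_rfl]
      rw [this]
      exact (sm_wk (h.mw0 J) (h.mt0 J) (j - J)).2.comp_measurable
        (comap_measurable (res (j - J)))
  w0 p := by rw [ew_le (Nat.zero_le J)]; exact h.w0 p.1
  t0 p := by rw [et_le (Nat.zero_le J)]; exact h.t0 p.1
  bw j _ p := by
    by_cases hj : j < J
    · rw [ew_le hj.le]; exact h.bw j hj.le p.1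
    · rw [ew_ge hj]
      exact (wk_bd (hq.trans h.δ1) (hd.trans h.δ1) (h.bw J le_rfl) (h.bt J le_rfl) _ p).1
  bt j _ p := by
    by_cases hj : j < J
    · rw [et_le hj.le]; exact h.bt j hj.le p.1
    · rw [et_ge hj]
      exact (wk_bd (hq.trans h.δ1) (hd.trans h.δ1) (h.bw J le_rfl) (h.bt J le_rfl) _ p).2
  dw j _ p := by
    by_cases hj : j < J
    · rw [ew_le hj.le, ew_le hj]; exact h.dw j hj p.1
    · rw [ew_step_ge hj]
      by_cases hA : p ∈ Al T0 M0 q d (w J) (t J) (j - J)
      · rw [Set.indicator_of_mem hA, abs_mul, abs_sgb, one_mul]; exact hq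
      · rw [Set.indicator_of_notMem hA, abs_zero]; exact h.δ0
  dt0 j _ p := by
    by_cases hj : j < J
    · rw [et_le hj.le, et_le hj]; exact h.dt0 j hj p.1
    · rw [et_step_ge hj]
      exact Set.indicator_nonneg (fun _ _ => hd0) p
  dt j _ p := by
    by_cases hj : j < J
    · rw [et_le hj.le, et_le hj]; exact h.dt j hj p.1
    · rw [et_step_ge hj]
      by_cases hA : p ∈ Al T0 M0 q d (w J) (t J) (j - J)
      · rw [Set.indicator_of_mem hA]; exact hd
      · rw [Set.indicator_of_notMem hA]; exact h.δ0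
  e1 j _ Y hY hY1 := by
    by_cases hj : j < J
    · rw [if_pos hj]
      rw [eG_lt G hj] at hY
      obtain ⟨Y0, hY0, rfl⟩ := StronglyMeasurable.exists_eq_measurable_comp (mY := G j) hY
      have hY01 : ∀ ω, |Y0 ω| ≤ 1 := fun ω => hY1 (ω, fun _ => false)
      have h1 := h.e1 j hj Y0 hY0 hY01
      have hm : AEStronglyMeasurable (fun ω => Y0 ω * (w (j + 1) ω - w j ω)) P :=
        ((hY0.mono (G.le j)).mul ((h.mw0 _).sub (h.mw0 _))).aestronglyMeasurable
      rw [← integral_fst hm] at h1
      convert h1 using 3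
      funext p
      rw [ew_le hj.le, ew_le hj]
      rfl
    · rw [if_neg hj]
      rw [eG_ge G hj] at hY
      have hfac := hY.factorsThrough
      have hYm : StronglyMeasurable Y := hY.mono (measurable_res _).comap_le
      have hzero : ∫ p, Y p * (ew w t T0 M0 q d J (j + 1) p - ew w t T0 M0 q d J j p)
          ∂(P.prod coins) = 0 := by
        simp_rw [ew_step_ge hj]
        refine integral_odd (j - J) ?_ ?_
        · refine hYm.mul (StronglyMeasurable.indicator ?_ (meas_Al (h.mw0 J) (h.mt0 J) _))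
          exact ((measurable_of_finite sgb).comp
            ((measurable_pi_apply (j - J)).comp measurable_snd)).stronglyMeasurable.mul_const q
        · intro ω ξ
          have e1 : Y (ω, flip1 (j - J) ξ) = Y (ω, ξ) := hfac (res_flip _ ω ξ)
          have e2 : wk T0 M0 q d (w J) (t J) (j - J) (ω, flip1 (j - J) ξ)
              = wk T0 M0 q d (w J) (t J) (j - J) (ω, ξ) := by
            rw [← wk_res le_rfl (ω, flip1 (j - J) ξ), res_flip, wk_res le_rfl]
          have e3 : (ω, flip1 (j - J) ξ) ∈ Al T0 M0 q d (w J) (t J) (j - J)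
              ↔ (ω, ξ) ∈ Al T0 M0 q d (w J) (t J) (j - J) := by
            show (_ ∧ _) ↔ (_ ∧ _)
            rw [e2]
          rw [e1]
          by_cases hA : (ω, ξ) ∈ Al T0 M0 q d (w J) (t J) (j - J)
          · rw [Set.indicator_of_mem hA, Set.indicator_of_mem (e3.2 hA)]
            have e4 : flip1 (j - J) ξ (j - J) = !ξ (j - J) := by simp [flip1]
            show Y (ω, ξ) * (sgb (flip1 (j - J) ξ (j - J)) * q)
              = -(Y (ω, ξ) * (sgb (ξ (j - J)) * q))
            rw [e4, sgb_not]
            ring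
          · rw [Set.indicator_of_notMem hA, Set.indicator_of_notMem (fun h => hA (e3.1 h))]
            ring
      rw [hzero, abs_zero]
  e2 j _ Y hY hY1 := by
    by_cases hj : j < J
    · rw [if_pos hj]
      rw [eG_lt G hj] at hY
      obtain ⟨Y0, hY0, rfl⟩ := StronglyMeasurable.exists_eq_measurable_comp (mY := G j) hY
      have hY01 : ∀ ω, |Y0 ω| ≤ 1 := fun ω => hY1 (ω, fun _ => false)
      have h1 := h.e2 j hj Y0 hY0 hY01
      have hm : AEStronglyMeasurable
          (fun ω => Y0 ω * ((w (j + 1) ω - w j ω) ^ 2 - c * (t (j + 1) ω - t j ω))) P :=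
        ((hY0.mono (G.le j)).mul ((((h.mw0 _).sub (h.mw0 _)).pow 2).sub
          (((h.mt0 _).sub (h.mt0 _)).const_mul c))).aestronglyMeasurable
      rw [← integral_fst hm] at h1
      convert h1 using 3
      funext p
      rw [ew_le hj.le, ew_le hj, et_le hj.le, et_le hj]
      rfl
    · rw [if_neg hj]
      have hzero : ∀ p, Y p * ((ew w t T0 M0 q d J (j + 1) p - ew w t T0 M0 q d J j p) ^ 2
          - c * (et w t T0 M0 q d J (j + 1) p - et w t T0 M0 q d J j p)) = 0 := by
        intro p
        rw [ew_step_ge hj, et_step_ge hj]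
        by_cases hA : p ∈ Al T0 M0 q d (w J) (t J) (j - J)
        · rw [Set.indicator_of_mem hA, Set.indicator_of_mem hA, mul_pow, sgb_sq, hqd]
          ring
        · rw [Set.indicator_of_notMem hA, Set.indicator_of_notMem hA]
          ring
      simp_rw [hzero]
      simp

/-- the extended array is never stopped early -/
theorem Arr.coin_BAD (h : Arr w t G P c T0 M0 δ a b J) {L : ℕ} (hL : T0 ≤ L * d) :
    BAD (ew w t T0 M0 q d J) (et w t T0 M0 q d J) T0 M0 (J + L) = ∅ := by
  rw [Set.eq_empty_iff_forall_notMem]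
  rintro p ⟨h1, h2⟩
  rw [et_ge (by omega), show J + L - J = L by omega] at h1
  rw [ew_ge (by omega), show J + L - J = L by omega] at h2
  have h3 : p ∈ Al T0 M0 q d (w J) (t J) L := ⟨h1, h2⟩
  rw [wk_alive h3] at h1
  have h4 := h.t_nonneg le_rfl p.1
  linarith

lemma eps_coin (a b : ℕ → ℝ) (J L : ℕ) :
    eps (fun j => if j < J then a j else 0) (fun j => if j < J then b j else 0) (J + L)
      = eps a b J := by
  unfold eps
  rw [Finset.sum_range_add]
  have h1 : ∑ j ∈ Finset.range L, ((if J + j < J then a (J + j) else 0)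
      + if J + j < J then b (J + j) else 0) = 0 := by
    refine Finset.sum_eq_zero fun j _ => ?_
    have : ¬ J + j < J := by omega
    rw [if_neg this, if_neg this, add_zero]
  rw [h1, add_zero]
  refine Finset.sum_congr rfl fun j hj => ?_
  dsimp only
  rw [if_pos (Finset.mem_range.1 hj), if_pos (Finset.mem_range.1 hj)]

end ext

end H37.Levy
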