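import Pool.Agent.H37.Levy.Interp
import Pool.Agent.H54.M7.Tight

/-!
# Tightness of interpolated processes
-/

open MeasureTheory ProbabilityTheory Filter
open scoped ENNReal NNReal Topology

namespace H37.Levy

/-- asymptotic equicontinuity of a family of processes along a filter -/
def AC {E : Type*} [NormedAddCommGroup E] {ι : Type*} (l : Filter ι) {Ω : ι → Type*}
    {mΩ : ∀ i, MeasurableSpace (Ω i)} (P : ∀ i, Measure (Ω i)) (X : ∀ i, ℝ → Ω i → E) : Prop :=
  ∀ T r κ : ℝ, 0 < r → 0 < κ →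
    ∃ η > 0, ∀ᶠ i in l, (P i).real {ω | Osc T η r (fun s => X i s ω)} ≤ κ

section close

variable {E : Type*} [NormedAddCommGroup E] [NormedSpace ℝ E] {ι : Type*} {l : Filter ι}
  {Ω : ι → Type*} {mΩ : ∀ i, MeasurableSpace (Ω i)} {P : ∀ i, Measure (Ω i)}
  {X : ∀ i, ℝ → Ω i → E}

/-- the interpolation is uniformly close to the process -/
theorem AC.tendsto_close [∀ i, IsProbabilityMeasure (P i)] (h : AC l P X) {N K : ι → ℕ}
    (hN : Tendsto (fun i => (N i : ℝ)) l atTop)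
    (hK : Tendsto (fun i => (K i : ℝ) / N i) l atTop) (T : ℝ) {r : ℝ} (hr : 0 < r) :
    Tendsto (fun i => (P i).real {ω | ∃ s : ℝ≥0, (s : ℝ) ≤ T ∧
      r ≤ ‖lin (N i) (K i) (fun k => X i (k / N i) ω) s - X i s ω‖}) l (𝓝 0) := by
  rw [Metric.tendsto_nhds]
  intro κ hκ
  obtain ⟨η, hη, hev⟩ := h (T + 1) (r / 2) (κ / 2) (by linarith) (by linarith)
  filter_upwards [hev, hN.eventually_gt_atTop 0, hN.eventually_ge_atTop (1 / η),
    hN.eventually_ge_atTop 1, hK.eventually_gt_atTop T] with i hi hN0 hNη hN1 hKi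
  rw [dist_zero_right, Real.norm_of_nonneg measureReal_nonneg]
  refine lt_of_le_of_lt ?_ (lt_of_le_of_lt hi (by linarith))
  refine measureReal_mono ?_ (measure_ne_top _ _)
  rintro ω ⟨s, hs, hsr⟩
  show Osc (T + 1) η (r / 2) (fun s => X i s ω)
  by_contra hno
  have hNnat : 0 < N i := by exact_mod_cast hN0
  have h1N : 1 / (N i : ℝ) ≤ 1 := by rw [div_le_one hN0]; exact hN1
  have h1η : 1 / (N i : ℝ) ≤ η := by
    rw [div_le_iff₀ hN0]
    rw [div_le_iff₀ hη] at hNη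
    linarith
  have hno' : ¬ Osc (T + 1 / N i) η (r / 2) (fun s => X i s ω) := fun h' =>
    hno (h'.mono (by linarith) le_rfl le_rfl)
  have hKT : (N i : ℝ) * T < K i := by
    rw [lt_div_iff₀ hN0] at hKi
    linarith
  have := lin_close hNnat h1η hno' hKT hs
  linarith

end close

section single

variable {E : Type*} [MetricSpace E] [MeasurableSpace C(ℝ≥0, E)] [BorelSpace C(ℝ≥0, E)]

omit [MeasurableSpace C(ℝ≥0, E)] [BorelSpace C(ℝ≥0, E)] in
lemma isOpen_osc (T θ r : ℝ) : IsOpen {f : C(ℝ≥0, E) | ∃ s t : ℝ≥0, (s : ℝ) ≤ T ∧ (t : ℝ) ≤ T ∧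
    dist s t ≤ θ ∧ r < dist (f s) (f t)} := by
  have : {f : C(ℝ≥0, E) | ∃ s t : ℝ≥0, (s : ℝ) ≤ T ∧ (t : ℝ) ≤ T ∧ dist s t ≤ θ ∧
      r < dist (f s) (f t)} = ⋃ (s : ℝ≥0), ⋃ (t : ℝ≥0), ⋃ (_ : (s : ℝ) ≤ T ∧ (t : ℝ) ≤ T ∧
        dist s t ≤ θ), {f : C(ℝ≥0, E) | r < dist (f s) (f t)} := by
    ext f
    simp only [Set.mem_ofPred_eq, Set.mem_iUnion, exists_prop]
    constructor
    · rintro ⟨s, t, h1, h2, h3, h4⟩; exact ⟨s, t, ⟨h1, h2, h3⟩, h4⟩
    · rintro ⟨s, t, ⟨h1, h2, h3⟩, h4⟩; exact ⟨s, t, h1, h2, h3, h4⟩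
  rw [this]
  refine isOpen_iUnion fun s => isOpen_iUnion fun t => isOpen_iUnion fun _ => ?_
  exact isOpen_lt continuous_const
    ((continuous_eval_const s).dist (continuous_eval_const t))

/-- modulus of continuity of a single law -/
lemma single_modulus (μ : Measure C(ℝ≥0, E)) [IsFiniteMeasure μ] (T r : ℝ) (hr : 0 < r)
    (ε : ℝ≥0∞) (hε : 0 < ε) :
    ∃ θ > 0, μ {f | ∃ s t : ℝ≥0, (s : ℝ) ≤ T ∧ (t : ℝ) ≤ T ∧ dist s t ≤ θ ∧
      r < dist (f s) (f t)} ≤ ε := by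
  set A : ℕ → Set C(ℝ≥0, E) := fun n => {f | ∃ s t : ℝ≥0, (s : ℝ) ≤ T ∧ (t : ℝ) ≤ T ∧
    dist s t ≤ 1 / ((n : ℝ) + 1) ∧ r < dist (f s) (f t)} with hA
  have hanti : Antitone A := by
    intro m n hmn f hf
    obtain ⟨s, t, h1, h2, h3, h4⟩ := hf
    refine ⟨s, t, h1, h2, h3.trans ?_, h4⟩
    apply one_div_le_one_div_of_le (by positivity)
    have : (m : ℝ) ≤ n := by exact_mod_cast hmn
    linarith
  have hempty : ⋂ n, A n = ∅ := by
    rw [Set.eq_empty_iff_forall_notMem]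
    intro f hf
    rw [Set.mem_iInter] at hf
    have hcomp : IsCompact (Set.Icc (0 : ℝ≥0) T.toNNReal) := isCompact_Icc
    have huc := hcomp.uniformContinuousOn_of_continuous f.continuous.continuousOn
    rw [Metric.uniformContinuousOn_iff] at huc
    obtain ⟨δ, hδ, hf'⟩ := huc r hr
    obtain ⟨n, hn⟩ := exists_nat_one_div_lt hδ
    obtain ⟨s, t, h1, h2, h3, h4⟩ := hf n
    have hs : s ∈ Set.Icc (0 : ℝ≥0) T.toNNReal := ⟨zero_le, by
      rw [← Real.toNNReal_coe (r := s)]; exact Real.toNNReal_le_toNNReal h1⟩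
    have ht : t ∈ Set.Icc (0 : ℝ≥0) T.toNNReal := ⟨zero_le, by
      rw [← Real.toNNReal_coe (r := t)]; exact Real.toNNReal_le_toNNReal h2⟩
    exact absurd h4 (not_lt.2 (hf' s hs t ht (h3.trans_lt hn)).le)
  have hlim := tendsto_measure_iInter_atTop (μ := μ) (s := A)
    (fun n => (isOpen_osc _ _ _).measurableSet.nullMeasurableSet) hanti ⟨0, measure_ne_top _ _⟩
  rw [hempty, measure_empty] at hlim
  obtain ⟨n, hn⟩ := (hlim.eventually_le_const hε).exists
  exact ⟨1 / ((n : ℝ) + 1), by positivity, hn⟩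

end single

section tight

variable {E : Type*} [NormedAddCommGroup E] [NormedSpace ℝ E] [ProperSpace E]
  [MeasurableSpace E] [BorelSpace E] [SecondCountableTopology E]
  [MeasurableSpace C(ℝ≥0, E)] [BorelSpace C(ℝ≥0, E)]
  {Ω : ℕ → Type*} {mΩ : ∀ i, MeasurableSpace (Ω i)} {P : ∀ i, Measure (Ω i)}
  {X : ∀ i, ℝ → Ω i → E}

omit [ProperSpace E] in
lemma measurable_lin {Ω : Type*} {m0 : MeasurableSpace Ω} {X : ℝ → Ω → E}
    (hX : ∀ s, Measurable (X s)) (N K : ℕ) :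
    Measurable fun ω => lin N K (fun k => X (k / N) ω) :=
  (continuous_lin N K).measurable.comp (measurable_pi_lambda _ fun _ => hX _)

/-- **tightness** of the laws of the interpolated processes -/
theorem AC.tight [∀ i, IsProbabilityMeasure (P i)] (h : AC atTop P X)
    (hX : ∀ i s, Measurable (X i s)) {R : ℝ} (hR : ∀ i ω, ‖X i 0 ω‖ ≤ R) {N K : ℕ → ℕ}
    (hN : Tendsto (fun i => (N i : ℝ)) atTop atTop)
    (hK : Tendsto (fun i => (K i : ℝ) / N i) atTop atTop) :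
    IsTightMeasureSet {x : Measure C(ℝ≥0, E) | ∃ m, (P m).map
      (fun ω => lin (N m) (K m) (fun k => X m (k / N m) ω)) = x} := by
  have hprob : ∀ m, IsProbabilityMeasure ((P m).map
      (fun ω => lin (N m) (K m) (fun k => X m (k / N m) ω))) := fun m =>
    Measure.isProbabilityMeasure_map (measurable_lin (hX m) _ _).aemeasurable
  have hset : ∀ T θ r : ℝ, MeasurableSet {f : C(ℝ≥0, E) | ∃ s t : ℝ≥0, (s : ℝ) ≤ T ∧
      (t : ℝ) ≤ T ∧ dist s t ≤ θ ∧ r < dist (f s) (f t)} := fun T θ r =>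
    (isOpen_osc _ _ _).measurableSet
  refine Pool.Agent.H54.M7.tight_of_modulus (0 : E) ?_ ?_
  · intro ε _
    refine ⟨R, ?_⟩
    rintro _ ⟨m, rfl⟩
    have hm : MeasurableSet {f : C(ℝ≥0, E) | R < dist (f 0) 0} := by
      have : IsOpen {f : C(ℝ≥0, E) | R < dist (f 0) 0} :=
        isOpen_lt continuous_const ((continuous_eval_const 0).dist continuous_const)
      exact this.measurableSet
    rw [Measure.map_apply (measurable_lin (hX m) _ _) hm]
    have : (fun ω => lin (N m) (K m) (fun k => X m (k / N m) ω)) ⁻¹'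
        {f : C(ℝ≥0, E) | R < dist (f 0) 0} = ∅ := by
      rw [Set.eq_empty_iff_forall_notMem]
      intro ω hω
      have h1 : R < dist (lin (N m) (K m) (fun k => X m (k / N m) ω) 0) 0 := hω
      rw [dist_zero_right, lin_apply] at h1
      have h2 : ∀ k : ℕ, clamp ((N m : ℝ) * ((0 : ℝ≥0) : ℝ) - k) = 0 := by
        intro k
        apply clamp_zero
        simp
      simp only [h2, zero_smul, Finset.sum_const_zero, add_zero, Nat.cast_zero, zero_div] at h1
      exact absurd h1 (not_lt.2 (hR m ω))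
    rw [this, measure_empty]
    exact zero_le
  · intro T r hr ε hε
    set κ : ℝ := (min ε 1).toReal with hκ
    have hmin : min ε 1 ≠ ∞ := ne_top_of_le_ne_top ENNReal.one_ne_top (min_le_right _ _)
    have hκ0 : 0 < κ := ENNReal.toReal_pos (lt_min hε zero_lt_one).ne' hmin
    obtain ⟨η, hη, hev⟩ := h (T + 1) (r / 5) κ (by linarith) hκ0
    have hev' : ∀ᶠ m in atTop, (P m).map (fun ω => lin (N m) (K m) (fun k => X m (k / N m) ω))
        {f | ∃ s t : ℝ≥0, (s : ℝ) ≤ T ∧ (t : ℝ) ≤ T ∧ dist s t ≤ η ∧ r < dist (f s) (f t)}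
        ≤ ε := by
      filter_upwards [hev, hN.eventually_gt_atTop 0, hN.eventually_ge_atTop (1 / η),
        hN.eventually_ge_atTop 1, hK.eventually_gt_atTop T] with i hi hN0 hNη hN1 hKi
      rw [Measure.map_apply (measurable_lin (hX i) _ _) (hset _ _ _)]
      have hsub : (fun ω => lin (N i) (K i) (fun k => X i (k / N i) ω)) ⁻¹'
          {f | ∃ s t : ℝ≥0, (s : ℝ) ≤ T ∧ (t : ℝ) ≤ T ∧ dist s t ≤ η ∧ r < dist (f s) (f t)}
          ⊆ {ω | Osc (T + 1) η (r / 5) (fun s => X i s ω)} := by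
        rintro ω ⟨s, t, hs, ht, hst, hr'⟩
        show Osc (T + 1) η (r / 5) (fun s => X i s ω)
        by_contra hno
        have hNnat : 0 < N i := by exact_mod_cast hN0
        have h1N : 1 / (N i : ℝ) ≤ 1 := by rw [div_le_one hN0]; exact hN1
        have h1η : 1 / (N i : ℝ) ≤ η := by
          rw [div_le_iff₀ hN0]
          rw [div_le_iff₀ hη] at hNη
          linarith
        have hno' : ¬ Osc (T + 1 / N i) η (r / 5) (fun s => X i s ω) := fun h' =>
          hno (h'.mono (by linarith) le_rfl le_rfl)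
        have hKT : (N i : ℝ) * T < K i := by
          rw [lt_div_iff₀ hN0] at hKi
          linarith
        have := lin_modulus hNnat h1η hno' hKT hs ht hst
        dsimp only at hr'
        linarith
      calc P i _ ≤ P i {ω | Osc (T + 1) η (r / 5) (fun s => X i s ω)} := measure_mono hsub
        _ ≤ ENNReal.ofReal κ := by
            rw [← ENNReal.ofReal_toReal (measure_ne_top (P i) _)]
            exact ENNReal.ofReal_le_ofReal hi
        _ = min ε 1 := ENNReal.ofReal_toReal hmin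
        _ ≤ ε := min_le_left _ _
    obtain ⟨m0, hm0⟩ := eventually_atTop.1 hev'
    choose θ hθ hθ' using fun m : ℕ => single_modulus ((P m).map
      (fun ω => lin (N m) (K m) (fun k => X m (k / N m) ω))) (T : ℝ) r hr ε hε
    have hfin : ∃ θ0 > 0, ∀ m < m0, θ0 ≤ θ m := by
      clear hm0
      induction m0 with
      | zero => exact ⟨1, one_pos, fun m hm => absurd hm (Nat.not_lt_zero m)⟩
      | succ n ih =>
        obtain ⟨θ0, h0, h1⟩ := ih
        refine ⟨min θ0 (θ n), lt_min h0 (hθ n), fun m hm => ?_⟩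
        rcases Nat.lt_succ_iff_lt_or_eq.1 hm with h2 | h2
        · exact (min_le_left _ _).trans (h1 m h2)
        · rw [h2]; exact min_le_right _ _
    obtain ⟨θ0, hθ0, hθ0'⟩ := hfin
    refine ⟨min η θ0, lt_min hη hθ0, ?_⟩
    rintro _ ⟨m, rfl⟩
    have hmono : ∀ θ' : ℝ, min η θ0 ≤ θ' → {f : C(ℝ≥0, E) | ∃ s t : ℝ≥0, s ≤ (T : ℝ≥0) ∧
        t ≤ (T : ℝ≥0) ∧ dist s t ≤ min η θ0 ∧ r < dist (f s) (f t)}
        ⊆ {f | ∃ s t : ℝ≥0, (s : ℝ) ≤ (T : ℝ) ∧ (t : ℝ) ≤ (T : ℝ) ∧ dist s t ≤ θ' ∧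
          r < dist (f s) (f t)} := by
      rintro θ' hθ' f ⟨s, t, h1, h2, h3, h4⟩
      refine ⟨s, t, ?_, ?_, h3.trans hθ', h4⟩
      · exact_mod_cast h1
      · exact_mod_cast h2
    rcases lt_or_ge m m0 with hm | hm
    · exact (measure_mono (hmono (θ m) ((min_le_right _ _).trans (hθ0' m hm)))).trans (hθ' m)
    · exact (measure_mono (hmono η (min_le_left _ _))).trans (hm0 m hm)

end tight

end H37.Levy
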