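import Pool.Agent.H37.Levy.Array10
import Pool.Agent.H37.Levy.Interp2
import Pool.Agent.H54.M7.Joint

/-!
# Arrays which are nearly Brownian: joint convergence with a curve

The final form: the driving process comes from arrays, the curve process is asymptotically
equicontinuous, the limiting relation determines the curve.
-/

open MeasureTheory ProbabilityTheory Filter
open scoped ENNReal NNReal Topology

namespace H37.Levy

section AC

variable {ι : Type*} {l : Filter ι} {Ω : ι → Type*} {mΩ : ∀ i, MeasurableSpace (Ω i)}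
  {P : ∀ i, Measure (Ω i)} {w t : ∀ i, ℕ → Ω i → ℝ} {G : ∀ i, Filtration ℕ (mΩ i)} {c : ℝ}
  {T0 M0 δ : ι → ℝ} {a b : ι → ℕ → ℝ} {J : ι → ℕ}

/-- the process in time is asymptotically equicontinuous -/
theorem AC_XX [∀ i, IsProbabilityMeasure (P i)] (hc : 0 ≤ c)
    (h : ∀ᶠ i in l, Arr (w i) (t i) (G i) (P i) c (T0 i) (M0 i) (δ i) (a i) (b i) (J i))
    (hT0 : Tendsto T0 l atTop) (hδ : Tendsto δ l (𝓝 0))
    (he : Tendsto (fun i => eps (a i) (b i) (J i)) l (𝓝 0)) :
    AC l P (fun i s ω => XX (w i) (t i) (J i) s ω) := by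
  intro T r κ hr hκ
  set T' : ℝ := max T 0 with hT'
  have hT'0 : 0 ≤ T' := le_max_right _ _
  obtain ⟨η, hη, d, hd, hsmall⟩ := modulus_small (c := c) (T0 := T') (r := r / 2) (κ := κ) hc hT'0
    (by linarith) hκ
  refine ⟨η / 2, by linarith, ?_⟩
  filter_upwards [h, hT0.eventually_ge_atTop T', hδ.eventually_le_const hd,
    he.eventually_le_const hd, hδ.eventually_le_const (show (0 : ℝ) < η / 2 by linarith)]
    with i hi hTi hδi hei hδη
  have hr' := hi.restrict hT'0 hTi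
  refine le_trans ?_ (hsmall hr' hδi hei)
  refine measureReal_mono ?_ (measure_ne_top _ _)
  rintro ω ⟨u, u', hu0, huu, hu'T, huη, hdiff⟩
  have hu'T' : u' ≤ T' := hu'T.trans (le_max_left _ _)
  have huT' : u ≤ T' := huu.trans hu'T'
  rw [Real.norm_eq_abs] at hdiff
  dsimp only at hdiff
  rw [← hi.XX_stp hu'T' ω, ← hi.XX_stp huT' ω] at hdiff
  refine ⟨jj (stp (t i) (J i) T' (t i)) (J i) u ω, jj (stp (t i) (J i) T' (t i)) (J i) u' ω,
    jj_mono _ _ huu ω, jj_le _ _ _ ω, ?_, ?_⟩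
  · have h1 := hr'.TT_le (hu0.trans huu) ω
    unfold TT at h1
    rcases lt_or_eq_of_le (jj_le (stp (t i) (J i) T' (t i)) (J i) u ω) with h2 | h2
    · have h3 := hr'.le_TT_of_lt h2
      unfold TT at h3
      linarith
    · have h3 : jj (stp (t i) (J i) T' (t i)) (J i) u' ω
          = jj (stp (t i) (J i) T' (t i)) (J i) u ω := by
        have h4 := jj_mono (stp (t i) (J i) T' (t i)) (J i) huu ω
        have h5 := jj_le (stp (t i) (J i) T' (t i)) (J i) u' ω
        omega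
      rw [h3]
      linarith
  · have h1 : 2 * (r / 2) = r := by ring
    rw [h1]
    exact hdiff

end AC

/-- tightness of joint laws from tightness of the marginals -/
theorem tight_prod {E F : Type*} [TopologicalSpace E] [MeasurableSpace E] [OpensMeasurableSpace E]
    [T2Space E] [TopologicalSpace F] [MeasurableSpace F] [OpensMeasurableSpace F] [T2Space F]
    {Ω : ℕ → Type*} {mΩ : ∀ i, MeasurableSpace (Ω i)} {P : ∀ i, Measure (Ω i)}
    {x : ∀ i, Ω i → E} {y : ∀ i, Ω i → F} (hx : ∀ i, Measurable (x i))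
    (hy : ∀ i, Measurable (y i))
    (tx : IsTightMeasureSet {z : Measure E | ∃ m, (P m).map (x m) = z})
    (ty : IsTightMeasureSet {z : Measure F | ∃ m, (P m).map (y m) = z}) :
    IsTightMeasureSet {z : Measure (E × F) | ∃ m, (P m).map (fun ω => (x m ω, y m ω)) = z} := by
  rw [isTightMeasureSet_iff_exists_isCompact_measure_compl_le] at tx ty ⊢
  intro ε hε
  obtain ⟨K, hK, hK'⟩ := tx (ε / 2) (ENNReal.half_pos hε.ne')
  obtain ⟨L, hL, hL'⟩ := ty (ε / 2) (ENNReal.half_pos hε.ne')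
  refine ⟨K ×ˢ L, hK.prod hL, ?_⟩
  rintro _ ⟨m, rfl⟩
  have hKm : MeasurableSet Kᶜ := hK.isClosed.measurableSet.compl
  have hLm : MeasurableSet Lᶜ := hL.isClosed.measurableSet.compl
  have h1 := hK' _ ⟨m, rfl⟩
  have h2 := hL' _ ⟨m, rfl⟩
  rw [Measure.map_apply (hx m) hKm] at h1
  rw [Measure.map_apply (hy m) hLm] at h2
  have hm : MeasurableSet (K ×ˢ L)ᶜ :=
    (hK.isClosed.measurableSet.prod hL.isClosed.measurableSet).compl
  rw [Measure.map_apply ((hx m).prodMk (hy m)) hm]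
  calc P m ((fun ω => (x m ω, y m ω)) ⁻¹' (K ×ˢ L)ᶜ)
      ≤ P m (x m ⁻¹' Kᶜ ∪ y m ⁻¹' Lᶜ) := by
        refine measure_mono fun ω hω => ?_
        by_contra h'
        rw [Set.mem_union, not_or] at h'
        refine hω ⟨?_, ?_⟩
        · exact not_not.1 h'.1
        · exact not_not.1 h'.2
    _ ≤ P m (x m ⁻¹' Kᶜ) + P m (y m ⁻¹' Lᶜ) := measure_union_le _ _
    _ ≤ ε / 2 + ε / 2 := add_le_add h1 h2
    _ = ε := ENNReal.add_halves ε

section joint

variable {E : Type*} [NormedAddCommGroup E] [NormedSpace ℝ E] [ProperSpace E]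
  [MeasurableSpace E] [BorelSpace E] [SecondCountableTopology E]
  [MeasurableSpace C(ℝ≥0, E)] [BorelSpace C(ℝ≥0, E)]
  [MeasurableSpace C(ℝ≥0, ℝ)] [BorelSpace C(ℝ≥0, ℝ)]
  {Ω : ℕ → Type*} {mΩ : ∀ i, MeasurableSpace (Ω i)} {P : ∀ i, Measure (Ω i)}
  {w t : ∀ i, ℕ → Ω i → ℝ} {G : ∀ i, Filtration ℕ (mΩ i)} {c : ℝ}
  {T0 M0 δ : ℕ → ℝ} {a b : ℕ → ℕ → ℝ} {J : ℕ → ℕ}

/-- **final form**: `Y` is the curve process (asymptotically equicontinuous), the driving process
comes from arrays; `A m` is a relation between the interpolated curve and the interpolated driving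
function which holds with probability tending to one; in the upper limit of the relations the
driving function determines the curve. -/
theorem joint_arrays [∀ i, IsProbabilityMeasure (P i)] (hc : 0 < c)
    (h : ∀ i, Arr (w i) (t i) (G i) (P i) c (T0 i) (M0 i) (δ i) (a i) (b i) (J i))
    (hbad : Tendsto (fun i => (P i).real (BAD (w i) (t i) (T0 i) (M0 i) (J i))) atTop (𝓝 0))
    (hT0 : Tendsto T0 atTop atTop) (hM0 : Tendsto M0 atTop atTop) (hδ : Tendsto δ atTop (𝓝 0))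
    (he : Tendsto (fun i => eps (a i) (b i) (J i)) atTop (𝓝 0))
    {Y : ∀ i, ℝ → Ω i → E} (hY : ∀ i s, Measurable (Y i s)) {R : ℝ} (hR : ∀ i ω, ‖Y i 0 ω‖ ≤ R)
    (hYc : AC atTop P Y) {N K : ℕ → ℕ} (hN : Tendsto (fun i => (N i : ℝ)) atTop atTop)
    (hK : Tendsto (fun i => (K i : ℝ) / N i) atTop atTop)
    {A : ℕ → Set (C(ℝ≥0, E) × C(ℝ≥0, ℝ))}
    (hA : Tendsto (fun m => P m {ω | (lin (N m) (K m) (fun k => Y m (k / N m) ω),
      lin (N m) (K m) (fun k => XX (w m) (t m) (J m) (k / N m) ω)) ∈ A m}) atTop (𝓝 1))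
    (hT : ∀ e e' f, (e, f) ∈ Pool.Agent.H54.M7.Ls A → (e', f) ∈ Pool.Agent.H54.M7.Ls A → e = e') :
    ∃ μ : ProbabilityMeasure (C(ℝ≥0, E) × C(ℝ≥0, ℝ)),
      (∀ μs : ℕ → ProbabilityMeasure (C(ℝ≥0, E) × C(ℝ≥0, ℝ)),
        (∀ m, (μs m : Measure _) = (P m).map (fun ω =>
          (lin (N m) (K m) (fun k => Y m (k / N m) ω),
            lin (N m) (K m) (fun k => XX (w m) (t m) (J m) (k / N m) ω)))) →
        Tendsto μs atTop (𝓝 μ)) ∧
      (μ : Measure (C(ℝ≥0, E) × C(ℝ≥0, ℝ))) (Pool.Agent.H54.M7.Ls A)ᶜ = 0 ∧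
      IsBrownianReal (fun (s : ℝ≥0) (z : C(ℝ≥0, E) × C(ℝ≥0, ℝ)) => (Real.sqrt c)⁻¹ * z.2 s)
        (μ : Measure (C(ℝ≥0, E) × C(ℝ≥0, ℝ))) := by
  have hXm : ∀ i s, Measurable (fun ω => XX (w i) (t i) (J i) s ω) := fun i s =>
    ((h i).sm_XX s).measurable
  have hXc : AC atTop P (fun i s ω => XX (w i) (t i) (J i) s ω) :=
    AC_XX hc.le (Eventually.of_forall h) hT0 hδ he
  have hX0 : ∀ i ω, XX (w i) (t i) (J i) 0 ω = 0 := by
    intro i ω
    have : jj (t i) (J i) 0 ω = 0 := by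
      by_contra h'
      have h4 := ((h i).lt_jj.1 (Nat.pos_of_ne_zero h'))
      have h5 := (h i).t0 ω
      linarith [h4.2]
    unfold XX
    rw [this]
    exact (h i).w0 ω
  set x : ∀ i, Ω i → C(ℝ≥0, E) := fun m ω => lin (N m) (K m) (fun k => Y m (k / N m) ω) with hx
  set y : ∀ i, Ω i → C(ℝ≥0, ℝ) := fun m ω =>
    lin (N m) (K m) (fun k => XX (w m) (t m) (J m) (k / N m) ω) with hy
  have hxm : ∀ i, Measurable (x i) := fun i => measurable_lin (hY i) _ _
  have hym : ∀ i, Measurable (y i) := fun i => measurable_lin (hXm i) _ _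
  have tx := hYc.tight hY hR hN hK
  have ty := hXc.tight hXm (R := 0) (fun i ω => by rw [hX0]; simp) hN hK
  have txy := tight_prod hxm hym tx ty
  have hprob : ∀ m, IsProbabilityMeasure ((P m).map (fun ω => (x m ω, y m ω))) := fun m =>
    Measure.isProbabilityMeasure_map ((hxm m).prodMk (hym m)).aemeasurable
  set μs : ℕ → ProbabilityMeasure (C(ℝ≥0, E) × C(ℝ≥0, ℝ)) := fun m =>
    ⟨(P m).map (fun ω => (x m ω, y m ω)), hprob m⟩ with hμs
  have ht : IsTightMeasureSet {z | ∃ m, (μs m : Measure (C(ℝ≥0, E) × C(ℝ≥0, ℝ))) = z} := txy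
  have hAm : Tendsto (fun m => (μs m : Measure (C(ℝ≥0, E) × C(ℝ≥0, ℝ))) (A m)) atTop (𝓝 1) := by
    refine tendsto_of_tendsto_of_tendsto_of_le_of_le hA tendsto_const_nhds ?_ ?_
    · intro m
      exact Measure.le_map_apply ((hxm m).prodMk (hym m)).aemeasurable (A m)
    · intro m
      exact prob_le_one
  -- subsequential limits
  have pre : ∀ (μ : ProbabilityMeasure (C(ℝ≥0, E) × C(ℝ≥0, ℝ))) (k : ℕ → ℕ), StrictMono k →
      Tendsto (fun m => μs (k m)) atTop (𝓝 μ) →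
      IsPreBrownianReal (fun (s : ℝ≥0) (z : C(ℝ≥0, E) × C(ℝ≥0, ℝ)) => (Real.sqrt c)⁻¹ * z.2 s)
        (μ : Measure (C(ℝ≥0, E) × C(ℝ≥0, ℝ))) := by
    intro μ k hk hμ
    have hkt := hk.tendsto_atTop
    refine brownian_of_arrays (l := atTop) (P := fun m => P (k m)) (w := fun m => w (k m))
      (t := fun m => t (k m)) (G := fun m => G (k m)) (T0 := fun m => T0 (k m))
      (M0 := fun m => M0 (k m)) (δ := fun m => δ (k m)) (a := fun m => a (k m))
      (b := fun m => b (k m)) (J := fun m => J (k m)) (f := fun s z => z.2 s)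
      (x := fun m ω => (x (k m) ω, y (k m) ω)) hc
      (Eventually.of_forall fun m => h (k m)) (hbad.comp hkt) (hT0.comp hkt) (hM0.comp hkt)
      (hδ.comp hkt) (he.comp hkt) (fun s => (continuous_eval_const s).comp continuous_snd) hμ
      (fun m => ((hxm (k m)).prodMk (hym (k m))).aemeasurable) (fun m => rfl) ?_
    intro s r hr
    have h1 := (hXc.tendsto_close hN hK (s : ℝ) hr).comp hkt
    refine squeeze_zero (fun m => measureReal_nonneg) (fun m => ?_) h1
    refine measureReal_mono ?_ (measure_ne_top _ _)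
    intro ω hω
    exact ⟨s, le_rfl, hω⟩
  have tr : ∀ μ : ProbabilityMeasure (C(ℝ≥0, E) × C(ℝ≥0, ℝ)),
      IsPreBrownianReal (fun (s : ℝ≥0) (z : C(ℝ≥0, E) × C(ℝ≥0, ℝ)) => (Real.sqrt c)⁻¹ * z.2 s)
        (μ : Measure (C(ℝ≥0, E) × C(ℝ≥0, ℝ))) →
      IsPreBrownianReal (fun (s : ℝ≥0) (f : C(ℝ≥0, ℝ)) => (Real.sqrt c)⁻¹ * f s)
        ((μ : Measure (C(ℝ≥0, E) × C(ℝ≥0, ℝ))).map Prod.snd) := by
    intro μ hμ
    have hev : ∀ s : ℝ≥0, Measurable fun f : C(ℝ≥0, ℝ) => (Real.sqrt c)⁻¹ * f s := fun s =>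
      ((continuous_eval_const s).measurable).const_mul _
    refine ⟨fun I => ⟨?_, ?_⟩⟩
    · exact (measurable_pi_lambda _ fun j => hev _).aemeasurable
    · rw [← (hμ.hasLaw I).map_eq, Measure.map_map]
      · rfl
      · exact measurable_pi_lambda _ fun j => hev _
      · exact measurable_snd
  have hc' : Real.sqrt c ≠ 0 := (Real.sqrt_pos.2 hc).ne'
  obtain ⟨μ, hμ, hμA⟩ := Pool.Agent.H54.M7.joint_limit μs ht hAm hT (by
    intro μ μ' k k' hk hk' h1 h1'
    have : IsProbabilityMeasure ((μ : Measure (C(ℝ≥0, E) × C(ℝ≥0, ℝ))).map Prod.snd) :=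
      Measure.isProbabilityMeasure_map measurable_snd.aemeasurable
    have : IsProbabilityMeasure ((μ' : Measure (C(ℝ≥0, E) × C(ℝ≥0, ℝ))).map Prod.snd) :=
      Measure.isProbabilityMeasure_map measurable_snd.aemeasurable
    exact Pool.Agent.H54.M7.brown_unique hc' (tr μ (pre μ k hk h1)) (tr μ' (pre μ' k' hk' h1')))
  refine ⟨μ, ?_, hμA, pre μ id strictMono_id hμ, ?_⟩
  · intro μs' hμs'
    have : μs' = μs := by
      funext m
      exact Subtype.ext (hμs' m)
    rw [this]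
    exact hμ
  · exact Eventually.of_forall fun z => continuous_const.mul z.2.continuous

end joint

end H37.Levy
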