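import Pool.Agent.H37.Levy.Array11

/-!
# Arrays with large steps of small probability: truncation

`Raw`: stopped sequences whose steps are bounded but not small. Freezing the sequence just before
its first large step gives an `Arr`; the new errors contain the probability of a large step.
-/

open MeasureTheory ProbabilityTheory Filter
open scoped ENNReal NNReal Topology

namespace H37.Levy

variable {Ω : Type*} {m0 : MeasurableSpace Ω}

/-- a stopped sequence with bounded steps -/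
structure Raw (w t : ℕ → Ω → ℝ) (G : Filtration ℕ m0) (P : Measure Ω) (c T0 M0 C : ℝ)
    (a b : ℕ → ℝ) (J : ℕ) : Prop where
  c0 : 0 ≤ c
  T00 : 0 ≤ T0
  M00 : 0 ≤ M0
  C0 : 0 ≤ C
  mw : ∀ j, StronglyMeasurable[G j] (w j)
  mt : ∀ j, StronglyMeasurable[G j] (t j)
  w0 : ∀ ω, w 0 ω = 0
  t0 : ∀ ω, t 0 ω = 0
  act : ∀ j < J, ∀ ω, w (j + 1) ω ≠ w j ω ∨ t (j + 1) ω ≠ t j ω → |w j ω| ≤ M0 ∧ t j ω ≤ T0
  dw : ∀ j < J, ∀ ω, |w (j + 1) ω - w j ω| ≤ C
  dt0 : ∀ j < J, ∀ ω, 0 ≤ t (j + 1) ω - t j ω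
  dt : ∀ j < J, ∀ ω, t (j + 1) ω - t j ω ≤ C
  e1 : ∀ j < J, ∀ Y : Ω → ℝ, StronglyMeasurable[G j] Y → (∀ ω, |Y ω| ≤ 1) →
    |∫ ω, Y ω * (w (j + 1) ω - w j ω) ∂P| ≤ a j
  e2 : ∀ j < J, ∀ Y : Ω → ℝ, StronglyMeasurable[G j] Y → (∀ ω, |Y ω| ≤ 1) →
    |∫ ω, Y ω * ((w (j + 1) ω - w j ω) ^ 2 - c * (t (j + 1) ω - t j ω)) ∂P| ≤ b j

/-- step `j` is large -/
def Lg (w t : ℕ → Ω → ℝ) (δ : ℝ) (j : ℕ) : Set Ω :=
  {ω | δ < |w (j + 1) ω - w j ω| ∨ δ < t (j + 1) ω - t j ω}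

/-- no large step before `j` -/
def Sm (w t : ℕ → Ω → ℝ) (δ : ℝ) (j : ℕ) : Set Ω := {ω | ∀ i < j, ω ∉ Lg w t δ i}

/-- some step before `J` is large -/
def LARGE (w t : ℕ → Ω → ℝ) (δ : ℝ) (J : ℕ) : Set Ω := {ω | ∃ j < J, ω ∈ Lg w t δ j}

open Classical in
/-- the sequence frozen just before its first large step -/
noncomputable def trn (w t : ℕ → Ω → ℝ) (δ : ℝ) (x : ℕ → Ω → ℝ) : ℕ → Ω → ℝ
  | 0, ω => x 0 ω
  | j + 1, ω => trn w t δ x j ω
      + (if ω ∈ Sm w t δ (j + 1) then x (j + 1) ω - x j ω else 0)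

variable {P : Measure Ω} {w t : ℕ → Ω → ℝ} {G : Filtration ℕ m0} {c T0 M0 C δ : ℝ} {a b : ℕ → ℝ}
  {J : ℕ}

lemma Sm_anti {i j : ℕ} (hij : i ≤ j) : Sm w t δ j ⊆ Sm w t δ i :=
  fun _ h k hk => h k (hk.trans_le hij)

lemma trn_of_Sm {x : ℕ → Ω → ℝ} {j : ℕ} {ω : Ω} (h : ω ∈ Sm w t δ j) :
    trn w t δ x j ω = x j ω := by
  induction j with
  | zero => rfl
  | succ j ih =>
    rw [trn, if_pos h, ih (Sm_anti (Nat.le_succ j) h)]
    ring

lemma trn_of_not_LARGE {x : ℕ → Ω → ℝ} {j : ℕ} {ω : Ω} (hj : j ≤ J) (h : ω ∉ LARGE w t δ J) :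
    trn w t δ x j ω = x j ω :=
  trn_of_Sm fun i hi h' => h ⟨i, hi.trans_le hj, h'⟩

lemma trn_step {x : ℕ → Ω → ℝ} (j : ℕ) (ω : Ω) :
    trn w t δ x (j + 1) ω - trn w t δ x j ω
      = (Sm w t δ (j + 1)).indicator (fun ω => x (j + 1) ω - x j ω) ω := by
  by_cases h : ω ∈ Sm w t δ (j + 1)
  · rw [Set.indicator_of_mem h, trn, if_pos h]; ring
  · rw [Set.indicator_of_notMem h, trn, if_neg h]; ring

/-- the first large step is the step `j` -/
def Fi (w t : ℕ → Ω → ℝ) (δ : ℝ) (j : ℕ) : Set Ω := Sm w t δ j ∩ Lg w t δ j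

lemma Sm_succ (j : ℕ) : Sm w t δ (j + 1) = Sm w t δ j \ Fi w t δ j := by
  ext ω
  constructor
  · intro h
    exact ⟨Sm_anti (Nat.le_succ j) h, fun h' => h j (Nat.lt_succ_self j) h'.2⟩
  · rintro ⟨h1, h2⟩ i hi
    rcases Nat.lt_succ_iff_lt_or_eq.1 hi with h3 | h3
    · exact h1 i h3
    · rw [h3]; exact fun h4 => h2 ⟨h1, h4⟩

namespace Raw

lemma meas_Lg (h : Raw w t G P c T0 M0 C a b J) (δ : ℝ) (j : ℕ) :
    MeasurableSet[G (j + 1)] (Lg w t δ j) := by
  have h1 : StronglyMeasurable[G (j + 1)] fun ω => w (j + 1) ω - w j ω :=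
    (h.mw _).sub ((h.mw j).mono (G.mono (Nat.le_succ j)))
  have h2 : StronglyMeasurable[G (j + 1)] fun ω => t (j + 1) ω - t j ω :=
    (h.mt _).sub ((h.mt j).mono (G.mono (Nat.le_succ j)))
  exact (StronglyMeasurable.measurableSet_lt stronglyMeasurable_const h1.norm).union
    (StronglyMeasurable.measurableSet_lt stronglyMeasurable_const h2)

lemma meas_Sm (h : Raw w t G P c T0 M0 C a b J) (δ : ℝ) (j : ℕ) :
    MeasurableSet[G j] (Sm w t δ j) := by
  have : Sm w t δ j = ⋂ i ∈ Finset.range j, (Lg w t δ i)ᶜ := by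
    ext ω
    simp only [Sm, Set.mem_ofPred_eq, Set.mem_iInter, Finset.mem_range, Set.mem_compl_iff]
  rw [this]
  refine MeasurableSet.biInter (Finset.countable_toSet _) fun i hi => ?_
  have hi' : i + 1 ≤ j := Finset.mem_range.1 hi
  exact (G.mono hi' _ (h.meas_Lg δ i)).compl

lemma meas_Fi (h : Raw w t G P c T0 M0 C a b J) (δ : ℝ) (j : ℕ) :
    MeasurableSet (Fi w t δ j) :=
  (G.le _ _ (h.meas_Sm δ j)).inter (G.le _ _ (h.meas_Lg δ j))

lemma sm_trn (h : Raw w t G P c T0 M0 C a b J) (δ : ℝ) {x : ℕ → Ω → ℝ}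
    (hx : ∀ j, StronglyMeasurable[G j] (x j)) (j : ℕ) :
    StronglyMeasurable[G j] (trn w t δ x j) := by
  induction j with
  | zero => exact hx 0
  | succ j ih =>
    have h1 : trn w t δ x (j + 1) = fun ω => trn w t δ x j ω
        + (Sm w t δ (j + 1)).indicator (fun ω => x (j + 1) ω - x j ω) ω := by
      funext ω
      rw [← trn_step]
      ring
    rw [h1]
    exact (ih.mono (G.mono (Nat.le_succ j))).add
      (((hx _).sub ((hx j).mono (G.mono (Nat.le_succ j)))).indicator (h.meas_Sm δ (j + 1)))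

lemma dw_trn (h : Raw w t G P c T0 M0 C a b J) (hδ0 : 0 ≤ δ) {j : ℕ} (ω : Ω) :
    |trn w t δ w (j + 1) ω - trn w t δ w j ω| ≤ δ := by
  have _ := h.c0
  rw [trn_step]
  by_cases h1 : ω ∈ Sm w t δ (j + 1)
  · rw [Set.indicator_of_mem h1]
    have h2 := h1 j (Nat.lt_succ_self j)
    by_contra h3
    exact h2 (Or.inl (not_le.1 h3))
  · rw [Set.indicator_of_notMem h1, abs_zero]; exact hδ0

lemma dt_trn (h : Raw w t G P c T0 M0 C a b J) (hδ0 : 0 ≤ δ) {j : ℕ} (ω : Ω) :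
    trn w t δ t (j + 1) ω - trn w t δ t j ω ≤ δ := by
  have _ := h.c0
  rw [trn_step]
  by_cases h1 : ω ∈ Sm w t δ (j + 1)
  · rw [Set.indicator_of_mem h1]
    have h2 := h1 j (Nat.lt_succ_self j)
    by_contra h3
    exact h2 (Or.inr (not_le.1 h3))
  · rw [Set.indicator_of_notMem h1]; exact hδ0

lemma bw_trn (h : Raw w t G P c T0 M0 C a b J) (hδ0 : 0 ≤ δ) (hδ1 : δ ≤ 1) {j : ℕ} (hj : j ≤ J)
    (ω : Ω) : |trn w t δ w j ω| ≤ M0 + 1 ∧ trn w t δ t j ω ≤ T0 + 1 := by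
  induction j with
  | zero =>
    rw [trn_of_Sm (fun i hi => absurd hi (Nat.not_lt_zero i)),
      trn_of_Sm (fun i hi => absurd hi (Nat.not_lt_zero i)), h.w0, h.t0, abs_zero]
    have h1 := h.M00
    have h2 := h.T00
    exact ⟨by linarith, by linarith⟩
  | succ j ih =>
    have hjJ : j < J := hj
    have ih' := ih hjJ.le
    by_cases h1 : ω ∈ Sm w t δ (j + 1)
    · have e1 := trn_of_Sm (x := w) (Sm_anti (Nat.le_succ j) h1)
      have e2 := trn_of_Sm (x := t) (Sm_anti (Nat.le_succ j) h1)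
      by_cases h2 : w (j + 1) ω ≠ w j ω ∨ t (j + 1) ω ≠ t j ω
      · have h3 := h.act j hjJ ω h2
        have h4 := h.dw_trn (δ := δ) hδ0 (j := j) ω
        have h5 := h.dt_trn (δ := δ) hδ0 (j := j) ω
        rw [e1] at h4
        rw [e2] at h5
        constructor
        · have h6 : |trn w t δ w (j + 1) ω| ≤ |trn w t δ w (j + 1) ω - w j ω| + |w j ω| := by
            have := abs_add_le (trn w t δ w (j + 1) ω - w j ω) (w j ω)
            simpa using this
          linarith [h3.1]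
        · linarith [h3.2]
      · push Not at h2
        rw [trn_of_Sm (x := w) h1, trn_of_Sm (x := t) h1, h2.1, h2.2, ← e1, ← e2]
        exact ih'
    · have e1 : trn w t δ w (j + 1) ω = trn w t δ w j ω := by
        have := trn_step (w := w) (t := t) (δ := δ) (x := w) j ω
        rw [Set.indicator_of_notMem h1] at this
        linarith
      have e2 : trn w t δ t (j + 1) ω = trn w t δ t j ω := by
        have := trn_step (w := w) (t := t) (δ := δ) (x := t) j ω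
        rw [Set.indicator_of_notMem h1] at this
        linarith
      rw [e1, e2]
      exact ih'

/-- integral of a truncated step against a test function -/
lemma test_trn [IsProbabilityMeasure P] (h : Raw w t G P c T0 M0 C a b J) {D : ℝ} {j : ℕ}
    {Z : Ω → ℝ} (hZm : StronglyMeasurable Z) (hZ : ∀ ω, |Z ω| ≤ D) {e : ℝ}
    (he : ∀ Y : Ω → ℝ, StronglyMeasurable[G j] Y → (∀ ω, |Y ω| ≤ 1) →
      |∫ ω, Y ω * Z ω ∂P| ≤ e)
    {Y : Ω → ℝ} (hY : StronglyMeasurable[G j] Y) (hY1 : ∀ ω, |Y ω| ≤ 1) :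
    |∫ ω, Y ω * (Sm w t δ (j + 1)).indicator Z ω ∂P| ≤ e + D * P.real (Fi w t δ j) := by
  have hYm := (hY.mono (G.le j))
  have hZi : Integrable Z P := Integrable.of_bound hZm.aestronglyMeasurable D
    (Eventually.of_forall hZ)
  have hD : 0 ≤ D ∨ IsEmpty Ω := by
    by_cases hne : Nonempty Ω
    · obtain ⟨ω⟩ := hne
      exact Or.inl ((abs_nonneg _).trans (hZ ω))
    · exact Or.inr (not_nonempty_iff.1 hne)
  have h1 : (fun ω => Y ω * (Sm w t δ (j + 1)).indicator Z ω)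
      = fun ω => ((Sm w t δ j).indicator Y ω * Z ω) - (Fi w t δ j).indicator (fun ω => Y ω * Z ω) ω := by
    funext ω
    rw [Sm_succ]
    by_cases h2 : ω ∈ Sm w t δ j
    · by_cases h3 : ω ∈ Fi w t δ j
      · rw [Set.indicator_of_notMem (fun h4 => h4.2 h3), Set.indicator_of_mem h2,
          Set.indicator_of_mem h3]
        ring
      · rw [Set.indicator_of_mem (show ω ∈ Sm w t δ j \ Fi w t δ j from ⟨h2, h3⟩),
          Set.indicator_of_mem h2, Set.indicator_of_notMem h3]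
        ring
    · have h3 : ω ∉ Fi w t δ j := fun h4 => h2 h4.1
      rw [Set.indicator_of_notMem (fun h4 => h2 h4.1), Set.indicator_of_notMem h2,
        Set.indicator_of_notMem h3]
      ring
  have hYZ : Integrable (fun ω => Y ω * Z ω) P :=
    Integrable.bdd_mul (c := 1) hZi hYm.aestronglyMeasurable (Eventually.of_forall hY1)
  have hSY : StronglyMeasurable[G j] ((Sm w t δ j).indicator Y) := hY.indicator (h.meas_Sm δ j)
  have hSY1 : ∀ ω, |(Sm w t δ j).indicator Y ω| ≤ 1 := by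
    intro ω
    by_cases h2 : ω ∈ Sm w t δ j
    · rw [Set.indicator_of_mem h2]; exact hY1 ω
    · rw [Set.indicator_of_notMem h2, abs_zero]; exact zero_le_one
  have i1 : Integrable (fun ω => (Sm w t δ j).indicator Y ω * Z ω) P :=
    Integrable.bdd_mul (c := 1) hZi (hSY.mono (G.le j)).aestronglyMeasurable
      (Eventually.of_forall hSY1)
  have i2 : Integrable ((Fi w t δ j).indicator (fun ω => Y ω * Z ω)) P :=
    hYZ.indicator (h.meas_Fi δ j)
  rw [h1, integral_sub i1 i2]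
  have h2 := he _ hSY hSY1
  have h3 : |∫ ω, (Fi w t δ j).indicator (fun ω => Y ω * Z ω) ω ∂P|
      ≤ D * P.real (Fi w t δ j) := by
    rcases hD with hD | hD
    · have h4 : ∀ ω, ‖(Fi w t δ j).indicator (fun ω => Y ω * Z ω) ω‖
          ≤ (Fi w t δ j).indicator (fun _ => D) ω := by
        intro ω
        by_cases h5 : ω ∈ Fi w t δ j
        · rw [Set.indicator_of_mem h5, Set.indicator_of_mem h5, norm_mul]
          calc ‖Y ω‖ * ‖Z ω‖ ≤ 1 * D := mul_le_mul (hY1 ω) (hZ ω) (norm_nonneg _) zero_le_one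
            _ = D := one_mul D
        · rw [Set.indicator_of_notMem h5, Set.indicator_of_notMem h5, norm_zero]
      have h5 := norm_integral_le_of_norm_le (μ := P)
        ((integrable_const D).indicator (h.meas_Fi δ j)) (Eventually.of_forall h4)
      rw [integral_indicator_const _ (h.meas_Fi δ j), smul_eq_mul, mul_comm] at h5
      exact h5
    · have : P = 0 := Measure.eq_zero_of_isEmpty P
      simp [this]
  calc _ ≤ |∫ ω, (Sm w t δ j).indicator Y ω * Z ω ∂P|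
        + |∫ ω, (Fi w t δ j).indicator (fun ω => Y ω * Z ω) ω ∂P| := abs_sub _ _
    _ ≤ _ := add_le_add h2 h3

lemma C_bd (h : Raw w t G P c T0 M0 C a b J) {j : ℕ} (hj : j < J) (ω : Ω) :
    |(w (j + 1) ω - w j ω) ^ 2 - c * (t (j + 1) ω - t j ω)| ≤ C ^ 2 + c * C := by
  have hC := h.C0
  have hc := h.c0
  have h1 : (w (j + 1) ω - w j ω) ^ 2 ≤ C ^ 2 := by
    rw [← sq_abs]; exact pow_le_pow_left₀ (abs_nonneg _) (h.dw j hj ω) 2
  have h2 : 0 ≤ c * (t (j + 1) ω - t j ω) := mul_nonneg hc (h.dt0 j hj ω)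
  have h3 : c * (t (j + 1) ω - t j ω) ≤ c * C := mul_le_mul_of_nonneg_left (h.dt j hj ω) hc
  have h4 : 0 ≤ (w (j + 1) ω - w j ω) ^ 2 := sq_nonneg _
  rw [abs_le]
  have h5 : 0 ≤ C ^ 2 := sq_nonneg C
  constructor <;> linarith

/-- **truncation** -/
theorem trunc [IsProbabilityMeasure P] (h : Raw w t G P c T0 M0 C a b J) (hδ0 : 0 ≤ δ)
    (hδ1 : δ ≤ 1) :
    Arr (trn w t δ w) (trn w t δ t) G P c T0 M0 δ
      (fun j => a j + C * P.real (Fi w t δ j))
      (fun j => b j + (C ^ 2 + c * C) * P.real (Fi w t δ j)) J where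
  c0 := h.c0
  T00 := h.T00
  M00 := h.M00
  δ0 := hδ0
  δ1 := hδ1
  mw := h.sm_trn δ h.mw
  mt := h.sm_trn δ h.mt
  w0 ω := h.w0 ω
  t0 ω := h.t0 ω
  bw j hj ω := (h.bw_trn hδ0 hδ1 hj ω).1
  bt j hj ω := (h.bw_trn hδ0 hδ1 hj ω).2
  dw j _ ω := h.dw_trn hδ0 ω
  dt0 j hj ω := by
    rw [trn_step]
    by_cases h1 : ω ∈ Sm w t δ (j + 1)
    · rw [Set.indicator_of_mem h1]; exact h.dt0 j hj ω
    · rw [Set.indicator_of_notMem h1]
  dt j _ ω := h.dt_trn hδ0 ω
  e1 j hj Y hY hY1 := by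
    simp_rw [trn_step]
    exact h.test_trn ((((h.mw _).mono (G.le _))).sub ((h.mw _).mono (G.le _)))
      (h.dw j hj) (h.e1 j hj) hY hY1
  e2 j hj Y hY hY1 := by
    have h1 : ∀ ω, (trn w t δ w (j + 1) ω - trn w t δ w j ω) ^ 2
        - c * (trn w t δ t (j + 1) ω - trn w t δ t j ω)
        = (Sm w t δ (j + 1)).indicator
          (fun ω => (w (j + 1) ω - w j ω) ^ 2 - c * (t (j + 1) ω - t j ω)) ω := by
      intro ω
      rw [trn_step, trn_step]
      by_cases h1 : ω ∈ Sm w t δ (j + 1)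
      · rw [Set.indicator_of_mem h1, Set.indicator_of_mem h1, Set.indicator_of_mem h1]
      · rw [Set.indicator_of_notMem h1, Set.indicator_of_notMem h1,
          Set.indicator_of_notMem h1]
        ring
    simp_rw [h1]
    exact h.test_trn (((((h.mw _).mono (G.le _)).sub ((h.mw _).mono (G.le _))).pow 2).sub
      ((((h.mt _).mono (G.le _)).sub ((h.mt _).mono (G.le _))).const_mul c))
      (h.C_bd hj) (h.e2 j hj) hY hY1

lemma sum_Fi [IsProbabilityMeasure P] (h : Raw w t G P c T0 M0 C a b J) (δ : ℝ) (n : ℕ) :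
    ∑ j ∈ Finset.range n, P.real (Fi w t δ j) = P.real (LARGE w t δ n) := by
  have h1 : LARGE w t δ n = ⋃ j ∈ Finset.range n, Fi w t δ j := by
    ext ω
    simp only [LARGE, Set.mem_ofPred_eq, Set.mem_iUnion, Finset.mem_range, exists_prop]
    constructor
    · intro hex
      classical
      have hex' : ∃ j, j < n ∧ ω ∈ Lg w t δ j := hex
      refine ⟨Nat.find hex', (Nat.find_spec hex').1, ?_, (Nat.find_spec hex').2⟩
      intro i hi hL
      exact Nat.find_min hex' hi ⟨hi.trans (Nat.find_spec hex').1, hL⟩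
    · rintro ⟨j, hj, hF⟩
      exact ⟨j, hj, hF.2⟩
  rw [h1, measureReal_biUnion_finset]
  · intro i _ j _ hij
    rw [Function.onFun, Set.disjoint_left]
    intro ω hi hj
    rcases lt_or_gt_of_ne hij with h2 | h2
    · exact hj.1 i h2 hi.2
    · exact hi.1 j h2 hj.2
  · exact fun j _ => h.meas_Fi δ j

/-- the total error after truncation -/
lemma eps_trunc [IsProbabilityMeasure P] (h : Raw w t G P c T0 M0 C a b J) (δ : ℝ) :
    eps (fun j => a j + C * P.real (Fi w t δ j))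
      (fun j => b j + (C ^ 2 + c * C) * P.real (Fi w t δ j)) J
      = eps a b J + (C + C ^ 2 + c * C) * P.real (LARGE w t δ J) := by
  rw [← h.sum_Fi δ J]
  unfold eps
  rw [Finset.mul_sum, ← Finset.sum_add_distrib]
  refine Finset.sum_congr rfl fun j _ => ?_
  ring

lemma BAD_trunc [IsProbabilityMeasure P] (_h : Raw w t G P c T0 M0 C a b J) (δ : ℝ) :
    BAD (trn w t δ w) (trn w t δ t) T0 M0 J ⊆ BAD w t T0 M0 J ∪ LARGE w t δ J := by
  intro ω hω
  by_cases h1 : ω ∈ LARGE w t δ J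
  · exact Or.inr h1
  · left
    obtain ⟨h2, h3⟩ := hω
    rw [trn_of_not_LARGE le_rfl h1] at h2 h3
    exact ⟨h2, h3⟩

end Raw

/-- sum of nonnegative quantities `q j` with `q j ≤ κ (dw ^ 2 + dt) - z j`, where the integral of
`z j` is small (second moments of the growth measures) -/
theorem Arr.moments [IsProbabilityMeasure P] (h : Arr w t G P c T0 M0 δ a b J) {q z : ℕ → Ω → ℝ}
    {κ : ℝ} {e : ℕ → ℝ} (hκ : 0 ≤ κ) (hqi : ∀ j < J, Integrable (q j) P)
    (hzi : ∀ j < J, Integrable (z j) P)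
    (hq : ∀ j < J, ∀ ω, q j ω
      ≤ κ * ((w (j + 1) ω - w j ω) ^ 2 + (t (j + 1) ω - t j ω)) - z j ω)
    (hz : ∀ j < J, |∫ ω, z j ω ∂P| ≤ e j) :
    ∑ j ∈ Finset.range J, ∫ ω, q j ω ∂P
      ≤ κ * ((1 + c) * (T0 + 1) + eps a b J) + ∑ j ∈ Finset.range J, e j := by
  have h1 : ∀ j ∈ Finset.range J, ∫ ω, q j ω ∂P
      ≤ κ * ∫ ω, ((w (j + 1) ω - w j ω) ^ 2 + (t (j + 1) ω - t j ω)) ∂P + e j := by
    intro j hj
    have hj' := Finset.mem_range.1 hj
    have hi : Integrable (fun ω => (w (j + 1) ω - w j ω) ^ 2 + (t (j + 1) ω - t j ω)) P :=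
      (h.idw2 hj').add (h.idt hj')
    have h2 : ∫ ω, q j ω ∂P ≤ ∫ ω, (κ * ((w (j + 1) ω - w j ω) ^ 2 + (t (j + 1) ω - t j ω))
        - z j ω) ∂P :=
      integral_mono (hqi j hj') ((hi.const_mul κ).sub (hzi j hj')) (hq j hj')
    have h3 : ∫ ω, (κ * ((w (j + 1) ω - w j ω) ^ 2 + (t (j + 1) ω - t j ω)) - z j ω) ∂P
        = κ * ∫ ω, ((w (j + 1) ω - w j ω) ^ 2 + (t (j + 1) ω - t j ω)) ∂P - ∫ ω, z j ω ∂P := by
      rw [integral_sub (hi.const_mul κ) (hzi j hj'), integral_const_mul]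
    rw [h3] at h2
    have h4 := (abs_le.1 (hz j hj')).1
    linarith
  refine (Finset.sum_le_sum h1).trans ?_
  rw [Finset.sum_add_distrib, ← Finset.mul_sum]
  have h5 := mul_le_mul_of_nonneg_left h.total hκ
  linarith

end H37.Levy
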