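import Mathlib

/-!
# Arrays which are nearly Brownian: the exponential estimate

A finite sequence of positions `w j` and times `t j` (adapted to a filtration `G` indexed by `ℕ`)
with small steps, such that `w` and `w ^ 2 - c t` are nearly martingales.
-/

open MeasureTheory ProbabilityTheory Filter
open scoped ENNReal NNReal Topology

namespace H37.Levy

/-- third order remainder of the exponential -/
lemma exp_rem (u : ℂ) : ‖Complex.exp u - (1 + u + u ^ 2 / 2)‖ ≤ ‖u‖ ^ 3 * Real.exp ‖u‖ := by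
  have h1 := Complex.norm_exp_sub_sum_le_norm_mul_exp u 3
  have h3 : ∑ m ∈ Finset.range 3, u ^ m / (m.factorial : ℂ) = 1 + u + u ^ 2 / 2 := by
    simp [Finset.sum_range_succ, Nat.factorial]
  rwa [h3] at h1

/-- the constant of the exponential estimate -/
noncomputable def KK (A : ℝ) : ℝ := 5 * (1 + A) ^ 9 * Real.exp ((1 + A) ^ 3)

lemma KK_pos {A : ℝ} (hA : 0 ≤ A) : 0 < KK A := by
  unfold KK; positivity

lemma cube_add {p q : ℝ} (hp : 0 ≤ p) (hq : 0 ≤ q) : (p + q) ^ 3 ≤ 4 * (p ^ 3 + q ^ 3) := by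
  nlinarith [mul_nonneg (add_nonneg hp hq) (sq_nonneg (p - q))]

/-- one step: `A ≥ |z|`, `A ≥ c` -/
lemma step_rem {z : ℂ} {c A δ x s : ℝ} (hz : ‖z‖ ≤ A) (hc0 : 0 ≤ c) (hc : c ≤ A) (hδ : δ ≤ 1)
    (hx : |x| ≤ δ) (hs0 : 0 ≤ s) (hs : s ≤ δ) :
    ‖Complex.exp (z * x - c * z ^ 2 * s / 2) - 1
        - (z * x + z ^ 2 / 2 * ((x ^ 2 - c * s : ℝ) : ℂ))‖
      ≤ KK A * δ * (x ^ 2 + s) := by
  have hA0 : 0 ≤ A := (norm_nonneg z).trans hz
  have hδ0 : 0 ≤ δ := hs0.trans hs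
  set a := 1 + A with ha
  have ha1 : 1 ≤ a := by linarith
  have hAa : A ≤ a := by linarith
  have hza : ‖z‖ ≤ a := hz.trans hAa
  have hca : c ≤ a := hc.trans hAa
  set u : ℂ := z * x - c * z ^ 2 * s / 2 with hu
  have hx0 : 0 ≤ |x| := abs_nonneg x
  have hunorm : ‖u‖ ≤ a ^ 3 * (|x| + s) := by
    have h1 : ‖z * (x : ℂ)‖ ≤ a ^ 3 * |x| := by
      rw [norm_mul, Complex.norm_real, Real.norm_eq_abs]
      have : ‖z‖ ≤ a ^ 3 := hza.trans (le_self_pow₀ ha1 (by norm_num))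
      exact mul_le_mul_of_nonneg_right this hx0
    have h2 : ‖(c : ℂ) * z ^ 2 * s / 2‖ ≤ a ^ 3 * s := by
      rw [norm_div, norm_mul, norm_mul, norm_pow, Complex.norm_real, Complex.norm_real,
        Real.norm_of_nonneg hc0, Real.norm_of_nonneg hs0]
      have h3 : c * ‖z‖ ^ 2 ≤ a * a ^ 2 := by gcongr
      have h4 : ‖(2 : ℂ)‖ = 2 := by simp
      rw [h4]
      have h5 : c * ‖z‖ ^ 2 * s ≤ a ^ 3 * s := by
        calc c * ‖z‖ ^ 2 * s ≤ a * a ^ 2 * s := mul_le_mul_of_nonneg_right h3 hs0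
          _ = a ^ 3 * s := by ring
      have h6 : 0 ≤ c * ‖z‖ ^ 2 * s := by positivity
      linarith
    calc ‖u‖ ≤ ‖z * (x : ℂ)‖ + ‖(c : ℂ) * z ^ 2 * s / 2‖ := norm_sub_le _ _
      _ ≤ a ^ 3 * |x| + a ^ 3 * s := add_le_add h1 h2
      _ = a ^ 3 * (|x| + s) := by ring
  have hunorm2 : ‖u‖ ≤ a ^ 3 := by
    have h1 : ‖z * (x : ℂ)‖ ≤ A := by
      rw [norm_mul, Complex.norm_real, Real.norm_eq_abs]
      calc ‖z‖ * |x| ≤ A * 1 := mul_le_mul hz (hx.trans hδ) hx0 hA0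
        _ = A := mul_one A
    have h2 : ‖(c : ℂ) * z ^ 2 * s / 2‖ ≤ A ^ 3 / 2 := by
      rw [norm_div, norm_mul, norm_mul, norm_pow, Complex.norm_real, Complex.norm_real,
        Real.norm_of_nonneg hc0, Real.norm_of_nonneg hs0]
      have h4 : ‖(2 : ℂ)‖ = 2 := by simp
      rw [h4]
      have h5 : c * ‖z‖ ^ 2 * s ≤ A ^ 3 := by
        calc c * ‖z‖ ^ 2 * s ≤ A * A ^ 2 * 1 := by
              have : s ≤ 1 := hs.trans hδ
              gcongr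
          _ = A ^ 3 := by ring
      linarith
    have h3 : ‖u‖ ≤ A + A ^ 3 / 2 := (norm_sub_le _ _).trans (add_le_add h1 h2)
    refine h3.trans ?_
    rw [ha]
    nlinarith [pow_nonneg hA0 3, pow_nonneg hA0 2]
  have hcube : ‖u‖ ^ 3 ≤ 4 * a ^ 9 * δ * (x ^ 2 + s) := by
    have h1 : |x| ^ 3 ≤ δ * x ^ 2 := by
      have : |x| ^ 3 = |x| * x ^ 2 := by rw [← sq_abs x]; ring
      rw [this]
      exact mul_le_mul_of_nonneg_right hx (sq_nonneg x)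
    have h2 : s ^ 3 ≤ δ * s := by
      have h3 : s ^ 2 ≤ δ := by nlinarith
      calc s ^ 3 = s ^ 2 * s := by ring
        _ ≤ δ * s := mul_le_mul_of_nonneg_right h3 hs0
    calc ‖u‖ ^ 3 ≤ (a ^ 3 * (|x| + s)) ^ 3 := pow_le_pow_left₀ (norm_nonneg _) hunorm 3
      _ = a ^ 9 * (|x| + s) ^ 3 := by ring
      _ ≤ a ^ 9 * (4 * (|x| ^ 3 + s ^ 3)) :=
          mul_le_mul_of_nonneg_left (cube_add hx0 hs0) (by positivity)
      _ ≤ a ^ 9 * (4 * (δ * x ^ 2 + δ * s)) := by gcongr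
      _ = 4 * a ^ 9 * δ * (x ^ 2 + s) := by ring
  have hexp : Real.exp ‖u‖ ≤ Real.exp (a ^ 3) := Real.exp_le_exp.2 hunorm2
  have hR := exp_rem u
  have hsplit : Complex.exp u - 1 - (z * x + z ^ 2 / 2 * ((x ^ 2 - c * s : ℝ) : ℂ))
      = (Complex.exp u - (1 + u + u ^ 2 / 2))
        + (-((c : ℂ) * z ^ 3 * x * s / 2) + (c : ℂ) ^ 2 * z ^ 4 * s ^ 2 / 8) := by
    rw [hu]; push_cast; ring
  rw [hsplit]
  have hpos : 0 ≤ x ^ 2 + s := by positivity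
  have t1 : ‖Complex.exp u - (1 + u + u ^ 2 / 2)‖
      ≤ 4 * a ^ 9 * δ * (x ^ 2 + s) * Real.exp (a ^ 3) :=
    hR.trans (mul_le_mul hcube hexp (Real.exp_pos _).le (by positivity))
  have t2 : ‖(c : ℂ) * z ^ 3 * x * s / 2‖ ≤ a ^ 9 * δ * (x ^ 2 + s) / 2 := by
    rw [norm_div, norm_mul, norm_mul, norm_mul, norm_pow, Complex.norm_real, Complex.norm_real,
      Complex.norm_real, Real.norm_of_nonneg hc0, Real.norm_of_nonneg hs0, Real.norm_eq_abs]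
    have h4 : ‖(2 : ℂ)‖ = 2 := by simp
    rw [h4]
    have h5 : c * ‖z‖ ^ 3 * |x| * s ≤ a ^ 9 * δ * (x ^ 2 + s) := by
      calc c * ‖z‖ ^ 3 * |x| * s ≤ a * a ^ 3 * δ * s := by gcongr
        _ = a ^ 4 * δ * s := by ring
        _ ≤ a ^ 9 * δ * (x ^ 2 + s) := by
            have h6 : a ^ 4 ≤ a ^ 9 := pow_le_pow_right₀ ha1 (by norm_num)
            have h7 : s ≤ x ^ 2 + s := by nlinarith [sq_nonneg x]
            gcongr
    linarith
  have t3 : ‖(c : ℂ) ^ 2 * z ^ 4 * s ^ 2 / 8‖ ≤ a ^ 9 * δ * (x ^ 2 + s) / 2 := by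
    rw [norm_div, norm_mul, norm_mul, norm_pow, norm_pow, norm_pow, Complex.norm_real,
      Complex.norm_real, Real.norm_of_nonneg hc0, Real.norm_of_nonneg hs0]
    have h4 : ‖(8 : ℂ)‖ = 8 := by simp
    rw [h4]
    have h5 : c ^ 2 * ‖z‖ ^ 4 * s ^ 2 ≤ a ^ 9 * δ * (x ^ 2 + s) := by
      calc c ^ 2 * ‖z‖ ^ 4 * s ^ 2 ≤ a ^ 2 * a ^ 4 * (δ * s) := by
            have : s ^ 2 ≤ δ * s := by
              rw [sq]; exact mul_le_mul_of_nonneg_right hs hs0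
            gcongr
        _ = a ^ 6 * δ * s := by ring
        _ ≤ a ^ 9 * δ * (x ^ 2 + s) := by
            have h6 : a ^ 6 ≤ a ^ 9 := pow_le_pow_right₀ ha1 (by norm_num)
            have h7 : s ≤ x ^ 2 + s := by nlinarith [sq_nonneg x]
            gcongr
    have h8 : 0 ≤ a ^ 9 * δ * (x ^ 2 + s) := by positivity
    linarith
  have hE : 1 ≤ Real.exp (a ^ 3) := Real.one_le_exp (by positivity)
  calc ‖(Complex.exp u - (1 + u + u ^ 2 / 2))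
        + (-((c : ℂ) * z ^ 3 * x * s / 2) + (c : ℂ) ^ 2 * z ^ 4 * s ^ 2 / 8)‖
      ≤ ‖Complex.exp u - (1 + u + u ^ 2 / 2)‖
        + ‖-((c : ℂ) * z ^ 3 * x * s / 2) + (c : ℂ) ^ 2 * z ^ 4 * s ^ 2 / 8‖ := norm_add_le _ _
    _ ≤ ‖Complex.exp u - (1 + u + u ^ 2 / 2)‖
        + (‖-((c : ℂ) * z ^ 3 * x * s / 2)‖ + ‖(c : ℂ) ^ 2 * z ^ 4 * s ^ 2 / 8‖) := by
        gcongr; exact norm_add_le _ _
    _ ≤ 4 * a ^ 9 * δ * (x ^ 2 + s) * Real.exp (a ^ 3)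
        + (a ^ 9 * δ * (x ^ 2 + s) / 2 + a ^ 9 * δ * (x ^ 2 + s) / 2) := by
        rw [norm_neg]
        gcongr
    _ ≤ 4 * a ^ 9 * δ * (x ^ 2 + s) * Real.exp (a ^ 3)
        + a ^ 9 * δ * (x ^ 2 + s) * Real.exp (a ^ 3) := by
        have h8 : 0 ≤ a ^ 9 * δ * (x ^ 2 + s) := by positivity
        have h9 := mul_le_mul_of_nonneg_left hE h8
        linarith
    _ = KK A * δ * (x ^ 2 + s) := by
        unfold KK
        rw [← ha]
        ring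

end H37.Levy
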