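import Pool.Agent.H37.Levy.Array9

/-!
# Arrays which are nearly Brownian: limits are Brownian motions
-/

open MeasureTheory ProbabilityTheory Filter
open scoped ENNReal NNReal Topology

namespace H37.Levy

lemma tendsto_ErrF {ι : Type*} {l : Filter ι} {δ e p : ι → ℝ} (A T : ℝ) (n : ℕ)
    (hδ : Tendsto δ l (𝓝 0)) (he : Tendsto e l (𝓝 0)) (hp : Tendsto p l (𝓝 0)) :
    Tendsto (fun i => ErrF A T (δ i) (e i) n (p i)) l (𝓝 0) := by
  have hcont : Continuous fun q : ℝ × ℝ × ℝ => ErrF A T q.1 q.2.1 n q.2.2 := by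
    unfold ErrF Err
    fun_prop
  have h1 := (hcont.tendsto (0, 0, 0)).comp (hδ.prodMk_nhds (he.prodMk_nhds hp))
  have h2 : ErrF A T 0 0 n 0 = 0 := by
    unfold ErrF Err
    simp
  rw [h2] at h1
  exact h1

section

variable {ι : Type*} {l : Filter ι} {Ω : ι → Type*} {mΩ : ∀ i, MeasurableSpace (Ω i)}
  {P : ∀ i, Measure (Ω i)} {w t : ∀ i, ℕ → Ω i → ℝ} {G : ∀ i, Filtration ℕ (mΩ i)} {c : ℝ}
  {T0 M0 δ : ι → ℝ} {a b : ι → ℕ → ℝ} {J : ι → ℕ}

/-- the probability of stopping before a fixed time `T` tends to zero -/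
theorem tendsto_early [∀ i, IsProbabilityMeasure (P i)]
    (h : ∀ᶠ i in l, Arr (w i) (t i) (G i) (P i) c (T0 i) (M0 i) (δ i) (a i) (b i) (J i))
    (hbad : Tendsto (fun i => (P i).real (BAD (w i) (t i) (T0 i) (M0 i) (J i))) l (𝓝 0))
    (hT0 : Tendsto T0 l atTop) (hM0 : Tendsto M0 l atTop)
    (he : Tendsto (fun i => eps (a i) (b i) (J i)) l (𝓝 0)) (T : ℝ) (hT : 0 ≤ T) :
    Tendsto (fun i => (P i).real {ω | t i (J i) ω < T}) l (𝓝 0) := by
  have hM1 : Tendsto (fun i => (M0 i)⁻¹) l (𝓝 0) := tendsto_inv_atTop_zero.comp hM0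
  have hup : Tendsto (fun i => (P i).real (BAD (w i) (t i) (T0 i) (M0 i) (J i))
      + (2 * ((M0 i)⁻¹ + (M0 i)⁻¹ ^ 2) * eps (a i) (b i) (J i)
      + ((1 + c) * (T + 1) + eps (a i) (b i) (J i)) * (M0 i)⁻¹ ^ 2)) l (𝓝 0) := by
    have h1 := hbad.add ((((hM1.add (hM1.pow 2)).const_mul 2).mul he).add
      ((tendsto_const_nhds (x := (1 + c) * (T + 1))).add he |>.mul (hM1.pow 2)))
    simpa using h1
  refine squeeze_zero' (Eventually.of_forall fun i => measureReal_nonneg) ?_ hup
  filter_upwards [h, hT0.eventually_ge_atTop T, hM0.eventually_gt_atTop 0] with i hi hTi hMi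
  have hr := hi.restrict hT hTi
  have h1 := hr.early hMi
  have h2 : {ω | t i (J i) ω < T} ⊆ {ω | stp (t i) (J i) T (t i) (J i) ω < T} := by
    intro ω hω
    have h3 : t i (J i) ω < T := hω
    show stp (t i) (J i) T (t i) (J i) ω < T
    exact (hi.t_mono (min_le_left _ _) le_rfl ω).trans_lt h3
  have h4 := (measureReal_mono h2 (measure_ne_top (P i) _)).trans h1
  have h5 := measureReal_mono (hi.BAD_restrict hTi) (measure_ne_top (P i) _)
  have h6 : (2 * (M0 i + 1) * eps (a i) (b i) (J i)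
      + ((1 + c) * (T + 1) + eps (a i) (b i) (J i))) / M0 i ^ 2
      = 2 * ((M0 i)⁻¹ + (M0 i)⁻¹ ^ 2) * eps (a i) (b i) (J i)
      + ((1 + c) * (T + 1) + eps (a i) (b i) (J i)) * (M0 i)⁻¹ ^ 2 := by
    field_simp
  rw [h6] at h4
  linarith

/-- convergence of the finite-dimensional characteristic functions -/
theorem tendsto_fdd [∀ i, IsProbabilityMeasure (P i)]
    (h : ∀ᶠ i in l, Arr (w i) (t i) (G i) (P i) c (T0 i) (M0 i) (δ i) (a i) (b i) (J i))
    (hbad : Tendsto (fun i => (P i).real (BAD (w i) (t i) (T0 i) (M0 i) (J i))) l (𝓝 0))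
    (hT0 : Tendsto T0 l atTop) (hM0 : Tendsto M0 l atTop) (hδ : Tendsto δ l (𝓝 0))
    (he : Tendsto (fun i => eps (a i) (b i) (J i)) l (𝓝 0)) {s : ℕ → ℝ} (hs : Monotone s)
    (hs0 : 0 ≤ s 0) (θ : ℕ → ℝ) (n : ℕ) :
    Tendsto (fun i => ∫ ω, Complex.exp (Complex.I * (SS (w i) (t i) (J i) θ s n ω : ℂ)) ∂(P i)) l
      (𝓝 ((Real.exp (-(c / 2 * ∑ k ∈ Finset.range n, θ k ^ 2 * (s (k + 1) - s k))) : ℝ) : ℂ)) := by
  set θ' : ℕ → ℝ := fun k => if k < n then θ k else 0 with hθ'
  have hSS : ∀ i ω, SS (w i) (t i) (J i) θ s n ω = SS (w i) (t i) (J i) θ' s n ω := by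
    intro i ω
    unfold SS
    refine Finset.sum_congr rfl fun k hk => ?_
    rw [hθ']
    dsimp only
    rw [if_pos (Finset.mem_range.1 hk)]
  have hsum : ∑ k ∈ Finset.range n, θ k ^ 2 * (s (k + 1) - s k)
      = ∑ k ∈ Finset.range n, θ' k ^ 2 * (s (k + 1) - s k) := by
    refine Finset.sum_congr rfl fun k hk => ?_
    rw [hθ']
    dsimp only
    rw [if_pos (Finset.mem_range.1 hk)]
  set A : ℝ := |c| + ∑ k ∈ Finset.range n, |θ k| with hA
  have hθA : ∀ k, |θ' k| ≤ A := by
    intro k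
    have h0 : 0 ≤ ∑ k ∈ Finset.range n, |θ k| := Finset.sum_nonneg fun _ _ => abs_nonneg _
    rw [hθ']
    dsimp only
    split_ifs with hk
    · have h1 : |θ k| ≤ ∑ k ∈ Finset.range n, |θ k| :=
        Finset.single_le_sum (f := fun k => |θ k|) (fun _ _ => abs_nonneg _)
          (Finset.mem_range.2 hk)
      have h2 := abs_nonneg c
      linarith
    · rw [abs_zero]
      have h2 := abs_nonneg c
      linarith
  have hcA : c ≤ A := by
    have h0 : 0 ≤ ∑ k ∈ Finset.range n, |θ k| := Finset.sum_nonneg fun _ _ => abs_nonneg _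
    have := le_abs_self c
    linarith
  have hT : 0 ≤ s n := hs0.trans (hs (Nat.zero_le n))
  have hp := tendsto_early h hbad hT0 hM0 he (s n) hT
  have hE := tendsto_ErrF A (s n) n hδ he hp
  rw [tendsto_iff_norm_sub_tendsto_zero]
  refine squeeze_zero' (Eventually.of_forall fun i => norm_nonneg _) ?_ hE
  filter_upwards [h, hT0.eventually_ge_atTop (s n)] with i hi hTi
  have hr := hi.restrict hT hTi
  have h1 := hr.fdd hs hs0 hcA hθA n le_rfl
  have h2 : {ω | stp (t i) (J i) (s n) (t i) (J i) ω < s n} ⊆ {ω | t i (J i) ω < s n} := by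
    intro ω hω
    have h3 : stp (t i) (J i) (s n) (t i) (J i) ω < s n := hω
    show t i (J i) ω < s n
    rw [stp_of_ge (jj_le _ _ _ ω)] at h3
    rcases lt_or_eq_of_le (jj_le (t i) (J i) (s n) ω) with h4 | h4
    · exact absurd h3 (not_lt.2 (hi.le_TT_of_lt h4))
    · rwa [h4] at h3
  have h3 : ∀ ω, SS (stp (t i) (J i) (s n) (w i)) (stp (t i) (J i) (s n) (t i)) (J i) θ' s n ω
      = SS (w i) (t i) (J i) θ s n ω := by
    intro ω
    rw [hSS]
    unfold SS
    refine Finset.sum_congr rfl fun k hk => ?_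
    have hk' := Finset.mem_range.1 hk
    rw [hi.XX_stp (hs (Nat.succ_le_of_lt hk')) ω, hi.XX_stp (hs hk'.le) ω]
  simp_rw [h3] at h1
  rw [hsum]
  refine h1.trans ?_
  unfold ErrF
  have h4 := measureReal_mono h2 (measure_ne_top (P i) _)
  have h5 : 0 < Arr.BB A (s n) := Real.exp_pos _
  have h6 : 2 * Arr.BB A (s n) * (P i).real {ω | stp (t i) (J i) (s n) (t i) (J i) ω < s n}
      ≤ 2 * Arr.BB A (s n) * (P i).real {ω | t i (J i) ω < s n} :=
    mul_le_mul_of_nonneg_left h4 (by positivity)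
  linarith

/-- **the limit theorem**: weak limits of random elements which follow the arrays -/
theorem char_of_arrays [∀ i, IsProbabilityMeasure (P i)] [l.NeBot]
    (h : ∀ᶠ i in l, Arr (w i) (t i) (G i) (P i) c (T0 i) (M0 i) (δ i) (a i) (b i) (J i))
    (hbad : Tendsto (fun i => (P i).real (BAD (w i) (t i) (T0 i) (M0 i) (J i))) l (𝓝 0))
    (hT0 : Tendsto T0 l atTop) (hM0 : Tendsto M0 l atTop) (hδ : Tendsto δ l (𝓝 0))
    (he : Tendsto (fun i => eps (a i) (b i) (J i)) l (𝓝 0))
    {S : Type*} [TopologicalSpace S] [MeasurableSpace S] [OpensMeasurableSpace S]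
    {f : ℝ≥0 → S → ℝ} (hf : ∀ s, Continuous (f s)) {μ : ι → ProbabilityMeasure S}
    {ν : ProbabilityMeasure S} (hμ : Tendsto μ l (𝓝 ν)) {x : ∀ i, Ω i → S}
    (hx : ∀ i, AEMeasurable (x i) (P i)) (hlaw : ∀ i, (P i).map (x i) = μ i)
    (hclose : ∀ s : ℝ≥0, ∀ r > 0, Tendsto (fun i => (P i).real
      {ω | r ≤ |f s (x i ω) - XX (w i) (t i) (J i) s ω|}) l (𝓝 0))
    (n : ℕ) (θ : ℕ → ℝ) (s : ℕ → ℝ≥0) (hs : Monotone s) :
    ∫ z, Complex.exp (Complex.I *
        ((∑ k ∈ Finset.range n, θ k * (f (s (k + 1)) z - f (s k) z) : ℝ) : ℂ)) ∂(ν : Measure S)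
      = ((Real.exp (-(c / 2 * ∑ k ∈ Finset.range n, θ k ^ 2 * ((s (k + 1) : ℝ) - s k)))
        : ℝ) : ℂ) := by
  set g : S → ℝ := fun z => ∑ k ∈ Finset.range n, θ k * (f (s (k + 1)) z - f (s k) z) with hg
  have hgc : Continuous g := by
    rw [hg]
    exact continuous_finsetSum _ fun k _ => continuous_const.mul ((hf _).sub (hf _))
  have hEc : Continuous fun z => Complex.exp (Complex.I * (g z : ℂ)) := by fun_prop
  have hn1 : ∀ y : ℝ, ‖Complex.exp (Complex.I * (y : ℂ))‖ = 1 := by
    intro y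
    rw [mul_comm]
    exact Complex.norm_exp_ofReal_mul_I _
  set F : BoundedContinuousFunction S ℂ := BoundedContinuousFunction.ofNormedAddCommGroup
    (fun z => Complex.exp (Complex.I * (g z : ℂ))) hEc 1 (fun z => (hn1 _).le) with hF
  have h1 : Tendsto (fun i => ∫ z, F z ∂(μ i : Measure S)) l (𝓝 (∫ z, F z ∂(ν : Measure S))) :=
    (ProbabilityMeasure.tendsto_iff_forall_integral_rclike_tendsto ℂ).1 hμ F
  have h2 : ∀ i, ∫ z, F z ∂(μ i : Measure S)
      = ∫ ω, Complex.exp (Complex.I * (g (x i ω) : ℂ)) ∂(P i) := by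
    intro i
    rw [← hlaw i, integral_map (hx i) F.continuous.aestronglyMeasurable]
    rfl
  simp_rw [h2] at h1
  have hs' : Monotone fun k => (s k : ℝ) := fun i j hij => NNReal.coe_le_coe.2 (hs hij)
  have h3 := tendsto_fdd h hbad hT0 hM0 hδ he hs' (NNReal.coe_nonneg _) θ n
  refine tendsto_nhds_unique h1 ?_
  -- the difference tends to zero
  set K : ℝ := 2 * (∑ k ∈ Finset.range n, |θ k|) + 1 with hK
  have hsum0 : 0 ≤ ∑ k ∈ Finset.range n, |θ k| := Finset.sum_nonneg fun _ _ => abs_nonneg _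
  have hK0 : 0 < K := by linarith
  have hdiff : Tendsto (fun i => ∫ ω, Complex.exp (Complex.I * (g (x i ω) : ℂ)) ∂(P i)
      - ∫ ω, Complex.exp (Complex.I * (SS (w i) (t i) (J i) θ (fun k => (s k : ℝ)) n ω : ℂ)) ∂(P i))
      l (𝓝 0) := by
    rw [Metric.tendsto_nhds]
    intro κ hκ
    set r : ℝ := κ / (4 * K) with hr
    have hr0 : 0 < r := by positivity
    have hev : Tendsto (fun i => 2 * ∑ k ∈ Finset.range (n + 1), (P i).real
        {ω | r ≤ |f (s k) (x i ω) - XX (w i) (t i) (J i) (s k) ω|}) l (𝓝 0) := by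
      have := (tendsto_finsetSum (Finset.range (n + 1)) fun k _ => hclose (s k) r hr0).const_mul 2
      simpa using this
    filter_upwards [h, hev.eventually_lt_const (show (0 : ℝ) < κ / 2 by linarith)] with i hi hlt
    rw [dist_zero_right]
    have hgm : AEMeasurable (fun ω => g (x i ω)) (P i) := hgc.measurable.comp_aemeasurable (hx i)
    have hm1 : AEStronglyMeasurable (fun ω => Complex.exp (Complex.I * (g (x i ω) : ℂ))) (P i) := by
      have : Measurable fun y : ℝ => Complex.exp (Complex.I * (y : ℂ)) := by fun_prop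
      exact (this.comp_aemeasurable hgm).aestronglyMeasurable
    have hm2 : AEStronglyMeasurable (fun ω => Complex.exp (Complex.I *
        (SS (w i) (t i) (J i) θ (fun k => (s k : ℝ)) n ω : ℂ))) (P i) :=
      (Complex.continuous_exp.comp_stronglyMeasurable
        ((Complex.continuous_ofReal.comp_stronglyMeasurable
          (hi.sm_SS θ _ n)).const_mul _)).aestronglyMeasurable
    have i1 : Integrable (fun ω => Complex.exp (Complex.I * (g (x i ω) : ℂ))) (P i) :=
      Integrable.of_bound hm1 1 (Eventually.of_forall fun ω => (hn1 _).le)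
    have i2 : Integrable (fun ω => Complex.exp (Complex.I *
        (SS (w i) (t i) (J i) θ (fun k => (s k : ℝ)) n ω : ℂ))) (P i) :=
      Integrable.of_bound hm2 1 (Eventually.of_forall fun ω => (hn1 _).le)
    rw [← integral_sub i1 i2]
    set B : ℕ → Set (Ω i) := fun k =>
      {ω | r ≤ |f (s k) (x i ω) - XX (w i) (t i) (J i) (s k) ω|} with hB
    have hBm : ∀ k, NullMeasurableSet (B k) (P i) := by
      intro k
      have hmm : AEMeasurable (fun ω => |f (s k) (x i ω) - XX (w i) (t i) (J i) (s k) ω|) (P i) :=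
        (((hf (s k)).measurable.comp_aemeasurable (hx i)).sub
          (hi.sm_XX _).measurable.aemeasurable).abs
      exact nullMeasurableSet_le aemeasurable_const hmm
    have hbound : ∀ ω, ‖Complex.exp (Complex.I * (g (x i ω) : ℂ)) - Complex.exp (Complex.I *
        (SS (w i) (t i) (J i) θ (fun k => (s k : ℝ)) n ω : ℂ))‖
        ≤ K * r + ∑ k ∈ Finset.range (n + 1), 2 * (B k).indicator (fun _ => (1 : ℝ)) ω := by
      intro ω
      have hind0 : ∀ k, 0 ≤ (B k).indicator (fun _ => (1 : ℝ)) ω := fun k =>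
        Set.indicator_nonneg (fun _ _ => zero_le_one) ω
      by_cases hω : ∃ k ∈ Finset.range (n + 1), ω ∈ B k
      · obtain ⟨k, hk, hkB⟩ := hω
        have e1 : ‖Complex.exp (Complex.I * (g (x i ω) : ℂ)) - Complex.exp (Complex.I *
            (SS (w i) (t i) (J i) θ (fun k => (s k : ℝ)) n ω : ℂ))‖ ≤ 2 := by
          refine (norm_sub_le _ _).trans ?_
          rw [hn1, hn1]
          norm_num
        have e2 : 2 * (B k).indicator (fun _ => (1 : ℝ)) ω
            ≤ ∑ k ∈ Finset.range (n + 1), 2 * (B k).indicator (fun _ => (1 : ℝ)) ω :=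
          Finset.single_le_sum (f := fun k => 2 * (B k).indicator (fun _ => (1 : ℝ)) ω)
            (fun k _ => by have := hind0 k; linarith) hk
        rw [Set.indicator_of_mem hkB, mul_one] at e2
        have e3 : 0 ≤ K * r := by positivity
        linarith
      · push Not at hω
        have e0 : ∀ k ≤ n, |f (s k) (x i ω) - XX (w i) (t i) (J i) (s k) ω| < r := by
          intro k hk
          have h4 := hω k (Finset.mem_range.2 (Nat.lt_succ_of_le hk))
          exact not_le.1 h4
        have e1 : |g (x i ω) - SS (w i) (t i) (J i) θ (fun k => (s k : ℝ)) n ω| ≤ K * r := by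
          rw [hg]
          unfold SS
          dsimp only
          rw [← Finset.sum_sub_distrib]
          refine (Finset.abs_sum_le_sum_abs _ _).trans ?_
          have e2 : ∀ k ∈ Finset.range n, |θ k * (f (s (k + 1)) (x i ω) - f (s k) (x i ω))
              - θ k * (XX (w i) (t i) (J i) (s (k + 1)) ω - XX (w i) (t i) (J i) (s k) ω)|
              ≤ |θ k| * (2 * r) := by
            intro k hk
            have hk' := Finset.mem_range.1 hk
            have e3 : θ k * (f (s (k + 1)) (x i ω) - f (s k) (x i ω))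
              - θ k * (XX (w i) (t i) (J i) (s (k + 1)) ω - XX (w i) (t i) (J i) (s k) ω)
              = θ k * ((f (s (k + 1)) (x i ω) - XX (w i) (t i) (J i) (s (k + 1)) ω)
                - (f (s k) (x i ω) - XX (w i) (t i) (J i) (s k) ω)) := by ring
            rw [e3, abs_mul]
            refine mul_le_mul_of_nonneg_left ?_ (abs_nonneg _)
            refine (abs_sub _ _).trans ?_
            have e4 := (e0 (k + 1) hk').le
            have e5 := (e0 k hk'.le).le
            linarith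
          refine (Finset.sum_le_sum e2).trans ?_
          rw [← Finset.sum_mul, hK]
          have e6 : 0 ≤ r := hr0.le
          nlinarith
        have e2 : ‖Complex.exp (Complex.I * (g (x i ω) : ℂ)) - Complex.exp (Complex.I *
            (SS (w i) (t i) (J i) θ (fun k => (s k : ℝ)) n ω : ℂ))‖
            ≤ |g (x i ω) - SS (w i) (t i) (J i) θ (fun k => (s k : ℝ)) n ω| := by
          set u := g (x i ω)
          set v := SS (w i) (t i) (J i) θ (fun k => (s k : ℝ)) n ω
          have e3 : Complex.exp (Complex.I * (u : ℂ)) - Complex.exp (Complex.I * (v : ℂ))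
              = Complex.exp (Complex.I * (v : ℂ))
                * (Complex.exp (Complex.I * ((u - v : ℝ) : ℂ)) - 1) := by
            rw [mul_sub, ← Complex.exp_add, mul_one]
            congr 2
            push_cast
            ring
          rw [e3, norm_mul, hn1, one_mul]
          exact Real.norm_exp_I_mul_ofReal_sub_one_le
        have e3 : 0 ≤ ∑ k ∈ Finset.range (n + 1), 2 * (B k).indicator (fun _ => (1 : ℝ)) ω :=
          Finset.sum_nonneg fun k _ => by have := hind0 k; linarith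
        linarith
    have hiB : ∀ k, Integrable ((B k).indicator fun _ => (1 : ℝ)) (P i) := fun k =>
      (integrable_const (1 : ℝ)).indicator₀ (hBm k)
    have hbi : Integrable (fun ω => K * r + ∑ k ∈ Finset.range (n + 1),
        2 * (B k).indicator (fun _ => (1 : ℝ)) ω) (P i) :=
      (integrable_const _).add (integrable_finsetSum _ fun k _ => (hiB k).const_mul 2)
    have h5 := norm_integral_le_of_norm_le hbi (Eventually.of_forall hbound)
    have h6 : ∫ ω, (K * r + ∑ k ∈ Finset.range (n + 1),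
        2 * (B k).indicator (fun _ => (1 : ℝ)) ω) ∂(P i)
        = K * r + 2 * ∑ k ∈ Finset.range (n + 1), (P i).real (B k) := by
      rw [integral_add (integrable_const _)
        (integrable_finsetSum _ fun k _ => (hiB k).const_mul 2),
        integral_finsetSum _ fun k _ => (hiB k).const_mul 2, integral_const, Finset.mul_sum]
      simp only [probReal_univ, smul_eq_mul, one_mul]
      congr 1
      refine Finset.sum_congr rfl fun k _ => ?_
      rw [integral_const_mul, integral_indicator₀ (hBm k)]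
      simp [Measure.real]
    rw [h6] at h5
    have h7 : K * r = κ / 4 := by rw [hr]; field_simp
    linarith
  have h4 := hdiff.add h3
  simp only [sub_add_cancel, zero_add] at h4
  exact h4

lemma start_of_arrays [∀ i, IsProbabilityMeasure (P i)] [l.NeBot]
    (h : ∀ᶠ i in l, Arr (w i) (t i) (G i) (P i) c (T0 i) (M0 i) (δ i) (a i) (b i) (J i))
    {S : Type*} [TopologicalSpace S] [MeasurableSpace S] [OpensMeasurableSpace S]
    {f : ℝ≥0 → S → ℝ} (hf : ∀ s, Continuous (f s)) {μ : ι → ProbabilityMeasure S}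
    {ν : ProbabilityMeasure S} (hμ : Tendsto μ l (𝓝 ν)) {x : ∀ i, Ω i → S}
    (hx : ∀ i, AEMeasurable (x i) (P i)) (hlaw : ∀ i, (P i).map (x i) = μ i)
    (hclose : ∀ s : ℝ≥0, ∀ r > 0, Tendsto (fun i => (P i).real
      {ω | r ≤ |f s (x i ω) - XX (w i) (t i) (J i) s ω|}) l (𝓝 0)) :
    ∀ᵐ z ∂(ν : Measure S), f 0 z = 0 := by
  have hFc : Continuous fun z => min 1 |f 0 z| := continuous_const.min (hf 0).abs
  have hFb : ∀ z, ‖min 1 |f 0 z|‖ ≤ 1 := by
    intro z
    rw [Real.norm_of_nonneg (le_min zero_le_one (abs_nonneg _))]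
    exact min_le_left _ _
  set F : BoundedContinuousFunction S ℝ := BoundedContinuousFunction.ofNormedAddCommGroup
    (fun z => min 1 |f 0 z|) hFc 1 hFb with hF
  have h1 : Tendsto (fun i => ∫ z, F z ∂(μ i : Measure S)) l (𝓝 (∫ z, F z ∂(ν : Measure S))) :=
    ProbabilityMeasure.tendsto_iff_forall_integral_tendsto.1 hμ F
  have h2 : ∀ i, ∫ z, F z ∂(μ i : Measure S) = ∫ ω, min 1 |f 0 (x i ω)| ∂(P i) := by
    intro i
    rw [← hlaw i, integral_map (hx i) F.continuous.aestronglyMeasurable]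
    rfl
  simp_rw [h2] at h1
  have h3 : ∫ z, F z ∂(ν : Measure S) ≤ 0 := by
    refine le_of_forall_pos_le_add fun r hr => ?_
    rw [zero_add]
    have hlim := (hclose 0 r hr).add_const r
    rw [zero_add] at hlim
    refine le_of_tendsto_of_tendsto h1 hlim ?_
    filter_upwards [h] with i hi
    have hX0 : ∀ ω, XX (w i) (t i) (J i) ((0 : ℝ≥0) : ℝ) ω = 0 := by
      intro ω
      have : jj (t i) (J i) ((0 : ℝ≥0) : ℝ) ω = 0 := by
        by_contra h'
        have h4 := (hi.lt_jj.1 (Nat.pos_of_ne_zero h'))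
        have h5 := hi.t0 ω
        rw [NNReal.coe_zero] at h4
        linarith [h4.2]
      unfold XX
      rw [this]
      exact hi.w0 ω
    set B : Set (Ω i) := {ω | r ≤ |f 0 (x i ω) - XX (w i) (t i) (J i) ((0 : ℝ≥0) : ℝ) ω|} with hB
    have hfm : AEMeasurable (fun ω => f 0 (x i ω)) (P i) :=
      (hf 0).measurable.comp_aemeasurable (hx i)
    have hBm : NullMeasurableSet B (P i) :=
      nullMeasurableSet_le aemeasurable_const (hfm.sub (hi.sm_XX _).measurable.aemeasurable).abs
    have hiB : Integrable (B.indicator fun _ => (1 : ℝ)) (P i) :=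
      (integrable_const (1 : ℝ)).indicator₀ hBm
    have hbound : ∀ ω, ‖min 1 |f 0 (x i ω)|‖ ≤ B.indicator (fun _ => (1 : ℝ)) ω + r := by
      intro ω
      rw [Real.norm_of_nonneg (le_min zero_le_one (abs_nonneg _))]
      by_cases hω : ω ∈ B
      · rw [Set.indicator_of_mem hω]
        have := min_le_left 1 |f 0 (x i ω)|
        linarith
      · rw [Set.indicator_of_notMem hω, zero_add]
        have h4 : |f 0 (x i ω) - XX (w i) (t i) (J i) ((0 : ℝ≥0) : ℝ) ω| < r := not_le.1 hω
        rw [hX0, sub_zero] at h4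
        exact (min_le_right _ _).trans h4.le
    have hbi : Integrable (fun ω => B.indicator (fun _ => (1 : ℝ)) ω + r) (P i) :=
      hiB.add (integrable_const r)
    have h5 := norm_integral_le_of_norm_le hbi (Eventually.of_forall hbound)
    have h6 : ∫ ω, (B.indicator (fun _ => (1 : ℝ)) ω + r) ∂(P i) = (P i).real B + r := by
      rw [integral_add hiB (integrable_const _), integral_indicator₀ hBm]
      simp [Measure.real]
    refine (le_abs_self _).trans ?_
    rw [← Real.norm_eq_abs]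
    refine h5.trans ?_
    rw [h6]
  have h4 : 0 ≤ ∫ z, F z ∂(ν : Measure S) :=
    integral_nonneg fun z => le_min zero_le_one (abs_nonneg _)
  have h5 : ∫ z, F z ∂(ν : Measure S) = 0 := le_antisymm h3 h4
  have h6 := (integral_eq_zero_iff_of_nonneg (fun z => le_min zero_le_one (abs_nonneg _))
    (F.integrable (ν : Measure S))).1 h5
  filter_upwards [h6] with z hz
  have h7 : min 1 |f 0 z| = 0 := hz
  rcases min_choice (1 : ℝ) |f 0 z| with h8 | h8
  · rw [h8] at h7; norm_num at h7
  · rw [h8] at h7; exact abs_eq_zero.1 h7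

/-- **the limit theorem**: `f / √c` is a pre-Brownian motion under the limit law -/
theorem brownian_of_arrays [∀ i, IsProbabilityMeasure (P i)] [l.NeBot] (hc : 0 < c)
    (h : ∀ᶠ i in l, Arr (w i) (t i) (G i) (P i) c (T0 i) (M0 i) (δ i) (a i) (b i) (J i))
    (hbad : Tendsto (fun i => (P i).real (BAD (w i) (t i) (T0 i) (M0 i) (J i))) l (𝓝 0))
    (hT0 : Tendsto T0 l atTop) (hM0 : Tendsto M0 l atTop) (hδ : Tendsto δ l (𝓝 0))
    (he : Tendsto (fun i => eps (a i) (b i) (J i)) l (𝓝 0))
    {S : Type*} [TopologicalSpace S] [MeasurableSpace S] [OpensMeasurableSpace S]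
    {f : ℝ≥0 → S → ℝ} (hf : ∀ s, Continuous (f s)) {μ : ι → ProbabilityMeasure S}
    {ν : ProbabilityMeasure S} (hμ : Tendsto μ l (𝓝 ν)) {x : ∀ i, Ω i → S}
    (hx : ∀ i, AEMeasurable (x i) (P i)) (hlaw : ∀ i, (P i).map (x i) = μ i)
    (hclose : ∀ s : ℝ≥0, ∀ r > 0, Tendsto (fun i => (P i).real
      {ω | r ≤ |f s (x i ω) - XX (w i) (t i) (J i) s ω|}) l (𝓝 0)) :
    IsPreBrownianReal (fun s z => (Real.sqrt c)⁻¹ * f s z) (ν : Measure S) := by
  refine isPreBrownianReal_of_char
    (fun s => ((hf s).measurable.const_mul _).aemeasurable) ?_ ?_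
  · filter_upwards [start_of_arrays h hf hμ hx hlaw hclose] with z hz
    rw [hz, mul_zero]
  · intro n θ s hs
    have h1 := char_of_arrays h hbad hT0 hM0 hδ he hf hμ hx hlaw hclose n
      (fun k => (Real.sqrt c)⁻¹ * θ k) s hs
    have h2 : ∀ z, (∑ k ∈ Finset.range n, θ k * ((Real.sqrt c)⁻¹ * f (s (k + 1)) z
        - (Real.sqrt c)⁻¹ * f (s k) z))
        = ∑ k ∈ Finset.range n, (Real.sqrt c)⁻¹ * θ k * (f (s (k + 1)) z - f (s k) z) := by
      intro z
      refine Finset.sum_congr rfl fun k _ => ?_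
      ring
    simp_rw [h2]
    rw [h1]
    congr 3
    have h3 : ((Real.sqrt c)⁻¹) ^ 2 = c⁻¹ := by
      rw [inv_pow, Real.sq_sqrt hc.le]
    have h4 : ∑ k ∈ Finset.range n, ((Real.sqrt c)⁻¹ * θ k) ^ 2 * ((s (k + 1) : ℝ) - s k)
        = c⁻¹ * ∑ k ∈ Finset.range n, θ k ^ 2 * ((s (k + 1) : ℝ) - s k) := by
      rw [Finset.mul_sum]
      refine Finset.sum_congr rfl fun k _ => ?_
      rw [mul_pow, h3]
      ring
    rw [h4]
    field_simp

end

end H37.Levy
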