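import Pool.Agent.H37.Levy.Sup

/-!
# Conditional characteristic function of the increments

`W` continuous martingale in L^2, `W^2 - t` martingale. For `Y` bounded and `F s`-measurable:
`E [Y exp (i θ (W_{s+r} - W_s))] = exp (- θ^2 r / 2) E [Y]`.
-/

open MeasureTheory ProbabilityTheory Filter
open scoped ENNReal NNReal Topology

namespace H37.Levy

/-- `x^2 min (1, |x|)` -/
noncomputable def cub (x : ℝ) : ℝ := x ^ 2 * min 1 |x|

lemma cub_nonneg (x : ℝ) : 0 ≤ cub x :=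
  mul_nonneg (sq_nonneg _) (le_min zero_le_one (abs_nonneg _))

lemma cub_le_sq (x : ℝ) : cub x ≤ x ^ 2 := by
  calc cub x ≤ x ^ 2 * 1 := mul_le_mul_of_nonneg_left (min_le_left _ _) (sq_nonneg _)
    _ = x ^ 2 := mul_one _

lemma taylor_bound (x : ℝ) :
    ‖Complex.exp (Complex.I * x) - (1 + Complex.I * x - (x : ℂ) ^ 2 / 2)‖ ≤ 4 * cub x := by
  rcases le_total |x| 1 with h | h
  · have h1 := Complex.norm_exp_sub_sum_le_norm_mul_exp (Complex.I * x) 3
    have h2 : ‖Complex.I * (x : ℂ)‖ = |x| := by simp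
    have h3 : ∑ m ∈ Finset.range 3, (Complex.I * (x : ℂ)) ^ m / (m.factorial : ℂ)
        = 1 + Complex.I * x - (x : ℂ) ^ 2 / 2 := by
      simp only [Finset.sum_range_succ, Finset.sum_range_zero, Nat.factorial]
      have : (Complex.I * (x : ℂ)) ^ 2 = - (x : ℂ) ^ 2 := by
        rw [mul_pow, Complex.I_sq]; ring
      rw [this]
      push_cast
      ring
    rw [h3, h2] at h1
    refine h1.trans ?_
    unfold cub
    rw [min_eq_right h, ← sq_abs x]
    have h4 : Real.exp |x| ≤ 3 := by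
      calc Real.exp |x| ≤ Real.exp 1 := Real.exp_le_exp.2 h
        _ ≤ 3 := by linarith [Real.exp_one_lt_d9]
    nlinarith [pow_nonneg (abs_nonneg x) 3, mul_le_mul_of_nonneg_left h4 (pow_nonneg (abs_nonneg x) 3)]
  · have h1 : ‖Complex.exp (Complex.I * x)‖ = 1 := by
      rw [mul_comm]; exact Complex.norm_exp_ofReal_mul_I x
    unfold cub
    rw [min_eq_left h, mul_one]
    have h2 : ‖(x : ℂ) ^ 2 / 2‖ = x ^ 2 / 2 := by
      simp
    have h3 : ‖Complex.I * (x : ℂ)‖ = |x| := by simp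
    calc ‖Complex.exp (Complex.I * x) - (1 + Complex.I * x - (x : ℂ) ^ 2 / 2)‖
        ≤ ‖Complex.exp (Complex.I * x)‖ + ‖(1 + Complex.I * x - (x : ℂ) ^ 2 / 2)‖ := norm_sub_le _ _
      _ ≤ 1 + (‖(1 : ℂ) + Complex.I * x‖ + ‖(x : ℂ) ^ 2 / 2‖) := by
          rw [h1]; gcongr; exact norm_sub_le _ _
      _ ≤ 1 + ((‖(1 : ℂ)‖ + ‖Complex.I * (x : ℂ)‖) + ‖(x : ℂ) ^ 2 / 2‖) := by
          gcongr; exact norm_add_le _ _
      _ = 1 + ((1 + |x|) + x ^ 2 / 2) := by rw [h2, h3, norm_one]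
      _ ≤ 4 * x ^ 2 := by
          rw [← sq_abs x]
          nlinarith

variable {Ω : Type*} {m0 : MeasurableSpace Ω} {P : Measure Ω}

/-- the standing assumptions -/
structure Bm (W : ℝ≥0 → Ω → ℝ) (F : Filtration ℝ≥0 m0) (P : Measure Ω) : Prop where
  mart : Martingale W F P
  two : ∀ t, MemLp (W t) 2 P
  quad : Martingale (fun (t : ℝ≥0) ω => (W t ω) ^ 2 - (t : ℝ)) F P
  cont : ∀ᵐ ω ∂P, Continuous fun u => W u ω
  zero : ∀ᵐ ω ∂P, W 0 ω = 0

variable {W : ℝ≥0 → Ω → ℝ} {F : Filtration ℝ≥0 m0}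

lemma orthB [IsFiniteMeasure P] {X : ℝ≥0 → Ω → ℝ} (hX : Martingale X F P)
    {s t : ℝ≥0} (hst : s ≤ t) {Y : Ω → ℝ} (hY : StronglyMeasurable[F s] Y) {C : ℝ}
    (hC : ∀ ω, |Y ω| ≤ C) :
    ∫ ω, Y ω * (X t ω - X s ω) ∂P = 0 := by
  refine orth hX hst hY ?_
  refine Integrable.bdd_mul (c := C) ((hX.integrable t).sub (hX.integrable s))
    (hY.mono (F.le s)).aestronglyMeasurable (Eventually.of_forall hC)

/-- conditional second moment of the increments -/
lemma Bm.second [IsFiniteMeasure P] (h : Bm W F P) {s t : ℝ≥0} (hst : s ≤ t) {Y : Ω → ℝ}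
    (hY : StronglyMeasurable[F s] Y) {C : ℝ} (hC : ∀ ω, |Y ω| ≤ C) :
    ∫ ω, Y ω * (W t ω - W s ω) ^ 2 ∂P = ((t : ℝ) - s) * ∫ ω, Y ω ∂P := by
  have hYm := (hY.mono (F.le s)).aestronglyMeasurable (μ := P)
  have hYi : Integrable Y P := Integrable.of_bound hYm C (Eventually.of_forall hC)
  have h1 := orthB h.quad hst hY hC
  have hs := h.mart.stronglyMeasurable s
  have hYW2 : MemLp (fun ω => Y ω * W s ω) 2 P := by
    refine MemLp.of_le_mul (c := C) (h.two s) (hYm.mul (h.two s).1) (Eventually.of_forall fun ω => ?_)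
    rw [norm_mul]
    exact mul_le_mul_of_nonneg_right (hC ω) (norm_nonneg _)
  have h2 := orth_L2 h.mart h.two hst (Y := fun ω => Y ω * W s ω) (hY.mul hs) hYW2
  have hi1 : Integrable (fun ω => Y ω * (((W t ω) ^ 2 - (t : ℝ)) - ((W s ω) ^ 2 - (s : ℝ)))) P :=
    Integrable.bdd_mul (c := C) ((h.quad.integrable t).sub (h.quad.integrable s)) hYm
      (Eventually.of_forall hC)
  have hi2 : Integrable (fun ω => Y ω * W s ω * (W t ω - W s ω)) P :=
    MemLp.integrable_mul hYW2 ((h.two t).sub (h.two s))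
  have h3 : (fun ω => Y ω * (W t ω - W s ω) ^ 2)
      = fun ω => (Y ω * (((W t ω) ^ 2 - (t : ℝ)) - ((W s ω) ^ 2 - (s : ℝ)))
        - 2 * (Y ω * W s ω * (W t ω - W s ω))) + ((t : ℝ) - s) * Y ω := by
    funext ω; ring
  have hi12 : Integrable (fun ω => Y ω * (((W t ω) ^ 2 - (t : ℝ)) - ((W s ω) ^ 2 - (s : ℝ)))
        - 2 * (Y ω * W s ω * (W t ω - W s ω))) P := hi1.sub (hi2.const_mul 2)
  rw [h3, integral_add hi12 (hYi.const_mul _),
    integral_sub hi1 (hi2.const_mul 2), integral_const_mul, integral_const_mul, h1, h2]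
  ring

/-- complex test functions: split into real and imaginary part -/
lemma complexify {Z : Ω → ℂ} {X : Ω → ℝ} (hint : Integrable (fun ω => Z ω * (X ω : ℂ)) P) :
    ∫ ω, Z ω * (X ω : ℂ) ∂P
      = ((∫ ω, (Z ω).re * X ω ∂P : ℝ) : ℂ) + ((∫ ω, (Z ω).im * X ω ∂P : ℝ) : ℂ) * Complex.I := by
  rw [← integral_re_add_im hint]
  simp only [RCLike.re_to_complex, RCLike.im_to_complex, RCLike.I_to_complex,
    Complex.mul_re, Complex.mul_im, Complex.ofReal_re, Complex.ofReal_im, mul_zero, sub_zero,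
    zero_add]
  rfl

lemma Bm.orthC [IsFiniteMeasure P] (h : Bm W F P) {s t : ℝ≥0} (hst : s ≤ t) {Z : Ω → ℂ}
    (hZ : StronglyMeasurable[F s] Z) {C : ℝ} (hC : ∀ ω, ‖Z ω‖ ≤ C) :
    ∫ ω, Z ω * ((W t ω - W s ω : ℝ) : ℂ) ∂P = 0 := by
  have hi : Integrable (fun ω => Z ω * ((W t ω - W s ω : ℝ) : ℂ)) P :=
    Integrable.bdd_mul (c := C) ((h.mart.integrable t).sub (h.mart.integrable s)).ofReal
      (hZ.mono (F.le s)).aestronglyMeasurable (Eventually.of_forall hC)
  rw [complexify hi]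
  have h1 := orthB h.mart hst (Y := fun ω => (Z ω).re)
    ((Complex.continuous_re).comp_stronglyMeasurable hZ)
    (fun ω => (Complex.abs_re_le_norm _).trans (hC ω))
  have h2 := orthB h.mart hst (Y := fun ω => (Z ω).im)
    ((Complex.continuous_im).comp_stronglyMeasurable hZ)
    (fun ω => (Complex.abs_im_le_norm _).trans (hC ω))
  rw [h1, h2]
  simp

lemma Bm.secondC [IsFiniteMeasure P] (h : Bm W F P) {s t : ℝ≥0} (hst : s ≤ t) {Z : Ω → ℂ}
    (hZ : StronglyMeasurable[F s] Z) {C : ℝ} (hC : ∀ ω, ‖Z ω‖ ≤ C) :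
    ∫ ω, Z ω * (((W t ω - W s ω) ^ 2 : ℝ) : ℂ) ∂P = ((t : ℂ) - s) * ∫ ω, Z ω ∂P := by
  have hZm := (hZ.mono (F.le s)).aestronglyMeasurable (μ := P)
  have hZi : Integrable Z P := Integrable.of_bound hZm C (Eventually.of_forall hC)
  have hi : Integrable (fun ω => Z ω * (((W t ω - W s ω) ^ 2 : ℝ) : ℂ)) P :=
    Integrable.bdd_mul (c := C) (((h.two t).sub (h.two s)).integrable_sq).ofReal
      hZm (Eventually.of_forall hC)
  rw [complexify hi]
  have h1 := h.second hst (Y := fun ω => (Z ω).re)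
    ((Complex.continuous_re).comp_stronglyMeasurable hZ)
    (fun ω => (Complex.abs_re_le_norm _).trans (hC ω))
  have h2 := h.second hst (Y := fun ω => (Z ω).im)
    ((Complex.continuous_im).comp_stronglyMeasurable hZ)
    (fun ω => (Complex.abs_im_le_norm _).trans (hC ω))
  rw [h1, h2]
  have h3 : ∫ ω, Z ω ∂P = ((∫ ω, (Z ω).re ∂P : ℝ) : ℂ) + ((∫ ω, (Z ω).im ∂P : ℝ) : ℂ) * Complex.I := by
    rw [← integral_re_add_im hZi]
    rfl
  rw [h3]
  push_cast
  ring

/-- one step: with error term `4 cub (θ Δ)` -/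
lemma Bm.step [IsFiniteMeasure P] (h : Bm W F P) (θ : ℝ) {s t : ℝ≥0} (hst : s ≤ t) {Z : Ω → ℂ}
    (hZ : StronglyMeasurable[F s] Z) (hC : ∀ ω, ‖Z ω‖ ≤ 1) :
    ‖∫ ω, Z ω * Complex.exp (Complex.I * ((θ * (W t ω - W s ω) : ℝ) : ℂ)) ∂P
      - (1 - θ ^ 2 * ((t : ℂ) - s) / 2) * ∫ ω, Z ω ∂P‖
      ≤ 4 * ∫ ω, cub (θ * (W t ω - W s ω)) ∂P := by
  have hZm := (hZ.mono (F.le s)).aestronglyMeasurable (μ := P)
  have hZi : Integrable Z P := Integrable.of_bound hZm 1 (Eventually.of_forall hC)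
  have hWm : AEStronglyMeasurable (fun ω => W t ω - W s ω) P := ((h.two t).sub (h.two s)).1
  have hi1 : Integrable (fun ω => Z ω * ((W t ω - W s ω : ℝ) : ℂ)) P :=
    Integrable.bdd_mul (c := 1) ((h.mart.integrable t).sub (h.mart.integrable s)).ofReal
      hZm (Eventually.of_forall hC)
  have hi2 : Integrable (fun ω => Z ω * (((W t ω - W s ω) ^ 2 : ℝ) : ℂ)) P :=
    Integrable.bdd_mul (c := 1) (((h.two t).sub (h.two s)).integrable_sq).ofReal
      hZm (Eventually.of_forall hC)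
  have hem : AEStronglyMeasurable
      (fun ω => Complex.exp (Complex.I * ((θ * (W t ω - W s ω) : ℝ) : ℂ))) P := by
    have hcont : Continuous fun x : ℝ => Complex.exp (Complex.I * ((θ * x : ℝ) : ℂ)) := by fun_prop
    exact hcont.comp_aestronglyMeasurable hWm
  have hie : Integrable
      (fun ω => Z ω * Complex.exp (Complex.I * ((θ * (W t ω - W s ω) : ℝ) : ℂ))) P := by
    refine Integrable.of_bound (hZm.mul hem) 1 (Eventually.of_forall fun ω => ?_)
    rw [norm_mul, mul_comm Complex.I, Complex.norm_exp_ofReal_mul_I, mul_one]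
    exact hC ω
  have hcubi : Integrable (fun ω => cub (θ * (W t ω - W s ω))) P := by
    have hsq : Integrable (fun ω => (θ * (W t ω - W s ω)) ^ 2) P := by
      have := (((h.two t).sub (h.two s)).integrable_sq).const_mul (θ ^ 2)
      refine this.congr (Eventually.of_forall fun ω => ?_)
      simp only [Pi.sub_apply]
      ring
    refine hsq.mono' ?_ (Eventually.of_forall fun ω => ?_)
    · have hcont : Continuous fun x : ℝ => cub (θ * x) := by
        unfold cub; fun_prop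
      exact hcont.comp_aestronglyMeasurable hWm
    · rw [Real.norm_of_nonneg (cub_nonneg _)]
      exact cub_le_sq _
  have key : ∫ ω, Z ω * Complex.exp (Complex.I * ((θ * (W t ω - W s ω) : ℝ) : ℂ)) ∂P
      - (1 - θ ^ 2 * ((t : ℂ) - s) / 2) * ∫ ω, Z ω ∂P
      = ∫ ω, Z ω * (Complex.exp (Complex.I * ((θ * (W t ω - W s ω) : ℝ) : ℂ))
          - (1 + Complex.I * ((θ * (W t ω - W s ω) : ℝ) : ℂ)
            - ((θ * (W t ω - W s ω) : ℝ) : ℂ) ^ 2 / 2)) ∂P := by
    have e1 : (fun ω => Z ω * (Complex.exp (Complex.I * ((θ * (W t ω - W s ω) : ℝ) : ℂ))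
          - (1 + Complex.I * ((θ * (W t ω - W s ω) : ℝ) : ℂ)
            - ((θ * (W t ω - W s ω) : ℝ) : ℂ) ^ 2 / 2)))
        = fun ω => ((Z ω * Complex.exp (Complex.I * ((θ * (W t ω - W s ω) : ℝ) : ℂ)) - Z ω)
          - (Complex.I * θ) * (Z ω * ((W t ω - W s ω : ℝ) : ℂ)))
          + ((θ : ℂ) ^ 2 / 2) * (Z ω * (((W t ω - W s ω) ^ 2 : ℝ) : ℂ)) := by
      funext ω
      push_cast
      ring
    have j1 : Integrable (fun ω => Z ω * Complex.exp (Complex.I * ((θ * (W t ω - W s ω) : ℝ) : ℂ))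
        - Z ω) P := hie.sub hZi
    have j2 : Integrable (fun ω => (Z ω * Complex.exp (Complex.I * ((θ * (W t ω - W s ω) : ℝ) : ℂ))
        - Z ω) - (Complex.I * θ) * (Z ω * ((W t ω - W s ω : ℝ) : ℂ))) P := j1.sub (hi1.const_mul _)
    rw [e1, integral_add j2 (hi2.const_mul _),
      integral_sub j1 (hi1.const_mul _), integral_sub hie hZi,
      integral_const_mul, integral_const_mul, h.orthC hst hZ hC, h.secondC hst hZ hC]
    ring
  rw [key]
  calc ‖∫ ω, Z ω * (Complex.exp (Complex.I * ((θ * (W t ω - W s ω) : ℝ) : ℂ))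
          - (1 + Complex.I * ((θ * (W t ω - W s ω) : ℝ) : ℂ)
            - ((θ * (W t ω - W s ω) : ℝ) : ℂ) ^ 2 / 2)) ∂P‖
      ≤ ∫ ω, 4 * cub (θ * (W t ω - W s ω)) ∂P := by
        refine norm_integral_le_of_norm_le (hcubi.const_mul 4) (Eventually.of_forall fun ω => ?_)
        rw [norm_mul]
        calc ‖Z ω‖ * _ ≤ 1 * (4 * cub (θ * (W t ω - W s ω))) :=
              mul_le_mul (hC ω) (taylor_bound _) (norm_nonneg _) zero_le_one
          _ = _ := one_mul _
    _ = 4 * ∫ ω, cub (θ * (W t ω - W s ω)) ∂P := integral_const_mul _ _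

end H37.Levy
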