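import Pool.Agent.H37.Levy.Array1
import Pool.Agent.H37.Levy.Char

/-!
# Arrays which are nearly Brownian: summation of the exponential estimate
-/

open MeasureTheory ProbabilityTheory Filter
open scoped ENNReal NNReal Topology

namespace H37.Levy

variable {Ω : Type*} {m0 : MeasurableSpace Ω}

/-- An array which is nearly Brownian: positions `w j`, times `t j`, `j ≤ J`; the drift and the
variance are controlled by test functions. The sequences are supposed to be stopped at the time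
`T0` or at the level `M0`, see `BAD`. -/
structure Arr (w t : ℕ → Ω → ℝ) (G : Filtration ℕ m0) (P : Measure Ω) (c T0 M0 δ : ℝ)
    (a b : ℕ → ℝ) (J : ℕ) : Prop where
  c0 : 0 ≤ c
  T00 : 0 ≤ T0
  M00 : 0 ≤ M0
  δ0 : 0 ≤ δ
  δ1 : δ ≤ 1
  mw : ∀ j, StronglyMeasurable[G j] (w j)
  mt : ∀ j, StronglyMeasurable[G j] (t j)
  w0 : ∀ ω, w 0 ω = 0
  t0 : ∀ ω, t 0 ω = 0
  bw : ∀ j ≤ J, ∀ ω, |w j ω| ≤ M0 + 1
  bt : ∀ j ≤ J, ∀ ω, t j ω ≤ T0 + 1
  dw : ∀ j < J, ∀ ω, |w (j + 1) ω - w j ω| ≤ δ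
  dt0 : ∀ j < J, ∀ ω, 0 ≤ t (j + 1) ω - t j ω
  dt : ∀ j < J, ∀ ω, t (j + 1) ω - t j ω ≤ δ
  e1 : ∀ j < J, ∀ Y : Ω → ℝ, StronglyMeasurable[G j] Y → (∀ ω, |Y ω| ≤ 1) →
    |∫ ω, Y ω * (w (j + 1) ω - w j ω) ∂P| ≤ a j
  e2 : ∀ j < J, ∀ Y : Ω → ℝ, StronglyMeasurable[G j] Y → (∀ ω, |Y ω| ≤ 1) →
    |∫ ω, Y ω * ((w (j + 1) ω - w j ω) ^ 2 - c * (t (j + 1) ω - t j ω)) ∂P| ≤ b j

/-- the event that the sequence is stopped before the time `T0` and before the level `M0` -/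
def BAD (w t : ℕ → Ω → ℝ) (T0 M0 : ℝ) (J : ℕ) : Set Ω := {ω | t J ω < T0 ∧ |w J ω| < M0}

/-- total error -/
noncomputable def eps (a b : ℕ → ℝ) (J : ℕ) : ℝ := ∑ j ∈ Finset.range J, (a j + b j)

/-- error of the exponential estimate, `A ≥ |z|, c` -/
noncomputable def Err (A T0 δ e : ℝ) : ℝ :=
  2 * (1 + A) ^ 2 * e + KK A * δ * ((1 + A) * (T0 + 1) + e)

variable {P : Measure Ω} {w t : ℕ → Ω → ℝ} {G : Filtration ℕ m0} {c T0 M0 δ : ℝ} {a b : ℕ → ℝ}
  {J : ℕ}

namespace Arr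

lemma a_nonneg (h : Arr w t G P c T0 M0 δ a b J) {j : ℕ} (hj : j < J) : 0 ≤ a j := by
  have := h.e1 j hj (fun _ => 0) stronglyMeasurable_const (fun _ => by simp)
  simpa using this

lemma b_nonneg (h : Arr w t G P c T0 M0 δ a b J) {j : ℕ} (hj : j < J) : 0 ≤ b j := by
  have := h.e2 j hj (fun _ => 0) stronglyMeasurable_const (fun _ => by simp)
  simpa using this

lemma eps_nonneg (h : Arr w t G P c T0 M0 δ a b J) : 0 ≤ eps a b J :=
  Finset.sum_nonneg fun _ hj => add_nonneg (h.a_nonneg (Finset.mem_range.1 hj))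
    (h.b_nonneg (Finset.mem_range.1 hj))

lemma sum_a_le (h : Arr w t G P c T0 M0 δ a b J) : ∑ j ∈ Finset.range J, a j ≤ eps a b J :=
  Finset.sum_le_sum fun _ hj => le_add_of_nonneg_right (h.b_nonneg (Finset.mem_range.1 hj))

lemma sum_b_le (h : Arr w t G P c T0 M0 δ a b J) : ∑ j ∈ Finset.range J, b j ≤ eps a b J :=
  Finset.sum_le_sum fun _ hj => le_add_of_nonneg_left (h.a_nonneg (Finset.mem_range.1 hj))

lemma mw0 (h : Arr w t G P c T0 M0 δ a b J) (j : ℕ) : StronglyMeasurable (w j) :=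
  (h.mw j).mono (G.le j)

lemma mt0 (h : Arr w t G P c T0 M0 δ a b J) (j : ℕ) : StronglyMeasurable (t j) :=
  (h.mt j).mono (G.le j)

lemma idw [IsFiniteMeasure P] (h : Arr w t G P c T0 M0 δ a b J) {j : ℕ} (hj : j < J) :
    Integrable (fun ω => w (j + 1) ω - w j ω) P :=
  Integrable.of_bound ((h.mw0 _).sub (h.mw0 _)).aestronglyMeasurable δ
    (Eventually.of_forall (h.dw j hj))

lemma idw2 [IsFiniteMeasure P] (h : Arr w t G P c T0 M0 δ a b J) {j : ℕ} (hj : j < J) :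
    Integrable (fun ω => (w (j + 1) ω - w j ω) ^ 2) P := by
  refine Integrable.of_bound (((h.mw0 _).sub (h.mw0 _)).pow 2).aestronglyMeasurable (δ ^ 2)
    (Eventually.of_forall fun ω => ?_)
  rw [norm_pow]
  exact pow_le_pow_left₀ (norm_nonneg _) (h.dw j hj ω) 2

lemma idt [IsFiniteMeasure P] (h : Arr w t G P c T0 M0 δ a b J) {j : ℕ} (hj : j < J) :
    Integrable (fun ω => t (j + 1) ω - t j ω) P := by
  refine Integrable.of_bound ((h.mt0 _).sub (h.mt0 _)).aestronglyMeasurable δ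
    (Eventually.of_forall fun ω => ?_)
  rw [Real.norm_of_nonneg (h.dt0 j hj ω)]
  exact h.dt j hj ω

lemma t_mono (h : Arr w t G P c T0 M0 δ a b J) {i j : ℕ} (hij : i ≤ j) (hj : j ≤ J) (ω : Ω) :
    t i ω ≤ t j ω := by
  induction j with
  | zero => rw [Nat.le_zero.1 hij]
  | succ j ih =>
    rcases Nat.lt_or_ge i (j + 1) with h1 | h1
    · have h2 := h.dt0 j (Nat.lt_of_succ_le hj) ω
      have h3 := ih (Nat.lt_succ_iff.1 h1) ((Nat.le_succ j).trans hj)
      linarith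
    · rw [le_antisymm hij h1]

lemma t_nonneg (h : Arr w t G P c T0 M0 δ a b J) {j : ℕ} (hj : j ≤ J) (ω : Ω) : 0 ≤ t j ω := by
  have := h.t_mono (Nat.zero_le j) hj ω
  rwa [h.t0 ω] at this

/-- total quadratic variation -/
lemma total [IsProbabilityMeasure P] (h : Arr w t G P c T0 M0 δ a b J) :
    ∑ j ∈ Finset.range J, ∫ ω, ((w (j + 1) ω - w j ω) ^ 2 + (t (j + 1) ω - t j ω)) ∂P
      ≤ (1 + c) * (T0 + 1) + eps a b J := by
  have h1 : ∀ j ∈ Finset.range J,
      ∫ ω, ((w (j + 1) ω - w j ω) ^ 2 + (t (j + 1) ω - t j ω)) ∂P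
        ≤ (1 + c) * ∫ ω, (t (j + 1) ω - t j ω) ∂P + b j := by
    intro j hj
    have hj' := Finset.mem_range.1 hj
    have h2 := h.e2 j hj' (fun _ => 1) stronglyMeasurable_const (fun _ => by simp)
    simp only [one_mul] at h2
    rw [integral_sub (h.idw2 hj') ((h.idt hj').const_mul c), integral_const_mul] at h2
    rw [integral_add (h.idw2 hj') (h.idt hj')]
    have h3 := (abs_le.1 h2).2
    linarith
  have h4 : ∑ j ∈ Finset.range J, ∫ ω, (t (j + 1) ω - t j ω) ∂P ≤ T0 + 1 := by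
    rw [← integral_finsetSum _ fun j hj => h.idt (Finset.mem_range.1 hj)]
    calc ∫ ω, ∑ j ∈ Finset.range J, (t (j + 1) ω - t j ω) ∂P
        ≤ ∫ _ω, (T0 + 1) ∂P := by
          refine integral_mono (integrable_finsetSum _ fun j hj => h.idt (Finset.mem_range.1 hj))
            (integrable_const _) fun ω => ?_
          dsimp only
          rw [Finset.sum_range_sub (fun j => t j ω) J, h.t0 ω, sub_zero]
          exact h.bt J le_rfl ω
      _ = T0 + 1 := by simp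
  calc _ ≤ ∑ j ∈ Finset.range J, ((1 + c) * ∫ ω, (t (j + 1) ω - t j ω) ∂P + b j) :=
        Finset.sum_le_sum h1
    _ = (1 + c) * ∑ j ∈ Finset.range J, ∫ ω, (t (j + 1) ω - t j ω) ∂P
        + ∑ j ∈ Finset.range J, b j := by
        rw [Finset.sum_add_distrib, Finset.mul_sum]
    _ ≤ (1 + c) * (T0 + 1) + eps a b J := by
        have hc := h.c0
        have h5 : 0 ≤ 1 + c := by linarith
        exact add_le_add (mul_le_mul_of_nonneg_left h4 h5) h.sum_b_le

/-- complex test functions -/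
lemma test_complex [IsFiniteMeasure P] {X : Ω → ℝ} (hX : Integrable X P) {m : MeasurableSpace Ω}
    (hm : m ≤ m0) {e B : ℝ}
    (h : ∀ Y : Ω → ℝ, StronglyMeasurable[m] Y → (∀ ω, |Y ω| ≤ 1) → |∫ ω, Y ω * X ω ∂P| ≤ e)
    {V : Ω → ℂ} (hV : StronglyMeasurable[m] V) (hB : ∀ ω, ‖V ω‖ ≤ B) (hB0 : 0 < B) :
    ‖∫ ω, V ω * (X ω : ℂ) ∂P‖ ≤ 2 * B * e := by
  have key : ∀ Y : Ω → ℝ, StronglyMeasurable[m] Y → (∀ ω, |Y ω| ≤ B) →
      |∫ ω, Y ω * X ω ∂P| ≤ B * e := by
    intro Y hY hYB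
    have h1 := h (fun ω => B⁻¹ * Y ω) (hY.const_mul _) (fun ω => by
      rw [abs_mul, abs_of_pos (inv_pos.2 hB0), inv_mul_le_iff₀ hB0, mul_one]
      exact hYB ω)
    have h2 : ∫ ω, B⁻¹ * Y ω * X ω ∂P = B⁻¹ * ∫ ω, Y ω * X ω ∂P := by
      rw [← integral_const_mul]
      congr 1
      funext ω
      ring
    rw [h2, abs_mul, abs_of_pos (inv_pos.2 hB0), inv_mul_le_iff₀ hB0] at h1
    exact h1
  have hi : Integrable (fun ω => V ω * (X ω : ℂ)) P :=
    Integrable.bdd_mul (c := B) hX.ofReal (hV.mono hm).aestronglyMeasurable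
      (Eventually.of_forall hB)
  rw [complexify hi]
  have h1 := key (fun ω => (V ω).re) (Complex.continuous_re.comp_stronglyMeasurable hV)
    (fun ω => (Complex.abs_re_le_norm _).trans (hB ω))
  have h2 := key (fun ω => (V ω).im) (Complex.continuous_im.comp_stronglyMeasurable hV)
    (fun ω => (Complex.abs_im_le_norm _).trans (hB ω))
  calc _ ≤ ‖((∫ ω, (V ω).re * X ω ∂P : ℝ) : ℂ)‖
        + ‖((∫ ω, (V ω).im * X ω ∂P : ℝ) : ℂ) * Complex.I‖ := norm_add_le _ _
    _ = |∫ ω, (V ω).re * X ω ∂P| + |∫ ω, (V ω).im * X ω ∂P| := by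
        rw [norm_mul, Complex.norm_I, mul_one, Complex.norm_real, Complex.norm_real,
          Real.norm_eq_abs, Real.norm_eq_abs]
    _ ≤ 2 * B * e := by linarith

/-- the exponential factor of one step -/
noncomputable def fac (w t : ℕ → Ω → ℝ) (c : ℝ) (z : ℂ) (j : ℕ) (ω : Ω) : ℂ :=
  Complex.exp (z * ((w (j + 1) ω - w j ω : ℝ) : ℂ)
    - c * z ^ 2 * ((t (j + 1) ω - t j ω : ℝ) : ℂ) / 2)

/-- **the exponential estimate**: for adapted bounded complex weights `V` -/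
theorem core [IsProbabilityMeasure P] (h : Arr w t G P c T0 M0 δ a b J) {z : ℂ} {A B : ℝ}
    (hz : ‖z‖ ≤ A) (hc : c ≤ A) (hB : 0 < B) {V : ℕ → Ω → ℂ}
    (hV : ∀ j < J, StronglyMeasurable[G j] (V j)) (hVB : ∀ j < J, ∀ ω, ‖V j ω‖ ≤ B) :
    ‖∑ j ∈ Finset.range J, ∫ ω, V j ω * (fac w t c z j ω - 1) ∂P‖
      ≤ B * Err A T0 δ (eps a b J) := by
  have hδ0 := h.δ0
  have hA0 : 0 ≤ A := (norm_nonneg z).trans hz
  have hone : ∀ j ∈ Finset.range J, ‖∫ ω, V j ω * (fac w t c z j ω - 1) ∂P‖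
      ≤ B * (2 * A * a j + A ^ 2 * b j + KK A * δ *
        ∫ ω, ((w (j + 1) ω - w j ω) ^ 2 + (t (j + 1) ω - t j ω)) ∂P) := by
    intro j hj
    have hj' := Finset.mem_range.1 hj
    have hVm := ((hV j hj').mono (G.le j)).aestronglyMeasurable (μ := P)
    have hX2 : Integrable (fun ω => (w (j + 1) ω - w j ω) ^ 2 - c * (t (j + 1) ω - t j ω)) P :=
      (h.idw2 hj').sub ((h.idt hj').const_mul c)
    have i1 : Integrable (fun ω => V j ω * ((w (j + 1) ω - w j ω : ℝ) : ℂ)) P :=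
      Integrable.bdd_mul (c := B) (h.idw hj').ofReal hVm (Eventually.of_forall (hVB j hj'))
    have i2 : Integrable (fun ω => V j ω *
        (((w (j + 1) ω - w j ω) ^ 2 - c * (t (j + 1) ω - t j ω) : ℝ) : ℂ)) P :=
      Integrable.bdd_mul (c := B) hX2.ofReal hVm (Eventually.of_forall (hVB j hj'))
    set r : Ω → ℂ := fun ω => fac w t c z j ω - 1 - (z * ((w (j + 1) ω - w j ω : ℝ) : ℂ)
      + z ^ 2 / 2 * (((w (j + 1) ω - w j ω) ^ 2 - c * (t (j + 1) ω - t j ω) : ℝ) : ℂ)) with hr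
    have hrb : ∀ ω, ‖r ω‖ ≤ KK A * δ * ((w (j + 1) ω - w j ω) ^ 2 + (t (j + 1) ω - t j ω)) :=
      fun ω => step_rem hz h.c0 hc h.δ1 (h.dw j hj' ω) (h.dt0 j hj' ω) (h.dt j hj' ω)
    have hrm : StronglyMeasurable r := by
      have hdw : StronglyMeasurable fun ω => ((w (j + 1) ω - w j ω : ℝ) : ℂ) :=
        Complex.continuous_ofReal.comp_stronglyMeasurable ((h.mw0 _).sub (h.mw0 _))
      have hdt : StronglyMeasurable fun ω => ((t (j + 1) ω - t j ω : ℝ) : ℂ) :=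
        Complex.continuous_ofReal.comp_stronglyMeasurable ((h.mt0 _).sub (h.mt0 _))
      have hX2m : StronglyMeasurable fun ω =>
          (((w (j + 1) ω - w j ω) ^ 2 - c * (t (j + 1) ω - t j ω) : ℝ) : ℂ) :=
        Complex.continuous_ofReal.comp_stronglyMeasurable
          ((((h.mw0 _).sub (h.mw0 _)).pow 2).sub (((h.mt0 _).sub (h.mt0 _)).const_mul c))
      have hf : StronglyMeasurable (fac w t c z j) := by
        unfold fac
        refine Complex.continuous_exp.comp_stronglyMeasurable ?_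
        exact (hdw.const_mul z).sub (by
          simpa [div_eq_mul_inv] using (hdt.const_mul ((c : ℂ) * z ^ 2)).mul_const (2 : ℂ)⁻¹)
      exact (hf.sub stronglyMeasurable_const).sub ((hdw.const_mul z).add (hX2m.const_mul _))
    have hri : Integrable (fun ω => V j ω * r ω) P := by
      refine Integrable.bdd_mul (c := B) ?_ hVm (Eventually.of_forall (hVB j hj'))
      exact (((h.idw2 hj').add (h.idt hj')).const_mul (KK A * δ)).mono' hrm.aestronglyMeasurable
        (Eventually.of_forall hrb)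
    have hsplit : (fun ω => V j ω * (fac w t c z j ω - 1))
        = fun ω => (z * (V j ω * ((w (j + 1) ω - w j ω : ℝ) : ℂ))
          + z ^ 2 / 2 * (V j ω *
            (((w (j + 1) ω - w j ω) ^ 2 - c * (t (j + 1) ω - t j ω) : ℝ) : ℂ)))
          + V j ω * r ω := by
      funext ω
      rw [hr]
      ring
    have i12 : Integrable (fun ω => z * (V j ω * ((w (j + 1) ω - w j ω : ℝ) : ℂ))
          + z ^ 2 / 2 * (V j ω *
            (((w (j + 1) ω - w j ω) ^ 2 - c * (t (j + 1) ω - t j ω) : ℝ) : ℂ))) P :=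
      (i1.const_mul z).add (i2.const_mul _)
    rw [hsplit, integral_add i12 hri, integral_add (i1.const_mul z) (i2.const_mul _),
      integral_const_mul, integral_const_mul]
    have t1 := test_complex (h.idw hj') (G.le j) (h.e1 j hj') (hV j hj') (hVB j hj') hB
    have t2 := test_complex hX2 (G.le j) (h.e2 j hj') (hV j hj') (hVB j hj') hB
    have t3 : ‖∫ ω, V j ω * r ω ∂P‖ ≤ B * (KK A * δ *
        ∫ ω, ((w (j + 1) ω - w j ω) ^ 2 + (t (j + 1) ω - t j ω)) ∂P) := by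
      rw [← integral_const_mul, ← integral_const_mul]
      refine norm_integral_le_of_norm_le
        ((((h.idw2 hj').add (h.idt hj')).const_mul (KK A * δ)).const_mul B)
        (Eventually.of_forall fun ω => ?_)
      rw [norm_mul]
      exact mul_le_mul (hVB j hj' ω) (hrb ω) (norm_nonneg _) hB.le
    have ha := h.a_nonneg hj'
    have hb := h.b_nonneg hj'
    have n1 : ‖z * ∫ ω, V j ω * ((w (j + 1) ω - w j ω : ℝ) : ℂ) ∂P‖ ≤ A * (2 * B * a j) := by
      rw [norm_mul]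
      exact mul_le_mul hz t1 (norm_nonneg _) hA0
    have n2 : ‖z ^ 2 / 2 * ∫ ω, V j ω *
        (((w (j + 1) ω - w j ω) ^ 2 - c * (t (j + 1) ω - t j ω) : ℝ) : ℂ) ∂P‖
        ≤ A ^ 2 / 2 * (2 * B * b j) := by
      rw [norm_mul, norm_div, norm_pow]
      have h4 : ‖(2 : ℂ)‖ = 2 := by simp
      rw [h4]
      have h5 : ‖z‖ ^ 2 / 2 ≤ A ^ 2 / 2 := by
        have := pow_le_pow_left₀ (norm_nonneg z) hz 2
        linarith
      exact mul_le_mul h5 t2 (norm_nonneg _) (by positivity)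
    calc _ ≤ ‖z * ∫ ω, V j ω * ((w (j + 1) ω - w j ω : ℝ) : ℂ) ∂P‖
          + ‖z ^ 2 / 2 * ∫ ω, V j ω *
            (((w (j + 1) ω - w j ω) ^ 2 - c * (t (j + 1) ω - t j ω) : ℝ) : ℂ) ∂P‖
          + ‖∫ ω, V j ω * r ω ∂P‖ := norm_add₃_le
      _ ≤ A * (2 * B * a j) + A ^ 2 / 2 * (2 * B * b j) + B * (KK A * δ *
          ∫ ω, ((w (j + 1) ω - w j ω) ^ 2 + (t (j + 1) ω - t j ω)) ∂P) :=
          add_le_add (add_le_add n1 n2) t3
      _ = _ := by ring
  have hKK := (KK_pos hA0).le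
  calc _ ≤ ∑ j ∈ Finset.range J, ‖∫ ω, V j ω * (fac w t c z j ω - 1) ∂P‖ := norm_sum_le _ _
    _ ≤ ∑ j ∈ Finset.range J, B * (2 * A * a j + A ^ 2 * b j + KK A * δ *
        ∫ ω, ((w (j + 1) ω - w j ω) ^ 2 + (t (j + 1) ω - t j ω)) ∂P) := Finset.sum_le_sum hone
    _ = B * (2 * A * ∑ j ∈ Finset.range J, a j + A ^ 2 * ∑ j ∈ Finset.range J, b j
        + KK A * δ * ∑ j ∈ Finset.range J,
          ∫ ω, ((w (j + 1) ω - w j ω) ^ 2 + (t (j + 1) ω - t j ω)) ∂P) := by
        rw [← Finset.mul_sum, Finset.sum_add_distrib, Finset.sum_add_distrib, ← Finset.mul_sum,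
          ← Finset.mul_sum, ← Finset.mul_sum]
    _ ≤ B * (2 * A * eps a b J + A ^ 2 * eps a b J
        + KK A * δ * ((1 + c) * (T0 + 1) + eps a b J)) := by
        have := h.sum_a_le
        have := h.sum_b_le
        have := h.total
        gcongr
    _ ≤ B * Err A T0 δ (eps a b J) := by
        unfold Err
        have he := h.eps_nonneg
        have hT := h.T00
        have h1 : (2 * A + A ^ 2) * eps a b J ≤ 2 * (1 + A) ^ 2 * eps a b J := by
          apply mul_le_mul_of_nonneg_right _ he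
          nlinarith
        have h2 : KK A * δ * ((1 + c) * (T0 + 1) + eps a b J)
            ≤ KK A * δ * ((1 + A) * (T0 + 1) + eps a b J) := by
          gcongr
        apply mul_le_mul_of_nonneg_left _ hB.le
        linarith

end Arr

end H37.Levy
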