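import Pool.Agent.H37.Levy.Array2

/-!
# Arrays which are nearly Brownian: the process in time, finite-dimensional laws
-/

open MeasureTheory ProbabilityTheory Filter
open scoped ENNReal NNReal Topology

namespace H37.Levy

variable {Ω : Type*} {m0 : MeasurableSpace Ω}

/-- first index `j` with `s ≤ t j` (and `J` if there is none below `J`), for monotone `t` -/
noncomputable def jj (t : ℕ → Ω → ℝ) (J : ℕ) (s : ℝ) (ω : Ω) : ℕ :=
  ((Finset.range J).filter (fun j => t j ω < s)).card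

/-- position at time `s` -/
noncomputable def XX (w t : ℕ → Ω → ℝ) (J : ℕ) (s : ℝ) (ω : Ω) : ℝ := w (jj t J s ω) ω
/-- actual time of this position -/
noncomputable def TT (t : ℕ → Ω → ℝ) (J : ℕ) (s : ℝ) (ω : Ω) : ℝ := t (jj t J s ω) ω

lemma jj_le (t : ℕ → Ω → ℝ) (J : ℕ) (s : ℝ) (ω : Ω) : jj t J s ω ≤ J :=
  (Finset.card_filter_le _ _).trans (Finset.card_range J).le

lemma jj_mono (t : ℕ → Ω → ℝ) (J : ℕ) {s s' : ℝ} (h : s ≤ s') (ω : Ω) :
    jj t J s ω ≤ jj t J s' ω := by
  refine Finset.card_le_card fun j hj => ?_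
  rw [Finset.mem_filter] at hj ⊢
  exact ⟨hj.1, hj.2.trans_le h⟩

lemma lt_jj {t : ℕ → Ω → ℝ} {J : ℕ} {s : ℝ} {ω : Ω}
    (ht : ∀ i j, i ≤ j → j ≤ J → t i ω ≤ t j ω) {i : ℕ} :
    i < jj t J s ω ↔ i < J ∧ t i ω < s := by
  constructor
  · intro h
    have hiJ : i < J := h.trans_le (jj_le t J s ω)
    refine ⟨hiJ, ?_⟩
    by_contra h'
    push Not at h'
    have hsub : (Finset.range J).filter (fun j => t j ω < s) ⊆ Finset.range i := by
      intro j hj
      rw [Finset.mem_filter, Finset.mem_range] at hj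
      rw [Finset.mem_range]
      by_contra hji
      have := ht i j (not_lt.1 hji) hj.1.le
      linarith [hj.2]
    have := Finset.card_le_card hsub
    rw [Finset.card_range] at this
    exact absurd (h.trans_le this) (lt_irrefl i)
  · rintro ⟨h1, h2⟩
    have hsub : Finset.range (i + 1) ⊆ (Finset.range J).filter (fun j => t j ω < s) := by
      intro j hj
      rw [Finset.mem_range] at hj
      rw [Finset.mem_filter, Finset.mem_range]
      exact ⟨by omega, (ht j i (by omega) h1.le).trans_lt h2⟩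
    have := Finset.card_le_card hsub
    rw [Finset.card_range] at this
    exact this

variable {P : Measure Ω} {w t : ℕ → Ω → ℝ} {G : Filtration ℕ m0} {c T0 M0 δ : ℝ} {a b : ℕ → ℝ}
  {J : ℕ}

namespace Arr

lemma lt_jj (h : Arr w t G P c T0 M0 δ a b J) {s : ℝ} {ω : Ω} {i : ℕ} :
    i < jj t J s ω ↔ i < J ∧ t i ω < s :=
  Levy.lt_jj fun _ _ hij hj => h.t_mono hij hj ω

lemma TT_le (h : Arr w t G P c T0 M0 δ a b J) {s : ℝ} (hs : 0 ≤ s) (ω : Ω) :
    TT t J s ω ≤ s + δ := by
  unfold TT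
  rcases Nat.eq_zero_or_pos (jj t J s ω) with h0 | h0
  · rw [h0, h.t0]; linarith [h.δ0]
  · obtain ⟨i, hi⟩ := Nat.exists_eq_succ_of_ne_zero h0.ne'
    have h1 : i < jj t J s ω := by omega
    obtain ⟨h2, h3⟩ := h.lt_jj.1 h1
    rw [hi]
    have := h.dt i h2 ω
    rw [Nat.succ_eq_add_one]
    linarith

lemma le_TT_of_lt (h : Arr w t G P c T0 M0 δ a b J) {s : ℝ} {ω : Ω} (hJ : jj t J s ω < J) :
    s ≤ TT t J s ω := by
  by_contra h'
  push Not at h'
  exact absurd (h.lt_jj.2 ⟨hJ, h'⟩) (lt_irrefl _)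

lemma le_TT (h : Arr w t G P c T0 M0 δ a b J) {s : ℝ} (hs : s ≤ T0) {ω : Ω}
    (hJ : T0 ≤ t J ω) : s ≤ TT t J s ω := by
  rcases lt_or_eq_of_le (jj_le t J s ω) with h1 | h1
  · exact h.le_TT_of_lt h1
  · unfold TT
    rw [h1]
    exact hs.trans hJ

lemma TT_mono (h : Arr w t G P c T0 M0 δ a b J) {s s' : ℝ} (hs : s ≤ s') (ω : Ω) :
    TT t J s ω ≤ TT t J s' ω := h.t_mono (jj_mono t J hs ω) (jj_le t J s' ω) ω

lemma TT_nonneg (h : Arr w t G P c T0 M0 δ a b J) (s : ℝ) (ω : Ω) : 0 ≤ TT t J s ω :=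
  h.t_nonneg (jj_le t J s ω) ω

lemma TT_bd (h : Arr w t G P c T0 M0 δ a b J) (s : ℝ) (ω : Ω) : TT t J s ω ≤ T0 + 1 :=
  h.bt _ (jj_le t J s ω) ω

/-- the set `jj s = i` belongs to `G i` (`i < J`) -/
lemma meas_jj_lt (h : Arr w t G P c T0 M0 δ a b J) (s : ℝ) {i j : ℕ} (hi : i < J) (hij : i ≤ j) :
    MeasurableSet[G j] {ω | i < jj t J s ω} := by
  have : {ω | i < jj t J s ω} = {ω | t i ω < s} := by
    ext ω
    exact h.lt_jj.trans ⟨fun h => h.2, fun h => ⟨hi, h⟩⟩
  rw [this]
  exact G.mono hij _ ((h.mt i).measurableSet_lt stronglyMeasurable_const)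

lemma meas_jj_eq (h : Arr w t G P c T0 M0 δ a b J) (s : ℝ) {i j : ℕ} (hi : i < J) (hij : i ≤ j) :
    MeasurableSet[G j] {ω | jj t J s ω = i} := by
  rcases Nat.eq_zero_or_pos i with h0 | h0
  · have : {ω | jj t J s ω = i} = {ω | i < jj t J s ω}ᶜ := by
      ext ω
      simp only [Set.mem_ofPred_eq, Set.mem_compl_iff]
      omega
    rw [this]
    exact (h.meas_jj_lt s hi hij).compl
  · have : {ω | jj t J s ω = i} = {ω | i - 1 < jj t J s ω} ∩ {ω | i < jj t J s ω}ᶜ := by
      ext ω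
      simp only [Set.mem_ofPred_eq, Set.mem_inter_iff, Set.mem_compl_iff]
      omega
    rw [this]
    exact (h.meas_jj_lt s (by omega) (by omega)).inter (h.meas_jj_lt s hi hij).compl

/-- `Y` is determined by the past of the stopping index `jj s` (below `J`) -/
def Past (t : ℕ → Ω → ℝ) (J : ℕ) (G : Filtration ℕ m0) (s : ℝ) {E : Type*} [TopologicalSpace E]
    [Zero E] (Y : Ω → E) : Prop :=
  ∀ i < J, StronglyMeasurable[G i] (Set.indicator {ω | jj t J s ω = i} Y)

/-- telescoping sum between the stopping indices -/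
lemma telescope (z : ℂ) (c : ℝ) (w t : ℕ → Ω → ℝ) (J : ℕ) {i k : ℕ} (hik : i ≤ k) (ω : Ω) :
    ∑ j ∈ Finset.Ico i k, Complex.exp (z * ((w j ω - w i ω : ℝ) : ℂ)
        - c * z ^ 2 * ((t j ω - t i ω : ℝ) : ℂ) / 2) * (fac w t c z j ω - 1)
      = Complex.exp (z * ((w k ω - w i ω : ℝ) : ℂ)
        - c * z ^ 2 * ((t k ω - t i ω : ℝ) : ℂ) / 2) - 1 := by
  induction k, hik using Nat.le_induction with
  | base => simp
  | succ k hk ih =>
    rw [Finset.sum_Ico_succ_top hk, ih]
    have : Complex.exp (z * ((w k ω - w i ω : ℝ) : ℂ)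
        - c * z ^ 2 * ((t k ω - t i ω : ℝ) : ℂ) / 2) * fac w t c z k ω
        = Complex.exp (z * ((w (k + 1) ω - w i ω : ℝ) : ℂ)
        - c * z ^ 2 * ((t (k + 1) ω - t i ω : ℝ) : ℂ) / 2) := by
      unfold fac
      rw [← Complex.exp_add]
      congr 1
      push_cast
      ring
    rw [mul_sub, this, mul_one]
    ring

/-- the increment factor between the times `s` and `s'` -/
noncomputable def incr (w t : ℕ → Ω → ℝ) (J : ℕ) (c : ℝ) (z : ℂ) (s s' : ℝ) (ω : Ω) : ℂ :=
  Complex.exp (z * ((XX w t J s' ω - XX w t J s ω : ℝ) : ℂ)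
    - c * z ^ 2 * ((TT t J s' ω - TT t J s ω : ℝ) : ℂ) / 2)

/-- **increments between two times**: `E [Y (incr - 1)]` is small. `B` bounds `Y` times the
exponential factor of the partial increments. -/
theorem incr_bound [IsProbabilityMeasure P] (h : Arr w t G P c T0 M0 δ a b J) {z : ℂ} {A B : ℝ}
    (hz : ‖z‖ ≤ A) (hc : c ≤ A) (hB : 0 < B) {s s' : ℝ} (hss : s ≤ s') {Y : Ω → ℂ}
    (hY : Past t J G s Y)
    (hYB : ∀ ω, ∀ j, jj t J s ω ≤ j → j < jj t J s' ω →
      ‖Y ω * Complex.exp (z * ((w j ω - XX w t J s ω : ℝ) : ℂ)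
        - c * z ^ 2 * ((t j ω - TT t J s ω : ℝ) : ℂ) / 2)‖ ≤ B) :
    ‖∫ ω, Y ω * (incr w t J c z s s' ω - 1) ∂P‖ ≤ B * Err A T0 δ (eps a b J) := by
  classical
  set V : ℕ → Ω → ℂ := fun j ω => if jj t J s ω ≤ j ∧ j < jj t J s' ω then
    Y ω * Complex.exp (z * ((w j ω - XX w t J s ω : ℝ) : ℂ)
      - c * z ^ 2 * ((t j ω - TT t J s ω : ℝ) : ℂ) / 2) else 0 with hVdef
  have hVB : ∀ j < J, ∀ ω, ‖V j ω‖ ≤ B := by
    intro j _ ω
    rw [hVdef]
    dsimp only
    split_ifs with h1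
    · exact hYB ω j h1.1 h1.2
    · rw [norm_zero]; exact hB.le
  have hVm : ∀ j < J, StronglyMeasurable[G j] (V j) := by
    intro j hj
    have hsum : V j = fun ω => ∑ i ∈ Finset.range (j + 1),
        (Set.indicator {ω | jj t J s ω = i} Y ω)
          * (Set.indicator {ω | j < jj t J s' ω} (fun ω =>
            Complex.exp (z * ((w j ω - w i ω : ℝ) : ℂ)
              - c * z ^ 2 * ((t j ω - t i ω : ℝ) : ℂ) / 2)) ω) := by
      funext ω
      rw [hVdef]
      dsimp only
      split_ifs with h1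
      · rw [Finset.sum_eq_single (jj t J s ω)]
        · rw [Set.indicator_of_mem (show ω ∈ {ω' | jj t J s ω' = jj t J s ω} from rfl),
            Set.indicator_of_mem (show ω ∈ {ω | j < jj t J s' ω} from h1.2)]
          rfl
        · intro i _ hne
          rw [Set.indicator_of_notMem (show ω ∉ {ω' | jj t J s ω' = i} from fun h => hne h.symm),
            zero_mul]
        · intro hnot
          exact absurd (Finset.mem_range.2 (Nat.lt_succ_of_le h1.1)) hnot
      · symm
        refine Finset.sum_eq_zero fun i hi => ?_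
        by_cases h2 : jj t J s ω = i
        · have h3 : ¬ j < jj t J s' ω := fun h3 =>
            h1 ⟨by rw [h2]; exact Nat.lt_succ_iff.1 (Finset.mem_range.1 hi), h3⟩
          rw [Set.indicator_of_notMem (show ω ∉ {ω | j < jj t J s' ω} from h3), mul_zero]
        · rw [Set.indicator_of_notMem (show ω ∉ {ω' | jj t J s ω' = i} from h2), zero_mul]
    rw [hsum]
    refine Finset.stronglyMeasurable_fun_sum _ fun i hi => ?_
    have hij : i ≤ j := Nat.lt_succ_iff.1 (Finset.mem_range.1 hi)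
    refine ((hY i (hij.trans_lt hj)).mono (G.mono hij)).mul ?_
    refine StronglyMeasurable.indicator ?_ (h.meas_jj_lt s' hj le_rfl)
    have hdw : StronglyMeasurable[G j] fun ω => ((w j ω - w i ω : ℝ) : ℂ) :=
      Complex.continuous_ofReal.comp_stronglyMeasurable ((h.mw j).sub ((h.mw i).mono (G.mono hij)))
    have hdt : StronglyMeasurable[G j] fun ω => ((t j ω - t i ω : ℝ) : ℂ) :=
      Complex.continuous_ofReal.comp_stronglyMeasurable ((h.mt j).sub ((h.mt i).mono (G.mono hij)))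
    refine Complex.continuous_exp.comp_stronglyMeasurable ?_
    exact (hdw.const_mul z).sub (by
      simpa [div_eq_mul_inv] using (hdt.const_mul ((c : ℂ) * z ^ 2)).mul_const (2 : ℂ)⁻¹)
  have hcore := h.core hz hc hB hVm hVB
  have hint : ∀ j ∈ Finset.range J, Integrable (fun ω => V j ω * (fac w t c z j ω - 1)) P := by
    intro j hj
    have hj' := Finset.mem_range.1 hj
    have hfb : ∀ ω, ‖fac w t c z j ω‖ ≤ Real.exp (‖z‖ + c * ‖z‖ ^ 2) := by
      intro ω
      unfold fac
      rw [Complex.norm_exp]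
      refine Real.exp_le_exp.2 ?_
      refine (Complex.re_le_norm _).trans ?_
      refine (norm_sub_le _ _).trans ?_
      have h1 : ‖z * ((w (j + 1) ω - w j ω : ℝ) : ℂ)‖ ≤ ‖z‖ := by
        rw [norm_mul, Complex.norm_real, Real.norm_eq_abs]
        exact mul_le_of_le_one_right (norm_nonneg _) ((h.dw j hj' ω).trans h.δ1)
      have h2 : ‖(c : ℂ) * z ^ 2 * ((t (j + 1) ω - t j ω : ℝ) : ℂ) / 2‖ ≤ c * ‖z‖ ^ 2 := by
        rw [norm_div, norm_mul, norm_mul, norm_pow, Complex.norm_real, Complex.norm_real,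
          Real.norm_of_nonneg h.c0, Real.norm_of_nonneg (h.dt0 j hj' ω)]
        have h4 : ‖(2 : ℂ)‖ = 2 := by simp
        rw [h4]
        have h5 : t (j + 1) ω - t j ω ≤ 1 := (h.dt j hj' ω).trans h.δ1
        have h6 : 0 ≤ c * ‖z‖ ^ 2 := mul_nonneg h.c0 (by positivity)
        have h7 : c * ‖z‖ ^ 2 * (t (j + 1) ω - t j ω) ≤ c * ‖z‖ ^ 2 := mul_le_of_le_one_right h6 h5
        linarith
      exact add_le_add h1 h2
    have hfm : StronglyMeasurable (fac w t c z j) := by
      have hdw : StronglyMeasurable fun ω => ((w (j + 1) ω - w j ω : ℝ) : ℂ) :=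
        Complex.continuous_ofReal.comp_stronglyMeasurable ((h.mw0 _).sub (h.mw0 _))
      have hdt : StronglyMeasurable fun ω => ((t (j + 1) ω - t j ω : ℝ) : ℂ) :=
        Complex.continuous_ofReal.comp_stronglyMeasurable ((h.mt0 _).sub (h.mt0 _))
      unfold fac
      refine Complex.continuous_exp.comp_stronglyMeasurable ?_
      exact (hdw.const_mul z).sub (by
        simpa [div_eq_mul_inv] using (hdt.const_mul ((c : ℂ) * z ^ 2)).mul_const (2 : ℂ)⁻¹)
    refine Integrable.of_bound (((hVm j hj').mono (G.le j)).mul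
      (hfm.sub stronglyMeasurable_const)).aestronglyMeasurable
      (B * (Real.exp (‖z‖ + c * ‖z‖ ^ 2) + 1)) (Eventually.of_forall fun ω => ?_)
    rw [norm_mul]
    refine mul_le_mul (hVB j hj' ω) ?_ (norm_nonneg _) hB.le
    refine (norm_sub_le _ _).trans ?_
    rw [norm_one]
    exact add_le_add (hfb ω) le_rfl
  rw [← integral_finsetSum _ hint] at hcore
  have heq : (fun ω => ∑ j ∈ Finset.range J, V j ω * (fac w t c z j ω - 1))
      = fun ω => Y ω * (incr w t J c z s s' ω - 1) := by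
    funext ω
    have h1 := telescope z c w t J (jj_mono t J hss ω) ω
    unfold incr XX TT
    rw [← h1, Finset.mul_sum]
    have h2 : Finset.Ico (jj t J s ω) (jj t J s' ω) ⊆ Finset.range J := by
      intro j hj
      rw [Finset.mem_Ico] at hj
      exact Finset.mem_range.2 (hj.2.trans_le (jj_le t J s' ω))
    rw [← Finset.sum_subset h2]
    · refine Finset.sum_congr rfl fun j hj => ?_
      rw [Finset.mem_Ico] at hj
      rw [hVdef]
      dsimp only
      rw [if_pos hj]
      unfold XX TT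
      ring
    · intro j _ hj
      rw [Finset.mem_Ico] at hj
      rw [hVdef]
      dsimp only
      rw [if_neg hj, zero_mul]
  rw [← heq]
  exact hcore

end Arr

end H37.Levy
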