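import Pool.Agent.H37.Levy.Array3

/-!
# Arrays which are nearly Brownian: finite-dimensional characteristic functions
-/

open MeasureTheory ProbabilityTheory Filter
open scoped ENNReal NNReal Topology

namespace H37.Levy

variable {Ω : Type*} {m0 : MeasurableSpace Ω}
variable {P : Measure Ω} {w t : ℕ → Ω → ℝ} {G : Filtration ℕ m0} {c T0 M0 δ : ℝ} {a b : ℕ → ℝ}
  {J : ℕ}

namespace Arr

/-! ### second moment and the probability of stopping early -/

lemma iw2 [IsFiniteMeasure P] (h : Arr w t G P c T0 M0 δ a b J) {j : ℕ} (hj : j ≤ J) :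
    Integrable (fun ω => (w j ω) ^ 2) P := by
  refine Integrable.of_bound ((h.mw0 j).pow 2).aestronglyMeasurable ((M0 + 1) ^ 2)
    (Eventually.of_forall fun ω => ?_)
  rw [norm_pow]
  exact pow_le_pow_left₀ (norm_nonneg _) (h.bw j hj ω) 2

lemma second_moment [IsProbabilityMeasure P] (h : Arr w t G P c T0 M0 δ a b J) :
    ∫ ω, (w J ω) ^ 2 ∂P ≤ 2 * (M0 + 1) * eps a b J + ((1 + c) * (T0 + 1) + eps a b J) := by
  have hM := h.M00
  have hstep : ∀ j ∈ Finset.range J, ∫ ω, (w (j + 1) ω) ^ 2 ∂P - ∫ ω, (w j ω) ^ 2 ∂P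
      ≤ 2 * (M0 + 1) * a j
        + ∫ ω, ((w (j + 1) ω - w j ω) ^ 2 + (t (j + 1) ω - t j ω)) ∂P := by
    intro j hj
    have hj' := Finset.mem_range.1 hj
    have hM1 : 0 < M0 + 1 := by linarith
    have h1 := h.e1 j hj' (fun ω => (M0 + 1)⁻¹ * w j ω) ((h.mw j).const_mul _) (fun ω => by
      rw [abs_mul, abs_of_pos (inv_pos.2 hM1), inv_mul_le_iff₀ hM1, mul_one]
      exact h.bw j hj'.le ω)
    have h2 : ∫ ω, (M0 + 1)⁻¹ * w j ω * (w (j + 1) ω - w j ω) ∂P
        = (M0 + 1)⁻¹ * ∫ ω, w j ω * (w (j + 1) ω - w j ω) ∂P := by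
      rw [← integral_const_mul]
      congr 1
      funext ω
      ring
    rw [h2, abs_mul, abs_of_pos (inv_pos.2 hM1), inv_mul_le_iff₀ hM1] at h1
    have i1 : Integrable (fun ω => w j ω * (w (j + 1) ω - w j ω)) P :=
      Integrable.bdd_mul (c := M0 + 1) (h.idw hj') (h.mw0 j).aestronglyMeasurable
        (Eventually.of_forall (h.bw j hj'.le))
    rw [← integral_sub (h.iw2 hj') (h.iw2 hj'.le)]
    have h3 : (fun ω => (w (j + 1) ω) ^ 2 - (w j ω) ^ 2)
        = fun ω => 2 * (w j ω * (w (j + 1) ω - w j ω)) + (w (j + 1) ω - w j ω) ^ 2 := by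
      funext ω; ring
    rw [h3, integral_add (i1.const_mul 2) (h.idw2 hj'), integral_const_mul,
      integral_add (h.idw2 hj') (h.idt hj')]
    have h4 : 0 ≤ ∫ ω, (t (j + 1) ω - t j ω) ∂P := integral_nonneg (h.dt0 j hj')
    have h5 := (abs_le.1 h1).2
    linarith
  have hsum := Finset.sum_le_sum hstep
  rw [Finset.sum_range_sub (fun j => ∫ ω, (w j ω) ^ 2 ∂P) J, Finset.sum_add_distrib,
    ← Finset.mul_sum] at hsum
  have h0 : ∫ ω, (w 0 ω) ^ 2 ∂P = 0 := by
    have : (fun ω => (w 0 ω) ^ 2) = fun _ => (0 : ℝ) := by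
      funext ω; rw [h.w0]; norm_num
    rw [this, integral_zero]
  have h1 := h.total
  have h2 := h.sum_a_le
  have h3 : 2 * (M0 + 1) * ∑ j ∈ Finset.range J, a j ≤ 2 * (M0 + 1) * eps a b J :=
    mul_le_mul_of_nonneg_left h2 (by linarith)
  linarith

/-- probability of being stopped before time `T0` -/
lemma early [IsProbabilityMeasure P] (h : Arr w t G P c T0 M0 δ a b J) (hM : 0 < M0) :
    P.real {ω | t J ω < T0}
      ≤ P.real (BAD w t T0 M0 J)
        + (2 * (M0 + 1) * eps a b J + ((1 + c) * (T0 + 1) + eps a b J)) / M0 ^ 2 := by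
  have h1 : P.real {ω | t J ω < T0}
      ≤ P.real (BAD w t T0 M0 J) + P.real {ω | M0 ^ 2 ≤ (w J ω) ^ 2} := by
    refine (measureReal_mono ?_ (measure_ne_top _ _)).trans (measureReal_union_le _ _)
    intro ω hω
    have h2 : t J ω < T0 := hω
    rcases lt_or_ge (|w J ω|) M0 with h3 | h3
    · exact Or.inl ⟨h2, h3⟩
    · right
      show M0 ^ 2 ≤ (w J ω) ^ 2
      rw [← sq_abs (w J ω)]
      exact pow_le_pow_left₀ h.M00 h3 2
  have h2 := mul_meas_ge_le_integral_of_nonneg (μ := P)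
    (Eventually.of_forall fun ω => sq_nonneg (w J ω)) (h.iw2 le_rfl) (M0 ^ 2)
  have h3 : P.real {ω | M0 ^ 2 ≤ (w J ω) ^ 2}
      ≤ (2 * (M0 + 1) * eps a b J + ((1 + c) * (T0 + 1) + eps a b J)) / M0 ^ 2 := by
    rw [le_div_iff₀ (by positivity)]
    calc P.real {ω | M0 ^ 2 ≤ (w J ω) ^ 2} * M0 ^ 2
        = M0 ^ 2 * P.real {ω | M0 ^ 2 ≤ (w J ω) ^ 2} := mul_comm _ _
      _ ≤ ∫ ω, (w J ω) ^ 2 ∂P := h2
      _ ≤ _ := h.second_moment
  linarith

/-! ### the past of a stopping index -/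

lemma past_indicator_comp {E E' : Type*} [TopologicalSpace E] [Zero E] [TopologicalSpace E']
    [Zero E'] (h : Arr w t G P c T0 M0 δ a b J) {s : ℝ} {Y : Ω → E}
    (hY : Past t J G s Y) {g : E → E'} (hg : Continuous g) : Past t J G s (fun ω => g (Y ω)) := by
  intro i hi
  have h1 : Set.indicator {ω | jj t J s ω = i} (fun ω => g (Y ω))
      = Set.indicator {ω | jj t J s ω = i}
        (fun ω => g (Set.indicator {ω | jj t J s ω = i} Y ω)) := by
    funext ω
    by_cases hω : ω ∈ {ω | jj t J s ω = i}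
    · rw [Set.indicator_of_mem hω, Set.indicator_of_mem hω, Set.indicator_of_mem hω]
    · rw [Set.indicator_of_notMem hω, Set.indicator_of_notMem hω]
  rw [h1]
  exact StronglyMeasurable.indicator (hg.comp_stronglyMeasurable (hY i hi))
    (h.meas_jj_eq s hi le_rfl)

lemma past_mul {s : ℝ} {Y Z : Ω → ℂ} (hY : Past t J G s Y) (hZ : Past t J G s Z) :
    Past t J G s (fun ω => Y ω * Z ω) := by
  intro i hi
  have h1 : Set.indicator {ω | jj t J s ω = i} (fun ω => Y ω * Z ω)
      = fun ω => Set.indicator {ω | jj t J s ω = i} Y ω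
        * Set.indicator {ω | jj t J s ω = i} Z ω := by
    funext ω
    by_cases hω : ω ∈ {ω | jj t J s ω = i}
    · rw [Set.indicator_of_mem hω, Set.indicator_of_mem hω, Set.indicator_of_mem hω]
    · rw [Set.indicator_of_notMem hω, Set.indicator_of_notMem hω, zero_mul]
  rw [h1]
  exact (hY i hi).mul (hZ i hi)

lemma past_sub {s : ℝ} {Y Z : Ω → ℝ} (hY : Past t J G s Y) (hZ : Past t J G s Z) :
    Past t J G s (fun ω => Y ω - Z ω) := by
  intro i hi
  have h1 : Set.indicator {ω | jj t J s ω = i} (fun ω => Y ω - Z ω)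
      = fun ω => Set.indicator {ω | jj t J s ω = i} Y ω
        - Set.indicator {ω | jj t J s ω = i} Z ω := by
    funext ω
    by_cases hω : ω ∈ {ω | jj t J s ω = i}
    · rw [Set.indicator_of_mem hω, Set.indicator_of_mem hω, Set.indicator_of_mem hω]
    · rw [Set.indicator_of_notMem hω, Set.indicator_of_notMem hω, Set.indicator_of_notMem hω,
        sub_zero]
  rw [h1]
  exact (hY i hi).sub (hZ i hi)

lemma past_const (h : Arr w t G P c T0 M0 δ a b J) {E : Type*} [TopologicalSpace E] [Zero E]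
    (s : ℝ) (x : E) : Past t J G s (fun _ => x) :=
  fun _ hi => stronglyMeasurable_const.indicator (h.meas_jj_eq s hi le_rfl)

lemma past_process (h : Arr w t G P c T0 M0 δ a b J) {x : ℕ → Ω → ℝ}
    (hx : ∀ j, StronglyMeasurable[G j] (x j)) {u s : ℝ} (hus : u ≤ s) :
    Past t J G s (fun ω => x (jj t J u ω) ω) := by
  intro i hi
  have h1 : Set.indicator {ω | jj t J s ω = i} (fun ω => x (jj t J u ω) ω)
      = Set.indicator {ω | jj t J s ω = i} (fun ω => ∑ k ∈ Finset.range (i + 1),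
        Set.indicator {ω | jj t J u ω = k} (x k) ω) := by
    funext ω
    by_cases hω : ω ∈ {ω | jj t J s ω = i}
    · rw [Set.indicator_of_mem hω, Set.indicator_of_mem hω]
      have h2 : jj t J u ω ≤ i := by
        have := jj_mono t J hus ω
        have h3 : jj t J s ω = i := hω
        omega
      rw [Finset.sum_eq_single (jj t J u ω)]
      · rw [Set.indicator_of_mem (show ω ∈ {ω' | jj t J u ω' = jj t J u ω} from rfl)]
      · intro k _ hne
        rw [Set.indicator_of_notMem (show ω ∉ {ω' | jj t J u ω' = k} from fun h => hne h.symm)]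
      · intro hnot
        exact absurd (Finset.mem_range.2 (Nat.lt_succ_of_le h2)) hnot
    · rw [Set.indicator_of_notMem hω, Set.indicator_of_notMem hω]
  rw [h1]
  refine StronglyMeasurable.indicator ?_ (h.meas_jj_eq s hi le_rfl)
  refine Finset.stronglyMeasurable_fun_sum _ fun k hk => ?_
  have hki : k ≤ i := Nat.lt_succ_iff.1 (Finset.mem_range.1 hk)
  exact ((hx k).mono (G.mono hki)).indicator (h.meas_jj_eq u (hki.trans_lt hi) hki)

lemma past_incr (h : Arr w t G P c T0 M0 δ a b J) (z : ℂ) {u u' s : ℝ} (hu : u ≤ s)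
    (hu' : u' ≤ s) : Past t J G s (incr w t J c z u u') := by
  have h1 : Past t J G s (fun ω => z * ((XX w t J u' ω - XX w t J u ω : ℝ) : ℂ)) :=
    h.past_indicator_comp (past_sub (h.past_process h.mw hu') (h.past_process h.mw hu))
      (g := fun x : ℝ => z * (x : ℂ)) (by fun_prop)
  have h2 : Past t J G s (fun ω => c * z ^ 2 * ((TT t J u' ω - TT t J u ω : ℝ) : ℂ) / 2) :=
    h.past_indicator_comp (past_sub (h.past_process h.mt hu') (h.past_process h.mt hu))
      (g := fun x : ℝ => c * z ^ 2 * (x : ℂ) / 2) (by fun_prop)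
  have h3 : Past t J G s (fun ω => Complex.exp (z * ((XX w t J u' ω - XX w t J u ω : ℝ) : ℂ))) :=
    h.past_indicator_comp h1 Complex.continuous_exp
  have h4 : Past t J G s (fun ω =>
      Complex.exp (-(c * z ^ 2 * ((TT t J u' ω - TT t J u ω : ℝ) : ℂ) / 2))) :=
    h.past_indicator_comp h2 (g := fun x => Complex.exp (-x)) (by fun_prop)
  have h5 := past_mul h3 h4
  have h6 : incr w t J c z u u' = fun ω =>
      Complex.exp (z * ((XX w t J u' ω - XX w t J u ω : ℝ) : ℂ))
        * Complex.exp (-(c * z ^ 2 * ((TT t J u' ω - TT t J u ω : ℝ) : ℂ) / 2)) := by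
    funext ω
    unfold incr
    rw [← Complex.exp_add]
    congr 1
  rw [h6]
  exact h5

/-! ### measurability of the stopped process -/

lemma mjj (h : Arr w t G P c T0 M0 δ a b J) (s : ℝ) (i : ℕ) :
    MeasurableSet {ω | jj t J s ω = i} := by
  rcases lt_or_ge i J with hi | hi
  · exact G.le i _ (h.meas_jj_eq s hi le_rfl)
  · have : {ω | jj t J s ω = i} = (if i = J then (⋃ k ∈ Finset.range J,
        {ω | jj t J s ω = k})ᶜ else ∅) := by
      ext ω
      have hle := jj_le t J s ω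
      split_ifs with h1
      · simp only [Set.mem_ofPred_eq, Set.mem_compl_iff, Set.mem_iUnion, Finset.mem_range,
          not_exists, exists_prop, not_and]
        constructor
        · intro h2 k hk h3; omega
        · intro h2
          by_contra h3
          exact h2 (jj t J s ω) (by omega) rfl
      · simp only [Set.mem_ofPred_eq, Set.mem_empty_iff_false, iff_false]
        omega
    rw [this]
    split_ifs with h1
    · refine (MeasurableSet.biUnion (Finset.countable_toSet _) fun k hk => ?_).compl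
      exact G.le k _ (h.meas_jj_eq s (Finset.mem_range.1 hk) le_rfl)
    · exact MeasurableSet.empty

lemma sm_process (h : Arr w t G P c T0 M0 δ a b J) {x : ℕ → Ω → ℝ}
    (hx : ∀ j, StronglyMeasurable (x j)) (s : ℝ) :
    StronglyMeasurable (fun ω => x (jj t J s ω) ω) := by
  have h1 : (fun ω => x (jj t J s ω) ω)
      = fun ω => ∑ k ∈ Finset.range (J + 1), Set.indicator {ω | jj t J s ω = k} (x k) ω := by
    funext ω
    rw [Finset.sum_eq_single (jj t J s ω)]
    · rw [Set.indicator_of_mem (show ω ∈ {ω' | jj t J s ω' = jj t J s ω} from rfl)]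
    · intro k _ hne
      rw [Set.indicator_of_notMem (show ω ∉ {ω' | jj t J s ω' = k} from fun h => hne h.symm)]
    · intro hnot
      exact absurd (Finset.mem_range.2 (Nat.lt_succ_of_le (jj_le t J s ω))) hnot
  rw [h1]
  exact Finset.stronglyMeasurable_fun_sum _ fun k _ => (hx k).indicator (h.mjj s k)

lemma sm_XX (h : Arr w t G P c T0 M0 δ a b J) (s : ℝ) : StronglyMeasurable (XX w t J s) :=
  h.sm_process h.mw0 s

lemma sm_TT (h : Arr w t G P c T0 M0 δ a b J) (s : ℝ) : StronglyMeasurable (TT t J s) :=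
  h.sm_process h.mt0 s

/-! ### finite-dimensional characteristic functions -/

/-- the product of the increments -/
noncomputable def Phi (w t : ℕ → Ω → ℝ) (J : ℕ) (c : ℝ) (θ s : ℕ → ℝ) (n : ℕ) (ω : Ω) : ℂ :=
  ∏ k ∈ Finset.range n, incr w t J c (Complex.I * θ k) (s k) (s (k + 1)) ω

lemma norm_incr (h : Arr w t G P c T0 M0 δ a b J) (θ u u' : ℝ) (ω : Ω) :
    ‖incr w t J c (Complex.I * θ) u u' ω‖
      = Real.exp (c * θ ^ 2 * (TT t J u' ω - TT t J u ω) / 2) := by
  have _ := h.c0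
  unfold incr
  rw [Complex.norm_exp]
  congr 1
  have : (Complex.I * (θ : ℂ)) ^ 2 = ((-(θ ^ 2) : ℝ) : ℂ) := by
    rw [mul_pow, Complex.I_sq]; push_cast; ring
  rw [this]
  have h2 : Complex.I * (θ : ℂ) * ((XX w t J u' ω - XX w t J u ω : ℝ) : ℂ)
      - c * ((-(θ ^ 2) : ℝ) : ℂ) * ((TT t J u' ω - TT t J u ω : ℝ) : ℂ) / 2
      = ((c * θ ^ 2 * (TT t J u' ω - TT t J u ω) / 2 : ℝ) : ℂ)
        + ((θ * (XX w t J u' ω - XX w t J u ω) : ℝ) : ℂ) * Complex.I := by
    push_cast; ring
  rw [h2, Complex.add_re, Complex.ofReal_re, Complex.mul_re, Complex.ofReal_re, Complex.I_re,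
    Complex.I_im, Complex.ofReal_im]
  ring

lemma norm_Phi (h : Arr w t G P c T0 M0 δ a b J) {θ s : ℕ → ℝ} (hs : Monotone s) {A : ℝ}
    (hθ : ∀ k, |θ k| ≤ A) (n : ℕ) (ω : Ω) :
    ‖Phi w t J c θ s n ω‖ ≤ Real.exp (c * A ^ 2 * (TT t J (s n) ω) / 2) := by
  have hc := h.c0
  induction n with
  | zero =>
    simp only [Phi, Finset.range_zero, Finset.prod_empty, norm_one]
    refine Real.one_le_exp ?_
    have := h.TT_nonneg (s 0) ω
    positivity
  | succ n ih =>
    unfold Phi at ih ⊢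
    rw [Finset.prod_range_succ, norm_mul, h.norm_incr]
    have h1 : c * θ n ^ 2 * (TT t J (s (n + 1)) ω - TT t J (s n) ω) / 2
        ≤ c * A ^ 2 * (TT t J (s (n + 1)) ω - TT t J (s n) ω) / 2 := by
      have h2 : θ n ^ 2 ≤ A ^ 2 := by
        rw [← sq_abs (θ n)]; exact pow_le_pow_left₀ (abs_nonneg _) (hθ n) 2
      have h3 := h.TT_mono (hs (Nat.le_succ n)) ω
      rw [Nat.succ_eq_add_one] at h3
      have h4 : 0 ≤ TT t J (s (n + 1)) ω - TT t J (s n) ω := by linarith
      have h5 : c * θ n ^ 2 * (TT t J (s (n + 1)) ω - TT t J (s n) ω)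
          ≤ c * A ^ 2 * (TT t J (s (n + 1)) ω - TT t J (s n) ω) := by gcongr
      linarith
    calc _ ≤ Real.exp (c * A ^ 2 * (TT t J (s n) ω) / 2)
          * Real.exp (c * A ^ 2 * (TT t J (s (n + 1)) ω - TT t J (s n) ω) / 2) :=
          mul_le_mul ih (Real.exp_le_exp.2 h1) (Real.exp_pos _).le (Real.exp_pos _).le
      _ = Real.exp (c * A ^ 2 * (TT t J (s (n + 1)) ω) / 2) := by
          rw [← Real.exp_add]; congr 1; ring

lemma past_Phi (h : Arr w t G P c T0 M0 δ a b J) {θ s : ℕ → ℝ} (hs : Monotone s) (n : ℕ)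
    {u : ℝ} (hu : s n ≤ u) : Past t J G u (Phi w t J c θ s n) := by
  induction n with
  | zero =>
    have : Phi w t J c θ s 0 = fun _ => (1 : ℂ) := by
      funext ω; simp [Phi]
    rw [this]
    exact h.past_const u 1
  | succ n ih =>
    have h1 : Phi w t J c θ s (n + 1) = fun ω => Phi w t J c θ s n ω
        * incr w t J c (Complex.I * θ n) (s n) (s (n + 1)) ω := by
      funext ω
      unfold Phi
      rw [Finset.prod_range_succ]
    rw [h1]
    exact past_mul (ih ((hs (Nat.le_succ n)).trans hu))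
      (h.past_incr _ ((hs (Nat.le_succ n)).trans hu) hu)

lemma sm_incr (h : Arr w t G P c T0 M0 δ a b J) (z : ℂ) (u u' : ℝ) :
    StronglyMeasurable (incr w t J c z u u') := by
  have h1 : StronglyMeasurable fun ω => ((XX w t J u' ω - XX w t J u ω : ℝ) : ℂ) :=
    Complex.continuous_ofReal.comp_stronglyMeasurable ((h.sm_XX _).sub (h.sm_XX _))
  have h2 : StronglyMeasurable fun ω => ((TT t J u' ω - TT t J u ω : ℝ) : ℂ) :=
    Complex.continuous_ofReal.comp_stronglyMeasurable ((h.sm_TT _).sub (h.sm_TT _))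
  unfold incr
  refine Complex.continuous_exp.comp_stronglyMeasurable ?_
  exact (h1.const_mul z).sub (by
    simpa [div_eq_mul_inv] using (h2.const_mul ((c : ℂ) * z ^ 2)).mul_const (2 : ℂ)⁻¹)

lemma sm_Phi (h : Arr w t G P c T0 M0 δ a b J) (θ s : ℕ → ℝ) (n : ℕ) :
    StronglyMeasurable (Phi w t J c θ s n) := by
  unfold Phi
  exact Finset.stronglyMeasurable_fun_prod _ fun k _ => h.sm_incr _ _ _

/-- the size of the exponential factors -/
noncomputable def BB (A T0 : ℝ) : ℝ := Real.exp (A ^ 3 * (T0 + 1) / 2)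

lemma exp_le_BB (h : Arr w t G P c T0 M0 δ a b J) {A x : ℝ} (hc : c ≤ A)
    (hx : x ≤ T0 + 1) : Real.exp (c * A ^ 2 * x / 2) ≤ BB A T0 := by
  unfold BB
  refine Real.exp_le_exp.2 ?_
  have hT := h.T00
  have h1 : c * A ^ 2 * x ≤ A * A ^ 2 * (T0 + 1) := by
    have h0 := h.c0
    calc c * A ^ 2 * x ≤ c * A ^ 2 * (T0 + 1) := mul_le_mul_of_nonneg_left hx (by positivity)
      _ ≤ A * A ^ 2 * (T0 + 1) := by gcongr
  have h2 : A * A ^ 2 * (T0 + 1) = A ^ 3 * (T0 + 1) := by ring
  linarith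

theorem Phi_bound [IsProbabilityMeasure P] (h : Arr w t G P c T0 M0 δ a b J) {θ s : ℕ → ℝ}
    (hs : Monotone s) {A : ℝ} (hc : c ≤ A) (hθ : ∀ k, |θ k| ≤ A) (n : ℕ) :
    ‖∫ ω, Phi w t J c θ s n ω ∂P - 1‖ ≤ n * (BB A T0 * Err A T0 δ (eps a b J)) := by
  have hA0 : 0 ≤ A := (abs_nonneg _).trans (hθ 0)
  have hc0 := h.c0
  have hBB : 0 < BB A T0 := Real.exp_pos _
  induction n with
  | zero => simp [Phi]
  | succ n ih =>
    have hint : ∀ k, Integrable (Phi w t J c θ s k) P := fun k =>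
      Integrable.of_bound (h.sm_Phi θ s k).aestronglyMeasurable (BB A T0)
        (Eventually.of_forall fun ω =>
          (h.norm_Phi hs hθ k ω).trans (h.exp_le_BB hc (h.TT_bd _ ω)))
    have h1 := h.incr_bound (z := Complex.I * θ n) (A := A) (B := BB A T0)
      (by rw [norm_mul, Complex.norm_I, one_mul, Complex.norm_real]; exact hθ n) hc hBB
      (hs (Nat.le_succ n)) (h.past_Phi (θ := θ) hs n le_rfl) (fun ω j hj1 hj2 => by
        have hjJ : j < J := hj2.trans_le (jj_le t J _ ω)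
        rw [norm_mul]
        have e1 : ‖Complex.exp (Complex.I * (θ n : ℂ) * ((w j ω - XX w t J (s n) ω : ℝ) : ℂ)
            - c * (Complex.I * (θ n : ℂ)) ^ 2 * ((t j ω - TT t J (s n) ω : ℝ) : ℂ) / 2)‖
            = Real.exp (c * θ n ^ 2 * (t j ω - TT t J (s n) ω) / 2) := by
          rw [Complex.norm_exp]
          congr 1
          have : (Complex.I * (θ n : ℂ)) ^ 2 = ((-(θ n ^ 2) : ℝ) : ℂ) := by
            rw [mul_pow, Complex.I_sq]; push_cast; ring
          rw [this]
          have h2 : Complex.I * (θ n : ℂ) * ((w j ω - XX w t J (s n) ω : ℝ) : ℂ)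
              - c * ((-(θ n ^ 2) : ℝ) : ℂ) * ((t j ω - TT t J (s n) ω : ℝ) : ℂ) / 2
              = ((c * θ n ^ 2 * (t j ω - TT t J (s n) ω) / 2 : ℝ) : ℂ)
                + ((θ n * (w j ω - XX w t J (s n) ω) : ℝ) : ℂ) * Complex.I := by
            push_cast; ring
          rw [h2, Complex.add_re, Complex.ofReal_re, Complex.mul_re, Complex.ofReal_re,
            Complex.I_re, Complex.I_im, Complex.ofReal_im]
          ring
        rw [e1]
        have h3 : 0 ≤ t j ω - TT t J (s n) ω := by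
          have := h.t_mono hj1 hjJ.le ω
          unfold TT
          linarith
        have h4 : c * θ n ^ 2 * (t j ω - TT t J (s n) ω) / 2
            ≤ c * A ^ 2 * (t j ω - TT t J (s n) ω) / 2 := by
          have h2 : θ n ^ 2 ≤ A ^ 2 := by
            rw [← sq_abs (θ n)]; exact pow_le_pow_left₀ (abs_nonneg _) (hθ n) 2
          have h5 : c * θ n ^ 2 * (t j ω - TT t J (s n) ω)
              ≤ c * A ^ 2 * (t j ω - TT t J (s n) ω) := by gcongr
          linarith
        calc _ ≤ Real.exp (c * A ^ 2 * (TT t J (s n) ω) / 2)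
              * Real.exp (c * A ^ 2 * (t j ω - TT t J (s n) ω) / 2) :=
              mul_le_mul (h.norm_Phi hs hθ n ω) (Real.exp_le_exp.2 h4) (Real.exp_pos _).le
                (Real.exp_pos _).le
          _ = Real.exp (c * A ^ 2 * (t j ω) / 2) := by
              rw [← Real.exp_add]; congr 1; ring
          _ ≤ BB A T0 := h.exp_le_BB hc (h.bt j hjJ.le ω))
    have h2 : (fun ω => Phi w t J c θ s n ω
        * (incr w t J c (Complex.I * θ n) (s n) (s (n + 1)) ω - 1))
        = fun ω => Phi w t J c θ s (n + 1) ω - Phi w t J c θ s n ω := by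
      funext ω
      unfold Phi
      rw [Finset.prod_range_succ]
      ring
    rw [Nat.succ_eq_add_one, h2, integral_sub (hint _) (hint _)] at h1
    calc ‖∫ ω, Phi w t J c θ s (n + 1) ω ∂P - 1‖
        = ‖(∫ ω, Phi w t J c θ s (n + 1) ω ∂P - ∫ ω, Phi w t J c θ s n ω ∂P)
          + (∫ ω, Phi w t J c θ s n ω ∂P - 1)‖ := by congr 1; ring
      _ ≤ BB A T0 * Err A T0 δ (eps a b J) + n * (BB A T0 * Err A T0 δ (eps a b J)) :=
          (norm_add_le _ _).trans (add_le_add h1 ih)
      _ = ((n + 1 : ℕ) : ℝ) * (BB A T0 * Err A T0 δ (eps a b J)) := by push_cast; ring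

end Arr

end H37.Levy
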