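import Pool.Agent.H37.Levy.Array4

/-!
# Arrays which are nearly Brownian: characteristic functions at deterministic times
-/

open MeasureTheory ProbabilityTheory Filter
open scoped ENNReal NNReal Topology

namespace H37.Levy

variable {Ω : Type*} {m0 : MeasurableSpace Ω}
variable {P : Measure Ω} {w t : ℕ → Ω → ℝ} {G : Filtration ℕ m0} {c T0 M0 δ : ℝ} {a b : ℕ → ℝ}
  {J : ℕ}

/-- the real linear form of the increments -/
noncomputable def SS (w t : ℕ → Ω → ℝ) (J : ℕ) (θ s : ℕ → ℝ) (n : ℕ) (ω : Ω) : ℝ :=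
  ∑ k ∈ Finset.range n, θ k * (XX w t J (s (k + 1)) ω - XX w t J (s k) ω)

/-- error of the finite-dimensional characteristic functions; `p` is the probability of stopping
early -/
noncomputable def ErrF (A T0 δ e : ℝ) (n : ℕ) (p : ℝ) : ℝ :=
  n * (Arr.BB A T0 * Err A T0 δ e) + n * A ^ 3 * δ * Real.exp (n * A ^ 3 * δ)
    + 2 * Arr.BB A T0 * p

lemma abs_exp_sub_one_le' (y : ℝ) : |Real.exp y - 1| ≤ |y| * Real.exp |y| := by
  have h1 := Complex.norm_exp_sub_sum_le_norm_mul_exp (y : ℂ) 1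
  simp only [Finset.range_one, Finset.sum_singleton, pow_zero, Nat.factorial_zero, Nat.cast_one,
    div_one, pow_one, Complex.norm_real, Real.norm_eq_abs] at h1
  have h2 : Complex.exp (y : ℂ) - 1 = ((Real.exp y - 1 : ℝ) : ℂ) := by push_cast; ring
  rw [h2, Complex.norm_real, Real.norm_eq_abs] at h1
  exact h1

namespace Arr

lemma Phi_eq (θ s : ℕ → ℝ) (n : ℕ) (ω : Ω) :
    Phi w t J c θ s n ω = Complex.exp (Complex.I * (SS w t J θ s n ω : ℂ)
      + ((c / 2 * ∑ k ∈ Finset.range n, θ k ^ 2 * (TT t J (s (k + 1)) ω - TT t J (s k) ω) : ℝ)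
        : ℂ)) := by
  unfold Phi SS incr
  rw [← Complex.exp_sum]
  congr 1
  push_cast
  rw [Finset.mul_sum, Finset.mul_sum, ← Finset.sum_add_distrib]
  refine Finset.sum_congr rfl fun k _ => ?_
  have : (Complex.I * (θ k : ℂ)) ^ 2 = -(θ k : ℂ) ^ 2 := by
    rw [mul_pow, Complex.I_sq]; ring
  rw [this]
  ring

lemma sm_SS (h : Arr w t G P c T0 M0 δ a b J) (θ s : ℕ → ℝ) (n : ℕ) :
    StronglyMeasurable (SS w t J θ s n) := by
  unfold SS
  exact Finset.stronglyMeasurable_fun_sum _ fun k _ =>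
    ((h.sm_XX _).sub (h.sm_XX _)).const_mul _

theorem fdd [IsProbabilityMeasure P] (h : Arr w t G P c T0 M0 δ a b J) {θ s : ℕ → ℝ}
    (hs : Monotone s) (hs0 : 0 ≤ s 0) {A : ℝ} (hc : c ≤ A) (hθ : ∀ k, |θ k| ≤ A) (n : ℕ)
    (hsn : s n ≤ T0) :
    ‖∫ ω, Complex.exp (Complex.I * (SS w t J θ s n ω : ℂ)) ∂P
        - ((Real.exp (-(c / 2 * ∑ k ∈ Finset.range n, θ k ^ 2 * (s (k + 1) - s k))) : ℝ) : ℂ)‖
      ≤ ErrF A T0 δ (eps a b J) n (P.real {ω | t J ω < T0}) := by
  have hA0 : 0 ≤ A := (abs_nonneg _).trans (hθ 0)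
  have hc0 := h.c0
  have hδ0 := h.δ0
  have hBB : 0 < BB A T0 := Real.exp_pos _
  have hBB1 : 1 ≤ BB A T0 := by
    unfold BB
    refine Real.one_le_exp ?_
    have := h.T00
    positivity
  set D : ℝ := Real.exp (-(c / 2 * ∑ k ∈ Finset.range n, θ k ^ 2 * (s (k + 1) - s k))) with hD
  have hD0 : 0 < D := Real.exp_pos _
  have hD1 : D ≤ 1 := by
    rw [hD]
    refine Real.exp_le_one_iff.2 ?_
    have : 0 ≤ ∑ k ∈ Finset.range n, θ k ^ 2 * (s (k + 1) - s k) :=
      Finset.sum_nonneg fun k _ => mul_nonneg (sq_nonneg _) (sub_nonneg.2 (hs (Nat.le_succ k)))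
    have h1 : 0 ≤ c / 2 * ∑ k ∈ Finset.range n, θ k ^ 2 * (s (k + 1) - s k) := by positivity
    linarith
  set x : ℝ := n * A ^ 3 * δ with hx
  have hx0 : 0 ≤ x := by positivity
  set E : Set Ω := {ω | t J ω < T0} with hE
  have hEm : MeasurableSet E := (h.mt0 J).measurableSet_lt stronglyMeasurable_const
  -- the difference
  set R : Ω → ℂ := fun ω => Complex.exp (Complex.I * (SS w t J θ s n ω : ℂ))
    - (D : ℂ) * Phi w t J c θ s n ω with hR
  have hn1 : ∀ ω, ‖Complex.exp (Complex.I * (SS w t J θ s n ω : ℂ))‖ = 1 := by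
    intro ω
    rw [mul_comm]
    exact Complex.norm_exp_ofReal_mul_I _
  have hPhiB : ∀ ω, ‖Phi w t J c θ s n ω‖ ≤ BB A T0 := fun ω =>
    (h.norm_Phi hs hθ n ω).trans (h.exp_le_BB hc (h.TT_bd _ ω))
  have hRb : ∀ ω, ‖R ω‖ ≤ x * Real.exp x + 2 * BB A T0 * E.indicator (fun _ => (1 : ℝ)) ω := by
    intro ω
    by_cases hω : ω ∈ E
    · rw [Set.indicator_of_mem hω, mul_one]
      have h1 : ‖R ω‖ ≤ 1 + 1 * BB A T0 := by
        refine (norm_sub_le _ _).trans (add_le_add (hn1 ω).le ?_)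
        rw [norm_mul, Complex.norm_real, Real.norm_of_nonneg hD0.le]
        exact mul_le_mul hD1 (hPhiB ω) (norm_nonneg _) zero_le_one
      have h2 : 0 ≤ x * Real.exp x := by positivity
      linarith
    · rw [Set.indicator_of_notMem hω, mul_zero, add_zero]
      have hJ : T0 ≤ t J ω := not_lt.1 hω
      set y : ℝ := -(c / 2 * ∑ k ∈ Finset.range n, θ k ^ 2 * (s (k + 1) - s k))
        + c / 2 * ∑ k ∈ Finset.range n, θ k ^ 2 * (TT t J (s (k + 1)) ω - TT t J (s k) ω) with hy
      have hRe : R ω = Complex.exp (Complex.I * (SS w t J θ s n ω : ℂ))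
          * ((-(Real.exp y - 1) : ℝ) : ℂ) := by
        rw [hR]
        dsimp only
        rw [Phi_eq, Complex.exp_add, ← Complex.ofReal_exp, hD, hy, Real.exp_add]
        push_cast
        ring
      have hyb : |y| ≤ x := by
        have h1 : y = ∑ k ∈ Finset.range n, c / 2 * (θ k ^ 2 *
            ((TT t J (s (k + 1)) ω - s (k + 1)) - (TT t J (s k) ω - s k))) := by
          rw [hy, Finset.mul_sum, Finset.mul_sum, ← Finset.sum_neg_distrib,
            ← Finset.sum_add_distrib]
          refine Finset.sum_congr rfl fun k _ => ?_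
          ring
        rw [h1]
        refine (Finset.abs_sum_le_sum_abs _ _).trans ?_
        have h2 : ∀ k ∈ Finset.range n, |c / 2 * (θ k ^ 2 *
            ((TT t J (s (k + 1)) ω - s (k + 1)) - (TT t J (s k) ω - s k)))| ≤ A ^ 3 * δ := by
          intro k hk
          have hk' := Finset.mem_range.1 hk
          have a1 : s (k + 1) ≤ T0 := (hs (Nat.succ_le_of_lt hk')).trans hsn
          have a2 : s k ≤ T0 := (hs (Nat.le_succ k)).trans a1
          have b0 : 0 ≤ s k := hs0.trans (hs (Nat.zero_le k))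
          have b1 : 0 ≤ s (k + 1) := hs0.trans (hs (Nat.zero_le _))
          have c1 := h.le_TT a1 hJ
          have c2 := h.le_TT a2 hJ
          have c3 := h.TT_le b1 ω
          have c4 := h.TT_le b0 ω
          have d1 : |(TT t J (s (k + 1)) ω - s (k + 1)) - (TT t J (s k) ω - s k)| ≤ δ := by
            rw [abs_le]; constructor <;> linarith
          rw [abs_mul, abs_mul, abs_of_nonneg (by positivity : 0 ≤ c / 2),
            abs_of_nonneg (sq_nonneg (θ k))]
          have d2 : θ k ^ 2 ≤ A ^ 2 := by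
            rw [← sq_abs (θ k)]; exact pow_le_pow_left₀ (abs_nonneg _) (hθ k) 2
          calc c / 2 * (θ k ^ 2 * |(TT t J (s (k + 1)) ω - s (k + 1)) - (TT t J (s k) ω - s k)|)
              ≤ A * (A ^ 2 * δ) := by
                apply mul_le_mul (by linarith) _ (by positivity) hA0
                exact mul_le_mul d2 d1 (abs_nonneg _) (sq_nonneg A)
            _ = A ^ 3 * δ := by ring
        refine (Finset.sum_le_sum h2).trans ?_
        rw [Finset.sum_const, Finset.card_range, nsmul_eq_mul, hx, mul_assoc]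
      rw [hRe, norm_mul, hn1, one_mul, Complex.norm_real, norm_neg, Real.norm_eq_abs]
      refine (abs_exp_sub_one_le' y).trans ?_
      exact mul_le_mul hyb (Real.exp_le_exp.2 hyb) (Real.exp_pos _).le hx0
  have hm1 : StronglyMeasurable fun ω => Complex.exp (Complex.I * (SS w t J θ s n ω : ℂ)) :=
    Complex.continuous_exp.comp_stronglyMeasurable
      ((Complex.continuous_ofReal.comp_stronglyMeasurable (h.sm_SS θ s n)).const_mul _)
  have hi1 : Integrable (fun ω => Complex.exp (Complex.I * (SS w t J θ s n ω : ℂ))) P :=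
    Integrable.of_bound hm1.aestronglyMeasurable 1 (Eventually.of_forall fun ω => (hn1 ω).le)
  have hi2 : Integrable (Phi w t J c θ s n) P :=
    Integrable.of_bound (h.sm_Phi θ s n).aestronglyMeasurable (BB A T0)
      (Eventually.of_forall hPhiB)
  have hR1 : ‖∫ ω, R ω ∂P‖ ≤ x * Real.exp x + 2 * BB A T0 * P.real E := by
    have hi3 : Integrable (E.indicator (fun _ => (1 : ℝ))) P :=
      (integrable_const (1 : ℝ)).indicator hEm
    refine (norm_integral_le_of_norm_le ((integrable_const _).add (hi3.const_mul _))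
      (Eventually.of_forall hRb)).trans ?_
    have h1 : ∫ ω, (x * Real.exp x + 2 * BB A T0 * E.indicator (fun _ => (1 : ℝ)) ω) ∂P
        = x * Real.exp x + 2 * BB A T0 * P.real E := by
      rw [integral_add (integrable_const _) (hi3.const_mul _), integral_const,
        integral_const_mul (2 * BB A T0), integral_indicator_const _ hEm]
      simp
    exact h1.le
  have hP1 := h.Phi_bound hs hc hθ n
  have hsplit : ∫ ω, Complex.exp (Complex.I * (SS w t J θ s n ω : ℂ)) ∂P - (D : ℂ)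
      = ∫ ω, R ω ∂P + (D : ℂ) * (∫ ω, Phi w t J c θ s n ω ∂P - 1) := by
    rw [hR, integral_sub hi1 (hi2.const_mul _), integral_const_mul]
    ring
  rw [hsplit]
  refine (norm_add_le _ _).trans ?_
  have h3 : ‖(D : ℂ) * (∫ ω, Phi w t J c θ s n ω ∂P - 1)‖
      ≤ n * (BB A T0 * Err A T0 δ (eps a b J)) := by
    rw [norm_mul, Complex.norm_real, Real.norm_of_nonneg hD0.le]
    calc D * ‖∫ ω, Phi w t J c θ s n ω ∂P - 1‖ ≤ 1 * ‖∫ ω, Phi w t J c θ s n ω ∂P - 1‖ :=
          mul_le_mul_of_nonneg_right hD1 (norm_nonneg _)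
      _ ≤ _ := by rw [one_mul]; exact hP1
  unfold ErrF
  rw [← hx]
  linarith

end Arr

end H37.Levy
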