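import Pool.Agent.H37.Levy.Array5

/-!
# Arrays which are nearly Brownian: general stopping indices and first passage
-/

open MeasureTheory ProbabilityTheory Filter
open scoped ENNReal NNReal Topology

namespace H37.Levy

variable {Ω : Type*} {m0 : MeasurableSpace Ω}
variable {P : Measure Ω} {w t : ℕ → Ω → ℝ} {G : Filtration ℕ m0} {c T0 M0 δ : ℝ} {a b : ℕ → ℝ}
  {J : ℕ}

namespace Arr

lemma sm_fac (h : Arr w t G P c T0 M0 δ a b J) (z : ℂ) (j : ℕ) :
    StronglyMeasurable (fac w t c z j) := by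
  have hdw : StronglyMeasurable fun ω => ((w (j + 1) ω - w j ω : ℝ) : ℂ) :=
    Complex.continuous_ofReal.comp_stronglyMeasurable ((h.mw0 _).sub (h.mw0 _))
  have hdt : StronglyMeasurable fun ω => ((t (j + 1) ω - t j ω : ℝ) : ℂ) :=
    Complex.continuous_ofReal.comp_stronglyMeasurable ((h.mt0 _).sub (h.mt0 _))
  unfold fac
  refine Complex.continuous_exp.comp_stronglyMeasurable ?_
  exact (hdw.const_mul z).sub (by
    simpa [div_eq_mul_inv] using (hdt.const_mul ((c : ℂ) * z ^ 2)).mul_const (2 : ℂ)⁻¹)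

lemma fac_bd (h : Arr w t G P c T0 M0 δ a b J) (z : ℂ) {j : ℕ} (hj : j < J) (ω : Ω) :
    ‖fac w t c z j ω‖ ≤ Real.exp (‖z‖ + c * ‖z‖ ^ 2) := by
  unfold fac
  rw [Complex.norm_exp]
  refine Real.exp_le_exp.2 ?_
  refine (Complex.re_le_norm _).trans ?_
  refine (norm_sub_le _ _).trans ?_
  have h1 : ‖z * ((w (j + 1) ω - w j ω : ℝ) : ℂ)‖ ≤ ‖z‖ := by
    rw [norm_mul, Complex.norm_real, Real.norm_eq_abs]
    exact mul_le_of_le_one_right (norm_nonneg _) ((h.dw j hj ω).trans h.δ1)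
  have h2 : ‖(c : ℂ) * z ^ 2 * ((t (j + 1) ω - t j ω : ℝ) : ℂ) / 2‖ ≤ c * ‖z‖ ^ 2 := by
    rw [norm_div, norm_mul, norm_mul, norm_pow, Complex.norm_real, Complex.norm_real,
      Real.norm_of_nonneg h.c0, Real.norm_of_nonneg (h.dt0 j hj ω)]
    have h4 : ‖(2 : ℂ)‖ = 2 := by simp
    rw [h4]
    have h5 : t (j + 1) ω - t j ω ≤ 1 := (h.dt j hj ω).trans h.δ1
    have h6 : 0 ≤ c * ‖z‖ ^ 2 := mul_nonneg h.c0 (by positivity)
    have h7 : c * ‖z‖ ^ 2 * (t (j + 1) ω - t j ω) ≤ c * ‖z‖ ^ 2 := mul_le_of_le_one_right h6 h5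
    linarith
  exact add_le_add h1 h2

/-- **increments between two stopping indices** -/
theorem stop_bound [IsProbabilityMeasure P] (h : Arr w t G P c T0 M0 δ a b J) {z : ℂ} {A B : ℝ}
    (hz : ‖z‖ ≤ A) (hc : c ≤ A) (hB : 0 < B) {σ τ : Ω → ℕ} (hστ : ∀ ω, σ ω ≤ τ ω)
    (hτJ : ∀ ω, τ ω ≤ J) (hσm : ∀ i < J, MeasurableSet[G i] {ω | σ ω = i})
    (hτm : ∀ i < J, MeasurableSet[G i] {ω | i < τ ω})
    (hYB : ∀ ω, ∀ j, σ ω ≤ j → j < τ ω →
      ‖Complex.exp (z * ((w j ω - w (σ ω) ω : ℝ) : ℂ)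
        - c * z ^ 2 * ((t j ω - t (σ ω) ω : ℝ) : ℂ) / 2)‖ ≤ B) :
    ‖∫ ω, (Complex.exp (z * ((w (τ ω) ω - w (σ ω) ω : ℝ) : ℂ)
        - c * z ^ 2 * ((t (τ ω) ω - t (σ ω) ω : ℝ) : ℂ) / 2) - 1) ∂P‖
      ≤ B * Err A T0 δ (eps a b J) := by
  classical
  set V : ℕ → Ω → ℂ := fun j ω => if σ ω ≤ j ∧ j < τ ω then
    Complex.exp (z * ((w j ω - w (σ ω) ω : ℝ) : ℂ)
      - c * z ^ 2 * ((t j ω - t (σ ω) ω : ℝ) : ℂ) / 2) else 0 with hVdef
  have hVB : ∀ j < J, ∀ ω, ‖V j ω‖ ≤ B := by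
    intro j _ ω
    rw [hVdef]
    dsimp only
    split_ifs with h1
    · exact hYB ω j h1.1 h1.2
    · rw [norm_zero]; exact hB.le
  have hVm : ∀ j < J, StronglyMeasurable[G j] (V j) := by
    intro j hj
    have hsum : V j = fun ω => ∑ i ∈ Finset.range (j + 1),
        (Set.indicator {ω | σ ω = i} (fun _ => (1 : ℂ)) ω)
          * (Set.indicator {ω | j < τ ω} (fun ω =>
            Complex.exp (z * ((w j ω - w i ω : ℝ) : ℂ)
              - c * z ^ 2 * ((t j ω - t i ω : ℝ) : ℂ) / 2)) ω) := by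
      funext ω
      rw [hVdef]
      dsimp only
      split_ifs with h1
      · rw [Finset.sum_eq_single (σ ω)]
        · rw [Set.indicator_of_mem (show ω ∈ {ω' | σ ω' = σ ω} from rfl),
            Set.indicator_of_mem (show ω ∈ {ω | j < τ ω} from h1.2), one_mul]
        · intro i _ hne
          rw [Set.indicator_of_notMem (show ω ∉ {ω' | σ ω' = i} from fun h => hne h.symm),
            zero_mul]
        · intro hnot
          exact absurd (Finset.mem_range.2 (Nat.lt_succ_of_le h1.1)) hnot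
      · symm
        refine Finset.sum_eq_zero fun i hi => ?_
        by_cases h2 : σ ω = i
        · have h3 : ¬ j < τ ω := fun h3 =>
            h1 ⟨by rw [h2]; exact Nat.lt_succ_iff.1 (Finset.mem_range.1 hi), h3⟩
          rw [Set.indicator_of_notMem (show ω ∉ {ω | j < τ ω} from h3), mul_zero]
        · rw [Set.indicator_of_notMem (show ω ∉ {ω' | σ ω' = i} from h2), zero_mul]
    rw [hsum]
    refine Finset.stronglyMeasurable_fun_sum _ fun i hi => ?_
    have hij : i ≤ j := Nat.lt_succ_iff.1 (Finset.mem_range.1 hi)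
    refine StronglyMeasurable.mul ?_ ?_
    · exact stronglyMeasurable_const.indicator (G.mono hij _ (hσm i (hij.trans_lt hj)))
    refine StronglyMeasurable.indicator ?_ (hτm j hj)
    have hdw : StronglyMeasurable[G j] fun ω => ((w j ω - w i ω : ℝ) : ℂ) :=
      Complex.continuous_ofReal.comp_stronglyMeasurable ((h.mw j).sub ((h.mw i).mono (G.mono hij)))
    have hdt : StronglyMeasurable[G j] fun ω => ((t j ω - t i ω : ℝ) : ℂ) :=
      Complex.continuous_ofReal.comp_stronglyMeasurable ((h.mt j).sub ((h.mt i).mono (G.mono hij)))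
    refine Complex.continuous_exp.comp_stronglyMeasurable ?_
    exact (hdw.const_mul z).sub (by
      simpa [div_eq_mul_inv] using (hdt.const_mul ((c : ℂ) * z ^ 2)).mul_const (2 : ℂ)⁻¹)
  have hcore := h.core hz hc hB hVm hVB
  have hint : ∀ j ∈ Finset.range J, Integrable (fun ω => V j ω * (fac w t c z j ω - 1)) P := by
    intro j hj
    have hj' := Finset.mem_range.1 hj
    refine Integrable.of_bound (((hVm j hj').mono (G.le j)).mul
      ((h.sm_fac z j).sub stronglyMeasurable_const)).aestronglyMeasurable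
      (B * (Real.exp (‖z‖ + c * ‖z‖ ^ 2) + 1)) (Eventually.of_forall fun ω => ?_)
    rw [norm_mul]
    refine mul_le_mul (hVB j hj' ω) ?_ (norm_nonneg _) hB.le
    refine (norm_sub_le _ _).trans ?_
    rw [norm_one]
    exact add_le_add (h.fac_bd z hj' ω) le_rfl
  rw [← integral_finsetSum _ hint] at hcore
  have heq : (fun ω => ∑ j ∈ Finset.range J, V j ω * (fac w t c z j ω - 1))
      = fun ω => (Complex.exp (z * ((w (τ ω) ω - w (σ ω) ω : ℝ) : ℂ)
        - c * z ^ 2 * ((t (τ ω) ω - t (σ ω) ω : ℝ) : ℂ) / 2) - 1) := by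
    funext ω
    rw [← telescope z c w t J (hστ ω) ω]
    have h2 : Finset.Ico (σ ω) (τ ω) ⊆ Finset.range J := by
      intro j hj
      rw [Finset.mem_Ico] at hj
      exact Finset.mem_range.2 (hj.2.trans_le (hτJ ω))
    rw [← Finset.sum_subset h2]
    · refine Finset.sum_congr rfl fun j hj => ?_
      rw [Finset.mem_Ico] at hj
      rw [hVdef]
      dsimp only
      rw [if_pos hj]
    · intro j _ hj
      rw [Finset.mem_Ico] at hj
      rw [hVdef]
      dsimp only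
      rw [if_neg hj, zero_mul]
  rw [← heq]
  exact hcore

end Arr

/-- the set of indices after `σ` at which the path has moved by `r` or the time `s` is over -/
def DD (w t : ℕ → Ω → ℝ) (J : ℕ) (r s : ℝ) (σ : Ω → ℕ) (ω : Ω) : Set ℕ :=
  {j | σ ω ≤ j ∧ (J ≤ j ∨ r ≤ |w j ω - w (σ ω) ω| ∨ s ≤ t j ω)}

/-- first passage index -/
noncomputable def fp (w t : ℕ → Ω → ℝ) (J : ℕ) (r s : ℝ) (σ : Ω → ℕ) (ω : Ω) : ℕ :=
  sInf (DD w t J r s σ ω)

lemma J_mem_DD (w t : ℕ → Ω → ℝ) (r s : ℝ) {σ : Ω → ℕ} {ω : Ω} (hσ : σ ω ≤ J) :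
    J ∈ DD w t J r s σ ω := ⟨hσ, Or.inl le_rfl⟩

lemma fp_mem (w t : ℕ → Ω → ℝ) (r s : ℝ) {σ : Ω → ℕ} {ω : Ω} (hσ : σ ω ≤ J) :
    fp w t J r s σ ω ∈ DD w t J r s σ ω := Nat.sInf_mem ⟨J, J_mem_DD w t r s hσ⟩

lemma fp_le_J (w t : ℕ → Ω → ℝ) (r s : ℝ) {σ : Ω → ℕ} {ω : Ω} (hσ : σ ω ≤ J) :
    fp w t J r s σ ω ≤ J := Nat.sInf_le (J_mem_DD w t r s hσ)

lemma σ_le_fp (w t : ℕ → Ω → ℝ) (r s : ℝ) {σ : Ω → ℕ} {ω : Ω} (hσ : σ ω ≤ J) :
    σ ω ≤ fp w t J r s σ ω := (fp_mem w t r s hσ).1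

namespace Arr

lemma meas_fp (h : Arr w t G P c T0 M0 δ a b J) {r s : ℝ} {σ : Ω → ℕ} (hσJ : ∀ ω, σ ω ≤ J)
    (hσm : ∀ i < J, MeasurableSet[G i] {ω | σ ω = i}) {j : ℕ} (hj : j < J) :
    MeasurableSet[G j] {ω | j < fp w t J r s σ ω} := by
  have h1 : {ω | j < fp w t J r s σ ω} = ⋂ i ∈ Finset.range (j + 1),
      {ω | i ∈ DD w t J r s σ ω}ᶜ := by
    ext ω
    simp only [Set.mem_ofPred_eq, Set.mem_iInter, Finset.mem_range, Set.mem_compl_iff]
    constructor
    · intro h2 i hi h3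
      have := Nat.sInf_le h3
      have h4 : fp w t J r s σ ω = sInf (DD w t J r s σ ω) := rfl
      omega
    · intro h2
      by_contra h3
      exact h2 _ (Nat.lt_succ_of_le (not_lt.1 h3)) (fp_mem w t r s (hσJ ω))
  rw [h1]
  refine MeasurableSet.biInter (Finset.countable_toSet _) fun i hi => ?_
  have hi' : i < j + 1 := Finset.mem_range.1 hi
  have hiJ : i < J := by omega
  have h2 : {ω | i ∈ DD w t J r s σ ω} = ⋃ k ∈ Finset.range (i + 1),
      {ω | σ ω = k} ∩ ({ω | r ≤ |w i ω - w k ω|} ∪ {ω | s ≤ t i ω}) := by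
    ext ω
    simp only [DD, Set.mem_ofPred_eq, Set.mem_iUnion, Finset.mem_range, Set.mem_inter_iff,
      Set.mem_union, exists_prop]
    constructor
    · rintro ⟨h3, h4⟩
      refine ⟨σ ω, by omega, rfl, ?_⟩
      rcases h4 with h4 | h4
      · omega
      · exact h4
    · rintro ⟨k, hk, h3, h4⟩
      rw [h3]
      exact ⟨by omega, Or.inr h4⟩
  rw [h2]
  refine (MeasurableSet.biUnion (Finset.countable_toSet _) fun k hk => ?_).compl
  have hki : k ≤ i := Nat.lt_succ_iff.1 (Finset.mem_range.1 hk)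
  refine (G.mono (hki.trans (Nat.lt_succ_iff.1 hi')) _ (hσm k (hki.trans_lt hiJ))).inter ?_
  refine G.mono (Nat.lt_succ_iff.1 hi') _ ?_
  refine MeasurableSet.union ?_ ?_
  · exact StronglyMeasurable.measurableSet_le stronglyMeasurable_const
      ((h.mw i).sub ((h.mw k).mono (G.mono hki))).norm
  · exact StronglyMeasurable.measurableSet_le stronglyMeasurable_const (h.mt i)

end Arr

end H37.Levy
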