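import Pool.Agent.H37.Levy.Array6

/-!
# Arrays which are nearly Brownian: modulus of continuity
-/

open MeasureTheory ProbabilityTheory Filter
open scoped ENNReal NNReal Topology

namespace H37.Levy

variable {Ω : Type*} {m0 : MeasurableSpace Ω}
variable {P : Measure Ω} {w t : ℕ → Ω → ℝ} {G : Filtration ℕ m0} {c T0 M0 δ : ℝ} {a b : ℕ → ℝ}
  {J : ℕ}

namespace Arr

/-- the real exponential of the increment between two random indices -/
noncomputable def rex (w t : ℕ → Ω → ℝ) (c lam : ℝ) (σ τ : Ω → ℕ) (ω : Ω) : ℝ :=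
  Real.exp (lam * (w (τ ω) ω - w (σ ω) ω) - c * lam ^ 2 * (t (τ ω) ω - t (σ ω) ω) / 2)

lemma sm_index (h : Arr w t G P c T0 M0 δ a b J) {τ : Ω → ℕ} (hτJ : ∀ ω, τ ω ≤ J)
    (hτm : ∀ i, MeasurableSet {ω | τ ω = i}) {x : ℕ → Ω → ℝ}
    (hx : ∀ j, StronglyMeasurable (x j)) : StronglyMeasurable (fun ω => x (τ ω) ω) := by
  have _ := h.c0
  have h1 : (fun ω => x (τ ω) ω)
      = fun ω => ∑ k ∈ Finset.range (J + 1), Set.indicator {ω | τ ω = k} (x k) ω := by
    funext ω
    rw [Finset.sum_eq_single (τ ω)]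
    · rw [Set.indicator_of_mem (show ω ∈ {ω' | τ ω' = τ ω} from rfl)]
    · intro k _ hne
      rw [Set.indicator_of_notMem (show ω ∉ {ω' | τ ω' = k} from fun h => hne h.symm)]
    · intro hnot
      exact absurd (Finset.mem_range.2 (Nat.lt_succ_of_le (hτJ ω))) hnot
  rw [h1]
  exact Finset.stronglyMeasurable_fun_sum _ fun k _ => (hx k).indicator (hτm k)

lemma rex_integral [IsProbabilityMeasure P] (h : Arr w t G P c T0 M0 δ a b J) {lam A r s : ℝ}
    (hlam : |lam| ≤ A) (hc : c ≤ A) {σ : Ω → ℕ} (hσJ : ∀ ω, σ ω ≤ J)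
    (hσm : ∀ i < J, MeasurableSet[G i] {ω | σ ω = i})
    (hσm' : ∀ i, MeasurableSet {ω | σ ω = i}) :
    Integrable (rex w t c lam σ (fp w t J r s σ)) P ∧
    ∫ ω, rex w t c lam σ (fp w t J r s σ) ω ∂P
      ≤ 1 + Real.exp (|lam| * r) * Err A T0 δ (eps a b J) := by
  have hB : 0 < Real.exp (|lam| * r) := Real.exp_pos _
  have hτm' : ∀ i, MeasurableSet {ω | fp w t J r s σ ω = i} := by
    intro i
    have hlt : ∀ i, MeasurableSet {ω | i < fp w t J r s σ ω} := by
      intro i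
      rcases lt_or_ge i J with hi | hi
      · exact G.le i _ (h.meas_fp hσJ hσm hi)
      · have : {ω | i < fp w t J r s σ ω} = ∅ := by
          ext ω
          simp only [Set.mem_ofPred_eq, Set.mem_empty_iff_false, iff_false]
          have := fp_le_J w t r s (hσJ ω)
          omega
        rw [this]
        exact MeasurableSet.empty
    rcases Nat.eq_zero_or_pos i with h0 | h0
    · have : {ω | fp w t J r s σ ω = i} = {ω | i < fp w t J r s σ ω}ᶜ := by
        ext ω
        simp only [Set.mem_ofPred_eq, Set.mem_compl_iff]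
        omega
      rw [this]
      exact (hlt i).compl
    · have : {ω | fp w t J r s σ ω = i}
          = {ω | i - 1 < fp w t J r s σ ω} ∩ {ω | i < fp w t J r s σ ω}ᶜ := by
        ext ω
        simp only [Set.mem_ofPred_eq, Set.mem_inter_iff, Set.mem_compl_iff]
        omega
      rw [this]
      exact (hlt _).inter (hlt _).compl
  have hm : StronglyMeasurable (rex w t c lam σ (fp w t J r s σ)) := by
    unfold rex
    refine Real.continuous_exp.comp_stronglyMeasurable ?_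
    have e1 := h.sm_index (fun ω => fp_le_J w t r s (hσJ ω)) hτm' h.mw0
    have e2 := h.sm_index hσJ hσm' h.mw0
    have e3 := h.sm_index (fun ω => fp_le_J w t r s (hσJ ω)) hτm' h.mt0
    have e4 := h.sm_index hσJ hσm' h.mt0
    exact ((e1.sub e2).const_mul lam).sub (by
      simpa [div_eq_mul_inv] using ((e3.sub e4).const_mul (c * lam ^ 2)).mul_const (2 : ℝ)⁻¹)
  have hbd : ∀ ω, ‖rex w t c lam σ (fp w t J r s σ) ω‖
      ≤ Real.exp (|lam| * (2 * (M0 + 1))) := by
    intro ω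
    unfold rex
    rw [Real.norm_of_nonneg (Real.exp_pos _).le]
    refine Real.exp_le_exp.2 ?_
    have h1 := h.bw _ (fp_le_J w t r s (hσJ ω)) ω
    have h2 := h.bw _ (hσJ ω) ω
    have h3 := h.t_mono (σ_le_fp w t r s (hσJ ω)) (fp_le_J w t r s (hσJ ω)) ω
    have h4 : |w (fp w t J r s σ ω) ω - w (σ ω) ω| ≤ 2 * (M0 + 1) := by
      refine (abs_sub _ _).trans ?_
      linarith
    have h5 : lam * (w (fp w t J r s σ ω) ω - w (σ ω) ω) ≤ |lam| * (2 * (M0 + 1)) := by
      refine (le_abs_self _).trans ?_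
      rw [abs_mul]
      exact mul_le_mul_of_nonneg_left h4 (abs_nonneg _)
    have h6 : 0 ≤ c * lam ^ 2 * (t (fp w t J r s σ ω) ω - t (σ ω) ω) :=
      mul_nonneg (mul_nonneg h.c0 (sq_nonneg _)) (by linarith)
    linarith
  have hint : Integrable (rex w t c lam σ (fp w t J r s σ)) P :=
    Integrable.of_bound hm.aestronglyMeasurable _ (Eventually.of_forall hbd)
  refine ⟨hint, ?_⟩
  have hmain := h.stop_bound (z := (lam : ℂ)) (A := A) (B := Real.exp (|lam| * r))
    (by rw [Complex.norm_real]; exact hlam) hc hB (σ := σ) (τ := fp w t J r s σ)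
    (fun ω => σ_le_fp w t r s (hσJ ω)) (fun ω => fp_le_J w t r s (hσJ ω)) hσm
    (fun i hi => h.meas_fp hσJ hσm hi) (by
      intro ω j hj1 hj2
      have hjJ : j < J := hj2.trans_le (fp_le_J w t r s (hσJ ω))
      have hnot : j ∉ DD w t J r s σ ω := Nat.notMem_of_lt_sInf hj2
      have hlt : |w j ω - w (σ ω) ω| < r := by
        by_contra h'
        exact hnot ⟨hj1, Or.inr (Or.inl (not_lt.1 h'))⟩
      have ht := h.t_mono hj1 hjJ.le ω
      have hre : (lam : ℂ) * ((w j ω - w (σ ω) ω : ℝ) : ℂ)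
          - c * (lam : ℂ) ^ 2 * ((t j ω - t (σ ω) ω : ℝ) : ℂ) / 2
          = ((lam * (w j ω - w (σ ω) ω) - c * lam ^ 2 * (t j ω - t (σ ω) ω) / 2 : ℝ) : ℂ) := by
        push_cast; ring
      rw [hre, ← Complex.ofReal_exp, Complex.norm_real, Real.norm_of_nonneg (Real.exp_pos _).le]
      refine Real.exp_le_exp.2 ?_
      have h5 : lam * (w j ω - w (σ ω) ω) ≤ |lam| * r := by
        refine (le_abs_self _).trans ?_
        rw [abs_mul]
        exact mul_le_mul_of_nonneg_left hlt.le (abs_nonneg _)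
      have h6 : 0 ≤ c * lam ^ 2 * (t j ω - t (σ ω) ω) :=
        mul_nonneg (mul_nonneg h.c0 (sq_nonneg _)) (by linarith)
      linarith)
  have hcx : ∀ ω, Complex.exp ((lam : ℂ) * ((w (fp w t J r s σ ω) ω - w (σ ω) ω : ℝ) : ℂ)
      - c * (lam : ℂ) ^ 2 * ((t (fp w t J r s σ ω) ω - t (σ ω) ω : ℝ) : ℂ) / 2) - 1
      = ((rex w t c lam σ (fp w t J r s σ) ω - 1 : ℝ) : ℂ) := by
    intro ω
    unfold rex
    push_cast
    congr 2
  simp_rw [hcx] at hmain
  rw [integral_complex_ofReal, Complex.norm_real, Real.norm_eq_abs,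
    integral_sub hint (integrable_const _)] at hmain
  have h1 := (abs_le.1 hmain).2
  simp only [integral_const, probReal_univ, smul_eq_mul, mul_one] at h1
  linarith

/-- **first passage**: probability of moving by `r` after the index `σ` before the time `s` -/
lemma passage [IsProbabilityMeasure P] (h : Arr w t G P c T0 M0 δ a b J) {lam A r s η : ℝ}
    (hlam0 : 0 ≤ lam) (hlam : lam ≤ A) (hc : c ≤ A) {σ : Ω → ℕ} (hσJ : ∀ ω, σ ω ≤ J)
    (hσm : ∀ i < J, MeasurableSet[G i] {ω | σ ω = i})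
    (hσm' : ∀ i, MeasurableSet {ω | σ ω = i}) (_hr : 0 ≤ r) (_hη : 0 ≤ η)
    (hση : ∀ ω, σ ω < J → s ≤ t (σ ω) ω + η) :
    P.real {ω | ∃ j ≤ J, σ ω ≤ j ∧ t j ω < s ∧ r ≤ |w j ω - w (σ ω) ω|}
      ≤ 2 * Real.exp (c * lam ^ 2 * η / 2)
        * (Real.exp (-(lam * r)) + Err A T0 δ (eps a b J)) := by
  obtain ⟨i1, h1⟩ := h.rex_integral (lam := lam) (s := s) (by rwa [abs_of_nonneg hlam0]) hc hσJ hσm
    hσm'
  obtain ⟨i2, h2⟩ := h.rex_integral (lam := -lam) (s := s)
    (by rwa [abs_neg, abs_of_nonneg hlam0]) hc hσJ hσm hσm'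
  rw [abs_neg] at h2
  rw [abs_of_nonneg hlam0] at h1 h2
  set X : Ω → ℝ := fun ω => rex w t c lam σ (fp w t J r s σ) ω
    + rex w t c (-lam) σ (fp w t J r s σ) ω with hX
  set K : ℝ := Real.exp (lam * r - c * lam ^ 2 * η / 2) with hK
  have hKpos : 0 < K := Real.exp_pos _
  have hsub : {ω | ∃ j ≤ J, σ ω ≤ j ∧ t j ω < s ∧ r ≤ |w j ω - w (σ ω) ω|}
      ⊆ {ω | K ≤ X ω} := by
    rintro ω ⟨j, hjJ, hσj, hts, hjr⟩
    have hc0 := h.c0
    set τ := fp w t J r s σ ω with hτ
    have hmemj : j ∈ DD w t J r s σ ω := ⟨hσj, Or.inr (Or.inl hjr)⟩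
    have hτj : τ ≤ j := Nat.sInf_le hmemj
    have htτ : t τ ω < s := (h.t_mono hτj hjJ ω).trans_lt hts
    have hstτ := h.t_mono (σ_le_fp w t r s (hσJ ω)) (fp_le_J w t r s (hσJ ω)) ω
    have hdt : t τ ω - t (σ ω) ω ≤ η := by
      rcases lt_or_eq_of_le (hσJ ω) with h3 | h3
      · have := hση ω h3
        linarith
      · have h4 : τ = σ ω := by
          have h5 := σ_le_fp w t r s (hσJ ω)
          have h6 := fp_le_J w t r s (hσJ ω)
          omega
        rw [h4]
        linarith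
    have hrτ : r ≤ |w τ ω - w (σ ω) ω| := by
      have h3 : τ ∈ DD w t J r s σ ω := fp_mem w t r s (hσJ ω)
      rcases h3.2 with h4 | h4 | h4
      · have h5 : τ = j := le_antisymm hτj (hjJ.trans h4)
        rw [h5]; exact hjr
      · exact h4
      · exact absurd htτ (not_lt.2 h4)
    have hq : c * lam ^ 2 * (t τ ω - t (σ ω) ω) ≤ c * lam ^ 2 * η :=
      mul_le_mul_of_nonneg_left hdt (mul_nonneg hc0 (sq_nonneg _))
    show K ≤ X ω
    rw [hX, hK]
    dsimp only
    unfold rex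
    rw [← hτ]
    rcases le_abs'.1 hrτ with h5 | h5
    · have e1 : 0 ≤ Real.exp (lam * (w τ ω - w (σ ω) ω)
        - c * lam ^ 2 * (t τ ω - t (σ ω) ω) / 2) := (Real.exp_pos _).le
      have e2 : Real.exp (lam * r - c * lam ^ 2 * η / 2)
          ≤ Real.exp (-lam * (w τ ω - w (σ ω) ω)
            - c * (-lam) ^ 2 * (t τ ω - t (σ ω) ω) / 2) := by
        refine Real.exp_le_exp.2 ?_
        have h6 : lam * r ≤ lam * (-(w τ ω - w (σ ω) ω)) :=
          mul_le_mul_of_nonneg_left (by linarith) hlam0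
        rw [neg_sq]
        linarith
      linarith
    · have e1 : 0 ≤ Real.exp (-lam * (w τ ω - w (σ ω) ω)
        - c * (-lam) ^ 2 * (t τ ω - t (σ ω) ω) / 2) := (Real.exp_pos _).le
      have e2 : Real.exp (lam * r - c * lam ^ 2 * η / 2)
          ≤ Real.exp (lam * (w τ ω - w (σ ω) ω)
            - c * lam ^ 2 * (t τ ω - t (σ ω) ω) / 2) := by
        refine Real.exp_le_exp.2 ?_
        have h6 : lam * r ≤ lam * (w τ ω - w (σ ω) ω) := mul_le_mul_of_nonneg_left h5 hlam0
        linarith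
      linarith
  have hXint : Integrable X P := i1.add i2
  have hXnn : ∀ ω, 0 ≤ X ω := fun ω => add_nonneg (Real.exp_pos _).le (Real.exp_pos _).le
  have hmarkov := mul_meas_ge_le_integral_of_nonneg (Eventually.of_forall hXnn) hXint K
  have hXI : ∫ ω, X ω ∂P ≤ 2 * (1 + Real.exp (lam * r) * Err A T0 δ (eps a b J)) := by
    have h3 : ∫ ω, X ω ∂P = ∫ ω, rex w t c lam σ (fp w t J r s σ) ω ∂P
        + ∫ ω, rex w t c (-lam) σ (fp w t J r s σ) ω ∂P := integral_add i1 i2
    rw [h3]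
    linarith
  have h4 : P.real {ω | ∃ j ≤ J, σ ω ≤ j ∧ t j ω < s ∧ r ≤ |w j ω - w (σ ω) ω|}
      ≤ P.real {ω | K ≤ X ω} := measureReal_mono hsub
  have h5 : P.real {ω | K ≤ X ω} ≤ (∫ ω, X ω ∂P) / K := by
    rw [le_div_iff₀ hKpos, mul_comm]
    exact hmarkov
  refine h4.trans (h5.trans ?_)
  rw [div_le_iff₀ hKpos]
  refine hXI.trans (le_of_eq ?_)
  have e1 : Real.exp (c * lam ^ 2 * η / 2) * K = Real.exp (lam * r) := by
    rw [hK, ← Real.exp_add]; congr 1; ring
  have e2 : Real.exp (-(lam * r)) * Real.exp (lam * r) = 1 := by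
    rw [← Real.exp_add]; simp
  calc 2 * (1 + Real.exp (lam * r) * Err A T0 δ (eps a b J))
      = 2 * (Real.exp (-(lam * r)) * Real.exp (lam * r)
        + Real.exp (lam * r) * Err A T0 δ (eps a b J)) := by rw [e2]
    _ = 2 * (Real.exp (c * lam ^ 2 * η / 2) * K) * (Real.exp (-(lam * r))
        + Err A T0 δ (eps a b J)) := by rw [e1]; ring
    _ = _ := by ring

end Arr

end H37.Levy
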