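import Pool.Agent.H37.Levy.Array7

/-!
# Arrays which are nearly Brownian: uniform modulus of continuity
-/

open MeasureTheory ProbabilityTheory Filter
open scoped ENNReal NNReal Topology

namespace H37.Levy

/-- linear bound of the error -/
noncomputable def CE (A T0 : ℝ) : ℝ := 2 * (1 + A) ^ 2 + KK A * ((1 + A) * (T0 + 1) + 1)

lemma CE_pos {A T0 : ℝ} (hA : 0 ≤ A) (hT : 0 ≤ T0) : 0 < CE A T0 := by
  have := (KK_pos hA).le
  unfold CE
  positivity

lemma Err_le {A T0 δ e d : ℝ} (hA : 0 ≤ A) (hT : 0 ≤ T0) (hδ0 : 0 ≤ δ) (hδ : δ ≤ d) (he0 : 0 ≤ e)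
    (he : e ≤ d) (hd : d ≤ 1) : Err A T0 δ e ≤ CE A T0 * d := by
  have hK := (KK_pos hA).le
  have hd0 : 0 ≤ d := hδ0.trans hδ
  unfold Err CE
  have h1 : KK A * δ * ((1 + A) * (T0 + 1) + e) ≤ KK A * d * ((1 + A) * (T0 + 1) + 1) := by
    have : e ≤ 1 := he.trans hd
    gcongr
  have h2 : 2 * (1 + A) ^ 2 * e ≤ 2 * (1 + A) ^ 2 * d := by gcongr
  calc _ ≤ 2 * (1 + A) ^ 2 * d + KK A * d * ((1 + A) * (T0 + 1) + 1) := add_le_add h2 h1
    _ = _ := by ring

section

variable {Ω : Type*} {m0 : MeasurableSpace Ω}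
variable {P : Measure Ω} {w t : ℕ → Ω → ℝ} {G : Filtration ℕ m0} {c T0 M0 δ : ℝ} {a b : ℕ → ℝ}
  {J : ℕ}

/-- the event that the path oscillates by `2 r` within time `η` -/
def OSC (w t : ℕ → Ω → ℝ) (J : ℕ) (η r : ℝ) : Set Ω :=
  {ω | ∃ i j, i ≤ j ∧ j ≤ J ∧ t j ω ≤ t i ω + η ∧ 2 * r ≤ |w j ω - w i ω|}

theorem Arr.modulus [IsProbabilityMeasure P] (h : Arr w t G P c T0 M0 δ a b J) {lam A r η : ℝ}
    (hlam0 : 0 ≤ lam) (hlam : lam ≤ A) (hc : c ≤ A) (hr : 0 ≤ r) (hη : 0 < η) {N : ℕ}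
    (hN : T0 + 1 < N * η) :
    P.real (OSC w t J η r) ≤ N * (2 * Real.exp (c * lam ^ 2 * η)
        * (Real.exp (-(lam * r)) + Err A T0 δ (eps a b J))) := by
  have hsub : OSC w t J η r ⊆ ⋃ k ∈ Finset.range N,
      {ω | ∃ j ≤ J, jj t J (k * η) ω ≤ j ∧ t j ω < (k + 2) * η
        ∧ r ≤ |w j ω - w (jj t J (k * η) ω) ω|} := by
    rintro ω ⟨i, j, hij, hjJ, hts, hw⟩
    have hti := h.t_nonneg (hij.trans hjJ) ω
    set k : ℕ := ⌊t i ω / η⌋₊ with hk
    have hk1 : (k : ℝ) * η ≤ t i ω := by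
      have := Nat.floor_le (div_nonneg hti hη.le)
      rwa [le_div_iff₀ hη] at this
    have hk2 : t i ω < (k + 1) * η := by
      have := Nat.lt_floor_add_one (t i ω / η)
      rwa [div_lt_iff₀ hη] at this
    have hkN : k < N := by
      by_contra h'
      have h1 : (N : ℝ) ≤ k := by exact_mod_cast not_lt.1 h'
      have h2 := h.bt i (hij.trans hjJ) ω
      have h3 : (N : ℝ) * η ≤ k * η := mul_le_mul_of_nonneg_right h1 hη.le
      linarith
    have hji : jj t J (k * η) ω ≤ i := by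
      by_contra h'
      have := (h.lt_jj.1 (not_le.1 h')).2
      linarith
    simp only [Set.mem_iUnion, Finset.mem_range, exists_prop]
    refine ⟨k, hkN, ?_⟩
    have htj : t j ω < (k + 2) * η := by linarith
    have hti' : t i ω < (k + 2) * η := by linarith
    by_cases h1 : r ≤ |w j ω - w (jj t J (k * η) ω) ω|
    · exact ⟨j, hjJ, hji.trans hij, htj, h1⟩
    · refine ⟨i, hij.trans hjJ, hji, hti', ?_⟩
      push Not at h1
      have h2 : |w j ω - w i ω| ≤ |w j ω - w (jj t J (k * η) ω) ω|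
          + |w i ω - w (jj t J (k * η) ω) ω| := by
        have : w j ω - w i ω = (w j ω - w (jj t J (k * η) ω) ω)
          - (w i ω - w (jj t J (k * η) ω) ω) := by ring
        rw [this]
        exact abs_sub _ _
      linarith
  refine (measureReal_mono hsub (measure_ne_top _ _)).trans
    ((measureReal_biUnion_finset_le _ _).trans ?_)
  have hk : ∀ k ∈ Finset.range N, P.real {ω | ∃ j ≤ J, jj t J (k * η) ω ≤ j ∧ t j ω < (k + 2) * η
        ∧ r ≤ |w j ω - w (jj t J (k * η) ω) ω|}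
      ≤ 2 * Real.exp (c * lam ^ 2 * η) * (Real.exp (-(lam * r)) + Err A T0 δ (eps a b J)) := by
    intro k _
    have h1 := h.passage (σ := jj t J (k * η)) (s := (k + 2) * η) (η := 2 * η) hlam0 hlam hc
      (fun ω => jj_le t J _ ω) (fun i hi => h.meas_jj_eq _ hi le_rfl) (fun i => h.mjj _ i) hr
      (by linarith) (fun ω hω => by
        have := h.le_TT_of_lt hω
        unfold TT at this
        linarith)
    have h2 : c * lam ^ 2 * (2 * η) / 2 = c * lam ^ 2 * η := by ring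
    rw [h2] at h1
    exact h1
  refine (Finset.sum_le_sum hk).trans ?_
  rw [Finset.sum_const, Finset.card_range, nsmul_eq_mul]

end

/-- **uniform modulus of continuity** -/
theorem modulus_small {c T0 r κ : ℝ} (hc : 0 ≤ c) (hT : 0 ≤ T0) (hr : 0 < r) (hκ : 0 < κ) :
    ∃ η > 0, ∃ d > 0, ∀ {Ω : Type*} {m0 : MeasurableSpace Ω} {P : Measure Ω}
      [IsProbabilityMeasure P] {w t : ℕ → Ω → ℝ} {G : Filtration ℕ m0} {M0 δ : ℝ} {a b : ℕ → ℝ}
      {J : ℕ}, Arr w t G P c T0 M0 δ a b J → δ ≤ d → eps a b J ≤ d →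
      P.real (OSC w t J η r) ≤ κ := by
  -- choose `n`
  have hlim : Tendsto (fun n : ℕ => ((T0 + 2) * (n : ℝ) ^ 2 + 1) * (2 * Real.exp c
      * Real.exp (-((n : ℝ) * r)))) atTop (𝓝 0) := by
    have h1 : Tendsto (fun x : ℝ => x ^ 2 * Real.exp (-r * x)) atTop (𝓝 0) := by
      have := tendsto_rpow_mul_exp_neg_mul_atTop_nhds_zero 2 r hr
      refine this.congr' ?_
      filter_upwards [eventually_gt_atTop 0] with x hx
      norm_num
    have h2 : Tendsto (fun x : ℝ => Real.exp (-r * x)) atTop (𝓝 0) := by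
      refine Real.tendsto_exp_atBot.comp ?_
      have := tendsto_id.const_mul_atTop_of_neg (r := -r) (neg_lt_zero.2 hr) (l := atTop)
      exact this
    have h3 : Tendsto (fun x : ℝ => 2 * Real.exp c * ((T0 + 2) * (x ^ 2 * Real.exp (-r * x))
        + Real.exp (-r * x))) atTop (𝓝 (2 * Real.exp c * ((T0 + 2) * 0 + 0))) :=
      ((h1.const_mul _).add h2).const_mul _
    have h4 : 2 * Real.exp c * ((T0 + 2) * 0 + 0) = 0 := by ring
    rw [h4] at h3
    refine (h3.comp tendsto_natCast_atTop_atTop).congr fun n => ?_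
    simp only [Function.comp]
    have : -((n : ℝ) * r) = -r * n := by ring
    rw [this]
    ring
  have hev : ∀ᶠ n : ℕ in atTop, ((T0 + 2) * (n : ℝ) ^ 2 + 1) * (2 * Real.exp c
      * Real.exp (-((n : ℝ) * r))) < κ / 2 := hlim.eventually_lt_const (by linarith)
  obtain ⟨n, hn, hn1⟩ := (hev.and (eventually_ge_atTop 1)).exists
  have hn0 : (0 : ℝ) < n := by exact_mod_cast hn1
  set N : ℕ := ⌈(T0 + 2) * (n : ℝ) ^ 2⌉₊ with hN
  have hN1 : (T0 + 2) * (n : ℝ) ^ 2 ≤ N := Nat.le_ceil _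
  have hN2 : (N : ℝ) ≤ (T0 + 2) * (n : ℝ) ^ 2 + 1 := (Nat.ceil_lt_add_one (by positivity)).le
  set η : ℝ := 1 / (n : ℝ) ^ 2 with hη
  have hη0 : 0 < η := by positivity
  set A : ℝ := c + n with hA
  have hA0 : 0 ≤ A := by positivity
  set K : ℝ := N * (2 * Real.exp c) * CE A T0 with hK
  have hCE := CE_pos hA0 hT
  have hK0 : 0 ≤ K := by positivity
  refine ⟨η, hη0, min 1 (κ / 2 / (K + 1)), by positivity, ?_⟩
  intro Ω m0 P _ w t G M0 δ a b J h hδ he
  have hNη : T0 + 1 < N * η := by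
    have : (T0 + 2) * (n : ℝ) ^ 2 * η ≤ N * η := mul_le_mul_of_nonneg_right hN1 hη0.le
    have h2 : (T0 + 2) * (n : ℝ) ^ 2 * η = T0 + 2 := by rw [hη]; field_simp
    linarith
  have h1 := h.modulus (lam := n) (A := A) (r := r) (η := η) hn0.le (by linarith) (by linarith)
    hr.le hη0 hNη
  have h2 : c * (n : ℝ) ^ 2 * η = c := by rw [hη]; field_simp
  rw [h2] at h1
  have hErr := Err_le hA0 hT h.δ0 hδ h.eps_nonneg he (min_le_left _ _)
  have h3 : (N : ℝ) * (2 * Real.exp c * (Real.exp (-((n : ℝ) * r)) + Err A T0 δ (eps a b J)))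
      ≤ ((T0 + 2) * (n : ℝ) ^ 2 + 1) * (2 * Real.exp c * Real.exp (-((n : ℝ) * r)))
        + K * min 1 (κ / 2 / (K + 1)) := by
    have e1 : (N : ℝ) * (2 * Real.exp c * Real.exp (-((n : ℝ) * r)))
        ≤ ((T0 + 2) * (n : ℝ) ^ 2 + 1) * (2 * Real.exp c * Real.exp (-((n : ℝ) * r))) := by
      gcongr
    have e2 : (N : ℝ) * (2 * Real.exp c) * Err A T0 δ (eps a b J)
        ≤ K * min 1 (κ / 2 / (K + 1)) := by
      rw [hK, mul_assoc ((N : ℝ) * (2 * Real.exp c))]
      exact mul_le_mul_of_nonneg_left hErr (by positivity)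
    calc _ = (N : ℝ) * (2 * Real.exp c * Real.exp (-((n : ℝ) * r)))
          + (N : ℝ) * (2 * Real.exp c) * Err A T0 δ (eps a b J) := by ring
      _ ≤ _ := add_le_add e1 e2
  have h4 : K * min 1 (κ / 2 / (K + 1)) ≤ κ / 2 := by
    have : K * min 1 (κ / 2 / (K + 1)) ≤ (K + 1) * (κ / 2 / (K + 1)) := by
      apply mul_le_mul (by linarith) (min_le_right _ _) (by positivity) (by positivity)
    have h5 : (K + 1) * (κ / 2 / (K + 1)) = κ / 2 := by field_simp
    linarith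
  linarith

end H37.Levy
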