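import Pool.Agent.H37.Levy.Array8

/-!
# Arrays which are nearly Brownian: restriction to shorter times, Gaussian increments
-/

open MeasureTheory ProbabilityTheory Filter
open scoped ENNReal NNReal Topology

namespace H37.Levy

/-- a process whose increments have the joint characteristic functions of Brownian motion -/
theorem isPreBrownianReal_of_char {Ω : Type*} {m0 : MeasurableSpace Ω} {P : Measure Ω}
    [IsProbabilityMeasure P] {W : ℝ≥0 → Ω → ℝ} (hm : ∀ t, AEMeasurable (W t) P)
    (h0 : ∀ᵐ ω ∂P, W 0 ω = 0)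
    (h : ∀ (n : ℕ) (θ : ℕ → ℝ) (s : ℕ → ℝ≥0), Monotone s →
      ∫ ω, Complex.exp (Complex.I *
        ((∑ k ∈ Finset.range n, θ k * (W (s (k + 1)) ω - W (s k) ω) : ℝ) : ℂ)) ∂P
      = ((Real.exp (-(1 / 2 * ∑ k ∈ Finset.range n, θ k ^ 2 * ((s (k + 1) : ℝ) - s k)))
        : ℝ) : ℂ)) :
    IsPreBrownianReal W P := by
  have haem : ∀ s t : ℝ≥0, AEMeasurable (fun ω => W t ω - W s ω) P := fun s t =>
    (hm t).sub (hm s)
  -- one increment
  have hone : ∀ (s t : ℝ≥0), s ≤ t → ∀ θ : ℝ, charFun (P.map (fun ω => W t ω - W s ω)) θ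
      = ((Real.exp (-(1 / 2 * (θ ^ 2 * ((t : ℝ) - s)))) : ℝ) : ℂ) := by
    intro s t hst θ
    have h1 := h 1 (fun _ => θ) (fun k => if k = 0 then s else t) (by
      intro i j hij
      dsimp only
      split_ifs with h1 h2
      · exact le_rfl
      · exact hst
      · omega
      · exact le_rfl)
    simp only [Finset.range_one, Finset.sum_singleton, zero_add, one_ne_zero, if_false,
      if_true] at h1
    rw [charFun_apply_real, integral_map (haem s t) (by fun_prop), ← h1]
    congr 1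
    funext ω
    congr 1
    push_cast
    ring
  have hlaw : ∀ (s t : ℝ≥0), s ≤ t → P.map (fun ω => W t ω - W s ω)
      = gaussianReal 0 (t - s) := by
    intro s t hst
    have : IsProbabilityMeasure (P.map (fun ω => W t ω - W s ω)) :=
      Measure.isProbabilityMeasure_map (haem s t)
    refine Measure.ext_of_charFun ?_
    funext θ
    rw [hone s t hst, charFun_gaussianReal, NNReal.coe_sub hst, Complex.ofReal_exp]
    congr 1
    push_cast
    ring
  refine HasIndepIncrements.isPreBrownianReal_of_hasLaw (fun t => ?_) ?_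
  · refine ⟨hm t, ?_⟩
    have h1 := hlaw 0 t zero_le
    rw [tsub_zero] at h1
    rw [← h1]
    refine Measure.map_congr ?_
    filter_upwards [h0] with ω hω
    rw [hω, sub_zero]
  · intro n t ht
    have haem' : ∀ i : Fin n, AEMeasurable (fun ω => W (t i.succ) ω - W (t i.castSucc) ω) P :=
      fun i => haem _ _
    rw [iIndepFun_iff_charFun_pi haem']
    intro θ
    set t' : ℕ → ℝ≥0 := fun k => t ⟨min n k, by omega⟩ with ht'
    have htm : Monotone t' := fun a b hab => ht (by
      rw [Fin.mk_le_mk]; omega)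
    have e1 : ∀ i : Fin n, t i.succ = t' (i + 1) := fun i => by
      rw [ht']; congr 1; ext; simp
    have e2 : ∀ i : Fin n, t i.castSucc = t' i := fun i => by
      rw [ht']; congr 1; ext; simp
    set θ' : ℕ → ℝ := fun k => if hk : k < n then θ ⟨k, hk⟩ else 0 with hθ'
    have e3 : ∀ i : Fin n, θ i = θ' i := fun i => by
      rw [hθ']; simp
    have h1 := h n θ' t' htm
    rw [charFun_apply, integral_map (by fun_prop) (by fun_prop)]
    simp only [e1, e2]
    have e4 : (∏ i : Fin n, charFun (P.map (fun ω => W (t' (i + 1)) ω - W (t' i) ω)) (θ i))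
        = ((Real.exp (-(1 / 2 * ∑ k ∈ Finset.range n, θ' k ^ 2 * ((t' (k + 1) : ℝ) - t' k)))
        : ℝ) : ℂ) := by
      rw [← Fin.sum_univ_eq_sum_range (fun k => θ' k ^ 2 * ((t' (k + 1) : ℝ) - t' k)) n,
        Finset.mul_sum, ← Finset.sum_neg_distrib, Real.exp_sum, Complex.ofReal_prod]
      refine Finset.prod_congr rfl fun i _ => ?_
      rw [hone _ _ (htm (Nat.le_succ _)), e3]
    rw [e4, ← h1]
    congr 1
    funext ω
    congr 1
    rw [mul_comm]
    congr 2
    rw [← Fin.sum_univ_eq_sum_range (fun k => θ' k * (W (t' (k + 1)) ω - W (t' k) ω)) n]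
    rw [PiLp.inner_apply]
    refine Finset.sum_congr rfl fun i _ => ?_
    rw [← e3]
    simp

section

variable {Ω : Type*} {m0 : MeasurableSpace Ω}
variable {P : Measure Ω} {w t : ℕ → Ω → ℝ} {G : Filtration ℕ m0} {c T0 M0 δ : ℝ} {a b : ℕ → ℝ}
  {J : ℕ}

/-- the sequence stopped at time `T` -/
noncomputable def stp (t : ℕ → Ω → ℝ) (J : ℕ) (T : ℝ) (x : ℕ → Ω → ℝ) (j : ℕ) (ω : Ω) : ℝ :=
  x (min j (jj t J T ω)) ω

lemma stp_of_le {x : ℕ → Ω → ℝ} {T : ℝ} {j : ℕ} {ω : Ω} (hj : j ≤ jj t J T ω) :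
    stp t J T x j ω = x j ω := by
  unfold stp; rw [min_eq_left hj]

lemma stp_of_ge {x : ℕ → Ω → ℝ} {T : ℝ} {j : ℕ} {ω : Ω} (hj : jj t J T ω ≤ j) :
    stp t J T x j ω = x (jj t J T ω) ω := by
  unfold stp; rw [min_eq_right hj]

namespace Arr

lemma meas_le_jj (h : Arr w t G P c T0 M0 δ a b J) (s : ℝ) (j : ℕ) :
    MeasurableSet[G j] {ω | j ≤ jj t J s ω} := by
  rcases Nat.eq_zero_or_pos j with h0 | h0
  · have : {ω | j ≤ jj t J s ω} = Set.univ := by
      ext ω; simp [h0]
    rw [this]; exact @MeasurableSet.univ _ (G j)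
  · rcases le_or_gt j J with h1 | h1
    · have : {ω | j ≤ jj t J s ω} = {ω | j - 1 < jj t J s ω} := by
        ext ω; simp only [Set.mem_ofPred_eq]; omega
      rw [this]
      exact h.meas_jj_lt s (by omega) (by omega)
    · have : {ω | j ≤ jj t J s ω} = ∅ := by
        ext ω
        simp only [Set.mem_ofPred_eq, Set.mem_empty_iff_false, iff_false]
        have := jj_le t J s ω
        omega
      rw [this]; exact @MeasurableSet.empty _ (G j)

lemma sm_stp (h : Arr w t G P c T0 M0 δ a b J) {x : ℕ → Ω → ℝ}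
    (hx : ∀ j, StronglyMeasurable[G j] (x j)) (T : ℝ) (j : ℕ) :
    StronglyMeasurable[G j] (stp t J T x j) := by
  have h1 : stp t J T x j = fun ω => Set.indicator {ω | j ≤ jj t J T ω} (x j) ω
      + ∑ k ∈ Finset.range j, Set.indicator ({ω | k ≤ jj t J T ω} ∩ {ω | k + 1 ≤ jj t J T ω}ᶜ)
        (x k) ω := by
    funext ω
    rcases le_or_gt j (jj t J T ω) with h2 | h2
    · rw [stp_of_le h2, Set.indicator_of_mem (show ω ∈ {ω | j ≤ jj t J T ω} from h2),
        Finset.sum_eq_zero, add_zero]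
      intro k hk
      have hk' := Finset.mem_range.1 hk
      refine Set.indicator_of_notMem ?_ _
      rintro ⟨_, h4⟩
      exact h4 (by show k + 1 ≤ jj t J T ω; omega)
    · rw [stp_of_ge h2.le, Set.indicator_of_notMem (show ω ∉ {ω | j ≤ jj t J T ω} from
        not_le.2 h2), zero_add, Finset.sum_eq_single (jj t J T ω)]
      · rw [Set.indicator_of_mem]
        constructor
        · show jj t J T ω ≤ jj t J T ω
          exact le_rfl
        · show ¬ (jj t J T ω + 1 ≤ jj t J T ω)
          omega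
      · intro k _ hne
        refine Set.indicator_of_notMem ?_ _
        rintro ⟨h3, h4⟩
        have h3' : k ≤ jj t J T ω := h3
        have h4' : ¬ (k + 1 ≤ jj t J T ω) := h4
        omega
      · intro hnot
        exact absurd (Finset.mem_range.2 h2) hnot
  rw [h1]
  refine ((hx j).indicator (h.meas_le_jj T j)).add ?_
  refine Finset.stronglyMeasurable_fun_sum _ fun k hk => ?_
  have hk' : k + 1 ≤ j := Finset.mem_range.1 hk
  exact ((hx k).mono (G.mono (by omega))).indicator
    ((G.mono (by omega) _ (h.meas_le_jj T k)).inter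
      (G.mono hk' _ (h.meas_le_jj T (k + 1))).compl)

lemma stp_step {x : ℕ → Ω → ℝ} {T : ℝ} (j : ℕ) (ω : Ω) :
    stp t J T x (j + 1) ω - stp t J T x j ω
      = Set.indicator {ω | j < jj t J T ω} (fun ω => x (j + 1) ω - x j ω) ω := by
  by_cases h1 : j < jj t J T ω
  · rw [Set.indicator_of_mem (show ω ∈ {ω | j < jj t J T ω} from h1), stp_of_le (by omega),
      stp_of_le (by omega)]
  · rw [Set.indicator_of_notMem (show ω ∉ {ω | j < jj t J T ω} from h1), stp_of_ge (by omega),
      stp_of_ge (by omega), sub_self]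

/-- **restriction to a shorter time** -/
theorem restrict (h : Arr w t G P c T0 M0 δ a b J) {T : ℝ} (hT : 0 ≤ T) (hTT : T ≤ T0) :
    Arr (stp t J T w) (stp t J T t) G P c T M0 δ a b J where
  c0 := h.c0
  T00 := hT
  M00 := h.M00
  δ0 := h.δ0
  δ1 := h.δ1
  mw := h.sm_stp h.mw T
  mt := h.sm_stp h.mt T
  w0 ω := by rw [stp_of_le (Nat.zero_le _)]; exact h.w0 ω
  t0 ω := by rw [stp_of_le (Nat.zero_le _)]; exact h.t0 ω
  bw j _ ω := h.bw _ ((min_le_right _ _).trans (jj_le t J T ω)) ω
  bt j _ ω := by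
    have h1 : stp t J T t j ω ≤ TT t J T ω :=
      h.t_mono (min_le_right _ _) (jj_le t J T ω) ω
    have h2 := h.TT_le hT ω
    have h3 := h.δ1
    linarith
  dw j hj ω := by
    rw [stp_step]
    by_cases h1 : ω ∈ {ω | j < jj t J T ω}
    · rw [Set.indicator_of_mem h1]; exact h.dw j hj ω
    · rw [Set.indicator_of_notMem h1, abs_zero]; exact h.δ0
  dt0 j hj ω := by
    rw [stp_step]
    by_cases h1 : ω ∈ {ω | j < jj t J T ω}
    · rw [Set.indicator_of_mem h1]; exact h.dt0 j hj ω
    · rw [Set.indicator_of_notMem h1]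
  dt j hj ω := by
    rw [stp_step]
    by_cases h1 : ω ∈ {ω | j < jj t J T ω}
    · rw [Set.indicator_of_mem h1]; exact h.dt j hj ω
    · rw [Set.indicator_of_notMem h1]; exact h.δ0
  e1 j hj Y hY hY1 := by
    have h1 := h.e1 j hj (Set.indicator {ω | j < jj t J T ω} Y)
      (hY.indicator (h.meas_jj_lt T hj le_rfl)) (fun ω => by
        by_cases h1 : ω ∈ {ω | j < jj t J T ω}
        · rw [Set.indicator_of_mem h1]; exact hY1 ω
        · rw [Set.indicator_of_notMem h1, abs_zero]; exact zero_le_one)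
    convert h1 using 3
    funext ω
    rw [stp_step]
    by_cases h1 : ω ∈ {ω | j < jj t J T ω}
    · rw [Set.indicator_of_mem h1, Set.indicator_of_mem h1]
    · rw [Set.indicator_of_notMem h1, Set.indicator_of_notMem h1, mul_zero, zero_mul]
  e2 j hj Y hY hY1 := by
    have h1 := h.e2 j hj (Set.indicator {ω | j < jj t J T ω} Y)
      (hY.indicator (h.meas_jj_lt T hj le_rfl)) (fun ω => by
        by_cases h1 : ω ∈ {ω | j < jj t J T ω}
        · rw [Set.indicator_of_mem h1]; exact hY1 ω
        · rw [Set.indicator_of_notMem h1, abs_zero]; exact zero_le_one)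
    convert h1 using 3
    funext ω
    rw [stp_step, stp_step]
    by_cases h1 : ω ∈ {ω | j < jj t J T ω}
    · rw [Set.indicator_of_mem h1, Set.indicator_of_mem h1, Set.indicator_of_mem h1]
    · rw [Set.indicator_of_notMem h1, Set.indicator_of_notMem h1, Set.indicator_of_notMem h1]
      ring

/-- the restricted array is stopped early only if the array is -/
lemma BAD_restrict (h : Arr w t G P c T0 M0 δ a b J) {T : ℝ} (hTT : T ≤ T0) :
    BAD (stp t J T w) (stp t J T t) T M0 J ⊆ BAD w t T0 M0 J := by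
  rintro ω ⟨h1, h2⟩
  rw [stp_of_ge (jj_le t J T ω)] at h1 h2
  rcases lt_or_eq_of_le (jj_le t J T ω) with h3 | h3
  · exact absurd h1 (not_lt.2 (h.le_TT_of_lt h3))
  · rw [h3] at h1 h2
    exact ⟨h1.trans_le hTT, h2⟩

lemma jj_stp (h : Arr w t G P c T0 M0 δ a b J) {T s : ℝ} (hs : s ≤ T) (ω : Ω) :
    jj (stp t J T t) J s ω = jj t J s ω := by
  unfold jj
  congr 1
  refine Finset.filter_congr fun j hj => ?_
  have hj' := Finset.mem_range.1 hj
  rcases le_or_gt j (jj t J T ω) with h1 | h1
  · rw [stp_of_le h1]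
  · rw [stp_of_ge h1.le]
    have h2 : T ≤ t (jj t J T ω) ω := h.le_TT_of_lt (h1.trans hj')
    have h3 := h.t_mono h1.le hj'.le ω
    constructor <;> intro h4 <;> linarith

lemma XX_stp (h : Arr w t G P c T0 M0 δ a b J) {T s : ℝ} (hs : s ≤ T) (ω : Ω) :
    XX (stp t J T w) (stp t J T t) J s ω = XX w t J s ω := by
  unfold XX
  rw [h.jj_stp hs ω, stp_of_le (jj_mono t J hs ω)]

end Arr

end

end H37.Levy
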