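import Pool.Agent.H37.Levy.Cub

/-!
# The conditional characteristic function of the increments
-/

open MeasureTheory ProbabilityTheory Filter
open scoped ENNReal NNReal Topology

namespace H37.Levy

variable {Ω : Type*} {m0 : MeasurableSpace Ω} {P : Measure Ω}
variable {W : ℝ≥0 → Ω → ℝ} {F : Filtration ℝ≥0 m0}

lemma mx_le_sup0 {f : ℝ≥0 → ℝ} (hf : Continuous f) (s r : ℝ≥0) {N : ℕ} (hN : N ≠ 0) :
    mx (fun k => f (pt s r N k)) N ≤ 2 * sup0 f (s + r) := by
  refine mx_le (by have := sup0_nonneg f (s + r); linarith) fun k hk => ?_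
  have h1 := le_sup0 hf (pt_le s r hN hk)
  have h2 := le_sup0 hf (pt_le s r hN hk.le)
  have h3 := abs_sub (f (pt s r N (k + 1))) (f (pt s r N k))
  calc |f (pt s r N (k + 1)) - f (pt s r N k)|
      ≤ |f (pt s r N (k + 1))| + |f (pt s r N k)| := by
        simpa [sub_eq_add_neg] using abs_add_le (f (pt s r N (k + 1))) (-f (pt s r N k))
    _ ≤ 2 * sup0 f (s + r) := by
        rw [Nat.succ_eq_add_one] at h1
        linarith

lemma Bm.tendsto_G [IsProbabilityMeasure P] (h : Bm W F P) (s r : ℝ≥0) {ε : ℝ} (hε : 0 < ε) :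
    Tendsto (fun N : ℕ => ∫ ω, (1 + (mx (fun j => W (pt s r N j) ω) N) ^ 2)
      * ind ε (mx (fun j => W (pt s r N j) ω) N) ∂P) atTop (𝓝 0) := by
  have hS := (sup0_L2 h.mart h.two h.cont (s + r)).1
  have h0 : ∫ _ω : Ω, (0 : ℝ) ∂P = 0 := integral_zero _ _
  rw [← h0]
  refine tendsto_integral_filter_of_dominated_convergence
    (fun ω => 1 + 4 * (sup0 (fun u => W u ω) (s + r)) ^ 2) ?_ ?_ ?_ ?_
  · refine Eventually.of_forall fun N => ?_
    have hm := (mx_memLp h.two (pt s r N) N).1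
    have hc : Measurable fun y : ℝ => (1 + y ^ 2) * ind ε y :=
      (measurable_const.add (measurable_id.pow_const 2)).mul (measurable_ind ε)
    exact (hc.comp_aemeasurable hm.aemeasurable).aestronglyMeasurable
  · filter_upwards [eventually_ne_atTop 0] with N hN
    filter_upwards [h.cont] with ω hω
    have h1 := mx_le_sup0 hω s r hN
    have h2 := mx_nonneg (fun j => W (pt s r N j) ω) N
    have h3 : (mx (fun j => W (pt s r N j) ω) N) ^ 2 ≤ 4 * (sup0 (fun u => W u ω) (s + r)) ^ 2 := by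
      nlinarith
    rw [Real.norm_of_nonneg (mul_nonneg (by positivity) (ind_nonneg _ _))]
    calc (1 + (mx (fun j => W (pt s r N j) ω) N) ^ 2) * ind ε (mx (fun j => W (pt s r N j) ω) N)
        ≤ (1 + (mx (fun j => W (pt s r N j) ω) N) ^ 2) :=
          mul_le_of_le_one_right (by positivity) (ind_le_one _ _)
      _ ≤ _ := by linarith
  · exact (integrable_const _).add (hS.integrable_sq.const_mul 4)
  · filter_upwards [h.cont] with ω hω
    refine tendsto_const_nhds.congr' ?_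
    filter_upwards [tendsto_mx hω s r hε] with N hN
    have : ind ε (mx (fun j => W (pt s r N j) ω) N) = 0 := if_neg (not_lt.2 hN)
    rw [this, mul_zero]

lemma Bm.tendsto_err [IsProbabilityMeasure P] (h : Bm W F P) (θ : ℝ) (s r : ℝ≥0) :
    Tendsto (fun N : ℕ => ∑ k ∈ Finset.range N,
      ∫ ω, cub (θ * (W (pt s r N (k + 1)) ω - W (pt s r N k) ω)) ∂P) atTop (𝓝 0) := by
  refine tendsto_order.2 ⟨fun a ha => Eventually.of_forall fun N => ha.trans_le ?_, fun a ha => ?_⟩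
  · exact Finset.sum_nonneg fun k _ => integral_nonneg fun ω => cub_nonneg _
  · obtain ⟨ε, hε, hε2⟩ : ∃ ε : ℝ, 0 < ε ∧ |θ| ^ 3 * ε * r < a / 2 := by
      have h1 : Tendsto (fun ε : ℝ => |θ| ^ 3 * ε * r) (𝓝[>] 0) (𝓝 (|θ| ^ 3 * 0 * r)) :=
        tendsto_nhdsWithin_of_tendsto_nhds (by
          have : Continuous fun ε : ℝ => |θ| ^ 3 * ε * r := by fun_prop
          exact this.tendsto 0)
      have h2 : |θ| ^ 3 * 0 * (r : ℝ) < a / 2 := by simpa using ha
      have h3 := (h1.eventually_lt_const h2).and self_mem_nhdsWithin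
      obtain ⟨ε, h4, h5⟩ := h3.exists
      exact ⟨ε, h5, h4⟩
    have h1 : Tendsto (fun N : ℕ => θ ^ 2 * ((r : ℝ) + 1) *
        ∫ ω, (1 + (mx (fun j => W (pt s r N j) ω) N) ^ 2)
          * ind ε (mx (fun j => W (pt s r N j) ω) N) ∂P) atTop (𝓝 0) := by
      simpa using (h.tendsto_G s r hε).const_mul (θ ^ 2 * ((r : ℝ) + 1))
    filter_upwards [h1.eventually_lt_const (half_pos ha), eventually_ne_atTop 0] with N hN hN0
    have h2 := h.err_le θ s r hε.le hN0
    linarith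

/-- **the conditional characteristic function** -/
theorem Bm.char [IsProbabilityMeasure P] (h : Bm W F P) (θ : ℝ) (s r : ℝ≥0) {Z : Ω → ℂ}
    (hZ : StronglyMeasurable[F s] Z) (hC : ∀ ω, ‖Z ω‖ ≤ 1) :
    ∫ ω, Z ω * Complex.exp (Complex.I * ((θ * (W (s + r) ω - W s ω) : ℝ) : ℂ)) ∂P
      = Complex.exp (-(θ ^ 2 * r / 2)) * ∫ ω, Z ω ∂P := by
  set c : ℕ → ℂ := fun N => 1 + (-((θ : ℂ) ^ 2 * r / 2)) / N with hc
  have hclim : Tendsto (fun N => c N ^ N) atTop (𝓝 (Complex.exp (-((θ : ℂ) ^ 2 * r / 2)))) :=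
    Complex.tendsto_one_add_div_pow_exp _
  have hcn : ∀ᶠ N : ℕ in atTop, ‖c N‖ ≤ 1 := by
    have h1 : ∀ᶠ N : ℕ in atTop, (θ ^ 2 * r / 2) / (N : ℝ) < 1 :=
      (tendsto_const_div_atTop_nhds_zero_nat _).eventually_lt_const zero_lt_one
    filter_upwards [h1] with N hN
    have h2 : c N = ((1 - (θ ^ 2 * r / 2) / (N : ℝ) : ℝ) : ℂ) := by
      rw [hc]; push_cast; ring
    rw [h2, Complex.norm_real, Real.norm_eq_abs, abs_le]
    have h3 : 0 ≤ (θ ^ 2 * r / 2) / (N : ℝ) := by positivity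
    constructor <;> linarith
  have key : ∀ᶠ N : ℕ in atTop,
      ‖∫ ω, Z ω * Complex.exp (Complex.I * ((θ * (W (s + r) ω - W s ω) : ℝ) : ℂ)) ∂P
        - c N ^ N * ∫ ω, Z ω ∂P‖ ≤ 4 * ∑ k ∈ Finset.range N,
          ∫ ω, cub (θ * (W (pt s r N (k + 1)) ω - W (pt s r N k) ω)) ∂P := by
    filter_upwards [hcn, eventually_ne_atTop 0] with N hN hN0
    set t := pt s r N with ht
    have htm : Monotone t := pt_mono s r N
    set Zk : ℕ → Ω → ℂ := fun k ω =>
      Z ω * Complex.exp (Complex.I * ((θ * (W (t k) ω - W s ω) : ℝ) : ℂ)) with hZk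
    have hst : ∀ k, s ≤ t k := fun k => by
      rw [ht]; unfold pt; exact le_self_add
    have hZkm : ∀ k, StronglyMeasurable[F (t k)] (Zk k) := by
      intro k
      refine (hZ.mono (F.mono (hst k))).mul ?_
      have hcont : Continuous fun x : ℝ => Complex.exp (Complex.I * ((θ * x : ℝ) : ℂ)) := by
        fun_prop
      exact hcont.comp_stronglyMeasurable ((h.mart.stronglyMeasurable (t k)).sub
        ((h.mart.stronglyMeasurable s).mono (F.mono (hst k))))
    have hZkb : ∀ k ω, ‖Zk k ω‖ ≤ 1 := by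
      intro k ω
      rw [hZk]
      simp only
      rw [norm_mul, mul_comm Complex.I, Complex.norm_exp_ofReal_mul_I, mul_one]
      exact hC ω
    have hstep : ∀ k, ‖∫ ω, Zk (k + 1) ω ∂P - c N * ∫ ω, Zk k ω ∂P‖
        ≤ 4 * ∫ ω, cub (θ * (W (t (k + 1)) ω - W (t k) ω)) ∂P := by
      intro k
      have h1 := h.step θ (htm (Nat.le_succ k)) (hZkm k) (hZkb k)
      have h2 : (fun ω => Zk k ω * Complex.exp
          (Complex.I * ((θ * (W (t (k + 1)) ω - W (t k) ω) : ℝ) : ℂ))) = Zk (k + 1) := by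
        funext ω
        rw [hZk]
        simp only
        rw [mul_assoc, ← Complex.exp_add]
        congr 2
        push_cast
        ring
      have h3 : (1 - (θ : ℂ) ^ 2 * (((t (k + 1) : ℝ≥0) : ℂ) - ((t k : ℝ≥0) : ℂ)) / 2) = c N := by
        have h4 := pt_sub s r (k := k) hN0
        have h5 : (((t (k + 1) : ℝ≥0) : ℝ) : ℂ) - (((t k : ℝ≥0) : ℝ) : ℂ) = (r : ℂ) / N := by
          rw [← Complex.ofReal_sub, ht, h4]; push_cast; rfl
        rw [hc]
        simp only
        rw [h5]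
        ring
      rw [Nat.succ_eq_add_one] at h1
      rw [← h3, ← h2]
      exact h1
    have hind : ∀ k, ‖∫ ω, Zk k ω ∂P - c N ^ k * ∫ ω, Zk 0 ω ∂P‖
        ≤ 4 * ∑ j ∈ Finset.range k, ∫ ω, cub (θ * (W (t (j + 1)) ω - W (t j) ω)) ∂P := by
      intro k
      induction k with
      | zero => simp
      | succ k ih =>
        have e1 : ∫ ω, Zk (k + 1) ω ∂P - c N ^ (k + 1) * ∫ ω, Zk 0 ω ∂P
            = (∫ ω, Zk (k + 1) ω ∂P - c N * ∫ ω, Zk k ω ∂P)
              + c N * (∫ ω, Zk k ω ∂P - c N ^ k * ∫ ω, Zk 0 ω ∂P) := by ring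
        rw [e1, Finset.sum_range_succ, mul_add]
        refine (norm_add_le _ _).trans ?_
        rw [norm_mul]
        have h1 := hstep k
        have h2 : ‖c N‖ * ‖∫ ω, Zk k ω ∂P - c N ^ k * ∫ ω, Zk 0 ω ∂P‖
            ≤ 1 * ‖∫ ω, Zk k ω ∂P - c N ^ k * ∫ ω, Zk 0 ω ∂P‖ :=
          mul_le_mul_of_nonneg_right hN (norm_nonneg _)
        linarith
    have h0 : Zk 0 = Z := by
      funext ω
      rw [hZk]
      simp only
      rw [ht, pt_zero]
      simp
    have hend : Zk N = fun ω =>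
        Z ω * Complex.exp (Complex.I * ((θ * (W (s + r) ω - W s ω) : ℝ) : ℂ)) := by
      funext ω
      rw [hZk]
      simp only
      rw [ht, pt_self s r hN0]
    have := hind N
    rw [h0, hend] at this
    exact this
  have hlim1 : Tendsto (fun N : ℕ =>
      ‖∫ ω, Z ω * Complex.exp (Complex.I * ((θ * (W (s + r) ω - W s ω) : ℝ) : ℂ)) ∂P
        - c N ^ N * ∫ ω, Z ω ∂P‖) atTop
      (𝓝 ‖∫ ω, Z ω * Complex.exp (Complex.I * ((θ * (W (s + r) ω - W s ω) : ℝ) : ℂ)) ∂P
        - Complex.exp (-((θ : ℂ) ^ 2 * r / 2)) * ∫ ω, Z ω ∂P‖) :=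
    (tendsto_const_nhds.sub (hclim.mul_const _)).norm
  have hlim2 : Tendsto (fun N : ℕ => 4 * ∑ k ∈ Finset.range N,
      ∫ ω, cub (θ * (W (pt s r N (k + 1)) ω - W (pt s r N k) ω)) ∂P) atTop (𝓝 0) := by
    simpa using (h.tendsto_err θ s r).const_mul 4
  have hfin := le_of_tendsto_of_tendsto hlim1 hlim2 key
  have := norm_le_zero_iff.1 hfin
  exact sub_eq_zero.1 this

end H37.Levy
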