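import Pool.Agent.H37.Levy.Char

/-!
# The error terms tend to zero, and the conditional characteristic function
-/

open MeasureTheory ProbabilityTheory Filter
open scoped ENNReal NNReal Topology

namespace H37.Levy

/-- running maximum of the increments, strictly before the index -/
noncomputable def mx (x : ℕ → ℝ) : ℕ → ℝ
  | 0 => 0
  | (k + 1) => max (mx x k) |x (k + 1) - x k|

lemma mx_nonneg (x : ℕ → ℝ) (k : ℕ) : 0 ≤ mx x k := by
  induction k with
  | zero => exact le_rfl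
  | succ k ih => exact le_max_of_le_left ih

lemma mx_mono (x : ℕ → ℝ) : Monotone (mx x) :=
  monotone_nat_of_le_succ fun _ => le_max_left _ _

lemma mx_le {x : ℕ → ℝ} {N : ℕ} {c : ℝ} (hc : 0 ≤ c) (h : ∀ k < N, |x (k + 1) - x k| ≤ c) :
    mx x N ≤ c := by
  induction N with
  | zero => exact hc
  | succ N ih =>
    exact max_le (ih fun k hk => h k (hk.trans (Nat.lt_succ_self N))) (h N (Nat.lt_succ_self N))

/-- the indicator of `ε < y`, as a real number -/
noncomputable def ind (ε y : ℝ) : ℝ := if ε < y then 1 else 0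

lemma ind_nonneg (ε y : ℝ) : 0 ≤ ind ε y := by
  unfold ind; split_ifs <;> norm_num

lemma ind_le_one (ε y : ℝ) : ind ε y ≤ 1 := by
  unfold ind; split_ifs <;> norm_num

lemma ind_mono (ε : ℝ) {y z : ℝ} (h : y ≤ z) : ind ε y ≤ ind ε z := by
  unfold ind
  split_ifs with h1 h2
  · exact le_rfl
  · exact absurd (h1.trans_le h) h2
  · norm_num
  · exact le_rfl

lemma measurable_ind (ε : ℝ) : Measurable (ind ε) :=
  Measurable.ite measurableSet_Ioi measurable_const measurable_const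

/-- the pathwise inequality -/
lemma cub_sum_le (x : ℕ → ℝ) (θ ε : ℝ) (hε : 0 ≤ ε) (N : ℕ) :
    ∑ k ∈ Finset.range N, cub (θ * (x (k + 1) - x k))
      ≤ |θ| ^ 3 * ε * ∑ k ∈ Finset.range N, (x (k + 1) - x k) ^ 2
        + θ ^ 2 * ∑ k ∈ Finset.range N, ind ε (mx x k) * (x (k + 1) - x k) ^ 2
        + θ ^ 2 * ((mx x N) ^ 2 * ind ε (mx x N)) := by
  induction N with
  | zero =>
    simp only [Finset.range_zero, Finset.sum_empty, mul_zero, add_zero, zero_add, mx]
    have := ind_nonneg ε 0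
    positivity
  | succ N ih =>
    rw [Finset.sum_range_succ, Finset.sum_range_succ, Finset.sum_range_succ]
    set d := x (N + 1) - x N with hd
    have hmx : mx x (N + 1) = max (mx x N) |d| := rfl
    have hθ3 : 0 ≤ |θ| ^ 3 := pow_nonneg (abs_nonneg _) 3
    have hd2 : 0 ≤ d ^ 2 := sq_nonneg d
    have hθ2 : 0 ≤ θ ^ 2 := sq_nonneg θ
    suffices hs : cub (θ * d) ≤ |θ| ^ 3 * ε * d ^ 2 + θ ^ 2 * (ind ε (mx x N) * d ^ 2)
        + θ ^ 2 * ((mx x (N + 1)) ^ 2 * ind ε (mx x (N + 1)) - (mx x N) ^ 2 * ind ε (mx x N)) by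
      linarith
    have h0 : 0 ≤ mx x N := mx_nonneg x N
    have hle : mx x N ≤ mx x (N + 1) := mx_mono x (Nat.le_succ N)
    by_cases h1 : ε < mx x N
    · have h2 : ε < mx x (N + 1) := h1.trans_le hle
      have e1 : ind ε (mx x N) = 1 := if_pos h1
      have e2 : ind ε (mx x (N + 1)) = 1 := if_pos h2
      rw [e1, e2]
      have h3 : cub (θ * d) ≤ θ ^ 2 * d ^ 2 := by
        calc cub (θ * d) ≤ (θ * d) ^ 2 := cub_le_sq _
          _ = θ ^ 2 * d ^ 2 := by ring
      have h4 : (mx x N) ^ 2 ≤ (mx x (N + 1)) ^ 2 := pow_le_pow_left₀ h0 hle 2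
      have h5 : 0 ≤ |θ| ^ 3 * ε * d ^ 2 := by positivity
      nlinarith
    · have e1 : ind ε (mx x N) = 0 := if_neg h1
      rw [e1]
      by_cases h2 : |d| ≤ ε
      · have h3 : mx x (N + 1) ≤ ε := by rw [hmx]; exact max_le (not_lt.1 h1) h2
        have e2 : ind ε (mx x (N + 1)) = 0 := if_neg (not_lt.2 h3)
        rw [e2]
        have h4 : cub (θ * d) ≤ |θ| ^ 3 * ε * d ^ 2 := by
          unfold cub
          calc (θ * d) ^ 2 * min 1 |θ * d| ≤ (θ * d) ^ 2 * |θ * d| :=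
                mul_le_mul_of_nonneg_left (min_le_right _ _) (sq_nonneg _)
            _ = |θ| ^ 3 * |d| * d ^ 2 := by
                rw [abs_mul, mul_pow, ← sq_abs θ]; ring
            _ ≤ |θ| ^ 3 * ε * d ^ 2 := by gcongr
        linarith
      · have h3 : ε < |d| := not_le.1 h2
        have h4 : mx x (N + 1) = |d| := by
          rw [hmx]; exact max_eq_right ((not_lt.1 h1).trans h3.le)
        have e2 : ind ε (mx x (N + 1)) = 1 := by
          rw [h4]; exact if_pos h3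
        rw [e2, h4, sq_abs]
        have h5 : cub (θ * d) ≤ θ ^ 2 * d ^ 2 := by
          calc cub (θ * d) ≤ (θ * d) ^ 2 := cub_le_sq _
            _ = θ ^ 2 * d ^ 2 := by ring
        have h6 : 0 ≤ |θ| ^ 3 * ε * d ^ 2 := by positivity
        linarith

/-- the partition points of `[s, s + r]` -/
noncomputable def pt (s r : ℝ≥0) (N k : ℕ) : ℝ≥0 := s + r * ((k : ℝ≥0) / N)

lemma pt_mono (s r : ℝ≥0) (N : ℕ) : Monotone (pt s r N) := by
  intro a b hab
  have : (a : ℝ≥0) ≤ b := by exact_mod_cast hab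
  unfold pt
  gcongr

lemma pt_zero (s r : ℝ≥0) (N : ℕ) : pt s r N 0 = s := by simp [pt]

lemma pt_self (s r : ℝ≥0) {N : ℕ} (hN : N ≠ 0) : pt s r N N = s + r := by
  unfold pt
  rw [div_self (by exact_mod_cast hN), mul_one]

lemma pt_le (s r : ℝ≥0) {N k : ℕ} (hN : N ≠ 0) (hk : k ≤ N) : pt s r N k ≤ s + r :=
  (pt_mono s r N hk).trans (pt_self s r hN).le

lemma pt_sub (s r : ℝ≥0) {N k : ℕ} (hN : N ≠ 0) :
    ((pt s r N (k + 1) : ℝ≥0) : ℝ) - pt s r N k = r / N := by
  have : (N : ℝ) ≠ 0 := by exact_mod_cast hN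
  unfold pt
  push_cast
  field_simp
  ring

lemma tendsto_mx {f : ℝ≥0 → ℝ} (hf : Continuous f) (s r : ℝ≥0) {ε : ℝ} (hε : 0 < ε) :
    ∀ᶠ N : ℕ in atTop, mx (fun k => f (pt s r N k)) N ≤ ε := by
  have huc : UniformContinuousOn f (Set.Icc 0 (s + r)) :=
    isCompact_Icc.uniformContinuousOn_of_continuous hf.continuousOn
  rw [Metric.uniformContinuousOn_iff] at huc
  obtain ⟨δ, hδ, h⟩ := huc ε hε
  have h1 : ∀ᶠ N : ℕ in atTop, (r : ℝ) / N < δ :=
    (tendsto_const_div_atTop_nhds_zero_nat (r : ℝ)).eventually_lt_const hδ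
  filter_upwards [h1, eventually_ne_atTop 0] with N hN hN0
  refine mx_le hε.le fun k hk => ?_
  have h2 := h (pt s r N (k + 1)) ⟨zero_le, pt_le s r hN0 hk⟩ (pt s r N k)
    ⟨zero_le, pt_le s r hN0 hk.le⟩ ?_
  · rw [Real.dist_eq] at h2
    exact h2.le
  · rw [NNReal.dist_eq, pt_sub s r hN0, abs_of_nonneg (by positivity)]
    exact hN

variable {Ω : Type*} {m0 : MeasurableSpace Ω} {P : Measure Ω}
variable {W : ℝ≥0 → Ω → ℝ} {F : Filtration ℝ≥0 m0}

lemma mx_stronglyMeasurable (hX : ∀ t, StronglyMeasurable[F t] (W t)) {t : ℕ → ℝ≥0}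
    (ht : Monotone t) (k : ℕ) : StronglyMeasurable[F (t k)] (fun ω => mx (fun j => W (t j) ω) k) := by
  induction k with
  | zero => exact stronglyMeasurable_const
  | succ k ih =>
    simp only [mx]
    have hle := F.mono (ht (Nat.le_succ k))
    have h1 := (ih.mono hle).measurable
    have h2 : Measurable[F (t (k + 1))] (fun ω => |W (t (k + 1)) ω - W (t k) ω|) := by
      have h3 : StronglyMeasurable[F (t (k + 1))] (fun ω => W (t (k + 1)) ω - W (t k) ω) :=
        (hX (t (k + 1))).sub ((hX (t k)).mono hle)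
      simpa [Real.norm_eq_abs] using h3.norm.measurable
    exact (Measurable.max h1 h2).stronglyMeasurable

lemma mx_memLp (h2 : ∀ t, MemLp (W t) 2 P) (t : ℕ → ℝ≥0) (k : ℕ) :
    MemLp (fun ω => mx (fun j => W (t j) ω) k) 2 P := by
  induction k with
  | zero => exact MemLp.zero
  | succ k ih =>
    simp only [mx]
    refine MemLp.sup ih ?_
    simpa [Real.norm_eq_abs] using ((h2 (t (k + 1))).sub (h2 (t k))).norm

/-- the expectation of the error terms -/
lemma Bm.err_le [IsProbabilityMeasure P] (h : Bm W F P) (θ : ℝ) (s r : ℝ≥0) {ε : ℝ} (hε : 0 ≤ ε)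
    {N : ℕ} (hN : N ≠ 0) :
    ∑ k ∈ Finset.range N, ∫ ω, cub (θ * (W (pt s r N (k + 1)) ω - W (pt s r N k) ω)) ∂P
      ≤ |θ| ^ 3 * ε * r + θ ^ 2 * (r + 1) *
        ∫ ω, (1 + (mx (fun j => W (pt s r N j) ω) N) ^ 2) * ind ε (mx (fun j => W (pt s r N j) ω) N) ∂P := by
  set t := pt s r N with ht
  have htm : Monotone t := pt_mono s r N
  set M : ℕ → Ω → ℝ := fun k ω => mx (fun j => W (t j) ω) k with hM
  have hMm : ∀ k, StronglyMeasurable[F (t k)] (M k) :=
    fun k => mx_stronglyMeasurable h.mart.stronglyMeasurable htm k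
  have hM2 : ∀ k, MemLp (M k) 2 P := fun k => mx_memLp h.two t k
  have hIm : ∀ k, StronglyMeasurable[F (t k)] (fun ω => ind ε (M k ω)) := fun k =>
    ((measurable_ind ε).comp (hMm k).measurable).stronglyMeasurable
  have hIb : ∀ k ω, |ind ε (M k ω)| ≤ 1 := fun k ω => by
    rw [abs_of_nonneg (ind_nonneg _ _)]; exact ind_le_one _ _
  have hIi : ∀ k, Integrable (fun ω => ind ε (M k ω)) P := fun k =>
    Integrable.of_bound ((hIm k).mono (F.le _)).aestronglyMeasurable 1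
      (Eventually.of_forall fun ω => hIb k ω)
  have hdi : ∀ k, Integrable (fun ω => (W (t (k + 1)) ω - W (t k) ω) ^ 2) P := fun k =>
    ((h.two (t (k + 1))).sub (h.two (t k))).integrable_sq
  have hIdi : ∀ k, Integrable (fun ω => ind ε (M k ω) * (W (t (k + 1)) ω - W (t k) ω) ^ 2) P :=
    fun k => Integrable.bdd_mul (c := 1) (hdi k)
      ((hIm k).mono (F.le _)).aestronglyMeasurable (Eventually.of_forall fun ω => hIb k ω)
  have hG : Integrable (fun ω => (M N ω) ^ 2 * ind ε (M N ω)) P := by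
    refine ((hM2 N).integrable_sq).mono' ?_ (Eventually.of_forall fun ω => ?_)
    · exact ((hM2 N).1.pow 2).mul ((hIm N).mono (F.le _)).aestronglyMeasurable
    · rw [Real.norm_of_nonneg (mul_nonneg (sq_nonneg _) (ind_nonneg _ _))]
      exact mul_le_of_le_one_right (sq_nonneg _) (ind_le_one _ _)
  have hcubi : ∀ k, Integrable (fun ω => cub (θ * (W (t (k + 1)) ω - W (t k) ω))) P := by
    intro k
    refine ((hdi k).const_mul (θ ^ 2)).mono' ?_ (Eventually.of_forall fun ω => ?_)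
    · have hcont : Continuous fun x : ℝ => cub (θ * x) := by
        unfold cub; fun_prop
      exact hcont.comp_aestronglyMeasurable ((h.two (t (k + 1))).sub (h.two (t k))).1
    · rw [Real.norm_of_nonneg (cub_nonneg _)]
      refine (cub_le_sq _).trans (le_of_eq ?_)
      ring
  have hsec1 : ∀ k, ∫ ω, (W (t (k + 1)) ω - W (t k) ω) ^ 2 ∂P = r / N := by
    intro k
    have h1 := h.second (htm (Nat.le_succ k)) (Y := fun _ => (1 : ℝ)) stronglyMeasurable_const
      (C := 1) (fun _ => by simp)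
    simp only [one_mul, integral_const, probReal_univ, smul_eq_mul, mul_one] at h1
    rw [h1, ht, Nat.succ_eq_add_one, pt_sub s r hN]
  have hsec2 : ∀ k, ∫ ω, ind ε (M k ω) * (W (t (k + 1)) ω - W (t k) ω) ^ 2 ∂P
      = r / N * ∫ ω, ind ε (M k ω) ∂P := by
    intro k
    have h1 := h.second (htm (Nat.le_succ k)) (hIm k) (hIb k)
    rw [h1, ht, Nat.succ_eq_add_one, pt_sub s r hN]
  rw [← integral_finsetSum _ fun k _ => hcubi k]
  have hb1 : Integrable (fun ω => |θ| ^ 3 * ε * ∑ k ∈ Finset.range N,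
      (W (t (k + 1)) ω - W (t k) ω) ^ 2) P := (integrable_finsetSum _ fun k _ => hdi k).const_mul _
  have hb2 : Integrable (fun ω => θ ^ 2 * ∑ k ∈ Finset.range N,
      ind ε (M k ω) * (W (t (k + 1)) ω - W (t k) ω) ^ 2) P :=
    (integrable_finsetSum _ fun k _ => hIdi k).const_mul _
  have hb12 : Integrable (fun ω => |θ| ^ 3 * ε * ∑ k ∈ Finset.range N,
      (W (t (k + 1)) ω - W (t k) ω) ^ 2 + θ ^ 2 * ∑ k ∈ Finset.range N,
      ind ε (M k ω) * (W (t (k + 1)) ω - W (t k) ω) ^ 2) P := hb1.add hb2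
  have hb3 : Integrable (fun ω => θ ^ 2 * ((M N ω) ^ 2 * ind ε (M N ω))) P := hG.const_mul _
  have hNr : (N : ℝ) ≠ 0 := by exact_mod_cast hN
  have hII : ∀ k ∈ Finset.range N, ∫ ω, ind ε (M k ω) ∂P ≤ ∫ ω, ind ε (M N ω) ∂P := by
    intro k hk
    refine integral_mono (hIi k) (hIi N) fun ω => ind_mono ε (mx_mono _ ?_)
    exact (Finset.mem_range.1 hk).le
  calc ∫ ω, ∑ k ∈ Finset.range N, cub (θ * (W (t (k + 1)) ω - W (t k) ω)) ∂P
      ≤ ∫ ω, (|θ| ^ 3 * ε * ∑ k ∈ Finset.range N, (W (t (k + 1)) ω - W (t k) ω) ^ 2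
        + θ ^ 2 * ∑ k ∈ Finset.range N, ind ε (M k ω) * (W (t (k + 1)) ω - W (t k) ω) ^ 2
        + θ ^ 2 * ((M N ω) ^ 2 * ind ε (M N ω))) ∂P := by
        refine integral_mono (integrable_finsetSum _ fun k _ => hcubi k) (hb12.add hb3) fun ω => ?_
        exact cub_sum_le (fun j => W (t j) ω) θ ε hε N
    _ = |θ| ^ 3 * ε * (∑ k ∈ Finset.range N, (r : ℝ) / N)
        + θ ^ 2 * (∑ k ∈ Finset.range N, (r : ℝ) / N * ∫ ω, ind ε (M k ω) ∂P)
        + θ ^ 2 * ∫ ω, (M N ω) ^ 2 * ind ε (M N ω) ∂P := by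
        rw [integral_add hb12 hb3, integral_add hb1 hb2, integral_const_mul, integral_const_mul,
          integral_const_mul, integral_finsetSum _ fun k _ => hdi k,
          integral_finsetSum _ fun k _ => hIdi k]
        simp only [hsec1, hsec2]
    _ ≤ |θ| ^ 3 * ε * r + θ ^ 2 * (r * ∫ ω, ind ε (M N ω) ∂P)
        + θ ^ 2 * ∫ ω, (M N ω) ^ 2 * ind ε (M N ω) ∂P := by
        have e1 : ∑ k ∈ Finset.range N, (r : ℝ) / N = r := by
          rw [Finset.sum_const, Finset.card_range, nsmul_eq_mul]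
          field_simp
        have e2 : ∑ k ∈ Finset.range N, (r : ℝ) / N * ∫ ω, ind ε (M k ω) ∂P
            ≤ r * ∫ ω, ind ε (M N ω) ∂P := by
          calc ∑ k ∈ Finset.range N, (r : ℝ) / N * ∫ ω, ind ε (M k ω) ∂P
              ≤ ∑ k ∈ Finset.range N, (r : ℝ) / N * ∫ ω, ind ε (M N ω) ∂P :=
                Finset.sum_le_sum fun k hk =>
                  mul_le_mul_of_nonneg_left (hII k hk) (by positivity)
            _ = r * ∫ ω, ind ε (M N ω) ∂P := by rw [← Finset.sum_mul, e1]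
        rw [e1]
        gcongr
    _ ≤ |θ| ^ 3 * ε * r + θ ^ 2 * (r + 1) * ∫ ω, (1 + (M N ω) ^ 2) * ind ε (M N ω) ∂P := by
        have e3 : ∫ ω, (1 + (M N ω) ^ 2) * ind ε (M N ω) ∂P
            = ∫ ω, ind ε (M N ω) ∂P + ∫ ω, (M N ω) ^ 2 * ind ε (M N ω) ∂P := by
          rw [← integral_add (hIi N) hG]
          refine integral_congr_ae (Eventually.of_forall fun ω => ?_)
          ring
        have p1 : 0 ≤ ∫ ω, ind ε (M N ω) ∂P := integral_nonneg fun ω => ind_nonneg _ _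
        have p2 : 0 ≤ ∫ ω, (M N ω) ^ 2 * ind ε (M N ω) ∂P :=
          integral_nonneg fun ω => mul_nonneg (sq_nonneg _) (ind_nonneg _ _)
        have p3 : 0 ≤ θ ^ 2 * ∫ ω, ind ε (M N ω) ∂P := mul_nonneg (sq_nonneg _) p1
        have p4 : 0 ≤ θ ^ 2 * (r * ∫ ω, (M N ω) ^ 2 * ind ε (M N ω) ∂P) :=
          mul_nonneg (sq_nonneg _) (mul_nonneg r.2 p2)
        rw [e3]
        nlinarith

end H37.Levy
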