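import Mathlib

/-!
# Doob's L^2 maximal inequality (finite sequences of times, any index set)

Part M7d of the SLE identification: Levy's characterisation of Brownian motion.
-/

open MeasureTheory ProbabilityTheory Filter
open scoped ENNReal NNReal Topology

namespace H37.Levy

/-- running maximum of the absolute values -/
noncomputable def rmax (x : ℕ → ℝ) : ℕ → ℝ
  | 0 => |x 0|
  | (k + 1) => max (rmax x k) |x (k + 1)|

/-- a measurable sign, never zero -/
noncomputable def sg (x : ℝ) : ℝ := if 0 ≤ x then 1 else -1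

lemma sg_mul_self (x : ℝ) : sg x * x = |x| := by
  unfold sg
  split_ifs with h
  · rw [abs_of_nonneg h, one_mul]
  · rw [abs_of_neg (not_le.1 h)]; ring

lemma abs_sg (x : ℝ) : |sg x| = 1 := by
  unfold sg
  split_ifs <;> simp

lemma sg_mul_le (x y : ℝ) : sg x * y ≤ |y| := by
  calc sg x * y ≤ |sg x * y| := le_abs_self _
    _ = |y| := by rw [abs_mul, abs_sg, one_mul]

lemma measurable_sg : Measurable sg :=
  Measurable.ite measurableSet_Ici measurable_const measurable_const

lemma rmax_nonneg (x : ℕ → ℝ) (k : ℕ) : 0 ≤ rmax x k := by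
  induction k with
  | zero => exact abs_nonneg _
  | succ k ih => exact le_max_of_le_left ih

lemma le_rmax (x : ℕ → ℝ) {j k : ℕ} (h : j ≤ k) : |x j| ≤ rmax x k := by
  induction k with
  | zero => rw [Nat.le_zero.1 h]; exact le_rfl
  | succ k ih =>
    rcases Nat.lt_or_ge j (k + 1) with h1 | h1
    · exact le_max_of_le_left (ih (Nat.lt_succ_iff.1 h1))
    · rw [le_antisymm h h1]; exact le_max_right _ _

lemma rmax_le {x : ℕ → ℝ} {k : ℕ} {c : ℝ} (h : ∀ j ≤ k, |x j| ≤ c) : rmax x k ≤ c := by
  induction k with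
  | zero => exact h 0 le_rfl
  | succ k ih =>
    exact max_le (ih fun j hj => h j (hj.trans (Nat.le_succ k))) (h (k + 1) le_rfl)

/-- the pathwise inequality behind Doob's L^2 inequality -/
lemma rmax_aux (x : ℕ → ℝ) (N : ℕ) :
    ∑ k ∈ Finset.range N, rmax x k * (|x (k + 1)| - |x k|)
      ≤ rmax x N * |x N| - (rmax x N) ^ 2 / 2 := by
  induction N with
  | zero =>
    simp only [Finset.range_zero, Finset.sum_empty, rmax]
    nlinarith [abs_nonneg (x 0)]
  | succ N ih =>
    rw [Finset.sum_range_succ]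
    have h0 := rmax_nonneg x N
    have hdef : rmax x (N + 1) = max (rmax x N) |x (N + 1)| := rfl
    rcases le_total (rmax x N) |x (N + 1)| with h | h
    · rw [hdef, max_eq_right h]
      nlinarith [sq_nonneg (|x (N + 1)| - rmax x N)]
    · rw [hdef, max_eq_left h]
      nlinarith

lemma rmax_sq_le (x : ℕ → ℝ) (N : ℕ) :
    (rmax x N) ^ 2 ≤ 4 * (x N) ^ 2
      - 4 * ∑ k ∈ Finset.range N, rmax x k * sg (x k) * (x (k + 1) - x k) := by
  have h1 := rmax_aux x N
  have h2 : ∑ k ∈ Finset.range N, rmax x k * sg (x k) * (x (k + 1) - x k)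
      ≤ ∑ k ∈ Finset.range N, rmax x k * (|x (k + 1)| - |x k|) := by
    refine Finset.sum_le_sum fun k _ => ?_
    have h3 : rmax x k * sg (x k) * (x (k + 1) - x k)
        = rmax x k * (sg (x k) * x (k + 1) - sg (x k) * x k) := by ring
    rw [h3, sg_mul_self]
    exact mul_le_mul_of_nonneg_left (sub_le_sub_right (sg_mul_le _ _) _) (rmax_nonneg x k)
  have h4 : (x N) ^ 2 = |x N| ^ 2 := (sq_abs _).symm
  rw [h4]
  nlinarith [sq_nonneg (2 * |x N| - rmax x N)]

variable {Ω : Type*} {m0 : MeasurableSpace Ω} {P : Measure Ω}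

section orth

variable {ι : Type*} [Preorder ι] {F : Filtration ι m0} {X : ι → Ω → ℝ}

/-- increments of a martingale are orthogonal to the past (integrable product) -/
lemma orth [IsFiniteMeasure P] (hX : Martingale X F P) {s t : ι} (hst : s ≤ t) {Y : Ω → ℝ}
    (hY : StronglyMeasurable[F s] Y) (hint : Integrable (fun ω => Y ω * (X t ω - X s ω)) P) :
    ∫ ω, Y ω * (X t ω - X s ω) ∂P = 0 := by
  have h1 : P[(fun ω => Y ω * (X t ω - X s ω)) | F s] =ᵐ[P] Y * P[(X t - X s) | F s] :=
    condExp_mul_of_stronglyMeasurable_left hY hint ((hX.integrable t).sub (hX.integrable s))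
  have h2 : P[(X t - X s) | F s] =ᵐ[P] 0 := by
    refine (condExp_sub (hX.integrable t) (hX.integrable s) (F s)).trans ?_
    have h3 := hX.condExp_ae_eq hst
    have h4 : P[X s | F s] = X s :=
      condExp_of_stronglyMeasurable (F.le s) (hX.stronglyMeasurable s) (hX.integrable s)
    rw [h4]
    filter_upwards [h3] with ω hω
    simp [hω]
  rw [← integral_condExp (F.le s), integral_congr_ae (h1.trans (EventuallyEq.rfl.mul h2))]
  simp

/-- the L^2 version -/
lemma orth_L2 [IsFiniteMeasure P] (hX : Martingale X F P) (h2 : ∀ t, MemLp (X t) 2 P)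
    {s t : ι} (hst : s ≤ t) {Y : Ω → ℝ} (hY : StronglyMeasurable[F s] Y) (hY2 : MemLp Y 2 P) :
    ∫ ω, Y ω * (X t ω - X s ω) ∂P = 0 :=
  orth hX hst hY (MemLp.integrable_mul hY2 ((h2 t).sub (h2 s)))

end orth

section doob

variable {ι : Type*} [Preorder ι] {F : Filtration ι m0} {X : ι → Ω → ℝ}

lemma rmax_stronglyMeasurable (hX : ∀ t, StronglyMeasurable[F t] (X t)) {t : ℕ → ι}
    (ht : Monotone t) (k : ℕ) : StronglyMeasurable[F (t k)] (fun ω => rmax (fun j => X (t j) ω) k) := by
  induction k with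
  | zero =>
    simp only [rmax]
    simpa [Real.norm_eq_abs] using (hX (t 0)).norm
  | succ k ih =>
    simp only [rmax]
    have h1 := (ih.mono (F.mono (ht (Nat.le_succ k)))).measurable
    have h2 : Measurable[F (t (k + 1))] (fun ω => |X (t (k + 1)) ω|) := by
      simpa [Real.norm_eq_abs] using (hX (t (k + 1))).norm.measurable
    exact (Measurable.max h1 h2).stronglyMeasurable

omit [Preorder ι] in
lemma rmax_memLp (h2 : ∀ t, MemLp (X t) 2 P) (t : ℕ → ι) (k : ℕ) :
    MemLp (fun ω => rmax (fun j => X (t j) ω) k) 2 P := by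
  induction k with
  | zero =>
    simp only [rmax]
    simpa [Real.norm_eq_abs] using (h2 (t 0)).norm
  | succ k ih =>
    simp only [rmax]
    refine MemLp.sup ih ?_
    simpa [Real.norm_eq_abs] using (h2 (t (k + 1))).norm

/-- **Doob's L^2 inequality** for a finite increasing sequence of times. -/
theorem doob_L2 [IsFiniteMeasure P] (hX : Martingale X F P) (h2 : ∀ t, MemLp (X t) 2 P)
    {t : ℕ → ι} (ht : Monotone t) (N : ℕ) :
    ∫ ω, (rmax (fun j => X (t j) ω) N) ^ 2 ∂P ≤ 4 * ∫ ω, (X (t N) ω) ^ 2 ∂P := by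
  have hY2 : ∀ k, MemLp (fun ω => rmax (fun j => X (t j) ω) k * sg (X (t k) ω)) 2 P := by
    intro k
    refine MemLp.of_le (rmax_memLp h2 t k) ?_ ?_
    · exact (rmax_memLp h2 t k).1.mul
        ((measurable_sg.comp_aemeasurable (h2 (t k)).1.aemeasurable).aestronglyMeasurable)
    · refine Eventually.of_forall fun ω => ?_
      rw [norm_mul, Real.norm_eq_abs (sg _), abs_sg, mul_one]
  have hYm : ∀ k, StronglyMeasurable[F (t k)]
      (fun ω => rmax (fun j => X (t j) ω) k * sg (X (t k) ω)) := by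
    intro k
    refine StronglyMeasurable.mul (rmax_stronglyMeasurable hX.stronglyMeasurable ht k) ?_
    exact (measurable_sg.comp (hX.stronglyMeasurable (t k)).measurable).stronglyMeasurable
  have horth : ∀ k, ∫ ω, rmax (fun j => X (t j) ω) k * sg (X (t k) ω)
      * (X (t (k + 1)) ω - X (t k) ω) ∂P = 0 := fun k =>
    orth_L2 hX h2 (ht (Nat.le_succ k)) (hYm k) (hY2 k)
  have hint : ∀ k, Integrable (fun ω => rmax (fun j => X (t j) ω) k * sg (X (t k) ω)
      * (X (t (k + 1)) ω - X (t k) ω)) P := fun k =>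
    MemLp.integrable_mul (hY2 k) ((h2 (t (k + 1))).sub (h2 (t k)))
  have hsq : ∀ u, Integrable (fun ω => (X u ω) ^ 2) P := fun u => (h2 u).integrable_sq
  calc ∫ ω, (rmax (fun j => X (t j) ω) N) ^ 2 ∂P
      ≤ ∫ ω, (4 * (X (t N) ω) ^ 2 - 4 * ∑ k ∈ Finset.range N,
          rmax (fun j => X (t j) ω) k * sg (X (t k) ω) * (X (t (k + 1)) ω - X (t k) ω)) ∂P := by
        refine integral_mono ((rmax_memLp h2 t N).integrable_sq) ?_ fun ω => ?_
        · exact ((hsq (t N)).const_mul 4).sub
            ((integrable_finsetSum _ fun k _ => hint k).const_mul 4)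
        · exact rmax_sq_le (fun j => X (t j) ω) N
    _ = 4 * ∫ ω, (X (t N) ω) ^ 2 ∂P := by
        rw [integral_sub ((hsq (t N)).const_mul 4)
            ((integrable_finsetSum _ fun k _ => hint k).const_mul 4),
          integral_const_mul, integral_const_mul, integral_finsetSum _ fun k _ => hint k]
        simp only [horth, Finset.sum_const_zero, mul_zero, sub_zero]

end doob

end H37.Levy
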