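import Pool.Agent.H37.Levy.TestForm

/-!
# Expansion of the one-point observable at infinity (M7c, analytic part)

`N_t(y) = (g_t'(y) / (g_t(y) - W_t))^{1/3}`. If `g_t(y) = y + 2 t / y + O(y^-2)` and
`g_t'(y) = 1 - 2 t / y^2 + O(y^-3)` then
`y^{1/3} N_t(y) = 1 + (W_t / 3) / y + ((2/9) W_t^2 - (4/3) t) / y^2 + O(y^-3)`.
-/

open MeasureTheory ProbabilityTheory Filter
open scoped ENNReal NNReal Topology

namespace H37.Levy

/-- cube root -/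
lemma cube_root_bound {z r : ℝ} (hz : |z| ≤ 1 / 2) (hr : 0 ≤ r) (h : r ^ 3 = 1 + z) :
    |r - (1 + z / 3 - z ^ 2 / 9)| ≤ |z| ^ 3 := by
  obtain ⟨h1, h2⟩ := abs_le.1 hz
  set p := 1 + z / 3 - z ^ 2 / 9 with hp
  have hp0 : 1 / 2 ≤ p := by rw [hp]; nlinarith
  have hr3 : 1 / 2 ≤ r ^ 3 := by rw [h]; linarith
  have hr2 : 1 / 2 ≤ r := by
    by_contra h'
    push Not at h'
    have : r ^ 3 < 1 / 2 := by nlinarith [sq_nonneg r, mul_nonneg hr hr]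
    linarith
  have hrp : r ^ 3 - p ^ 3 = (r - p) * (r ^ 2 + r * p + p ^ 2) := by ring
  have hq : 3 / 4 ≤ r ^ 2 + r * p + p ^ 2 := by nlinarith
  have hrem2 : r ^ 3 - p ^ 3 = z ^ 3 * (5 / 27 - z ^ 2 / 81 + z ^ 3 / 729) := by
    rw [h, hp]; ring
  have hb : |5 / 27 - z ^ 2 / 81 + z ^ 3 / 729| ≤ 3 / 4 := by
    rw [abs_le]
    have hz2 : z ^ 2 ≤ 1 / 4 := by nlinarith
    have hz3 : |z ^ 3| ≤ 1 / 8 := by
      rw [abs_pow]
      calc |z| ^ 3 ≤ (1 / 2) ^ 3 := pow_le_pow_left₀ (abs_nonneg _) hz 3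
        _ = 1 / 8 := by norm_num
    obtain ⟨h3, h4⟩ := abs_le.1 hz3
    constructor <;> nlinarith [sq_nonneg z]
  have h5 : |r - p| * (3 / 4) ≤ |z| ^ 3 * (3 / 4) := by
    calc |r - p| * (3 / 4) ≤ |r - p| * |r ^ 2 + r * p + p ^ 2| :=
          mul_le_mul_of_nonneg_left (hq.trans (le_abs_self _)) (abs_nonneg _)
      _ = |r ^ 3 - p ^ 3| := by rw [← abs_mul, ← hrp]
      _ = |z| ^ 3 * |5 / 27 - z ^ 2 / 81 + z ^ 3 / 729| := by rw [hrem2, abs_mul, abs_pow]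
      _ ≤ |z| ^ 3 * (3 / 4) := mul_le_mul_of_nonneg_left hb (pow_nonneg (abs_nonneg _) 3)
  linarith

/-- the ratio: `w = 1/y`, `Gd = g'`, `d = (g - W) / y` -/
lemma ratio_bound {K w W u Gd d : ℝ} (hK : 1 ≤ K) (hw : 0 < w) (hwK : w * (100 * K ^ 3) ≤ 1)
    (hW : |W| ≤ K) (hu : 0 ≤ u) (huK : u ≤ K) (hG : |d - (1 - W * w + 2 * u * w ^ 2)| ≤ K * w ^ 3)
    (hGd : |Gd - (1 - 2 * u * w ^ 2)| ≤ K * w ^ 3) :
    1 / 2 ≤ d ∧ |Gd / d - 1 - (W * w + (W ^ 2 - 4 * u) * w ^ 2)| ≤ 40 * K ^ 3 * w ^ 3 := by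
  have hK2 : K ≤ K ^ 2 := le_self_pow₀ hK (by norm_num)
  have hK3 : K ^ 2 ≤ K ^ 3 := pow_le_pow_right₀ hK (by norm_num)
  have hK0 : 0 < K := by linarith
  have hK13 : 1 ≤ K ^ 3 := one_le_pow₀ hK
  have w1 : w * 100 ≤ 1 := by
    have : w * 100 ≤ w * (100 * K ^ 3) :=
      mul_le_mul_of_nonneg_left (by linarith) hw.le
    linarith
  have wK : w * K ≤ 1 / 100 := by
    have : w * K ≤ w * K ^ 3 := mul_le_mul_of_nonneg_left (hK2.trans hK3) hw.le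
    linarith
  have wK2 : w * K ^ 2 ≤ 1 / 100 := by
    have : w * K ^ 2 ≤ w * K ^ 3 := mul_le_mul_of_nonneg_left hK3 hw.le
    linarith
  set e1 := d - (1 - W * w + 2 * u * w ^ 2) with he1
  set e2 := Gd - (1 - 2 * u * w ^ 2) with he2
  have hd : d = 1 - W * w + 2 * u * w ^ 2 + e1 := by rw [he1]; ring
  have hGde : Gd = 1 - 2 * u * w ^ 2 + e2 := by rw [he2]; ring
  obtain ⟨a1, a2⟩ := abs_le.1 hG
  have hWw : |W * w| ≤ 1 / 100 := by
    rw [abs_mul, abs_of_pos hw]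
    calc |W| * w ≤ K * w := mul_le_mul_of_nonneg_right hW hw.le
      _ ≤ 1 / 100 := by linarith
  obtain ⟨b1, b2⟩ := abs_le.1 hWw
  have hKw3 : K * w ^ 3 ≤ 1 / 100 := by
    have : K * w ^ 3 = (w * K) * w ^ 2 := by ring
    rw [this]
    have : w ^ 2 ≤ 1 := pow_le_one₀ hw.le (by linarith)
    calc (w * K) * w ^ 2 ≤ (1 / 100) * 1 := mul_le_mul wK this (sq_nonneg _) (by norm_num)
      _ = 1 / 100 := by norm_num
  have huw : 0 ≤ 2 * u * w ^ 2 := by positivity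
  have hd2 : 1 / 2 ≤ d := by rw [hd]; linarith
  refine ⟨hd2, ?_⟩
  have hd0 : d ≠ 0 := by linarith
  set num := e2 - e1 - 2 * u * W * w ^ 3 - W * w * e1
    + (W ^ 2 - 4 * u) * w ^ 3 * (W - 2 * u * w) - (W ^ 2 - 4 * u) * w ^ 2 * e1 with hnum
  have heq : Gd / d - 1 - (W * w + (W ^ 2 - 4 * u) * w ^ 2) = num / d := by
    rw [eq_div_iff hd0, hnum]
    have : (Gd / d - 1 - (W * w + (W ^ 2 - 4 * u) * w ^ 2)) * d
        = Gd - d - (W * w + (W ^ 2 - 4 * u) * w ^ 2) * d := by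
      field_simp
    rw [this, hGde]
    nth_rewrite 1 [hd]
    nth_rewrite 1 [hd]
    ring
  rw [heq, abs_div, div_le_iff₀ (by linarith [abs_of_pos (by linarith : 0 < d)] : 0 < |d|)]
  have hdabs : 1 / 2 ≤ |d| := hd2.trans (le_abs_self _)
  have w30 : 0 ≤ w ^ 3 := by positivity
  have hW2 : |W ^ 2 - 4 * u| ≤ 5 * K ^ 2 := by
    rw [abs_le]
    have h7 : W ^ 2 ≤ K ^ 2 := by rw [← sq_abs W]; exact pow_le_pow_left₀ (abs_nonneg _) hW 2
    have h8 := sq_nonneg W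
    constructor <;> linarith
  have n1 : |e2| ≤ K ^ 3 * w ^ 3 := hGd.trans (mul_le_mul_of_nonneg_right (hK2.trans hK3) w30)
  have n2 : |e1| ≤ K ^ 3 * w ^ 3 := hG.trans (mul_le_mul_of_nonneg_right (hK2.trans hK3) w30)
  have n3 : |2 * u * W * w ^ 3| ≤ 2 * K ^ 3 * w ^ 3 := by
    rw [abs_mul, abs_mul, abs_of_nonneg (by linarith : (0 : ℝ) ≤ 2 * u), abs_of_nonneg w30]
    apply mul_le_mul_of_nonneg_right _ w30
    calc 2 * u * |W| ≤ 2 * K * K := by gcongr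
      _ = 2 * K ^ 2 := by ring
      _ ≤ 2 * K ^ 3 := by linarith
  have n4 : |W * w * e1| ≤ K ^ 3 * w ^ 3 := by
    rw [abs_mul]
    calc |W * w| * |e1| ≤ 1 * (K ^ 3 * w ^ 3) :=
          mul_le_mul (by linarith) n2 (abs_nonneg _) (by norm_num)
      _ = K ^ 3 * w ^ 3 := one_mul _
  have n5 : |(W ^ 2 - 4 * u) * w ^ 3 * (W - 2 * u * w)| ≤ 10 * K ^ 3 * w ^ 3 := by
    rw [abs_mul, abs_mul, abs_of_nonneg w30]
    have h7 : |W - 2 * u * w| ≤ 2 * K := by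
      have h8 : 2 * u * w ≤ K := by
        have : u * w ≤ K * (1 / 100) := mul_le_mul huK (by linarith) hw.le hK0.le
        linarith
      have h9 : 0 ≤ 2 * u * w := by positivity
      obtain ⟨W1, W2⟩ := abs_le.1 hW
      rw [abs_le]; constructor <;> linarith
    calc |W ^ 2 - 4 * u| * w ^ 3 * |W - 2 * u * w| ≤ 5 * K ^ 2 * w ^ 3 * (2 * K) := by gcongr
      _ = 10 * K ^ 3 * w ^ 3 := by ring
  have n6 : |(W ^ 2 - 4 * u) * w ^ 2 * e1| ≤ K ^ 3 * w ^ 3 := by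
    rw [abs_mul, abs_mul, abs_of_nonneg (sq_nonneg w)]
    have h7 : |W ^ 2 - 4 * u| * w ^ 2 ≤ 1 := by
      calc |W ^ 2 - 4 * u| * w ^ 2 ≤ 5 * K ^ 2 * w ^ 2 :=
            mul_le_mul_of_nonneg_right hW2 (sq_nonneg _)
        _ = 5 * (w * K ^ 2) * w := by ring
        _ ≤ 5 * (1 / 100) * 1 := by
            have h8 : 0 ≤ w * K ^ 2 := by positivity
            have h9 : w ≤ 1 := by linarith
            gcongr
        _ ≤ 1 := by norm_num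
    calc |W ^ 2 - 4 * u| * w ^ 2 * |e1| ≤ 1 * (K ^ 3 * w ^ 3) :=
          mul_le_mul h7 n2 (abs_nonneg _) (by norm_num)
      _ = K ^ 3 * w ^ 3 := one_mul _
  have htot : |num| ≤ 16 * K ^ 3 * w ^ 3 := by
    rw [hnum]
    calc |e2 - e1 - 2 * u * W * w ^ 3 - W * w * e1
          + (W ^ 2 - 4 * u) * w ^ 3 * (W - 2 * u * w) - (W ^ 2 - 4 * u) * w ^ 2 * e1|
        ≤ |e2| + |e1| + |2 * u * W * w ^ 3| + |W * w * e1|
          + |(W ^ 2 - 4 * u) * w ^ 3 * (W - 2 * u * w)| + |(W ^ 2 - 4 * u) * w ^ 2 * e1| := by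
          refine (abs_sub _ _).trans (add_le_add ((abs_add_le _ _).trans (add_le_add ?_ le_rfl)) le_rfl)
          refine (abs_sub _ _).trans (add_le_add ?_ le_rfl)
          refine (abs_sub _ _).trans (add_le_add ?_ le_rfl)
          exact abs_sub _ _
      _ ≤ 16 * K ^ 3 * w ^ 3 := by linarith
  have hKw : 0 ≤ K ^ 3 * w ^ 3 := by positivity
  calc |num| ≤ 16 * K ^ 3 * w ^ 3 := htot
    _ ≤ 40 * K ^ 3 * w ^ 3 * (1 / 2) := by linarith
    _ ≤ 40 * K ^ 3 * w ^ 3 * |d| := mul_le_mul_of_nonneg_left hdabs (by positivity)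

/-- **expansion of the observable**: `r = y^{1/3} N(y)` -/
theorem expand {K y W u G Gd r : ℝ} (hK : 1 ≤ K) (hy : 100 * K ^ 3 ≤ y)
    (hW : |W| ≤ K) (hu : 0 ≤ u) (huK : u ≤ K)
    (hG : |G - (y + 2 * u / y)| ≤ K / y ^ 2)
    (hGd : |Gd - (1 - 2 * u / y ^ 2)| ≤ K / y ^ 3)
    (hr : 0 ≤ r) (hr3 : r ^ 3 = y * Gd / (G - W)) :
    |r - (1 + (W / 3) / y + ((2 / 9) * W ^ 2 - (4 / 3) * u) / y ^ 2)| ≤ 100 * K ^ 3 / y ^ 3 := by
  have hK0 : 0 < K := by linarith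
  have hK1 : 1 ≤ K ^ 3 := one_le_pow₀ hK
  have hy0 : 0 < y := by linarith
  set w := y⁻¹ with hw
  have hw0 : 0 < w := inv_pos.2 hy0
  have hwK : w * (100 * K ^ 3) ≤ 1 := by
    rw [hw, inv_mul_le_iff₀ hy0]; linarith
  set d := (G - W) * w with hd
  have hG' : |d - (1 - W * w + 2 * u * w ^ 2)| ≤ K * w ^ 3 := by
    have e1 : d - (1 - W * w + 2 * u * w ^ 2) = (G - (y + 2 * u / y)) * w := by
      rw [hd, hw]; field_simp; ring
    rw [e1, abs_mul, abs_of_pos hw0]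
    calc |G - (y + 2 * u / y)| * w ≤ K / y ^ 2 * w := mul_le_mul_of_nonneg_right hG hw0.le
      _ = K * w ^ 3 := by rw [hw]; field_simp
  have hGd' : |Gd - (1 - 2 * u * w ^ 2)| ≤ K * w ^ 3 := by
    have e1 : 2 * u * w ^ 2 = 2 * u / y ^ 2 := by rw [hw]; field_simp
    have e2 : K * w ^ 3 = K / y ^ 3 := by rw [hw]; field_simp
    rw [e1, e2]; exact hGd
  obtain ⟨hd2, hrat⟩ := ratio_bound hK hw0 hwK hW hu huK hG' hGd'
  set z := Gd / d - 1 with hz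
  have hr3' : r ^ 3 = 1 + z := by
    rw [hr3, hz, hd, hw]
    have hGW : G - W ≠ 0 := by
      intro h0
      rw [hd, h0, zero_mul] at hd2
      linarith
    field_simp
    ring
  have wK : w * K ≤ 1 / 100 := by
    have h1 : w * K ≤ w * K ^ 3 :=
      mul_le_mul_of_nonneg_left (le_self_pow₀ hK (by norm_num)) hw0.le
    linarith
  have w1 : w ≤ 1 / 100 := by
    have : w * 1 ≤ w * K := mul_le_mul_of_nonneg_left hK hw0.le
    linarith
  set z0 := W * w + (W ^ 2 - 4 * u) * w ^ 2 with hz0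
  have hW2 : |W ^ 2 - 4 * u| ≤ 5 * K ^ 2 := by
    rw [abs_le]
    have hK2 : K ≤ K ^ 2 := le_self_pow₀ hK (by norm_num)
    have h7 : W ^ 2 ≤ K ^ 2 := by rw [← sq_abs W]; exact pow_le_pow_left₀ (abs_nonneg _) hW 2
    have h8 := sq_nonneg W
    constructor <;> linarith
  have hWw : |W * w| ≤ K * w := by
    rw [abs_mul, abs_of_pos hw0]
    exact mul_le_mul_of_nonneg_right hW hw0.le
  have hW2w : |(W ^ 2 - 4 * u) * w ^ 2| ≤ 5 * (K * w) ^ 2 := by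
    rw [abs_mul, abs_of_nonneg (sq_nonneg w)]
    calc |W ^ 2 - 4 * u| * w ^ 2 ≤ 5 * K ^ 2 * w ^ 2 := mul_le_mul_of_nonneg_right hW2 (sq_nonneg _)
      _ = 5 * (K * w) ^ 2 := by ring
  have hKw : 0 < K * w := by positivity
  have hKw1 : K * w ≤ 1 / 100 := by linarith
  have hz0b : |z0| ≤ 2 * (K * w) := by
    rw [hz0]
    refine (abs_add_le _ _).trans ?_
    have h7 : (K * w) ^ 2 ≤ (1 / 100) * (K * w) := by
      rw [sq]; exact mul_le_mul_of_nonneg_right hKw1 hKw.le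
    linarith
  have hKw3 : K ^ 3 * w ^ 3 = (K * w) ^ 3 := by ring
  have hzb : |z| ≤ 3 * (K * w) := by
    have h1 : |z| ≤ |z - z0| + |z0| := by
      have := abs_add_le (z - z0) z0
      rwa [sub_add_cancel] at this
    have h2 : |z - z0| ≤ 40 * (K * w) ^ 3 := by
      rw [← hKw3, ← mul_assoc]; exact hrat
    have h3 : 40 * (K * w) ^ 3 ≤ K * w := by
      have h7 : (K * w) ^ 2 ≤ (1 / 100) ^ 2 := pow_le_pow_left₀ hKw.le hKw1 2
      calc 40 * (K * w) ^ 3 = 40 * ((K * w) ^ 2) * (K * w) := by ring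
        _ ≤ 40 * ((1 / 100) ^ 2) * (K * w) := by gcongr
        _ ≤ K * w := by linarith
    linarith
  have hz12 : |z| ≤ 1 / 2 := by linarith
  have hcr := cube_root_bound hz12 hr hr3'
  -- compare
  have hsplit : r - (1 + (W / 3) / y + ((2 / 9) * W ^ 2 - (4 / 3) * u) / y ^ 2)
      = (r - (1 + z / 3 - z ^ 2 / 9)) + (z - z0) / 3
        - (1 / 9) * ((z - z0) * (z + z0))
        - (1 / 9) * (2 * (W * w) * ((W ^ 2 - 4 * u) * w ^ 2) + ((W ^ 2 - 4 * u) * w ^ 2) ^ 2) := by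
    have e1 : (W / 3) / y = W * w / 3 := by rw [hw]; field_simp
    have e2 : ((2 / 9) * W ^ 2 - (4 / 3) * u) / y ^ 2
        = ((2 / 9) * W ^ 2 - (4 / 3) * u) * w ^ 2 := by rw [hw]; field_simp
    rw [e1, e2, hz0]
    ring
  rw [hsplit]
  have t1 : |r - (1 + z / 3 - z ^ 2 / 9)| ≤ 27 * (K * w) ^ 3 := by
    refine hcr.trans ?_
    calc |z| ^ 3 ≤ (3 * (K * w)) ^ 3 := pow_le_pow_left₀ (abs_nonneg _) hzb 3
      _ = 27 * (K * w) ^ 3 := by ring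
  have t0 : |z - z0| ≤ 40 * (K * w) ^ 3 := by
    rw [← hKw3, ← mul_assoc]; exact hrat
  have t2 : |(z - z0) / 3| ≤ (40 / 3) * (K * w) ^ 3 := by
    rw [abs_div, abs_of_pos (by norm_num : (0 : ℝ) < 3)]
    linarith
  have t3 : |(1 / 9) * ((z - z0) * (z + z0))| ≤ (K * w) ^ 3 := by
    rw [abs_mul, abs_mul, abs_of_pos (by norm_num : (0 : ℝ) < 1 / 9)]
    have h1 : |z + z0| ≤ 5 * (K * w) := (abs_add_le _ _).trans (by linarith)
    have h2 : |z - z0| * |z + z0| ≤ 40 * (K * w) ^ 3 * (5 * (K * w)) :=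
      mul_le_mul t0 h1 (abs_nonneg _) (by positivity)
    have h3 : 40 * (K * w) ^ 3 * (5 * (K * w)) ≤ 40 * (K * w) ^ 3 * (5 * (1 / 100)) := by
      gcongr
    have h4 : 0 ≤ (K * w) ^ 3 := by positivity
    linarith
  have t4 : |(1 / 9) * (2 * (W * w) * ((W ^ 2 - 4 * u) * w ^ 2)
      + ((W ^ 2 - 4 * u) * w ^ 2) ^ 2)| ≤ 5 * (K * w) ^ 3 := by
    rw [abs_mul, abs_of_pos (by norm_num : (0 : ℝ) < 1 / 9)]
    have h1 : |2 * (W * w) * ((W ^ 2 - 4 * u) * w ^ 2)| ≤ 10 * (K * w) ^ 3 := by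
      rw [abs_mul, abs_mul, abs_of_pos (by norm_num : (0 : ℝ) < 2)]
      calc 2 * |W * w| * |(W ^ 2 - 4 * u) * w ^ 2| ≤ 2 * (K * w) * (5 * (K * w) ^ 2) := by gcongr
        _ = 10 * (K * w) ^ 3 := by ring
    have h2 : |((W ^ 2 - 4 * u) * w ^ 2) ^ 2| ≤ 25 * (K * w) ^ 4 := by
      rw [abs_pow]
      calc |(W ^ 2 - 4 * u) * w ^ 2| ^ 2 ≤ (5 * (K * w) ^ 2) ^ 2 :=
            pow_le_pow_left₀ (abs_nonneg _) hW2w 2
        _ = 25 * (K * w) ^ 4 := by ring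
    have h3 : (K * w) ^ 4 ≤ (1 / 100) * (K * w) ^ 3 := by
      have : 0 ≤ (K * w) ^ 3 := by positivity
      calc (K * w) ^ 4 = (K * w) * (K * w) ^ 3 := by ring
        _ ≤ (1 / 100) * (K * w) ^ 3 := mul_le_mul_of_nonneg_right hKw1 this
    have h4 := abs_add_le (2 * (W * w) * ((W ^ 2 - 4 * u) * w ^ 2)) (((W ^ 2 - 4 * u) * w ^ 2) ^ 2)
    have h5 : 0 ≤ (K * w) ^ 3 := by positivity
    linarith
  have hfin : 100 * K ^ 3 / y ^ 3 = 100 * (K * w) ^ 3 := by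
    rw [hw]; field_simp
  rw [hfin]
  have h5 : 0 ≤ (K * w) ^ 3 := by positivity
  calc _ ≤ |r - (1 + z / 3 - z ^ 2 / 9)| + |(z - z0) / 3| + |(1 / 9) * ((z - z0) * (z + z0))|
        + |(1 / 9) * (2 * (W * w) * ((W ^ 2 - 4 * u) * w ^ 2)
          + ((W ^ 2 - 4 * u) * w ^ 2) ^ 2)| := by
        refine (abs_sub _ _).trans (add_le_add ?_ le_rfl)
        refine (abs_sub _ _).trans (add_le_add ?_ le_rfl)
        exact abs_add_le _ _
    _ ≤ 100 * (K * w) ^ 3 := by linarith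

end H37.Levy
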