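import Mathlib

/-!
# Piecewise linear interpolation of a process on a time grid
-/

open MeasureTheory ProbabilityTheory Filter
open scoped ENNReal NNReal Topology

namespace H37.Levy

/-- clamp to the unit interval -/
noncomputable def clamp (x : ℝ) : ℝ := max 0 (min 1 x)

lemma clamp_one {x : ℝ} (h : 1 ≤ x) : clamp x = 1 := by
  unfold clamp
  rw [min_eq_left h]
  exact max_eq_right zero_le_one

lemma clamp_zero {x : ℝ} (h : x ≤ 0) : clamp x = 0 := by
  unfold clamp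
  rw [min_eq_right (h.trans zero_le_one)]
  exact max_eq_left h

lemma clamp_mid {x : ℝ} (h0 : 0 ≤ x) (h1 : x ≤ 1) : clamp x = x := by
  unfold clamp
  rw [min_eq_right h1, max_eq_right h0]

@[fun_prop]
lemma continuous_clamp : Continuous clamp := by unfold clamp; fun_prop

variable {E : Type*} [NormedAddCommGroup E] [NormedSpace ℝ E]

/-- piecewise linear interpolation of the values `v k` at the times `k / N`, `k ≤ K` -/
noncomputable def lin (N K : ℕ) (v : ℕ → E) : C(ℝ≥0, E) where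
  toFun s := v 0 + ∑ k ∈ Finset.range K, clamp ((N : ℝ) * s - k) • (v (k + 1) - v k)
  continuous_toFun := by fun_prop

lemma lin_apply (N K : ℕ) (v : ℕ → E) (s : ℝ≥0) :
    lin N K v s = v 0 + ∑ k ∈ Finset.range K, clamp ((N : ℝ) * s - k) • (v (k + 1) - v k) := rfl

lemma continuous_lin (N K : ℕ) : Continuous (lin N K : (ℕ → E) → C(ℝ≥0, E)) := by
  refine ContinuousMap.continuous_of_continuous_uncurry _ ?_
  unfold Function.uncurry
  simp only [lin_apply]
  fun_prop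

lemma lin_eval {N K : ℕ} (v : ℕ → E) {s : ℝ≥0} (hK : ⌊(N : ℝ) * s⌋₊ < K) :
    lin N K v s = v ⌊(N : ℝ) * s⌋₊
      + ((N : ℝ) * s - ⌊(N : ℝ) * s⌋₊) • (v (⌊(N : ℝ) * s⌋₊ + 1) - v ⌊(N : ℝ) * s⌋₊) := by
  set k0 := ⌊(N : ℝ) * s⌋₊ with hk0
  have h0 : 0 ≤ (N : ℝ) * s := by positivity
  have h1 : (k0 : ℝ) ≤ (N : ℝ) * s := Nat.floor_le h0
  have h2 : (N : ℝ) * s < k0 + 1 := Nat.lt_floor_add_one _
  rw [lin_apply]
  have h3 : ∑ k ∈ Finset.range K, clamp ((N : ℝ) * s - k) • (v (k + 1) - v k)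
      = ∑ k ∈ Finset.range (k0 + 1), clamp ((N : ℝ) * s - k) • (v (k + 1) - v k) := by
    symm
    refine Finset.sum_subset ?_ ?_
    · intro k hk
      rw [Finset.mem_range] at hk ⊢
      omega
    · intro k _ hk
      rw [Finset.mem_range, not_lt] at hk
      have h4 : ((k0 + 1 : ℕ) : ℝ) ≤ k := by exact_mod_cast hk
      push_cast at h4
      rw [clamp_zero (by linarith), zero_smul]
  rw [h3, Finset.sum_range_succ, clamp_mid (by linarith) (by linarith)]
  have h4 : ∑ k ∈ Finset.range k0, clamp ((N : ℝ) * s - k) • (v (k + 1) - v k)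
      = ∑ k ∈ Finset.range k0, (v (k + 1) - v k) := by
    refine Finset.sum_congr rfl fun k hk => ?_
    have h5 : k + 1 ≤ k0 := Finset.mem_range.1 hk
    have h6 : ((k + 1 : ℕ) : ℝ) ≤ k0 := by exact_mod_cast h5
    push_cast at h6
    rw [clamp_one (by linarith), one_smul]
  rw [h4, Finset.sum_range_sub]
  abel

lemma lin_near {N K : ℕ} (v : ℕ → E) {s : ℝ≥0} (hK : ⌊(N : ℝ) * s⌋₊ < K) :
    ‖lin N K v s - v ⌊(N : ℝ) * s⌋₊‖ ≤ ‖v (⌊(N : ℝ) * s⌋₊ + 1) - v ⌊(N : ℝ) * s⌋₊‖ := by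
  rw [lin_eval v hK, add_sub_cancel_left, norm_smul]
  have h0 : 0 ≤ (N : ℝ) * s := by positivity
  have h1 : (⌊(N : ℝ) * s⌋₊ : ℝ) ≤ (N : ℝ) * s := Nat.floor_le h0
  have h2 : (N : ℝ) * s < ⌊(N : ℝ) * s⌋₊ + 1 := Nat.lt_floor_add_one _
  rw [Real.norm_of_nonneg (by linarith)]
  exact mul_le_of_le_one_left (norm_nonneg _) (by linarith)

/-- the path oscillates by `r` on the scale `η` before the time `T` -/
def Osc (T η r : ℝ) (g : ℝ → E) : Prop :=
  ∃ u u', 0 ≤ u ∧ u ≤ u' ∧ u' ≤ T ∧ u' ≤ u + η ∧ r ≤ ‖g u' - g u‖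

omit [NormedSpace ℝ E] in
lemma Osc.mono {T T' η η' r r' : ℝ} {g : ℝ → E} (hT : T ≤ T') (hη : η ≤ η') (hr : r' ≤ r)
    (h : Osc T η r g) : Osc T' η' r' g := by
  obtain ⟨u, u', h1, h2, h3, h4, h5⟩ := h
  exact ⟨u, u', h1, h2, h3.trans hT, by linarith, hr.trans h5⟩

/-- the interpolation is close to the process unless the process oscillates -/
lemma lin_close {N K : ℕ} (hN : 0 < N) {g : ℝ → E} {T η r : ℝ} (hη : 1 / (N : ℝ) ≤ η)
    (hg : ¬ Osc (T + 1 / N) η r g) (hK : (N : ℝ) * T < K) {s : ℝ≥0} (hs : (s : ℝ) ≤ T) :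
    ‖lin N K (fun k => g (k / N)) s - g s‖ < 2 * r := by
  have hN' : (0 : ℝ) < N := by exact_mod_cast hN
  set k0 := ⌊(N : ℝ) * s⌋₊ with hk0
  have h0 : 0 ≤ (N : ℝ) * s := by positivity
  have h1 : (k0 : ℝ) ≤ (N : ℝ) * s := Nat.floor_le h0
  have h2 : (N : ℝ) * s < k0 + 1 := Nat.lt_floor_add_one _
  have hkK : k0 < K := by
    have h3 : (k0 : ℝ) < K := by
      calc (k0 : ℝ) ≤ (N : ℝ) * s := h1
        _ ≤ (N : ℝ) * T := mul_le_mul_of_nonneg_left hs hN'.le
        _ < K := hK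
    exact_mod_cast h3
  have hnear := lin_near (fun k : ℕ => g (k / N)) hkK
  rw [← hk0] at hnear
  have e1 : (k0 : ℝ) / N ≤ s := by rw [div_le_iff₀ hN']; linarith
  have e2 : (s : ℝ) ≤ k0 / N + 1 / N := by
    rw [← add_div, le_div_iff₀ hN']; linarith
  have e0 : (0 : ℝ) ≤ k0 / N := by positivity
  have e3 : ((k0 + 1 : ℕ) : ℝ) / N = k0 / N + 1 / N := by push_cast; ring
  have hN1 : 0 < 1 / (N : ℝ) := by positivity
  have a1 : ‖g (((k0 + 1 : ℕ) : ℝ) / N) - g (k0 / N)‖ < r := by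
    by_contra h'
    refine hg ⟨k0 / N, ((k0 + 1 : ℕ) : ℝ) / N, e0, ?_, ?_, ?_, not_lt.1 h'⟩
    · rw [e3]; linarith
    · rw [e3]; linarith
    · rw [e3]; linarith
  have a2 : ‖g s - g (k0 / N)‖ < r := by
    by_contra h'
    refine hg ⟨k0 / N, s, e0, e1, by linarith, by linarith, not_lt.1 h'⟩
  have a3 : lin N K (fun k => g (k / N)) s - g s
      = (lin N K (fun k => g (k / N)) s - g (k0 / N)) - (g s - g (k0 / N)) := by abel
  rw [a3]
  have a4 := norm_sub_le (lin N K (fun k => g (k / N)) s - g (k0 / N)) (g s - g (k0 / N))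
  linarith

/-- modulus of continuity of the interpolation -/
lemma lin_modulus {N K : ℕ} (hN : 0 < N) {g : ℝ → E} {T η r : ℝ} (hη : 1 / (N : ℝ) ≤ η)
    (hg : ¬ Osc (T + 1 / N) η r g) (hK : (N : ℝ) * T < K) {s s' : ℝ≥0} (hs : (s : ℝ) ≤ T)
    (hs' : (s' : ℝ) ≤ T) (hd : dist s s' ≤ η) :
    dist (lin N K (fun k => g (k / N)) s) (lin N K (fun k => g (k / N)) s') < 5 * r := by
  have hN' : (0 : ℝ) < N := by exact_mod_cast hN
  have hN1 : 0 < 1 / (N : ℝ) := by positivity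
  have h1 := lin_close hN hη hg hK hs
  have h2 := lin_close hN hη hg hK hs'
  have h3 : ‖g s - g s'‖ < r := by
    rw [NNReal.dist_eq] at hd
    have hd' := abs_le.1 hd
    rcases le_total (s : ℝ) s' with h4 | h4
    · rw [norm_sub_rev]
      by_contra h'
      exact hg ⟨s, s', s.2, h4, by linarith, by linarith [hd'.1], not_lt.1 h'⟩
    · by_contra h'
      exact hg ⟨s', s, s'.2, h4, by linarith, by linarith [hd'.2], not_lt.1 h'⟩
  rw [dist_eq_norm]
  have h4 : lin N K (fun k => g (k / N)) s - lin N K (fun k => g (k / N)) s'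
      = (lin N K (fun k => g (k / N)) s - g s) + (g s - g s')
        - (lin N K (fun k => g (k / N)) s' - g s') := by abel
  rw [h4]
  have h5 := norm_sub_le ((lin N K (fun k => g (k / N)) s - g s) + (g s - g s'))
    (lin N K (fun k => g (k / N)) s' - g s')
  have h6 := norm_add_le (lin N K (fun k => g (k / N)) s - g s) (g s - g s')
  linarith

end H37.Levy
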