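import Pool.Agent.H37.Levy.Char2

/-!
# Levy's characterisation of Brownian motion
-/

open MeasureTheory ProbabilityTheory Filter
open scoped ENNReal NNReal Topology

namespace H37.Levy

variable {Ω : Type*} {m0 : MeasurableSpace Ω} {P : Measure Ω}
variable {W : ℝ≥0 → Ω → ℝ} {F : Filtration ℝ≥0 m0}

lemma Bm.aem [IsProbabilityMeasure P] (h : Bm W F P) (s t : ℝ≥0) :
    AEMeasurable (fun ω => W t ω - W s ω) P := ((h.two t).sub (h.two s)).1.aemeasurable

lemma Bm.charFun_incr [IsProbabilityMeasure P] (h : Bm W F P) (θ : ℝ) (s r : ℝ≥0) :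
    charFun (P.map (fun ω => W (s + r) ω - W s ω)) θ = Complex.exp (-(θ ^ 2 * r / 2)) := by
  rw [charFun_apply_real, integral_map (h.aem s (s + r)) (by fun_prop)]
  have h1 := h.char θ s r (Z := fun _ => (1 : ℂ)) stronglyMeasurable_const (fun _ => by simp)
  simp only [one_mul, integral_const, probReal_univ, one_smul, mul_one] at h1
  rw [← h1]
  congr 1
  funext ω
  congr 1
  push_cast
  ring

lemma Bm.map_incr [IsProbabilityMeasure P] (h : Bm W F P) (s r : ℝ≥0) :
    P.map (fun ω => W (s + r) ω - W s ω) = gaussianReal 0 r := by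
  have : IsProbabilityMeasure (P.map (fun ω => W (s + r) ω - W s ω)) :=
    Measure.isProbabilityMeasure_map (h.aem s (s + r))
  refine Measure.ext_of_charFun ?_
  funext θ
  rw [h.charFun_incr, charFun_gaussianReal]
  congr 1
  push_cast
  ring

/-- increments are independent of the past -/
theorem Bm.indep_past [IsProbabilityMeasure P] (h : Bm W F P) (s r : ℝ≥0) {A : Set Ω}
    (hA : MeasurableSet[F s] A) {B : Set ℝ} (hB : MeasurableSet B) :
    P (A ∩ (fun ω => W (s + r) ω - W s ω) ⁻¹' B)
      = P A * P ((fun ω => W (s + r) ω - W s ω) ⁻¹' B) := by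
  have hA0 : MeasurableSet A := F.le s A hA
  have haem := h.aem s (s + r)
  have heq : (P.restrict A).map (fun ω => W (s + r) ω - W s ω)
      = (P A) • P.map (fun ω => W (s + r) ω - W s ω) := by
    have i1 : IsFiniteMeasure ((P.restrict A).map (fun ω => W (s + r) ω - W s ω)) := by
      infer_instance
    have i2 : IsFiniteMeasure ((P A) • P.map (fun ω => W (s + r) ω - W s ω)) :=
      Measure.smul_finite _ (measure_ne_top P A)
    refine Measure.ext_of_charFun ?_
    funext θ
    have h1 := h.char θ s r (Z := A.indicator fun _ => (1 : ℂ))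
      (stronglyMeasurable_const.indicator hA) (fun ω => by
        by_cases hω : ω ∈ A <;> simp [hω])
    rw [charFun_apply_real, integral_map haem.restrict (by fun_prop)]
    have h2 : (∫ ω, (A.indicator (fun _ => (1 : ℂ)) ω)
        * Complex.exp (Complex.I * ((θ * (W (s + r) ω - W s ω) : ℝ) : ℂ)) ∂P)
        = ∫ ω in A, Complex.exp ((θ : ℂ) * ((W (s + r) ω - W s ω : ℝ) : ℂ) * Complex.I) ∂P := by
      rw [← integral_indicator hA0]
      congr 1
      funext ω
      by_cases hω : ω ∈ A
      · rw [Set.indicator_of_mem hω, Set.indicator_of_mem hω, one_mul]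
        congr 1
        push_cast
        ring
      · rw [Set.indicator_of_notMem hω, Set.indicator_of_notMem hω, zero_mul]
    rw [← h2, h1, integral_indicator hA0]
    simp only [integral_const, measureReal_restrict_apply MeasurableSet.univ, Set.univ_inter]
    rw [charFun_apply_real, integral_smul_measure, ← charFun_apply_real, h.charFun_incr]
    rw [Measure.real, mul_comm]
    simp
  have h3 := congrArg (fun μ => μ B) heq
  simp only [Measure.smul_apply, smul_eq_mul] at h3
  rw [Measure.map_apply_of_aemeasurable haem.restrict hB,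
    Measure.map_apply_of_aemeasurable haem hB, Measure.restrict_apply₀'] at h3
  · rw [Set.inter_comm]; exact h3
  · exact hA0.nullMeasurableSet

/-- the joint characteristic function of the increments -/
lemma Bm.char_joint [IsProbabilityMeasure P] (h : Bm W F P) {t : ℕ → ℝ≥0} (ht : Monotone t)
    (θ : ℕ → ℝ) (n : ℕ) :
    ∫ ω, Complex.exp (Complex.I *
        ((∑ k ∈ Finset.range n, θ k * (W (t (k + 1)) ω - W (t k) ω) : ℝ) : ℂ)) ∂P
      = ∏ k ∈ Finset.range n,
        charFun (P.map (fun ω => W (t (k + 1)) ω - W (t k) ω)) (θ k) := by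
  induction n with
  | zero => simp
  | succ n ih =>
    rw [Finset.prod_range_succ, ← ih]
    obtain ⟨r, hr⟩ : ∃ r, t (n + 1) = t n + r := exists_add_of_le (ht (Nat.le_succ n))
    rw [hr, h.charFun_incr]
    have hm : StronglyMeasurable[F (t n)] fun ω => Complex.exp (Complex.I *
        ((∑ k ∈ Finset.range n, θ k * (W (t (k + 1)) ω - W (t k) ω) : ℝ) : ℂ)) := by
      have h1 : StronglyMeasurable[F (t n)] fun ω =>
          ∑ k ∈ Finset.range n, θ k * (W (t (k + 1)) ω - W (t k) ω) := by
        refine Finset.stronglyMeasurable_fun_sum _ fun k hk => ?_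
        have hk1 : k + 1 ≤ n := Finset.mem_range.1 hk
        exact (((h.mart.stronglyMeasurable _).mono (F.mono (ht hk1))).sub
          ((h.mart.stronglyMeasurable _).mono (F.mono (ht ((Nat.le_succ k).trans hk1))))).const_mul _
      have hcont : Continuous fun x : ℝ => Complex.exp (Complex.I * ((x : ℝ) : ℂ)) := by fun_prop
      exact hcont.comp_stronglyMeasurable h1
    have h1 := h.char (θ n) (t n) r hm (fun ω => by
      rw [mul_comm Complex.I, Complex.norm_exp_ofReal_mul_I])
    rw [mul_comm, ← h1]
    congr 1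
    funext ω
    rw [← Complex.exp_add, Finset.sum_range_succ, hr]
    congr 1
    push_cast
    ring

theorem Bm.hasIndepIncrements [IsProbabilityMeasure P] (h : Bm W F P) :
    HasIndepIncrements W P := by
  intro n t ht
  have haem : ∀ i : Fin n, AEMeasurable (fun ω => W (t i.succ) ω - W (t i.castSucc) ω) P :=
    fun i => h.aem _ _
  rw [iIndepFun_iff_charFun_pi haem]
  intro θ
  set t' : ℕ → ℝ≥0 := fun k => t ⟨min n k, by omega⟩ with ht'
  have htm : Monotone t' := fun a b hab => ht (by
    rw [Fin.mk_le_mk]; omega)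
  have e1 : ∀ i : Fin n, t i.succ = t' (i + 1) := fun i => by
    rw [ht']; congr 1; ext; simp
  have e2 : ∀ i : Fin n, t i.castSucc = t' i := fun i => by
    rw [ht']; congr 1; ext; simp
  set θ' : ℕ → ℝ := fun k => if hk : k < n then θ ⟨k, hk⟩ else 0 with hθ'
  have e3 : ∀ i : Fin n, θ i = θ' i := fun i => by
    rw [hθ']; simp
  have h1 := h.char_joint htm θ' n
  rw [← Fin.prod_univ_eq_prod_range
    (fun k => charFun (P.map (fun ω => W (t' (k + 1)) ω - W (t' k) ω)) (θ' k)) n] at h1
  rw [charFun_apply, integral_map (by fun_prop) (by fun_prop)]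
  simp only [e1, e2]
  have e4 : (∏ i : Fin n, charFun (P.map (fun ω => W (t' (i + 1)) ω - W (t' i) ω)) (θ i))
      = ∏ i : Fin n, charFun (P.map (fun ω => W (t' (i + 1)) ω - W (t' i) ω)) (θ' i) := by
    refine Finset.prod_congr rfl fun i _ => ?_
    rw [e3]
  rw [e4, ← h1]
  congr 1
  funext ω
  congr 1
  rw [mul_comm]
  congr 2
  rw [← Fin.sum_univ_eq_sum_range (fun k => θ' k * (W (t' (k + 1)) ω - W (t' k) ω)) n]
  rw [PiLp.inner_apply]
  refine Finset.sum_congr rfl fun i _ => ?_
  rw [← e3]
  simp

/-- **Levy's characterisation of Brownian motion** (L^2 martingales). -/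
theorem Bm.isBrownianReal [IsProbabilityMeasure P] (h : Bm W F P) : IsBrownianReal W P where
  toIsPreBrownianReal := by
    refine HasIndepIncrements.isPreBrownianReal_of_hasLaw (fun t => ?_) h.hasIndepIncrements
    refine ⟨(h.two t).1.aemeasurable, ?_⟩
    rw [← h.map_incr 0 t, zero_add]
    refine Measure.map_congr ?_
    filter_upwards [h.zero] with ω hω
    rw [hω, sub_zero]
  cont := h.cont

end H37.Levy
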