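import Pool.Agent.H37.Levy.Levy

/-!
# Levy's characterisation for local martingales

`W` continuous, adapted; `T n` nonnegative random times (in the applications: bounded stopping
times) tending to infinity; the stopped processes `W^{T n}` and `(W^{T n})^2 - c (t ∧ T n)` are
martingales. Then `W / √c` is a Brownian motion.
-/

open MeasureTheory ProbabilityTheory Filter
open scoped ENNReal NNReal Topology

namespace H37.Levy

variable {Ω : Type*} {m0 : MeasurableSpace Ω} {P : Measure Ω}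
variable {W : ℝ≥0 → Ω → ℝ} {F : Filtration ℝ≥0 m0}

/-- from set integrals to the martingale property -/
lemma martingale_of_setIntegral [IsFiniteMeasure P] {M : ℝ≥0 → Ω → ℝ}
    (hm : ∀ t, StronglyMeasurable[F t] (M t)) (hi : ∀ t, Integrable (M t) P)
    (h : ∀ s t, s ≤ t → ∀ A, MeasurableSet[F s] A → ∫ ω in A, M t ω ∂P = ∫ ω in A, M s ω ∂P) :
    Martingale M F P := by
  refine ⟨hm, fun s t hst => ?_⟩
  exact (ae_eq_condExp_of_forall_setIntegral_eq (F.le s) (hi t)
    (fun A _ _ => (hi s).integrableOn) (fun A hA _ => (h s t hst A hA).symm)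
    (hm s).aestronglyMeasurable).symm

/-- limits of dominated martingales are martingales -/
lemma martingale_of_tendsto [IsFiniteMeasure P] {M : ℝ≥0 → Ω → ℝ} {Mn : ℕ → ℝ≥0 → Ω → ℝ}
    {G : ℝ≥0 → Ω → ℝ} (hm : ∀ t, StronglyMeasurable[F t] (M t))
    (hmart : ∀ n, Martingale (Mn n) F P) (hG : ∀ t, Integrable (G t) P)
    (hdom : ∀ n t, ∀ᵐ ω ∂P, |Mn n t ω| ≤ G t ω)
    (hlim : ∀ t, ∀ᵐ ω ∂P, Tendsto (fun n => Mn n t ω) atTop (𝓝 (M t ω))) :
    Martingale M F P := by
  have hi : ∀ t, Integrable (M t) P := by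
    intro t
    refine (hG t).mono' ((hm t).mono (F.le t)).aestronglyMeasurable ?_
    filter_upwards [hlim t, ae_all_iff.2 fun n => hdom n t] with ω h1 h2
    exact le_of_tendsto h1.norm (Eventually.of_forall fun n => h2 n)
  refine martingale_of_setIntegral hm hi fun s t hst A hA => ?_
  have h1 : ∀ u, Tendsto (fun n => ∫ ω in A, Mn n u ω ∂P) atTop (𝓝 (∫ ω in A, M u ω ∂P)) := by
    intro u
    refine tendsto_integral_of_dominated_convergence (G u)
      (fun n => (((hmart n).integrable u).restrict).1) ((hG u).restrict) (fun n => ?_) ?_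
    · exact ae_restrict_of_ae (hdom n u)
    · exact ae_restrict_of_ae (hlim u)
  refine tendsto_nhds_unique (h1 t) ((h1 s).congr fun n => ?_)
  exact (hmart n).setIntegral_eq hst hA

/-- the standing assumptions, local version -/
structure LocBm (W : ℝ≥0 → Ω → ℝ) (T : ℕ → Ω → ℝ≥0) (F : Filtration ℝ≥0 m0)
    (P : Measure Ω) : Prop where
  adapted : ∀ t, StronglyMeasurable[F t] (W t)
  mart : ∀ n, Martingale (fun t ω => W (min t (T n ω)) ω) F P
  quad : ∀ n, Martingale (fun t ω => (W (min t (T n ω)) ω) ^ 2 - ((min t (T n ω) : ℝ≥0) : ℝ)) F P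
  infty : ∀ᵐ ω ∂P, ∀ t : ℝ≥0, ∀ᶠ n in atTop, t ≤ T n ω
  measT : ∀ n, AEMeasurable (T n) P
  cont : ∀ᵐ ω ∂P, Continuous fun u => W u ω
  zero : ∀ᵐ ω ∂P, W 0 ω = 0

lemma LocBm.memLp [IsProbabilityMeasure P] {T : ℕ → Ω → ℝ≥0} (h : LocBm W T F P) (n : ℕ)
    (t : ℝ≥0) : MemLp (fun ω => W (min t (T n ω)) ω) 2 P := by
  rw [memLp_two_iff_integrable_sq ((h.mart n).integrable t).1]
  have h1 : Integrable (fun ω => ((min t (T n ω) : ℝ≥0) : ℝ)) P := by
    refine Integrable.of_bound ?_ (t : ℝ) (Eventually.of_forall fun ω => ?_)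
    · exact ((aemeasurable_const.min (h.measT n)).coe_nnreal_real).aestronglyMeasurable
    · rw [Real.norm_of_nonneg (NNReal.coe_nonneg _)]
      exact_mod_cast min_le_left _ _
  have h2 := ((h.quad n).integrable t).add h1
  refine h2.congr (Eventually.of_forall fun ω => ?_)
  simp

lemma LocBm.sq_le [IsProbabilityMeasure P] {T : ℕ → Ω → ℝ≥0} (h : LocBm W T F P) (n : ℕ)
    (t : ℝ≥0) : ∫ ω, (W (min t (T n ω)) ω) ^ 2 ∂P ≤ t := by
  have h1 : Integrable (fun ω => ((min t (T n ω) : ℝ≥0) : ℝ)) P := by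
    refine Integrable.of_bound ?_ (t : ℝ) (Eventually.of_forall fun ω => ?_)
    · exact ((aemeasurable_const.min (h.measT n)).coe_nnreal_real).aestronglyMeasurable
    · rw [Real.norm_of_nonneg (NNReal.coe_nonneg _)]
      exact_mod_cast min_le_left _ _
  have h2 := (h.quad n).setIntegral_eq (zero_le : (0 : ℝ≥0) ≤ t) MeasurableSet.univ
  rw [setIntegral_univ, setIntegral_univ] at h2
  have h3 : ∫ ω, ((W (min 0 (T n ω)) ω) ^ 2 - ((min 0 (T n ω) : ℝ≥0) : ℝ)) ∂P = 0 := by
    rw [← integral_zero Ω ℝ (μ := P)]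
    refine integral_congr_ae ?_
    filter_upwards [h.zero] with ω hω
    simp [hω]
  rw [h3, integral_sub (h.memLp n t).integrable_sq h1] at h2
  have h5 : ∫ ω, (W (min t (T n ω)) ω) ^ 2 ∂P = ∫ ω, ((min t (T n ω) : ℝ≥0) : ℝ) ∂P := by
    linarith
  rw [h5]
  calc ∫ ω, ((min t (T n ω) : ℝ≥0) : ℝ) ∂P ≤ ∫ _ω, (t : ℝ) ∂P := by
        refine integral_mono h1 (integrable_const _) fun ω => ?_
        exact_mod_cast min_le_left _ _
    _ = t := by simp

lemma continuous_stop {f : ℝ≥0 → ℝ} (hf : Continuous f) (c : ℝ≥0) :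
    Continuous fun u => f (min u c) := hf.comp (continuous_id.min continuous_const)

/-- the supremum of `W` over `[0, t]` is in L^2 -/
lemma LocBm.sup0_memLp [IsProbabilityMeasure P] {T : ℕ → Ω → ℝ≥0} (h : LocBm W T F P)
    (t : ℝ≥0) : MemLp (fun ω => sup0 (fun u => W u ω) t) 2 P := by
  have h1 : ∀ n, MemLp (fun ω => sup0 (fun u => W (min u (T n ω)) ω) t) 2 P ∧
      ∫ ω, (sup0 (fun u => W (min u (T n ω)) ω) t) ^ 2 ∂P ≤
        4 * ∫ ω, (W (min t (T n ω)) ω) ^ 2 ∂P := fun n => by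
    refine sup0_L2 (h.mart n) (h.memLp n) ?_ t
    filter_upwards [h.cont] with ω hω
    exact continuous_stop hω _
  refine (fatou_sq (C := 4 * t) (fun n => (h1 n).1) (fun n => ?_) ?_).1
  · exact (h1 n).2.trans (by have := h.sq_le n t; linarith)
  · filter_upwards [h.infty] with ω hω
    refine tendsto_const_nhds.congr' ?_
    filter_upwards [hω t] with n hn
    unfold sup0
    congr 1
    refine Set.image_congr fun u hu => ?_
    show |W u ω| = |W (min u (T n ω)) ω|
    rw [min_eq_left (hu.2.trans hn)]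

/-- **local martingales**: the process satisfies the assumptions of Levy's theorem -/
theorem LocBm.bm [IsProbabilityMeasure P] {T : ℕ → Ω → ℝ≥0} (h : LocBm W T F P) : Bm W F P where
  two t := by
    refine (h.sup0_memLp t).mono' ((h.adapted t).mono (F.le t)).aestronglyMeasurable ?_
    filter_upwards [h.cont] with ω hω
    exact le_sup0 hω le_rfl
  cont := h.cont
  zero := h.zero
  mart := by
    refine martingale_of_tendsto (G := fun t ω => sup0 (fun u => W u ω) t) h.adapted h.mart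
      (fun t => (h.sup0_memLp t).integrable (by norm_num)) (fun n t => ?_) (fun t => ?_)
    · filter_upwards [h.cont] with ω hω
      exact le_sup0 hω (min_le_left _ _)
    · filter_upwards [h.infty] with ω hω
      refine tendsto_const_nhds.congr' ?_
      filter_upwards [hω t] with n hn
      rw [min_eq_left hn]
  quad := by
    refine martingale_of_tendsto (G := fun t ω => (sup0 (fun u => W u ω) t) ^ 2 + t)
      (fun t => ((h.adapted t).pow 2).sub stronglyMeasurable_const) h.quad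
      (fun t => (h.sup0_memLp t).integrable_sq.add (integrable_const _)) (fun n t => ?_)
      (fun t => ?_)
    · filter_upwards [h.cont] with ω hω
      have h1 : |W (min t (T n ω)) ω| ≤ sup0 (fun u => W u ω) t := le_sup0 hω (min_le_left _ _)
      have h2 : (W (min t (T n ω)) ω) ^ 2 ≤ (sup0 (fun u => W u ω) t) ^ 2 := by
        rw [← sq_abs (W _ ω)]
        exact pow_le_pow_left₀ (abs_nonneg _) h1 2
      have h3 : ((min t (T n ω) : ℝ≥0) : ℝ) ≤ t := by exact_mod_cast min_le_left _ _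
      have h4 : 0 ≤ ((min t (T n ω) : ℝ≥0) : ℝ) := NNReal.coe_nonneg _
      have h5 : 0 ≤ (W (min t (T n ω)) ω) ^ 2 := sq_nonneg _
      have h6 : 0 ≤ (t : ℝ) := t.2
      rw [abs_le]
      constructor <;> nlinarith [sq_nonneg (sup0 (fun u => W u ω) t)]
    · filter_upwards [h.infty] with ω hω
      refine tendsto_const_nhds.congr' ?_
      filter_upwards [hω t] with n hn
      rw [min_eq_left hn]

/-- scaling: a process with quadratic variation `c t` -/
theorem isBrownianReal_of_scaled [IsProbabilityMeasure P] {T : ℕ → Ω → ℝ≥0} {c : ℝ} (hc : 0 < c)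
    (adapted : ∀ t, StronglyMeasurable[F t] (W t))
    (mart : ∀ n, Martingale (fun t ω => W (min t (T n ω)) ω) F P)
    (quad : ∀ n, Martingale
      (fun t ω => (W (min t (T n ω)) ω) ^ 2 - c * ((min t (T n ω) : ℝ≥0) : ℝ)) F P)
    (infty : ∀ᵐ ω ∂P, ∀ t : ℝ≥0, ∀ᶠ n in atTop, t ≤ T n ω)
    (measT : ∀ n, AEMeasurable (T n) P)
    (cont : ∀ᵐ ω ∂P, Continuous fun u => W u ω)
    (zero : ∀ᵐ ω ∂P, W 0 ω = 0) :
    Bm (fun t ω => (√c)⁻¹ * W t ω) F P := by
  refine LocBm.bm (T := T) ⟨fun t => (adapted t).const_mul _, fun n => ?_, fun n => ?_, infty,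
    measT, ?_, ?_⟩
  · exact (mart n).smul (√c)⁻¹
  · have h1 := (quad n).smul c⁻¹
    have h2 : c⁻¹ • (fun t ω => (W (min t (T n ω)) ω) ^ 2 - c * ((min t (T n ω) : ℝ≥0) : ℝ))
        = fun t ω => ((√c)⁻¹ * W (min t (T n ω)) ω) ^ 2 - ((min t (T n ω) : ℝ≥0) : ℝ) := by
      funext t ω
      simp only [Pi.smul_apply, smul_eq_mul]
      rw [mul_sub, mul_pow, inv_pow, Real.sq_sqrt hc.le, ← mul_assoc, inv_mul_cancel₀ hc.ne',
        one_mul]
    rw [h2] at h1
    exact h1
  · filter_upwards [cont] with ω hω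
    exact continuous_const.mul hω
  · filter_upwards [zero] with ω hω
    rw [hω, mul_zero]

end H37.Levy
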