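import Pool.Agent.H37.Levy.Expand

/-!
# From the one-point observable to the driving Brownian motion (M7c, analytic part)

If the observables `N_t(y_k) = (g_t'(y_k) / (g_t(y_k) - W_t))^{1/3}`, `y_k → ∞`, stopped at `T n`,
are martingales, and `W, t` are bounded up to `T n`, then `W / √6` is a Brownian motion.
Time is half-plane capacity, `g_t(y) = y + 2 t / y + O(y^-2)`.
-/

open MeasureTheory ProbabilityTheory Filter
open scoped ENNReal NNReal Topology

namespace H37.Levy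

variable {Ω : Type*} {m0 : MeasurableSpace Ω} {P : Measure Ω} {F : Filtration ℝ≥0 m0}

/-- real sequences: `|a / y + b / y^2| ≤ C / y^3` along `y → ∞` forces `a = b = 0` -/
lemma eq_zero_of_expansion {y : ℕ → ℝ} (hy : Tendsto y atTop atTop) {a b C : ℝ}
    (h : ∀ᶠ k in atTop, |a / y k + b / (y k) ^ 2| ≤ C / (y k) ^ 3) : a = 0 ∧ b = 0 := by
  have hinv : Tendsto (fun k => (y k)⁻¹) atTop (𝓝 0) := tendsto_inv_atTop_zero.comp hy
  have ha : a = 0 := by
    have h1 : Tendsto (fun k => |a + b * (y k)⁻¹|) atTop (𝓝 |a + b * 0|) :=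
      (tendsto_const_nhds.add (hinv.const_mul b)).abs
    have h2 : Tendsto (fun k => C * (y k)⁻¹ ^ 2) atTop (𝓝 (C * 0 ^ 2)) := (hinv.pow 2).const_mul C
    have h3 : |a + b * 0| ≤ C * 0 ^ 2 := by
      refine le_of_tendsto_of_tendsto h1 h2 ?_
      filter_upwards [h, hy.eventually_gt_atTop 0] with k hk hk0
      have e1 : |a + b * (y k)⁻¹| = |a / y k + b / (y k) ^ 2| * y k := by
        rw [← abs_of_pos hk0, ← abs_mul, abs_of_pos hk0]
        congr 1
        field_simp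
      rw [e1]
      calc |a / y k + b / (y k) ^ 2| * y k ≤ C / (y k) ^ 3 * y k :=
            mul_le_mul_of_nonneg_right hk hk0.le
        _ = C * (y k)⁻¹ ^ 2 := by field_simp
    have : |a| ≤ 0 := by simpa using h3
    exact abs_nonpos_iff.1 this
  refine ⟨ha, ?_⟩
  have h2 : Tendsto (fun k => C * (y k)⁻¹) atTop (𝓝 (C * 0)) := hinv.const_mul C
  have h3 : |b| ≤ C * 0 := by
    refine le_of_tendsto_of_tendsto tendsto_const_nhds h2 ?_
    filter_upwards [h, hy.eventually_gt_atTop 0] with k hk hk0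
    have e1 : |b| = |a / y k + b / (y k) ^ 2| * (y k) ^ 2 := by
      rw [ha, ← abs_of_pos (pow_pos hk0 2), ← abs_mul, abs_of_pos (pow_pos hk0 2)]
      congr 1
      field_simp
      ring
    rw [e1]
    calc |a / y k + b / (y k) ^ 2| * (y k) ^ 2 ≤ C / (y k) ^ 3 * (y k) ^ 2 :=
          mul_le_mul_of_nonneg_right hk (sq_nonneg _)
      _ = C * (y k)⁻¹ := by field_simp
  have : |b| ≤ 0 := by simpa using h3
  exact abs_nonpos_iff.1 this

/-- **martingales from expansions** -/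
theorem mart_of_expansion [IsFiniteMeasure P] {A B : ℝ≥0 → Ω → ℝ}
    (hA : ∀ t, StronglyMeasurable[F t] (A t)) (hB : ∀ t, StronglyMeasurable[F t] (B t))
    (iA : ∀ t, Integrable (A t) P) (iB : ∀ t, Integrable (B t) P)
    {M : ℕ → ℝ≥0 → Ω → ℝ} {y : ℕ → ℝ} (hy : Tendsto y atTop atTop)
    (hM : ∀ k, Martingale (M k) F P) {C : ℝ≥0 → ℝ}
    (h : ∀ t, ∀ᶠ k in atTop, ∀ᵐ ω ∂P,
      |M k t ω - (1 + A t ω / y k + B t ω / (y k) ^ 2)| ≤ C t / (y k) ^ 3) :
    Martingale A F P ∧ Martingale B F P := by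
  have key : ∀ s t, s ≤ t → ∀ S, MeasurableSet[F s] S →
      (∫ ω in S, (A t ω - A s ω) ∂P) = 0 ∧ (∫ ω in S, (B t ω - B s ω) ∂P) = 0 := by
    intro s t hst S hS
    refine eq_zero_of_expansion hy (C := (C t + C s) * P.real S) ?_
    filter_upwards [h t, h s] with k hkt hks
    have iM : ∀ u, Integrable (fun ω => M k u ω) (P.restrict S) :=
      fun u => ((hM k).integrable u).restrict
    have iE : ∀ u, Integrable (fun ω => M k u ω - (1 + A u ω / y k + B u ω / (y k) ^ 2))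
        (P.restrict S) := fun u =>
      (iM u).sub (((integrable_const 1).add ((iA u).restrict.div_const _)).add
        ((iB u).restrict.div_const _))
    have hMS : ∫ ω in S, M k t ω ∂P = ∫ ω in S, M k s ω ∂P :=
      ((hM k).setIntegral_eq hst hS).symm
    have hbound : ∀ u, (∀ᵐ ω ∂P, |M k u ω - (1 + A u ω / y k + B u ω / (y k) ^ 2)| ≤
        C u / (y k) ^ 3) →
        |∫ ω in S, (M k u ω - (1 + A u ω / y k + B u ω / (y k) ^ 2)) ∂P| ≤
          C u / (y k) ^ 3 * P.real S := by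
      intro u hu
      have := norm_setIntegral_le_of_norm_le_const_ae (μ := P) (s := S)
        (f := fun ω => M k u ω - (1 + A u ω / y k + B u ω / (y k) ^ 2)) (C := C u / (y k) ^ 3)
        (measure_lt_top P S) (by
          filter_upwards [ae_restrict_of_ae hu] with ω hω
          exact hω)
      exact this
    have e1 : (∫ ω in S, (A t ω - A s ω) ∂P) / y k + (∫ ω in S, (B t ω - B s ω) ∂P) / (y k) ^ 2
        = (∫ ω in S, (M k s ω - (1 + A s ω / y k + B s ω / (y k) ^ 2)) ∂P)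
          - ∫ ω in S, (M k t ω - (1 + A t ω / y k + B t ω / (y k) ^ 2)) ∂P := by
      have f1 : ∀ u, ∫ ω in S, (M k u ω - (1 + A u ω / y k + B u ω / (y k) ^ 2)) ∂P
          = (∫ ω in S, M k u ω ∂P) - (P.real S + (∫ ω in S, A u ω ∂P) / y k
            + (∫ ω in S, B u ω ∂P) / (y k) ^ 2) := by
        intro u
        have g1 : Integrable (fun ω => A u ω / y k) (P.restrict S) := (iA u).restrict.div_const _
        have g2 : Integrable (fun ω => B u ω / (y k) ^ 2) (P.restrict S) :=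
          (iB u).restrict.div_const _
        have g3 : Integrable (fun _ : Ω => (1 : ℝ)) (P.restrict S) := integrable_const _
        have g4 : Integrable (fun ω => 1 + A u ω / y k) (P.restrict S) := g3.add g1
        have g5 : Integrable (fun ω => 1 + A u ω / y k + B u ω / (y k) ^ 2) (P.restrict S) :=
          g4.add g2
        rw [integral_sub (iM u) g5, integral_add g4 g2, integral_add g3 g1, integral_div,
          integral_div]
        simp
      rw [f1, f1, hMS, integral_sub (iA t).restrict (iA s).restrict,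
        integral_sub (iB t).restrict (iB s).restrict]
      ring
    rw [e1]
    calc _ ≤ |∫ ω in S, (M k s ω - (1 + A s ω / y k + B s ω / (y k) ^ 2)) ∂P|
          + |∫ ω in S, (M k t ω - (1 + A t ω / y k + B t ω / (y k) ^ 2)) ∂P| := abs_sub _ _
      _ ≤ C s / (y k) ^ 3 * P.real S + C t / (y k) ^ 3 * P.real S :=
          add_le_add (hbound s hks) (hbound t hkt)
      _ = (C t + C s) * P.real S / (y k) ^ 3 := by ring
  refine ⟨martingale_of_setIntegral hA iA fun s t hst S hS => ?_,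
    martingale_of_setIntegral hB iB fun s t hst S hS => ?_⟩
  · have := (key s t hst S hS).1
    rw [integral_sub (iA t).restrict (iA s).restrict] at this
    exact sub_eq_zero.1 this
  · have := (key s t hst S hS).2
    rw [integral_sub (iB t).restrict (iB s).restrict] at this
    exact sub_eq_zero.1 this

/-- **the observable martingales give the martingales of the driving process** (up to a bounded
random time `T`) -/
theorem mart_of_observable [IsProbabilityMeasure P] {W : ℝ≥0 → Ω → ℝ} {T : Ω → ℝ≥0} {K : ℝ}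
    (hK : 1 ≤ K)
    (hW : ∀ t, StronglyMeasurable[F t] (fun ω => W (min t (T ω)) ω))
    (hT : ∀ t, StronglyMeasurable[F t] (fun ω => ((min t (T ω) : ℝ≥0) : ℝ)))
    (bW : ∀ t, ∀ᵐ ω ∂P, |W (min t (T ω)) ω| ≤ K) (bT : ∀ᵐ ω ∂P, (T ω : ℝ) ≤ K)
    {y : ℕ → ℝ} (hy : Tendsto y atTop atTop) {G Gd N : ℕ → ℝ≥0 → Ω → ℝ}
    (hG : ∀ k t, ∀ᵐ ω ∂P,
      |G k (min t (T ω)) ω - (y k + 2 * ((min t (T ω) : ℝ≥0) : ℝ) / y k)| ≤ K / (y k) ^ 2)
    (hGd : ∀ k t, ∀ᵐ ω ∂P,
      |Gd k (min t (T ω)) ω - (1 - 2 * ((min t (T ω) : ℝ≥0) : ℝ) / (y k) ^ 2)| ≤ K / (y k) ^ 3)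
    (hN0 : ∀ k t, ∀ᵐ ω ∂P, 0 ≤ N k (min t (T ω)) ω)
    (hN3 : ∀ k t, ∀ᵐ ω ∂P, (N k (min t (T ω)) ω) ^ 3
      = Gd k (min t (T ω)) ω / (G k (min t (T ω)) ω - W (min t (T ω)) ω))
    (hN : ∀ k, Martingale (fun t ω => N k (min t (T ω)) ω) F P) :
    Martingale (fun t ω => W (min t (T ω)) ω) F P ∧
      Martingale (fun t ω => (W (min t (T ω)) ω) ^ 2 - 6 * ((min t (T ω) : ℝ≥0) : ℝ)) F P := by
  have iW : ∀ t, Integrable (fun ω => W (min t (T ω)) ω) P := fun t =>
    Integrable.of_bound ((hW t).mono (F.le t)).aestronglyMeasurable K (bW t)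
  have iT : ∀ t, Integrable (fun ω => ((min t (T ω) : ℝ≥0) : ℝ)) P := fun t => by
    refine Integrable.of_bound ((hT t).mono (F.le t)).aestronglyMeasurable t
      (Eventually.of_forall fun ω => ?_)
    rw [Real.norm_of_nonneg (NNReal.coe_nonneg _)]
    exact_mod_cast min_le_left _ _
  have iW2 : ∀ t, Integrable (fun ω => (W (min t (T ω)) ω) ^ 2) P := fun t => by
    refine Integrable.of_bound (((hW t).pow 2).mono (F.le t)).aestronglyMeasurable (K ^ 2) ?_
    filter_upwards [bW t] with ω hω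
    rw [norm_pow]
    exact pow_le_pow_left₀ (norm_nonneg _) hω 2
  have h := mart_of_expansion (P := P) (F := F) (y := y)
    (A := fun t ω => W (min t (T ω)) ω / 3)
    (B := fun t ω => (2 / 9) * (W (min t (T ω)) ω) ^ 2 - (4 / 3) * ((min t (T ω) : ℝ≥0) : ℝ))
    (fun t => by simpa [div_eq_mul_inv] using (hW t).mul_const (3 : ℝ)⁻¹)
    (fun t => (((hW t).pow 2).const_mul _).sub ((hT t).const_mul _))
    (fun t => (iW t).div_const 3) (fun t => ((iW2 t).const_mul _).sub ((iT t).const_mul _))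
    (M := fun k t ω => (y k) ^ (1 / 3 : ℝ) * N k (min t (T ω)) ω) hy
    (fun k => (hN k).smul ((y k) ^ (1 / 3 : ℝ))) (C := fun _ => 100 * K ^ 3) (fun t => ?_)
  · constructor
    · have h1 := h.1.smul 3
      have e : (3 : ℝ) • (fun t ω => W (min t (T ω)) ω / 3) = fun t ω => W (min t (T ω)) ω := by
        funext t ω
        simp only [Pi.smul_apply, smul_eq_mul]
        ring
      rwa [e] at h1
    · have h1 := h.2.smul (9 / 2)
      have e : (9 / 2 : ℝ) • (fun t ω => (2 / 9) * (W (min t (T ω)) ω) ^ 2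
          - (4 / 3) * ((min t (T ω) : ℝ≥0) : ℝ))
          = fun t ω => (W (min t (T ω)) ω) ^ 2 - 6 * ((min t (T ω) : ℝ≥0) : ℝ) := by
        funext t ω
        simp only [Pi.smul_apply, smul_eq_mul]
        ring
      rwa [e] at h1
  · filter_upwards [hy.eventually_ge_atTop (100 * K ^ 3)] with k hk
    filter_upwards [bW t, bT, hG k t, hGd k t, hN0 k t, hN3 k t] with ω h1 h2 h3 h4 h5 h6
    have hK1 : 1 ≤ K ^ 3 := one_le_pow₀ hK
    have hy0 : 0 < y k := by linarith
    have hu : ((min t (T ω) : ℝ≥0) : ℝ) ≤ K :=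
      le_trans (by exact_mod_cast min_le_right _ _) h2
    have hroot : ((y k) ^ (1 / 3 : ℝ)) ^ 3 = y k := by
      rw [← Real.rpow_natCast, ← Real.rpow_mul hy0.le]
      norm_num
    refine expand hK hk h1 (NNReal.coe_nonneg _) hu h3 h4
      (mul_nonneg (Real.rpow_nonneg hy0.le _) h5) ?_
    rw [mul_pow, hroot, h6, mul_div_assoc]

/-- **identification of the driving process**: for every `n` the assumptions on the observables
are needed only for large `k` -/
theorem brownian_of_observable [IsProbabilityMeasure P] {W : ℝ≥0 → Ω → ℝ} {T : ℕ → Ω → ℝ≥0}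
    {K : ℕ → ℝ} (hK : ∀ n, 1 ≤ K n)
    (hWa : ∀ t, StronglyMeasurable[F t] (W t))
    (hW : ∀ n t, StronglyMeasurable[F t] (fun ω => W (min t (T n ω)) ω))
    (hT : ∀ n t, StronglyMeasurable[F t] (fun ω => ((min t (T n ω) : ℝ≥0) : ℝ)))
    (mT : ∀ n, AEMeasurable (T n) P)
    (infty : ∀ᵐ ω ∂P, ∀ t : ℝ≥0, ∀ᶠ n in atTop, t ≤ T n ω)
    (cont : ∀ᵐ ω ∂P, Continuous fun u => W u ω) (zero : ∀ᵐ ω ∂P, W 0 ω = 0)
    (bW : ∀ n t, ∀ᵐ ω ∂P, |W (min t (T n ω)) ω| ≤ K n) (bT : ∀ n, ∀ᵐ ω ∂P, (T n ω : ℝ) ≤ K n)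
    {y : ℕ → ℝ} (hy : Tendsto y atTop atTop) {G Gd N : ℕ → ℝ≥0 → Ω → ℝ} {k0 : ℕ → ℕ}
    (hG : ∀ n k t, k0 n ≤ k → ∀ᵐ ω ∂P,
      |G k (min t (T n ω)) ω - (y k + 2 * ((min t (T n ω) : ℝ≥0) : ℝ) / y k)| ≤ K n / (y k) ^ 2)
    (hGd : ∀ n k t, k0 n ≤ k → ∀ᵐ ω ∂P,
      |Gd k (min t (T n ω)) ω - (1 - 2 * ((min t (T n ω) : ℝ≥0) : ℝ) / (y k) ^ 2)|
        ≤ K n / (y k) ^ 3)
    (hN0 : ∀ n k t, k0 n ≤ k → ∀ᵐ ω ∂P, 0 ≤ N k (min t (T n ω)) ω)
    (hN3 : ∀ n k t, k0 n ≤ k → ∀ᵐ ω ∂P, (N k (min t (T n ω)) ω) ^ 3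
      = Gd k (min t (T n ω)) ω / (G k (min t (T n ω)) ω - W (min t (T n ω)) ω))
    (hN : ∀ n k, k0 n ≤ k → Martingale (fun t ω => N k (min t (T n ω)) ω) F P) :
    Bm (fun t ω => (√6)⁻¹ * W t ω) F P ∧ IsBrownianReal (fun t ω => (√6)⁻¹ * W t ω) P := by
  have key := fun n => mart_of_observable (P := P) (F := F) (hK n) (hW n) (hT n) (bW n) (bT n)
    (y := fun k => y (k + k0 n)) (hy.comp (tendsto_add_atTop_nat (k0 n)))
    (G := fun k => G (k + k0 n)) (Gd := fun k => Gd (k + k0 n)) (N := fun k => N (k + k0 n))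
    (fun k t => hG n _ t (Nat.le_add_left _ _)) (fun k t => hGd n _ t (Nat.le_add_left _ _))
    (fun k t => hN0 n _ t (Nat.le_add_left _ _)) (fun k t => hN3 n _ t (Nat.le_add_left _ _))
    (fun k => hN n _ (Nat.le_add_left _ _))
  have h := isBrownianReal_of_scaled (c := 6) (by norm_num) hWa (fun n => (key n).1)
    (fun n => (key n).2) infty mT cont zero
  exact ⟨h, h.isBrownianReal⟩

end H37.Levy
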