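import Pool.Agent.H37.Levy.Doob

/-!
# Supremum of a continuous martingale in L^2
-/

open MeasureTheory ProbabilityTheory Filter
open scoped ENNReal NNReal Topology

namespace H37.Levy

/-- the supremum of `|f|` over `[0, r]` -/
noncomputable def sup0 (f : ℝ≥0 → ℝ) (r : ℝ≥0) : ℝ := sSup ((fun u => |f u|) '' Set.Icc 0 r)

lemma bddAbove_image {f : ℝ≥0 → ℝ} (hf : Continuous f) (r : ℝ≥0) :
    BddAbove ((fun u => |f u|) '' Set.Icc 0 r) :=
  (isCompact_Icc.image (continuous_abs.comp hf)).bddAbove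

lemma le_sup0 {f : ℝ≥0 → ℝ} (hf : Continuous f) {r u : ℝ≥0} (hu : u ≤ r) :
    |f u| ≤ sup0 f r :=
  le_csSup (bddAbove_image hf r) ⟨u, ⟨zero_le, hu⟩, rfl⟩

lemma sup0_nonneg (f : ℝ≥0 → ℝ) (r : ℝ≥0) : 0 ≤ sup0 f r := by
  refine Real.sSup_nonneg ?_
  rintro x ⟨u, _, rfl⟩
  exact abs_nonneg _

lemma sup0_le {f : ℝ≥0 → ℝ} {r : ℝ≥0} {c : ℝ} (h : ∀ u ≤ r, |f u| ≤ c) : sup0 f r ≤ c := by
  refine csSup_le ⟨|f 0|, 0, ⟨le_rfl, zero_le⟩, rfl⟩ ?_
  rintro x ⟨u, hu, rfl⟩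
  exact h u hu.2

lemma exists_eq_sup0 {f : ℝ≥0 → ℝ} (hf : Continuous f) (r : ℝ≥0) :
    ∃ u ≤ r, sup0 f r = |f u| := by
  obtain ⟨u, hu, h⟩ := (isCompact_Icc (a := (0 : ℝ≥0)) (b := r)).exists_sSup_image_eq
    ⟨0, le_rfl, zero_le⟩ (continuous_abs.comp hf).continuousOn
  exact ⟨u, hu.2, h⟩

lemma rmax_le_sup0 {f : ℝ≥0 → ℝ} (hf : Continuous f) (r : ℝ≥0) (N : ℕ) :
    rmax (fun k => f (r * (k / N))) N ≤ sup0 f r := by
  refine rmax_le fun k hk => le_sup0 hf ?_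
  rcases Nat.eq_zero_or_pos N with rfl | hN
  · simp
  · have h1 : ((k : ℝ≥0) / N) ≤ 1 := by
      rw [div_le_one (by exact_mod_cast hN)]
      exact_mod_cast hk
    calc r * (k / N) ≤ r * 1 := by gcongr
      _ = r := mul_one r

lemma tendsto_floor (r u : ℝ≥0) (hu : u ≤ r) :
    Tendsto (fun N : ℕ => r * ((⌊(u / r : ℝ≥0) * N⌋₊ : ℝ≥0) / N)) atTop (𝓝 u) := by
  have h1 : Tendsto (fun N : ℕ => (⌊((u / r : ℝ≥0) : ℝ) * (N : ℝ)⌋₊ : ℝ) / (N : ℝ)) atTop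
      (𝓝 ((u / r : ℝ≥0) : ℝ)) :=
    (tendsto_nat_floor_mul_div_atTop (R := ℝ) (NNReal.coe_nonneg _)).comp
      tendsto_natCast_atTop_atTop
  have h2 : Tendsto (fun N : ℕ => ((⌊(u / r : ℝ≥0) * N⌋₊ : ℝ≥0) / N)) atTop (𝓝 (u / r)) := by
    rw [← NNReal.tendsto_coe]
    exact h1
  have h3 := h2.const_mul r
  rcases eq_or_ne r 0 with rfl | hr
  · have : u = 0 := le_antisymm hu zero_le
    subst this
    simp
  · rwa [mul_div_cancel₀ u hr] at h3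

lemma tendsto_rmax {f : ℝ≥0 → ℝ} (hf : Continuous f) (r : ℝ≥0) :
    Tendsto (fun N : ℕ => rmax (fun k => f (r * (k / N))) N) atTop (𝓝 (sup0 f r)) := by
  obtain ⟨u, hu, h⟩ := exists_eq_sup0 hf r
  have h1 : Tendsto (fun N : ℕ => |f (r * ((⌊(u / r : ℝ≥0) * N⌋₊ : ℝ≥0) / N))|) atTop
      (𝓝 (sup0 f r)) := by
    rw [h]
    exact ((continuous_abs.comp hf).tendsto u).comp (tendsto_floor r u hu)
  refine tendsto_of_tendsto_of_tendsto_of_le_of_le h1 tendsto_const_nhds (fun N => ?_)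
    (fun N => rmax_le_sup0 hf r N)
  refine le_rmax (fun k => f (r * (k / N))) (j := ⌊(u / r : ℝ≥0) * N⌋₊) ?_
  refine Nat.floor_le_of_le ?_
  have : u / r ≤ 1 := by
    rcases eq_or_ne r 0 with rfl | hr
    · simp
    · rw [div_le_one (pos_iff_ne_zero.2 hr)]; exact hu
  calc (u / r) * (N : ℝ≥0) ≤ 1 * N := by gcongr
    _ = N := one_mul _

variable {Ω : Type*} {m0 : MeasurableSpace Ω} {P : Measure Ω}

/-- Fatou's lemma in L^2 -/
lemma fatou_sq {f : ℕ → Ω → ℝ} {g : Ω → ℝ} {C : ℝ} (hf : ∀ n, MemLp (f n) 2 P)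
    (hC : ∀ n, ∫ ω, (f n ω) ^ 2 ∂P ≤ C)
    (hlim : ∀ᵐ ω ∂P, Tendsto (fun n => f n ω) atTop (𝓝 (g ω))) :
    MemLp g 2 P ∧ ∫ ω, (g ω) ^ 2 ∂P ≤ C := by
  have hC0 : 0 ≤ C := (integral_nonneg fun ω => sq_nonneg _).trans (hC 0)
  have hgm : AEStronglyMeasurable g P :=
    aestronglyMeasurable_of_tendsto_ae _ (fun n => (hf n).1) hlim
  have h1 : ∫⁻ ω, ENNReal.ofReal ((g ω) ^ 2) ∂P ≤ ENNReal.ofReal C := by
    calc ∫⁻ ω, ENNReal.ofReal ((g ω) ^ 2) ∂P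
        = ∫⁻ ω, liminf (fun n => ENNReal.ofReal ((f n ω) ^ 2)) atTop ∂P := by
          refine lintegral_congr_ae ?_
          filter_upwards [hlim] with ω hω
          have : Tendsto (fun n => ENNReal.ofReal ((f n ω) ^ 2)) atTop
              (𝓝 (ENNReal.ofReal ((g ω) ^ 2))) := ENNReal.tendsto_ofReal (hω.pow 2)
          exact this.liminf_eq.symm
      _ ≤ liminf (fun n => ∫⁻ ω, ENNReal.ofReal ((f n ω) ^ 2) ∂P) atTop :=
          lintegral_liminf_le' fun n => ((hf n).1.aemeasurable.pow_const 2).ennreal_ofReal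
      _ ≤ ENNReal.ofReal C := by
          refine (liminf_le_liminf (Eventually.of_forall fun n => ?_)).trans
            (le_of_eq (liminf_const (ENNReal.ofReal C)))
          show ∫⁻ ω, ENNReal.ofReal ((f n ω) ^ 2) ∂P ≤ ENNReal.ofReal C
          rw [← ofReal_integral_eq_lintegral_ofReal (hf n).integrable_sq
            (Eventually.of_forall fun ω => sq_nonneg _)]
          exact ENNReal.ofReal_le_ofReal (hC n)
  have hgi : Integrable (fun ω => (g ω) ^ 2) P := by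
    refine ⟨hgm.pow 2, ?_⟩
    rw [hasFiniteIntegral_iff_ofReal (Eventually.of_forall fun ω => sq_nonneg _)]
    exact h1.trans_lt ENNReal.ofReal_lt_top
  refine ⟨(memLp_two_iff_integrable_sq hgm).2 hgi, ?_⟩
  rw [integral_eq_lintegral_of_nonneg_ae (Eventually.of_forall fun ω => sq_nonneg _) (hgm.pow 2)]
  exact ENNReal.toReal_le_of_le_ofReal hC0 h1

/-- **Doob's L^2 inequality** for continuous martingales: the supremum over `[0, r]`. -/
theorem sup0_L2 [IsFiniteMeasure P] {F : Filtration ℝ≥0 m0} {W : ℝ≥0 → Ω → ℝ}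
    (hW : Martingale W F P) (h2 : ∀ t, MemLp (W t) 2 P)
    (hc : ∀ᵐ ω ∂P, Continuous fun u => W u ω) (r : ℝ≥0) :
    MemLp (fun ω => sup0 (fun u => W u ω) r) 2 P ∧
      ∫ ω, (sup0 (fun u => W u ω) r) ^ 2 ∂P ≤ 4 * ∫ ω, (W r ω) ^ 2 ∂P := by
  have hmono : ∀ N : ℕ, Monotone fun k : ℕ => r * ((k : ℝ≥0) / N) := by
    intro N a b hab
    have : (a : ℝ≥0) ≤ b := by exact_mod_cast hab
    dsimp only
    gcongr
  refine fatou_sq (f := fun N ω => rmax (fun k => W (r * (k / (N + 1 : ℕ))) ω) (N + 1))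
    (fun N => rmax_memLp h2 _ _) (fun N => ?_) ?_
  · have h := doob_L2 hW h2 (hmono (N + 1)) (N + 1)
    have h1 : r * (((N + 1 : ℕ) : ℝ≥0) / ((N + 1 : ℕ) : ℝ≥0)) = r := by
      rw [div_self (by exact_mod_cast Nat.succ_ne_zero N), mul_one]
    rw [h1] at h
    exact h
  · filter_upwards [hc] with ω hω
    exact (tendsto_rmax hω r).comp (tendsto_add_atTop_nat 1)

end H37.Levy
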