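import Pool.Agent.H37.Levy.Local

/-!
# Martingale property from test functions

`X : ℝ≥0 → Ω → S` any process with values in a metrizable second countable space, `F` its natural
filtration. To check that `M` is a martingale for `F` it suffices to test the increments against
bounded continuous functions of finitely many `X_i`, `i ≤ s`.
-/

open MeasureTheory ProbabilityTheory Filter
open scoped ENNReal NNReal Topology

namespace H37.Levy

variable {Ω : Type*} {m0 : MeasurableSpace Ω} {P : Measure Ω}

/-- the finite measure with density `D^+` -/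
noncomputable def posM (P : Measure Ω) (D : Ω → ℝ) : Measure Ω :=
  P.withDensity fun ω => ((Real.toNNReal (D ω) : ℝ≥0) : ℝ≥0∞)

lemma posM_finite {D : Ω → ℝ} (hD : Integrable D P) : IsFiniteMeasure (posM P D) :=
  isFiniteMeasure_withDensity_ofReal hD.2

lemma integral_posM {D : Ω → ℝ} (hDm : Measurable D) (g : Ω → ℝ) :
    ∫ ω, g ω ∂(posM P D) = ∫ ω, g ω * max (D ω) 0 ∂P := by
  unfold posM
  rw [integral_withDensity_eq_integral_smul hDm.real_toNNReal]
  refine integral_congr_ae (Eventually.of_forall fun ω => ?_)
  simp only [NNReal.smul_def, Real.coe_toNNReal', smul_eq_mul]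
  ring

lemma integrable_max {D : Ω → ℝ} (hD : Integrable D P) :
    Integrable (fun ω => max (D ω) 0) P := hD.pos_part

/-- if `∫ f(Z) D = 0` for all bounded continuous `f` then `∫_{Z ∈ B} D = 0` for all Borel `B` -/
lemma setIntegral_eq_zero_of_test {S : Type*} [TopologicalSpace S] [MeasurableSpace S]
    [HasOuterApproxClosed S] [BorelSpace S] {D : Ω → ℝ} (hDm : Measurable D)
    (hD : Integrable D P) {Z : Ω → S} (hZ : Measurable Z)
    (h : ∀ f : BoundedContinuousFunction S ℝ, ∫ ω, f (Z ω) * D ω ∂P = 0)
    {B : Set S} (hB : MeasurableSet B) : ∫ ω in Z ⁻¹' B, D ω ∂P = 0 := by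
  have i1 := posM_finite hD
  have i2 := posM_finite hD.neg
  have hneg : Measurable fun ω => -D ω := hDm.neg
  have i3 : IsFiniteMeasure (posM P fun ω => -D ω) := i2
  have hsplit : ∀ ω, max (D ω) 0 - max (-D ω) 0 = D ω := fun ω => by
    rcases le_total 0 (D ω) with h0 | h0
    · rw [max_eq_left h0, max_eq_right (neg_nonpos.2 h0)]; ring
    · rw [max_eq_right h0, max_eq_left (neg_nonneg.2 h0)]; ring
  have hmeas : (posM P D).map Z = (posM P fun ω => -D ω).map Z := by
    refine ext_of_forall_integral_eq_of_IsFiniteMeasure fun f => ?_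
    rw [integral_map hZ.aemeasurable f.continuous.measurable.aestronglyMeasurable,
      integral_map hZ.aemeasurable f.continuous.measurable.aestronglyMeasurable,
      integral_posM hDm, integral_posM hneg]
    have hf := h f
    have j1 : Integrable (fun ω => f (Z ω) * max (D ω) 0) P :=
      Integrable.bdd_mul (c := ‖f‖) (integrable_max hD)
        (f.continuous.measurable.comp hZ).aestronglyMeasurable
        (Eventually.of_forall fun ω => f.norm_coe_le_norm _)
    have j2 : Integrable (fun ω => f (Z ω) * max (-D ω) 0) P :=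
      Integrable.bdd_mul (c := ‖f‖) (integrable_max hD.neg)
        (f.continuous.measurable.comp hZ).aestronglyMeasurable
        (Eventually.of_forall fun ω => f.norm_coe_le_norm _)
    have h2 : ∫ ω, f (Z ω) * D ω ∂P
        = ∫ ω, f (Z ω) * max (D ω) 0 ∂P - ∫ ω, f (Z ω) * max (-D ω) 0 ∂P := by
      rw [← integral_sub j1 j2]
      refine integral_congr_ae (Eventually.of_forall fun ω => ?_)
      show f (Z ω) * D ω = f (Z ω) * max (D ω) 0 - f (Z ω) * max (-D ω) 0
      rw [← mul_sub, hsplit]
    linarith
  have hA : MeasurableSet (Z ⁻¹' B) := hZ hB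
  have h3 : ∫ ω in Z ⁻¹' B, max (D ω) 0 ∂P = ∫ ω in Z ⁻¹' B, max (-D ω) 0 ∂P := by
    have e : ∀ E : Ω → ℝ, Measurable E → Integrable E P →
        ∫ ω in Z ⁻¹' B, max (E ω) 0 ∂P = (((posM P E).map Z) B).toReal := by
      intro E hE hEi
      rw [Measure.map_apply hZ hB]
      have h4 := integral_posM (P := P) hE ((Z ⁻¹' B).indicator fun _ => (1 : ℝ))
      rw [integral_indicator hA] at h4
      simp only [integral_const, measureReal_restrict_apply MeasurableSet.univ, Set.univ_inter,
        smul_eq_mul, mul_one] at h4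
      rw [← Measure.real, h4, ← integral_indicator hA]
      refine integral_congr_ae (Eventually.of_forall fun ω => ?_)
      by_cases hω : ω ∈ Z ⁻¹' B
      · simp only [Set.indicator_of_mem hω, one_mul]
      · simp only [Set.indicator_of_notMem hω, zero_mul]
    rw [e D hDm hD, e _ hneg hD.neg, hmeas]
  have h5 : ∫ ω in Z ⁻¹' B, D ω ∂P
      = ∫ ω in Z ⁻¹' B, max (D ω) 0 ∂P - ∫ ω in Z ⁻¹' B, max (-D ω) 0 ∂P := by
    have j3 : Integrable (fun ω => max (D ω) 0) (P.restrict (Z ⁻¹' B)) :=
      (integrable_max hD).restrict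
    have j4 : Integrable (fun ω => max (-D ω) 0) (P.restrict (Z ⁻¹' B)) :=
      (integrable_max hD.neg).restrict
    rw [← integral_sub j3 j4]
    refine integral_congr_ae (Eventually.of_forall fun ω => ?_)
    exact (hsplit ω).symm
  rw [h5, h3, sub_self]

/-- **martingales from test functions**: `F` is the natural filtration of `X` -/
theorem martingale_natural_of_test [IsFiniteMeasure P] {S : Type*} [TopologicalSpace S]
    [TopologicalSpace.MetrizableSpace S] [SecondCountableTopology S] [MeasurableSpace S]
    [BorelSpace S] {X : ℝ≥0 → Ω → S} (hX : ∀ t, StronglyMeasurable (X t)) {M : ℝ≥0 → Ω → ℝ}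
    (hM : ∀ t, StronglyMeasurable[Filtration.natural X hX t] (M t))
    (hi : ∀ t, Integrable (M t) P)
    (h : ∀ s t, s ≤ t → ∀ I : Finset ℝ≥0, (∀ i ∈ I, i ≤ s) →
      ∀ f : BoundedContinuousFunction (I → S) ℝ,
        ∫ ω, f (fun i => X i ω) * (M t ω - M s ω) ∂P = 0) :
    Martingale M (Filtration.natural X hX) P := by
  let _ : MetricSpace S := TopologicalSpace.metrizableSpaceMetric S
  refine martingale_of_setIntegral hM hi fun s t hst A hA => ?_
  have hD : Integrable (fun ω => M t ω - M s ω) P := (hi t).sub (hi s)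
  have hDm : Measurable fun ω => M t ω - M s ω :=
    ((hM t).mono ((Filtration.natural X hX).le t)).measurable.sub
      ((hM s).mono ((Filtration.natural X hX).le s)).measurable
  suffices hs : ∫ ω in A, (M t ω - M s ω) ∂P = 0 by
    rw [integral_sub (hi t).restrict (hi s).restrict] at hs
    exact sub_eq_zero.1 hs
  have hgen : (Filtration.natural X hX s : MeasurableSpace Ω) = MeasurableSpace.generateFrom
      (piiUnionInter (fun j => {B | MeasurableSet[MeasurableSpace.comap (X j) inferInstance] B})
        (Set.Iic s)) :=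
    (generateFrom_piiUnionInter_measurableSet
      (fun j => MeasurableSpace.comap (X j) inferInstance) (Set.Iic s)).symm
  have hpi : IsPiSystem
      (piiUnionInter (fun j => {B | MeasurableSet[MeasurableSpace.comap (X j) inferInstance] B})
        (Set.Iic s)) :=
    isPiSystem_piiUnionInter _ (fun j => @MeasurableSpace.isPiSystem_measurableSet _
      (MeasurableSpace.comap (X j) inferInstance)) _
  have hle := (Filtration.natural X hX).le s
  have htot : ∫ ω, (M t ω - M s ω) ∂P = 0 := by
    have := h s t hst ∅ (by simp) (BoundedContinuousFunction.const _ 1)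
    simpa using this
  refine MeasurableSpace.induction_on_inter
    (C := fun A _ => ∫ ω in A, (M t ω - M s ω) ∂P = 0) hgen hpi ?_ ?_ ?_ ?_ A hA
  · simp
  · rintro B ⟨I, hI, g, hg, rfl⟩
    have hg' : ∀ j : I, ∃ C : Set S, MeasurableSet C ∧ (X j) ⁻¹' C = g j := fun j => hg j j.2
    choose C hC hCg using hg'
    have hset : (⋂ x ∈ I, g x) = (fun ω (i : I) => X i ω) ⁻¹' (Set.univ.pi C) := by
      ext ω
      simp only [Set.mem_iInter, Set.mem_preimage, Set.mem_pi, Set.mem_univ, true_implies]
      constructor
      · intro h1 i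
        have := h1 i i.2
        rw [← hCg i] at this
        exact this
      · intro h1 x hx
        have := h1 ⟨x, hx⟩
        rw [← hCg ⟨x, hx⟩]
        exact this
    show ∫ ω in ⋂ x ∈ I, g x, (M t ω - M s ω) ∂P = 0
    rw [hset]
    refine setIntegral_eq_zero_of_test (Z := fun ω (i : I) => X i ω) hDm hD
      (measurable_pi_lambda _ fun i => (hX i).measurable)
      (fun f => ?_) (MeasurableSet.univ_pi hC)
    exact h s t hst I (fun i hi => hI hi) f
  · intro B hB h1
    have h2 := integral_add_compl (hle B hB) hD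
    show ∫ ω in Bᶜ, (M t ω - M s ω) ∂P = 0
    have h3 : ∫ ω in B, (M t ω - M s ω) ∂P = 0 := h1
    linarith
  · intro f hdisj hfm h1
    show ∫ ω in ⋃ i, f i, (M t ω - M s ω) ∂P = 0
    rw [integral_iUnion (fun i => hle _ (hfm i)) hdisj hD.integrableOn]
    have h2 : ∀ i, ∫ ω in f i, (M t ω - M s ω) ∂P = 0 := h1
    simp [h2]

end H37.Levy
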